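import Mathlib

open Module MvPolynomial Matrix

namespace Pool.Agent.Helper783.JK

/-- The algebraic type of a pencil of two skew forms: the Kronecker blocks are
indexed by the finite set `κ`, the block `c` having size `(2 k c + 1) × (2 k c + 1)`;
the Jordan blocks are indexed by the finite set `β`, the block `b` having size
`(2 m b) × (2 m b)` with `m b ≥ 1`, and it carries the eigenvalue labelled `ev b`;
`E` is the set of distinct eigenvalues, and each of them occurs in some block. -/
structure JKType where
  κ : Type
  E : Type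
  β : Type
  fκ : Fintype κ
  fE : Fintype E
  fβ : Fintype β
  k : κ → ℕ
  ev : β → E
  m : β → ℕ
  ev_surj : Function.Surjective ev
  m_pos : ∀ b, 0 < m b

attribute [instance] JKType.fκ JKType.fE JKType.fβ

/-- half of the index set of the canonical basis -/
abbrev Row (T : JKType) : Type := (Σ c : T.κ, Fin (T.k c)) ⊕ (Σ b : T.β, Fin (T.m b))

/-- the other half of the index set of the canonical basis -/
abbrev Col (T : JKType) : Type := (Σ c : T.κ, Fin (T.k c + 1)) ⊕ (Σ b : T.β, Fin (T.m b))

open Classical in
/-- The canonical matrix of the first form, between the two halves. Kronecker block: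
`(0 | I)`. Jordan block: the Jordan cell with eigenvalue `z`, or `I` for the
eigenvalue infinity (`none`). -/
noncomputable def RA (T : JKType) (t : T.E → Option ℂ) : Row T → Col T → ℂ
  | .inl r, .inl c => if r.1 = c.1 ∧ (c.2 : ℕ) = (r.2 : ℕ) + 1 then 1 else 0
  | .inr r, .inr c =>
      if r.1 = c.1 then
        (match t (T.ev r.1) with
          | some z => if (r.2 : ℕ) = (c.2 : ℕ) then z else if (r.2 : ℕ) = (c.2 : ℕ) + 1 then 1 else 0
          | none => if (r.2 : ℕ) = (c.2 : ℕ) then 1 else 0)
      else 0
  | _, _ => 0

open Classical in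
/-- The canonical matrix of the second form, between the two halves. Kronecker block:
`(I | 0)`. Jordan block: `I` for a finite eigenvalue, the nilpotent Jordan cell for the
eigenvalue infinity. -/
noncomputable def RB (T : JKType) (t : T.E → Option ℂ) : Row T → Col T → ℂ
  | .inl r, .inl c => if r.1 = c.1 ∧ (c.2 : ℕ) = (r.2 : ℕ) then 1 else 0
  | .inr r, .inr c =>
      if r.1 = c.1 then
        (match t (T.ev r.1) with
          | some _ => if (r.2 : ℕ) = (c.2 : ℕ) then 1 else 0
          | none => if (r.2 : ℕ) = (c.2 : ℕ) + 1 then 1 else 0)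
      else 0
  | _, _ => 0

/-- the skew matrix with off-diagonal blocks `R` and `-R^T` -/
def canForm {T : JKType} (R : Row T → Col T → ℂ) : Row T ⊕ Col T → Row T ⊕ Col T → ℂ
  | .inl r, .inr c => R r c
  | .inr c, .inl r => - R r c
  | _, _ => 0

/-- The pair of skew forms `A, B` on `V` has algebraic type `T`: in some basis both are
simultaneously in the canonical block-diagonal form of type `T`, with pairwise distinct
eigenvalues `t e` in `ℂ ∪ {∞}`. -/
def HasType {V : Type} [AddCommGroup V] [Module ℂ V] (A B : V → V → ℂ) (T : JKType) : Prop :=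
  ∃ t : T.E → Option ℂ, Function.Injective t ∧ ∃ b : Basis (Row T ⊕ Col T) ℂ V,
    ∀ i j, A (b i) (b j) = canForm (RA T t) i j ∧ B (b i) (b j) = canForm (RB T t) i j

/-- the form `(ξ, η) ↦ x([ξ, η])` -/
def lieForm {g : Type} [LieRing g] [LieAlgebra ℂ g] (x : Dual ℂ g) (ξ η : g) : ℂ := x ⁅ξ, η⁆

/-- `T` is the Jordan-Kronecker invariant of the finite-dimensional Lie algebra `g`: the
pencil spanned by the forms of `x` and `a` has type `T` for all `(x, a)` in a nonempty
Zariski open set (here: the complement of the zero set of a nonzero polynomial in the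
coordinates of `x` and `a`). -/
def IsJKInvariant (g : Type) [LieRing g] [LieAlgebra ℂ g] (T : JKType) : Prop :=
  ∃ (n : ℕ) (b : Basis (Fin n) ℂ g) (F : MvPolynomial (Fin n ⊕ Fin n) ℂ), F ≠ 0 ∧
    ∀ x a : Dual ℂ g, eval (Sum.elim (fun i => x (b i)) (fun i => a (b i))) F ≠ 0 →
      HasType (lieForm x) (lieForm a) T

/-- `T` is realised by some finite-dimensional complex Lie algebra -/
def Realizable (T : JKType) : Prop :=
  ∃ (g : Type) (_ : LieRing g) (_ : LieAlgebra ℂ g), IsJKInvariant g T

/-- The largest Jordan block with eigenvalue `e` is not unique. -/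
def Bad (T : JKType) (e : T.E) : Prop :=
  ∃ b b' : T.β, b ≠ b' ∧ T.ev b = e ∧ T.ev b' = e ∧ T.m b = T.m b' ∧
    ∀ b'', T.ev b'' = e → T.m b'' ≤ T.m b

/-- the Jordan blocks with eigenvalue `e` and those with eigenvalue `e'` have the same sizes -/
def SamePart (T : JKType) (e e' : T.E) : Prop :=
  ∀ n, Nat.card {b : T.β // T.ev b = e ∧ T.m b = n} = Nat.card {b : T.β // T.ev b = e' ∧ T.m b = n}

end Pool.Agent.Helper783.JK
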