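import Pool.Agent.Helper783.JK.Core

open Module MvPolynomial Matrix

namespace Pool.Agent.Helper783.JK

/-- a property that holds on a nonempty Zariski open set of pairs of vectors -/
def Gen (ι : Type) (P : (ι → ℂ) → (ι → ℂ) → Prop) : Prop :=
  ∃ G : MvPolynomial (ι ⊕ ι) ℂ, G ≠ 0 ∧ ∀ x a, eval (Sum.elim x a) G ≠ 0 → P x a

/-- the rectangular pencil of an action `φ` of `υ → ℂ` on `ι → ℂ` has type `T`, with
eigenvalues `x(ℓ e) / a(ℓ e)` -/
def RectType (T : JKType) {υ ι : Type} [Fintype υ] [Fintype ι]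
    (φ : (υ → ℂ) →ₗ[ℂ] Module.End ℂ (ι → ℂ)) (ℓ : T.E → ι → ℂ) (x a : ι → ℂ) : Prop :=
  (∀ e, a ⬝ᵥ ℓ e ≠ 0) ∧
  ∃ (p : Basis (Row T) ℂ (υ → ℂ)) (q : Basis (Col T) ℂ (ι → ℂ)), ∀ r c,
    x ⬝ᵥ (φ (p r) (q c)) = RA T (fun e => some ((x ⬝ᵥ ℓ e) / (a ⬝ᵥ ℓ e))) r c ∧
    a ⬝ᵥ (φ (p r) (q c)) = RB T (fun e => some ((x ⬝ᵥ ℓ e) / (a ⬝ᵥ ℓ e))) r c

/-- `T` is realised by a semidirect product of two abelian algebras, with eigenvalue
vectors `ℓ e` that are pairwise linearly independent -/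
def RectReal (T : JKType) : Prop :=
  ∃ (υ ι : Type) (_ : Fintype υ) (_ : Fintype ι)
    (φ : (υ → ℂ) →ₗ[ℂ] Module.End ℂ (ι → ℂ)) (ℓ : T.E → ι → ℂ),
    (∀ u u', φ u * φ u' = φ u' * φ u) ∧
    (∀ e e', e ≠ e' → ∃ i j, ℓ e i * ℓ e' j ≠ ℓ e j * ℓ e' i) ∧
    Gen ι (fun x a => RectType T φ ℓ x a)

/-- the Hankel form of a sequence `h` -/
def HF (m : ℕ) (h : ℕ → ℂ) (u v : Fin m → ℂ) : ℂ :=
  ∑ i : Fin m, ∑ j : Fin m, h (i + j + 1) * u i * v j

/-- the part of `T` over `i : I`, for maps of the sets of Kronecker blocks and of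
eigenvalues to `I` -/
noncomputable def restr (T : JKType) {I : Type} (f : T.κ → I) (g : T.E → I) (i : I) : JKType where
  κ := {c : T.κ // f c = i}
  E := {e : T.E // g e = i}
  β := {b : T.β // g (T.ev b) = i}
  fκ := Fintype.ofFinite _
  fE := Fintype.ofFinite _
  fβ := Fintype.ofFinite _
  k c := T.k c.1
  ev b := ⟨T.ev b.1, b.2⟩
  m b := T.m b.1
  ev_surj := by
    rintro ⟨e, he⟩
    obtain ⟨b, rfl⟩ := T.ev_surj e
    exact ⟨⟨b, he⟩, rfl⟩
  m_pos b := T.m_pos b.1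

/-- the sequence attached to the block `b` in the Hankel family -/
def hs {β ζ : Type} [Fintype ζ] (m : β → ℕ) (w : β → ζ → ℂ)
    (x : (Σ b, Fin (m b)) ⊕ ζ → ℂ) (b : β) (n : ℕ) : ℂ :=
  if h : n < m b then x (.inl ⟨b, ⟨n, h⟩⟩) else if n = m b then ∑ s, x (.inr s) * w b s else 0

open Classical in
/-- the vector supported in the block `b` -/
noncomputable def emb {β : Type} {m : β → ℕ} (b : β) (v : Fin (m b) → ℂ) :
    (Σ b, Fin (m b)) → ℂ :=
  fun s => if h : s.1 = b then v (h ▸ s.2) else 0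

lemma emb_self {β : Type} {m : β → ℕ} (b : β) (v : Fin (m b) → ℂ) (i : Fin (m b)) :
    emb b v ⟨b, i⟩ = v i := by
  simp [emb]

lemma emb_ne {β : Type} {m : β → ℕ} (b b' : β) (v : Fin (m b) → ℂ) (i : Fin (m b'))
    (h : b' ≠ b) : emb b v ⟨b', i⟩ = 0 := by
  simp [emb, h]

lemma HF_zero_left (m : ℕ) (h : ℕ → ℂ) (v : Fin m → ℂ) : HF m h (fun _ => 0) v = 0 := by
  simp [HF]

lemma HF_zero_right (m : ℕ) (h : ℕ → ℂ) (u : Fin m → ℂ) : HF m h u (fun _ => 0) = 0 := by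
  simp [HF]

/-- pairing a vector supported in the block `b` with any vector -/
lemma sum_HF_emb {β : Type} [Fintype β] {m : β → ℕ} (h : β → ℕ → ℂ) (b : β)
    (u : Fin (m b) → ℂ) (v : ∀ b, Fin (m b) → ℂ) :
    ∑ b', HF (m b') (h b') (fun i => emb b u ⟨b', i⟩) (v b') = HF (m b) (h b) u (v b) := by
  rw [Finset.sum_eq_single b]
  · congr 1; funext i; exact emb_self b u i
  · intro b' _ hb'
    have : (fun i => emb b u ⟨b', i⟩) = fun _ => (0:ℂ) := by
      funext i; exact emb_ne b b' u i hb'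
    rw [this, HF_zero_left]
  · intro hb; exact absurd (Finset.mem_univ b) hb

lemma Gen.mono {ι : Type} {P Q : (ι → ℂ) → (ι → ℂ) → Prop} (h : Gen ι P)
    (hPQ : ∀ x a, P x a → Q x a) : Gen ι Q := by
  obtain ⟨G, hG, h⟩ := h
  exact ⟨G, hG, fun x a hx => hPQ x a (h x a hx)⟩

lemma Gen.and {ι : Type} {P Q : (ι → ℂ) → (ι → ℂ) → Prop} (h : Gen ι P) (h' : Gen ι Q) :
    Gen ι (fun x a => P x a ∧ Q x a) := by
  obtain ⟨G, hG, h⟩ := h
  obtain ⟨G', hG', h'⟩ := h'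
  refine ⟨G * G', mul_ne_zero hG hG', fun x a hx => ?_⟩
  rw [map_mul] at hx
  exact ⟨h x a (left_ne_zero_of_mul hx), h' x a (right_ne_zero_of_mul hx)⟩

lemma Gen.true {ι : Type} : Gen ι (fun _ _ => True) := ⟨1, one_ne_zero, fun _ _ _ => trivial⟩

lemma Gen.all {ι J : Type} [Fintype J] {P : J → (ι → ℂ) → (ι → ℂ) → Prop}
    (h : ∀ j, Gen ι (P j)) : Gen ι (fun x a => ∀ j, P j x a) := by
  choose G hG h using h
  refine ⟨∏ j, G j, Finset.prod_ne_zero_iff.mpr fun j _ => hG j, fun x a hx j => ?_⟩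
  rw [map_prod] at hx
  exact h j x a (Finset.prod_ne_zero_iff.mp hx j (Finset.mem_univ j))

/-- the characters of the torus of a Kronecker block: `τ ↦ τ_s` for `s < k` and
`τ ↦ -Σ τ_i` for `s = k` -/
def torChar (k : ℕ) (τ : Fin k → ℂ) (s : Fin (k + 1)) : ℂ :=
  if h : (s : ℕ) < k then τ ⟨s, h⟩ else - ∑ i, τ i

/-- the matrix of the brackets of the basis vectors, as linear forms in the coordinates
of the dual space -/
noncomputable def strMat {g : Type} [LieRing g] [LieAlgebra ℂ g] {ι : Type} [Fintype ι]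
    (e : Basis (Option ι) ℂ g) : Matrix ι ι (MvPolynomial (Option ι) ℂ) :=
  fun i j => ∑ k, MvPolynomial.C (e.repr ⁅e (some i), e (some j)⁆ k) * MvPolynomial.X k

open Classical in
/-- the canonical matrix of the first form of a pencil with Jordan blocks only -/
noncomputable def jordA {β E : Type} (m : β → ℕ) (ev : β → E) (t : E → ℂ)
    (r c : Σ b, Fin (m b)) : ℂ :=
  if r.1 = c.1 then
    (if (r.2 : ℕ) = (c.2 : ℕ) then t (ev r.1) else if (r.2 : ℕ) = (c.2 : ℕ) + 1 then 1 else 0)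
  else 0

open Classical in
/-- the canonical matrix of the second form of a pencil with Jordan blocks only -/
noncomputable def jordB {β : Type} (m : β → ℕ) (r c : Σ b, Fin (m b)) : ℂ :=
  if r.1 = c.1 ∧ (r.2 : ℕ) = (c.2 : ℕ) then 1 else 0

/-- the skew matrix with off-diagonal blocks `R` and `-R^T` -/
def skewOf {S : Type} (R : S → S → ℂ) : S ⊕ S → S ⊕ S → ℂ
  | .inl r, .inr c => R r c
  | .inr c, .inl r => - R r c
  | _, _ => 0

/-- the matrix of all brackets of basis vectors, as linear forms on the dual space -/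
noncomputable def fullMat {g : Type} [LieRing g] [LieAlgebra ℂ g] {ι : Type} [Fintype ι]
    (e : Basis ι ℂ g) : Matrix ι ι (MvPolynomial ι ℂ) :=
  fun i j => ∑ k, MvPolynomial.C (e.repr ⁅e i, e j⁆ k) * MvPolynomial.X k

/-- in the basis `P` the matrices `A`, `B` of two forms are in the canonical form of type `T` -/
def CanonO (T : JKType) (t : T.E → Option ℂ) {ι : Type} [Fintype ι] (A B : Matrix ι ι ℂ)
    (P : Basis (Row T ⊕ Col T) ℂ (ι → ℂ)) : Prop :=
  ∀ i j, P i ⬝ᵥ (A *ᵥ P j) = canForm (RA T t) i j ∧ P i ⬝ᵥ (B *ᵥ P j) = canForm (RB T t) i j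

/-- the polynomial kernel vector of the Kronecker block `c` -/
noncomputable def kerVec (T : JKType) {ι : Type} (P : Basis (Row T ⊕ Col T) ℂ (ι → ℂ))
    (c : T.κ) : ι → Polynomial ℂ :=
  fun i => ∑ j : Fin (T.k c + 1),
    Polynomial.C (P (.inr (.inl ⟨c, j⟩)) i) * (-Polynomial.X) ^ (j : ℕ)

/-- the polynomial matrix `A + X B` -/
noncomputable def pencil {ι : Type} (A B : Matrix ι ι ℂ) : Matrix ι ι (Polynomial ℂ) :=
  A.map Polynomial.C + (Polynomial.X : Polynomial ℂ) • B.map Polynomial.C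

/-- the block Toeplitz matrix of `A + ε B` modulo `ε ^ N` -/
def toep {ι R : Type} [Zero R] (N : ℕ) (A B : Matrix ι ι R) : Matrix (Fin N × ι) (Fin N × ι) R :=
  fun p q => if p.1 = q.1 then A p.2 q.2 else if (p.1 : ℕ) = (q.1 : ℕ) + 1 then B p.2 q.2 else 0

/-- derivative in the direction `i`, tangent to the leaves (up to the factor `g0`) -/
noncomputable def tanD {ι J : Type} [Fintype ι] {r : ℕ} (j : J → ι) (s : Fin r → ι)
    (Z : Matrix ι (Fin r) (MvPolynomial ι ℂ)) (g0 : MvPolynomial ι ℂ) (i : J)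
    (p : MvPolynomial ι ℂ) : MvPolynomial ι ℂ :=
  g0 * pderiv (j i) p - ∑ c, Z (j i) c * pderiv (s c) p

end Pool.Agent.Helper783.JK
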