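import Pool.Agent.Helper783.JK.Defs

open Module MvPolynomial Matrix

namespace Pool.Agent.Helper783.JK



lemma jc_aux {R ι : Type} [CommRing R] [Fintype ι] [DecidableEq ι]
    (M E : Matrix ι ι R) (f : R) (hEM : E * M = f • (1 : Matrix ι ι R)) (D : ι → Matrix ι ι R)
    (i j k : ι) :
    ∑ a, ∑ b, ∑ c, E i a * E j b * E k c * ∑ l, M a l * D l b c = f * (E * D i * Eᵀ) j k := by
  have h1 : ∀ l, ∑ a, E i a * M a l = if i = l then f else 0 := by
    intro l
    have := congrFun (congrFun hEM i) l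
    simpa [Matrix.mul_apply, Matrix.one_apply] using this
  have h2 : (E * D i * Eᵀ) j k = ∑ b, ∑ c, E j b * D i b c * E k c := by
    rw [Matrix.mul_apply, Finset.sum_comm]
    refine Finset.sum_congr rfl fun c _ => ?_
    rw [Matrix.mul_apply, Matrix.transpose_apply, Finset.sum_mul]
  calc ∑ a, ∑ b, ∑ c, E i a * E j b * E k c * ∑ l, M a l * D l b c
      = ∑ a, ∑ b, ∑ c, ∑ l, (E i a * M a l) * (E j b * D l b c * E k c) := by
        refine Finset.sum_congr rfl fun a _ => Finset.sum_congr rfl fun b _ =>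
          Finset.sum_congr rfl fun c _ => ?_
        rw [Finset.mul_sum]
        exact Finset.sum_congr rfl fun l _ => by ring
    _ = ∑ a, ∑ b, ∑ l, ∑ c, (E i a * M a l) * (E j b * D l b c * E k c) := by
        refine Finset.sum_congr rfl fun a _ => Finset.sum_congr rfl fun b _ => ?_
        exact Finset.sum_comm
    _ = ∑ a, ∑ l, ∑ b, ∑ c, (E i a * M a l) * (E j b * D l b c * E k c) := by
        refine Finset.sum_congr rfl fun a _ => ?_
        exact Finset.sum_comm
    _ = ∑ l, ∑ a, ∑ b, ∑ c, (E i a * M a l) * (E j b * D l b c * E k c) := Finset.sum_comm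
    _ = ∑ l, (∑ a, E i a * M a l) * ∑ b, ∑ c, E j b * D l b c * E k c := by
        refine Finset.sum_congr rfl fun l _ => ?_
        rw [Finset.sum_mul]
        refine Finset.sum_congr rfl fun a _ => ?_
        rw [Finset.mul_sum]
        refine Finset.sum_congr rfl fun b _ => ?_
        rw [Finset.mul_sum]
    _ = f * (E * D i * Eᵀ) j k := by
        simp only [h1, h2, ite_mul, zero_mul, Finset.sum_ite_eq, Finset.mem_univ, if_true]

theorem jacobi_contract {R ι : Type} [CommRing R] [IsDomain R] [Fintype ι] [DecidableEq ι]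
    (M E : Matrix ι ι R) (f : R) (hf : f ≠ 0) (hM : Mᵀ = -M)
    (hME : M * E = f • (1 : Matrix ι ι R)) (D : ι → Matrix ι ι R)
    (hJ : ∀ i j k, ∑ l, (M i l * D l j k + M j l * D l k i + M k l * D l i j) = 0) :
    Eᵀ = -E ∧ E * M = f • (1 : Matrix ι ι R) ∧
      ∀ i j k, (E * D i * E) j k + (E * D j * E) k i + (E * D k * E) i j = 0 := by
  have h1 : Eᵀ * M = -(f • (1 : Matrix ι ι R)) := by
    have := congrArg Matrix.transpose hME
    rw [Matrix.transpose_mul, hM, Matrix.mul_neg, Matrix.transpose_smul,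
      Matrix.transpose_one] at this
    rw [← this, neg_neg]
  have hE : Eᵀ = -E := by
    have h2 : Eᵀ * (M * E) = -(f • (1 : Matrix ι ι R)) * E := by
      rw [← Matrix.mul_assoc, h1]
    rw [hME, Matrix.mul_smul, Matrix.mul_one, Matrix.neg_mul, Matrix.smul_mul,
      Matrix.one_mul] at h2
    ext i j
    have h3 := congrFun (congrFun h2 i) j
    simp only [Matrix.smul_apply, Matrix.neg_apply, smul_eq_mul] at h3
    rw [Matrix.neg_apply]
    apply mul_left_cancel₀ hf
    rw [h3]
    ring
  have hEM : E * M = f • (1 : Matrix ι ι R) := by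
    have : E = -Eᵀ := by rw [hE, neg_neg]
    rw [this, Matrix.neg_mul, h1, neg_neg]
  refine ⟨hE, hEM, fun i j k => ?_⟩
  have A1 := jc_aux M E f hEM D i j k
  have A2 := jc_aux M E f hEM D j k i
  have A3 := jc_aux M E f hEM D k i j
  have B2 : ∑ a, ∑ b, ∑ c, E j a * E k b * E i c * ∑ l, M a l * D l b c =
      ∑ a, ∑ b, ∑ c, E i a * E j b * E k c * ∑ l, M b l * D l c a := by
    calc ∑ a, ∑ b, ∑ c, E j a * E k b * E i c * ∑ l, M a l * D l b c
        = ∑ a, ∑ c, ∑ b, E j a * E k b * E i c * ∑ l, M a l * D l b c :=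
          Finset.sum_congr rfl fun a _ => Finset.sum_comm
      _ = ∑ c, ∑ a, ∑ b, E j a * E k b * E i c * ∑ l, M a l * D l b c := Finset.sum_comm
      _ = _ := by
          refine Finset.sum_congr rfl fun a _ => Finset.sum_congr rfl fun b _ =>
            Finset.sum_congr rfl fun c _ => by ring
  have B3 : ∑ a, ∑ b, ∑ c, E k a * E i b * E j c * ∑ l, M a l * D l b c =
      ∑ a, ∑ b, ∑ c, E i a * E j b * E k c * ∑ l, M c l * D l a b := by
    calc ∑ a, ∑ b, ∑ c, E k a * E i b * E j c * ∑ l, M a l * D l b c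
        = ∑ b, ∑ a, ∑ c, E k a * E i b * E j c * ∑ l, M a l * D l b c := Finset.sum_comm
      _ = ∑ b, ∑ c, ∑ a, E k a * E i b * E j c * ∑ l, M a l * D l b c :=
          Finset.sum_congr rfl fun a _ => Finset.sum_comm
      _ = _ := by
          refine Finset.sum_congr rfl fun a _ => Finset.sum_congr rfl fun b _ =>
            Finset.sum_congr rfl fun c _ => by ring
  have C : (∑ a, ∑ b, ∑ c, E i a * E j b * E k c * ∑ l, M a l * D l b c) +
      (∑ a, ∑ b, ∑ c, E i a * E j b * E k c * ∑ l, M b l * D l c a) +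
      (∑ a, ∑ b, ∑ c, E i a * E j b * E k c * ∑ l, M c l * D l a b) = 0 := by
    rw [← Finset.sum_add_distrib, ← Finset.sum_add_distrib]
    refine Finset.sum_eq_zero fun a _ => ?_
    rw [← Finset.sum_add_distrib, ← Finset.sum_add_distrib]
    refine Finset.sum_eq_zero fun b _ => ?_
    rw [← Finset.sum_add_distrib, ← Finset.sum_add_distrib]
    refine Finset.sum_eq_zero fun c _ => ?_
    rw [← mul_add, ← mul_add, ← Finset.sum_add_distrib, ← Finset.sum_add_distrib, hJ, mul_zero]
  rw [← B2, ← B3, A1, A2, A3, hE] at C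
  simp only [Matrix.mul_neg, Matrix.neg_apply] at C
  apply mul_left_cancel₀ hf
  rw [mul_zero]
  linear_combination -C

end Pool.Agent.Helper783.JK
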