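import Pool.Agent.Helper783.JK.Defs

open Module MvPolynomial Matrix

namespace Pool.Agent.Helper783.JK



section JI
open Polynomial

lemma ji_LR1 (k : ℕ) (g : Fin k → ℂ[X]) : ∃ y : Fin (k + 1) → ℂ[X], ∀ i : Fin k,
    ∑ j : Fin (k + 1), ((if (j : ℕ) = (i : ℕ) + 1 then 1 else 0) +
      Polynomial.X * (if (j : ℕ) = (i : ℕ) then 1 else 0)) * y j = g i := by
  classical
  let g' : ℕ → ℂ[X] := fun i => if h : i < k then g ⟨i, h⟩ else 0
  let y : ℕ → ℂ[X] := fun n => Nat.rec 0 (fun i yi => g' i - Polynomial.X * yi) n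
  have hy : ∀ i, y (i + 1) = g' i - Polynomial.X * y i := fun i => rfl
  refine ⟨fun j => y j, fun i => ?_⟩
  have e : ∀ j : Fin (k + 1), ((if (j : ℕ) = (i : ℕ) + 1 then 1 else 0) +
      Polynomial.X * (if (j : ℕ) = (i : ℕ) then 1 else 0)) * y j =
      (if j = i.succ then y j else 0) + (if j = i.castSucc then Polynomial.X * y j else 0) := by
    intro j
    have h1 : (j : ℕ) = (i : ℕ) + 1 ↔ j = i.succ := by
      rw [Fin.ext_iff, Fin.val_succ]
    have h2 : (j : ℕ) = (i : ℕ) ↔ j = i.castSucc := by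
      rw [Fin.ext_iff, Fin.val_castSucc]
    simp only [h1, h2]
    split_ifs <;> ring
  rw [Finset.sum_congr rfl fun j _ => e j, Finset.sum_add_distrib, Finset.sum_ite_eq' ,
    Finset.sum_ite_eq']
  simp only [Finset.mem_univ, if_true, Fin.val_succ, Fin.val_castSucc]
  rw [hy]
  simp [g']

lemma ji_LR2 (m : ℕ) (ε F' : ℂ[X]) (g : Fin m → ℂ[X]) : ∃ y : Fin m → ℂ[X], ∀ i : Fin m,
    ∑ j : Fin m, ((if (i : ℕ) = (j : ℕ) then ε else 0) +
      (if (i : ℕ) = (j : ℕ) + 1 then 1 else 0)) * y j = ε ^ m * F' * g i := by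
  classical
  let g' : ℕ → ℂ[X] := fun i => if h : i < m then g ⟨i, h⟩ else 0
  let z : ℕ → ℂ[X] := fun n => Nat.rec (F' * g' 0) (fun i zi => ε ^ (i + 1) * F' * g' (i + 1) - zi) n
  have hz0 : z 0 = F' * g' 0 := rfl
  have hz : ∀ i, z (i + 1) = ε ^ (i + 1) * F' * g' (i + 1) - z i := fun i => rfl
  refine ⟨fun j => ε ^ (m - 1 - (j : ℕ)) * z j, fun i => ?_⟩
  have hgi : g' i = g i := by simp [g']
  obtain ⟨i, hi⟩ := i
  rcases Nat.eq_zero_or_pos i with rfl | hpos
  · have e : ∀ j : Fin m, ((if (0 : ℕ) = (j : ℕ) then ε else 0) +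
      (if (0 : ℕ) = (j : ℕ) + 1 then 1 else 0)) * (ε ^ (m - 1 - (j : ℕ)) * z j) =
      (if j = ⟨0, hi⟩ then ε * (ε ^ (m - 1 - (j : ℕ)) * z j) else 0) := by
      intro j
      have h1 : (0 : ℕ) = (j : ℕ) ↔ j = ⟨0, hi⟩ := by
        rw [Fin.ext_iff]; exact eq_comm
      have h2 : ¬ ((0 : ℕ) = (j : ℕ) + 1) := by omega
      simp only [h1, h2, if_false, add_zero]
      split_ifs <;> ring
    simp only
    rw [Finset.sum_congr rfl fun j _ => e j, Finset.sum_ite_eq']
    simp only [Finset.mem_univ, if_true]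
    rw [hz0, ← hgi]
    obtain ⟨q, rfl⟩ : ∃ q, m = q + 1 := ⟨m - 1, by omega⟩
    have h3 : q + 1 - 1 - 0 = q := by omega
    simp only [h3]
    ring
  · obtain ⟨l, rfl⟩ : ∃ l, i = l + 1 := ⟨i - 1, by omega⟩
    have hl : l < m := by omega
    have e : ∀ j : Fin m, ((if (l + 1 : ℕ) = (j : ℕ) then ε else 0) +
      (if (l + 1 : ℕ) = (j : ℕ) + 1 then 1 else 0)) * (ε ^ (m - 1 - (j : ℕ)) * z j) =
      (if j = ⟨l + 1, hi⟩ then ε * (ε ^ (m - 1 - (j : ℕ)) * z j) else 0) +
      (if j = ⟨l, hl⟩ then (ε ^ (m - 1 - (j : ℕ)) * z j) else 0) := by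
      intro j
      have h1 : (l + 1 : ℕ) = (j : ℕ) ↔ j = ⟨l + 1, hi⟩ := by
        rw [Fin.ext_iff]; exact eq_comm
      have h2 : ((l + 1 : ℕ) = (j : ℕ) + 1) ↔ j = ⟨l, hl⟩ := by
        rw [Fin.ext_iff]; simp only; omega
      simp only [h1, h2]
      split_ifs <;> ring
    simp only
    rw [Finset.sum_congr rfl fun j _ => e j, Finset.sum_add_distrib, Finset.sum_ite_eq',
      Finset.sum_ite_eq']
    simp only [Finset.mem_univ, if_true]
    rw [hz, ← hgi]
    simp only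
    obtain ⟨q, hq⟩ : ∃ q, m = q + l + 2 := ⟨m - l - 2, by omega⟩
    have h3 : m - 1 - (l + 1) = q := by omega
    have h4 : m - 1 - l = q + 1 := by omega
    rw [h3, h4, hq]
    ring

lemma ji_LC1 (k : ℕ) (g : Fin (k + 1) → ℂ[X]) (h : ∑ j : Fin (k + 1), (-Polynomial.X) ^ (j : ℕ) * g j = 0) :
    ∃ y : Fin k → ℂ[X], ∀ j : Fin (k + 1),
    -∑ i : Fin k, ((if (j : ℕ) = (i : ℕ) + 1 then 1 else 0) +
      Polynomial.X * (if (j : ℕ) = (i : ℕ) then 1 else 0)) * y i = g j := by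
  classical
  let g' : ℕ → ℂ[X] := fun i => if h : i < k + 1 then g ⟨i, h⟩ else 0
  let s : ℕ → ℂ[X] := fun j => ∑ l ∈ Finset.range (k + 1 - j), (-Polynomial.X) ^ l * g' (j + l)
  have hs1 : s (k + 1) = 0 := by simp [s]
  have hs0 : s 0 = 0 := by
    rw [← h]
    simp only [s, Nat.sub_zero, zero_add]
    rw [← Fin.sum_univ_eq_sum_range (fun l => (-Polynomial.X) ^ l * g' l) (k + 1)]
    apply Finset.sum_congr rfl
    intro j _
    simp only [g', dif_pos j.2]
  have hs : ∀ j ≤ k, s j = g' j - Polynomial.X * s (j + 1) := by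
    intro j hj
    simp only [s]
    have h1 : k + 1 - j = (k + 1 - (j + 1)) + 1 := by omega
    rw [h1, Finset.sum_range_succ', pow_zero, one_mul, add_zero, Finset.mul_sum]
    have h2 : ∀ l ∈ Finset.range (k + 1 - (j + 1)), (-Polynomial.X : ℂ[X]) ^ (l + 1) * g' (j + (l + 1)) =
        -(Polynomial.X * ((-Polynomial.X) ^ l * g' (j + 1 + l))) := by
      intro l _
      have h3 : j + (l + 1) = j + 1 + l := by ring
      rw [h3, pow_succ]
      ring
    rw [Finset.sum_congr rfl h2, Finset.sum_neg_distrib]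
    ring
  refine ⟨fun i => -s ((i : ℕ) + 1), fun j => ?_⟩
  obtain ⟨j, hj⟩ := j
  have hgj : g' j = g ⟨j, hj⟩ := by simp only [g', dif_pos hj]
  have e1 : ∑ i : Fin k, Polynomial.X * (if j = (i : ℕ) then 1 else 0) * (-s ((i : ℕ) + 1)) =
      - (Polynomial.X * s (j + 1)) := by
    by_cases hjk : j < k
    · rw [Finset.sum_eq_single ⟨j, hjk⟩]
      · simp
      · intro b _ hb
        have : ¬ j = (b : ℕ) := fun hh => hb (Fin.ext hh.symm)
        simp [this]
      · intro hh; exact absurd (Finset.mem_univ _) hh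
    · have hjk' : j = k := by omega
      rw [hjk', hs1]
      rw [Finset.sum_eq_zero]
      · simp
      · intro i _
        have : ¬ k = (i : ℕ) := by have := i.2; omega
        simp [this]
  have e2 : ∑ i : Fin k, (if j = (i : ℕ) + 1 then (1 : ℂ[X]) else 0) * (-s ((i : ℕ) + 1)) =
      - s j := by
    rcases Nat.eq_zero_or_pos j with rfl | hpos
    · rw [hs0, Finset.sum_eq_zero]
      · simp
      · intro i _
        have : ¬ (0 = (i : ℕ) + 1) := by omega
        simp [this]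
    · obtain ⟨l, rfl⟩ : ∃ l, j = l + 1 := ⟨j - 1, by omega⟩
      rw [Finset.sum_eq_single ⟨l, by omega⟩]
      · simp
      · intro b _ hb
        have : ¬ (l + 1 = (b : ℕ) + 1) := fun hh => hb (Fin.ext (by simp only; omega))
        rw [if_neg this, zero_mul]
      · intro hh; exact absurd (Finset.mem_univ _) hh
  simp only [add_mul, Finset.sum_add_distrib]
  rw [e1, e2, hs j (by omega), hgj]
  ring

lemma ji_LC2 (m : ℕ) (ε F' : ℂ[X]) (g : Fin m → ℂ[X]) : ∃ y : Fin m → ℂ[X], ∀ j : Fin m,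
    -∑ i : Fin m, ((if (i : ℕ) = (j : ℕ) then ε else 0) +
      (if (i : ℕ) = (j : ℕ) + 1 then 1 else 0)) * y i = ε ^ m * F' * g j := by
  classical
  obtain ⟨y, hy⟩ := ji_LR2 m ε F' (fun i => - g i.rev)
  refine ⟨fun i => y i.rev, fun j => ?_⟩
  have h := hy j.rev
  rw [← Equiv.sum_comp Fin.revPerm] at h
  simp only [Fin.revPerm_apply, Fin.rev_rev] at h
  have e : ∑ i : Fin m, ((if (i : ℕ) = (j : ℕ) then ε else 0) +
      (if (i : ℕ) = (j : ℕ) + 1 then 1 else 0)) * y i.rev = ε ^ m * F' * -g j := by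
    rw [← h]
    apply Finset.sum_congr rfl
    intro i _
    have h1 : ((j.rev : Fin m) : ℕ) = ((i.rev : Fin m) : ℕ) ↔ (i : ℕ) = (j : ℕ) := by
      rw [Fin.val_rev, Fin.val_rev]
      have := i.2
      have := j.2
      omega
    have h2 : ((j.rev : Fin m) : ℕ) = ((i.rev : Fin m) : ℕ) + 1 ↔ (i : ℕ) = (j : ℕ) + 1 := by
      rw [Fin.val_rev, Fin.val_rev]
      have := i.2
      have := j.2
      omega
    simp only [h1, h2]
  rw [e]
  ring

lemma ji_sum_sig {κ : Type} [Fintype κ] {n : κ → ℕ} (c0 : κ)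
    (g : (Σ c, Fin (n c)) → ℂ[X]) (h : ∀ p, p.1 ≠ c0 → g p = 0) :
    ∑ p, g p = ∑ j : Fin (n c0), g ⟨c0, j⟩ := by
  classical
  rw [Fintype.sum_sigma, Finset.sum_eq_single c0]
  · intro b _ hb
    exact Finset.sum_eq_zero fun j _ => h ⟨b, j⟩ hb
  · intro hh; exact absurd (Finset.mem_univ _) hh

variable (T : JKType) (t : T.E → ℂ)

/-- entry of the canonical pencil -/
noncomputable def jiM (r : Row T) (c : Col T) : ℂ[X] :=
  Polynomial.C (RA T (fun e => some (t e)) r c) + Polynomial.X * Polynomial.C (RB T (fun e => some (t e)) r c)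

lemma jiM_ll (c : T.κ) (i : Fin (T.k c)) (j : Fin (T.k c + 1)) :
    jiM T t (.inl ⟨c, i⟩) (.inl ⟨c, j⟩) = (if (j : ℕ) = (i : ℕ) + 1 then 1 else 0) +
      Polynomial.X * (if (j : ℕ) = (i : ℕ) then 1 else 0) := by
  unfold jiM RA RB
  simp only [true_and]
  split_ifs <;> simp

lemma jiM_ll_ne (p : Σ c : T.κ, Fin (T.k c)) (q : Σ c : T.κ, Fin (T.k c + 1)) (h : p.1 ≠ q.1) :
    jiM T t (.inl p) (.inl q) = 0 := by
  unfold jiM RA RB
  simp [h]

lemma jiM_rr (b : T.β) (i j : Fin (T.m b)) :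
    jiM T t (.inr ⟨b, i⟩) (.inr ⟨b, j⟩) =
      (if (i : ℕ) = (j : ℕ) then Polynomial.X + Polynomial.C (t (T.ev b)) else 0) +
      (if (i : ℕ) = (j : ℕ) + 1 then 1 else 0) := by
  unfold jiM RA RB
  simp only [if_true]
  by_cases h1 : (i : ℕ) = (j : ℕ)
  · have h2 : ¬ ((i : ℕ) = (j : ℕ) + 1) := by omega
    simp [h1]
    ring
  · simp [h1]

lemma jiM_rr_ne (p q : Σ b : T.β, Fin (T.m b)) (h : p.1 ≠ q.1) :
    jiM T t (.inr p) (.inr q) = 0 := by
  unfold jiM RA RB
  simp [h]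

lemma jiM_lr (p : Σ c : T.κ, Fin (T.k c)) (q : Σ b : T.β, Fin (T.m b)) :
    jiM T t (.inl p) (.inr q) = 0 := by
  unfold jiM RA RB
  simp

lemma jiM_rl (p : Σ b : T.β, Fin (T.m b)) (q : Σ c : T.κ, Fin (T.k c + 1)) :
    jiM T t (.inr p) (.inl q) = 0 := by
  unfold jiM RA RB
  simp

/-- solution in canonical coordinates -/
lemma ji_solve (F : ℂ[X]) (hF : ∀ b, (Polynomial.X + Polynomial.C (t (T.ev b))) ^ (T.m b) ∣ F)
    (G : Row T ⊕ Col T → ℂ[X])
    (hG : ∀ c, ∑ j : Fin (T.k c + 1), (-Polynomial.X) ^ (j : ℕ) * G (.inr (.inl ⟨c, j⟩)) = 0) :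
    ∃ y : Row T ⊕ Col T → ℂ[X],
      (∀ r, ∑ c, jiM T t r c * y (.inr c) = F * G (.inl r)) ∧
      (∀ c, -∑ r, jiM T t r c * y (.inl r) = F * G (.inr c)) := by
  classical
  choose F' hF' using hF
  have a1 := fun c => ji_LR1 (T.k c) (fun i => F * G (.inl (.inl ⟨c, i⟩)))
  have a2 := fun b => ji_LR2 (T.m b) (Polynomial.X + Polynomial.C (t (T.ev b))) (F' b) (fun i => G (.inl (.inr ⟨b, i⟩)))
  have a3 := fun c => ji_LC1 (T.k c) (fun j => F * G (.inr (.inl ⟨c, j⟩))) (by
    have := hG c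
    calc ∑ j : Fin (T.k c + 1), (-Polynomial.X) ^ (j : ℕ) * (F * G (.inr (.inl ⟨c, j⟩)))
        = F * ∑ j : Fin (T.k c + 1), (-Polynomial.X) ^ (j : ℕ) * G (.inr (.inl ⟨c, j⟩)) := by
          rw [Finset.mul_sum]
          exact Finset.sum_congr rfl fun j _ => by ring
      _ = 0 := by rw [this, mul_zero])
  have a4 := fun b => ji_LC2 (T.m b) (Polynomial.X + Polynomial.C (t (T.ev b))) (F' b) (fun i => G (.inr (.inr ⟨b, i⟩)))
  choose y1 h1 using a1
  choose y2 h2 using a2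
  choose y3 h3 using a3
  choose y4 h4 using a4
  refine ⟨Sum.elim (Sum.elim (fun p => y3 p.1 p.2) (fun p => y4 p.1 p.2))
    (Sum.elim (fun p => y1 p.1 p.2) (fun p => y2 p.1 p.2)), ?_, ?_⟩
  · rintro (⟨c, i⟩ | ⟨b, i⟩)
    · rw [Fintype.sum_sum_type]
      simp only [jiM_lr, zero_mul, Finset.sum_const_zero, add_zero, Sum.elim_inr, Sum.elim_inl]
      rw [ji_sum_sig c _ (fun p hp => by rw [jiM_ll_ne T t _ _ (Ne.symm hp), zero_mul])]
      simp only [jiM_ll]
      exact h1 c i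
    · rw [Fintype.sum_sum_type]
      simp only [jiM_rl, zero_mul, Finset.sum_const_zero, zero_add, Sum.elim_inr, Sum.elim_inl]
      rw [ji_sum_sig b _ (fun p hp => by rw [jiM_rr_ne T t _ _ (Ne.symm hp), zero_mul])]
      simp only [jiM_rr]
      rw [hF' b]
      exact h2 b i
  · rintro (⟨c, j⟩ | ⟨b, j⟩)
    · rw [Fintype.sum_sum_type]
      simp only [jiM_rl, zero_mul, Finset.sum_const_zero, add_zero, Sum.elim_inr, Sum.elim_inl]
      rw [ji_sum_sig c _ (fun p hp => by rw [jiM_ll_ne T t _ _ hp, zero_mul])]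
      simp only [jiM_ll]
      exact h3 c j
    · rw [Fintype.sum_sum_type]
      simp only [jiM_lr, zero_mul, Finset.sum_const_zero, zero_add, Sum.elim_inr, Sum.elim_inl]
      rw [ji_sum_sig b _ (fun p hp => by rw [jiM_rr_ne T t _ _ hp, zero_mul])]
      simp only [jiM_rr]
      rw [hF' b]
      exact h4 b j

/-- a polynomial covector is determined by its pairings with a basis -/
lemma ji_basis {ι S : Type} [Fintype ι] [DecidableEq ι] [Fintype S] (P : Basis S ℂ (ι → ℂ))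
    (v : ι → ℂ[X]) (h : ∀ l, ∑ i, Polynomial.C (P l i) * v i = 0) : v = 0 := by
  funext j
  have h1 : (Pi.single j 1 : ι → ℂ) = ∑ l, P.repr (Pi.single j 1) l • P l :=
    (P.sum_repr _).symm
  have h2 : v j = ∑ i, Polynomial.C ((Pi.single j 1 : ι → ℂ) i) * v i := by
    rw [Finset.sum_eq_single j]
    · simp
    · intro b _ hb
      simp [Pi.single_eq_of_ne hb]
    · intro hh; exact absurd (Finset.mem_univ _) hh
  rw [h2]
  have h3 : ∀ i, Polynomial.C ((Pi.single j 1 : ι → ℂ) i) * v i =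
      ∑ l, Polynomial.C (P.repr (Pi.single j 1) l) * (Polynomial.C (P l i) * v i) := by
    intro i
    conv_lhs => rw [h1]
    rw [Finset.sum_apply, map_sum, Finset.sum_mul]
    apply Finset.sum_congr rfl
    intro l _
    rw [Pi.smul_apply, smul_eq_mul, Polynomial.C_mul]
    ring
  rw [Finset.sum_congr rfl fun i _ => h3 i, Finset.sum_comm]
  apply Finset.sum_eq_zero
  intro l _
  rw [← Finset.mul_sum, h l, mul_zero]

lemma ji_pair {ι S : Type} [Fintype ι] [Fintype S] (M : Matrix ι ι ℂ) (u : ι → ℂ)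
    (y : S → ℂ[X]) (P : S → ι → ℂ) :
    ∑ i, Polynomial.C (u i) * ((M.map Polynomial.C) *ᵥ
      fun i => ∑ k, y k * Polynomial.C (P k i)) i =
      ∑ k, y k * Polynomial.C (u ⬝ᵥ (M *ᵥ P k)) := by
  simp only [Matrix.mulVec, dotProduct, Matrix.map_apply, map_sum, map_mul, Finset.mul_sum]
  calc ∑ i, ∑ j, ∑ k, Polynomial.C (u i) * (Polynomial.C (M i j) * (y k * Polynomial.C (P k j)))
      = ∑ i, ∑ k, ∑ j, Polynomial.C (u i) *
          (Polynomial.C (M i j) * (y k * Polynomial.C (P k j))) :=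
        Finset.sum_congr rfl fun i _ => Finset.sum_comm
    _ = ∑ k, ∑ i, ∑ j, Polynomial.C (u i) *
          (Polynomial.C (M i j) * (y k * Polynomial.C (P k j))) := Finset.sum_comm
    _ = _ := by
        apply Finset.sum_congr rfl; intro k _
        apply Finset.sum_congr rfl; intro i _
        apply Finset.sum_congr rfl; intro j _
        ring

lemma ji_pair2 {ι S : Type} [Fintype ι] [Fintype S] (A B : Matrix ι ι ℂ) (u : ι → ℂ)
    (y : S → ℂ[X]) (P : S → ι → ℂ) :
    ∑ i, Polynomial.C (u i) * (pencil A B *ᵥ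
      fun i => ∑ k, y k * Polynomial.C (P k i)) i =
      ∑ k, y k * (Polynomial.C (u ⬝ᵥ (A *ᵥ P k)) +
        Polynomial.X * Polynomial.C (u ⬝ᵥ (B *ᵥ P k))) := by
  unfold pencil
  rw [Matrix.add_mulVec, Matrix.smul_mulVec]
  simp only [Pi.add_apply, Pi.smul_apply, smul_eq_mul, mul_add, Finset.sum_add_distrib]
  rw [ji_pair A u y P]
  congr 1
  have h := ji_pair B u y P
  calc _ = Polynomial.X * ∑ i, Polynomial.C (u i) * ((B.map Polynomial.C) *ᵥ
      fun i => ∑ k, y k * Polynomial.C (P k i)) i := by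
        rw [Finset.mul_sum]
        exact Finset.sum_congr rfl fun i _ => by ring
    _ = _ := by
        rw [h, Finset.mul_sum]
        exact Finset.sum_congr rfl fun i _ => by ring

end JI

theorem jord_inv2 (T : JKType) (t : T.E → ℂ) (ht : Function.Injective t) {ι : Type}
    [Fintype ι] [DecidableEq ι] (A B : Matrix ι ι ℂ) (P : Basis (Row T ⊕ Col T) ℂ (ι → ℂ))
    (hP : CanonO T (fun e => some (t e)) A B P) (e1 : T.E) (μ : ℕ)
    (hμ : ∀ b, T.ev b = e1 → T.m b ≤ μ) :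
    ∃ χ : Polynomial ℂ, χ.eval (- t e1) ≠ 0 ∧ ∀ γ : ι → Polynomial ℂ,
      (∀ c, ∑ i, γ i * kerVec T P c i = 0) → ∃ w : ι → Polynomial ℂ,
        pencil A B *ᵥ w = ((Polynomial.X + Polynomial.C (t e1)) ^ μ * χ) • γ := by
  classical
  set N := ∑ b, T.m b with hN
  refine ⟨∏ e' ∈ Finset.univ.erase e1, (Polynomial.X + Polynomial.C (t e')) ^ N, ?_, ?_⟩
  · rw [Polynomial.eval_prod, Finset.prod_ne_zero_iff]
    intro e' he'
    have hne : e' ≠ e1 := (Finset.mem_erase.1 he').1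
    simp only [Polynomial.eval_pow, Polynomial.eval_add, Polynomial.eval_X, Polynomial.eval_C]
    apply pow_ne_zero
    intro h0
    apply hne
    apply ht
    linear_combination h0
  · intro γ hγ
    set χ := ∏ e' ∈ Finset.univ.erase e1, (Polynomial.X + Polynomial.C (t e')) ^ N with hχ
    set F := (Polynomial.X + Polynomial.C (t e1)) ^ μ * χ with hFdef
    have hF : ∀ b, (Polynomial.X + Polynomial.C (t (T.ev b))) ^ (T.m b) ∣ F := by
      intro b
      by_cases hb : T.ev b = e1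
      · rw [hb]
        exact Dvd.dvd.mul_right (pow_dvd_pow _ (hμ b hb)) _
      · apply Dvd.dvd.mul_left
        refine dvd_trans (pow_dvd_pow _ ?_) (Finset.dvd_prod_of_mem _
          (Finset.mem_erase.2 ⟨hb, Finset.mem_univ _⟩))
        exact Finset.single_le_sum (f := fun b => T.m b) (fun _ _ => Nat.zero_le _)
          (Finset.mem_univ b)
    let G : Row T ⊕ Col T → Polynomial ℂ := fun l => ∑ i, Polynomial.C (P l i) * γ i
    have hG : ∀ c, ∑ j : Fin (T.k c + 1), (-Polynomial.X) ^ (j : ℕ) * G (.inr (.inl ⟨c, j⟩)) = 0 := by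
      intro c
      rw [← hγ c]
      simp only [G, kerVec, Finset.mul_sum]
      rw [Finset.sum_comm]
      apply Finset.sum_congr rfl
      intro i _
      apply Finset.sum_congr rfl
      intro j _
      ring
    obtain ⟨y, hy1, hy2⟩ := ji_solve T t F hF G hG
    refine ⟨fun i => ∑ k, y k * Polynomial.C (P k i), ?_⟩
    rw [← sub_eq_zero]
    apply ji_basis P
    intro l
    have key := ji_pair2 A B (P l) y (fun k => P k)
    have e0 : ∑ i, Polynomial.C (P l i) * ((pencil A B *ᵥ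
        fun i => ∑ k, y k * Polynomial.C (P k i)) - F • γ) i =
        (∑ i, Polynomial.C (P l i) * (pencil A B *ᵥ
        fun i => ∑ k, y k * Polynomial.C (P k i)) i) - F * G l := by
      simp only [Pi.sub_apply, Pi.smul_apply, smul_eq_mul, mul_sub, Finset.sum_sub_distrib, G,
        Finset.mul_sum]
      congr 1
      exact Finset.sum_congr rfl fun i _ => by ring
    rw [e0, key]
    simp only [(hP l _).1, (hP l _).2]
    rw [Fintype.sum_sum_type]
    rcases l with r | c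
    · rw [← hy1 r]
      simp only [canForm, map_zero, mul_zero, add_zero, Finset.sum_const_zero, zero_add]
      rw [sub_eq_zero]
      apply Finset.sum_congr rfl
      intro c _
      unfold jiM
      ring
    · rw [← hy2 c]
      simp only [canForm, map_zero, mul_zero, add_zero, Finset.sum_const_zero, map_neg]
      rw [sub_eq_zero, ← Finset.sum_neg_distrib]
      apply Finset.sum_congr rfl
      intro r _
      unfold jiM
      ring

end Pool.Agent.Helper783.JK
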