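import Pool.Agent.Helper783.JK.Defs

open Module MvPolynomial Matrix

namespace Pool.Agent.Helper783.JK



theorem kvk_zero {T : JKType} {ι : Type} [Fintype ι] [DecidableEq ι]
    (P : Basis (Row T ⊕ Col T) ℂ (ι → ℂ)) (y : ι → ℂ) (h : ∀ k, P k ⬝ᵥ y = 0) : y = 0 := by
  let L : (ι → ℂ) →ₗ[ℂ] ℂ :=
    { toFun := fun w => w ⬝ᵥ y
      map_add' := fun a b => add_dotProduct a b y
      map_smul' := fun c a => smul_dotProduct c a y }
  have hL : L = 0 := P.ext fun k => h k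
  funext i
  have h1 : L (Pi.single i 1) = 0 := by rw [hL]; rfl
  have h2 : L (Pi.single i 1) = y i := by
    show Pi.single i 1 ⬝ᵥ y = y i
    rw [single_dotProduct, one_mul]
  rw [← h2, h1]
  rfl

theorem kvk_sum (T : JKType) (t : T.E → Option ℂ) (c : T.κ) (z : ℂ) (k : Row T ⊕ Col T) :
    ∑ j : Fin (T.k c + 1), (-z) ^ (j : ℕ) * (canForm (RA T t) k (.inr (.inl ⟨c, j⟩)) +
      z * canForm (RB T t) k (.inr (.inl ⟨c, j⟩))) = 0 := by
  classical
  rcases k with (⟨c', r⟩ | ⟨b, i⟩) | k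
  · have h1 : ∀ j : Fin (T.k c + 1), (-z) ^ (j : ℕ) *
        (canForm (RA T t) (.inl (.inl ⟨c', r⟩)) (.inr (.inl ⟨c, j⟩)) +
        z * canForm (RB T t) (.inl (.inl ⟨c', r⟩)) (.inr (.inl ⟨c, j⟩))) =
        (if c' = c ∧ (j : ℕ) = (r : ℕ) + 1 then (-z) ^ (j : ℕ) else 0) +
        (if c' = c ∧ (j : ℕ) = (r : ℕ) then z * (-z) ^ (j : ℕ) else 0) := by
      intro j
      have e1 : canForm (RA T t) (.inl (.inl ⟨c', r⟩)) (.inr (.inl ⟨c, j⟩)) =
          if c' = c ∧ (j : ℕ) = (r : ℕ) + 1 then (1 : ℂ) else 0 := by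
        show RA T t (.inl ⟨c', r⟩) (.inl ⟨c, j⟩) = _
        simp only [RA]
      have e2 : canForm (RB T t) (.inl (.inl ⟨c', r⟩)) (.inr (.inl ⟨c, j⟩)) =
          if c' = c ∧ (j : ℕ) = (r : ℕ) then (1 : ℂ) else 0 := by
        show RB T t (.inl ⟨c', r⟩) (.inl ⟨c, j⟩) = _
        simp only [RB]
      rw [e1, e2, mul_add]
      congr 1
      · split_ifs <;> simp
      · split_ifs <;> ring
    simp_rw [h1]
    rw [Finset.sum_add_distrib]
    by_cases hc : c' = c
    · subst hc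
      have hr : (r : ℕ) < T.k c' := r.2
      rw [Finset.sum_eq_single (⟨(r : ℕ) + 1, by omega⟩ : Fin (T.k c' + 1)),
        Finset.sum_eq_single (⟨(r : ℕ), by omega⟩ : Fin (T.k c' + 1))]
      · simp only [and_self, if_true]
        ring
      · intro j _ hj
        rw [if_neg]
        rintro ⟨-, h⟩
        exact hj (Fin.ext h)
      · intro h; exact absurd (Finset.mem_univ _) h
      · intro j _ hj
        rw [if_neg]
        rintro ⟨-, h⟩
        exact hj (Fin.ext h)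
      · intro h; exact absurd (Finset.mem_univ _) h
    · simp [hc]
  · refine Finset.sum_eq_zero fun j _ => ?_
    have e1 : canForm (RA T t) (.inl (.inr ⟨b, i⟩)) (.inr (.inl ⟨c, j⟩)) = 0 := rfl
    have e2 : canForm (RB T t) (.inl (.inr ⟨b, i⟩)) (.inr (.inl ⟨c, j⟩)) = 0 := rfl
    rw [e1, e2]
    ring
  · refine Finset.sum_eq_zero fun j _ => ?_
    have e1 : canForm (RA T t) (.inr k) (.inr (.inl ⟨c, j⟩)) = 0 := rfl
    have e2 : canForm (RB T t) (.inr k) (.inr (.inl ⟨c, j⟩)) = 0 := rfl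
    rw [e1, e2]
    ring

theorem kerVec_ker (T : JKType) (t : T.E → Option ℂ) {ι : Type} [Fintype ι] [DecidableEq ι]
    (A B : Matrix ι ι ℂ) (P : Basis (Row T ⊕ Col T) ℂ (ι → ℂ)) (hP : CanonO T t A B P)
    (c : T.κ) : pencil A B *ᵥ kerVec T P c = 0 := by
  classical
  have key : ∀ z : ℂ, A *ᵥ (∑ j : Fin (T.k c + 1), (-z) ^ (j : ℕ) • P (.inr (.inl ⟨c, j⟩))) +
      z • (B *ᵥ (∑ j : Fin (T.k c + 1), (-z) ^ (j : ℕ) • P (.inr (.inl ⟨c, j⟩)))) = 0 := by
    intro z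
    refine kvk_zero P _ fun k => ?_
    have hm : ∀ M : Matrix ι ι ℂ, M *ᵥ (∑ j : Fin (T.k c + 1), (-z) ^ (j : ℕ) •
        P (.inr (.inl ⟨c, j⟩))) = ∑ j : Fin (T.k c + 1), (-z) ^ (j : ℕ) •
        (M *ᵥ P (.inr (.inl ⟨c, j⟩))) := by
      intro M
      have := map_sum M.mulVecLin (fun j : Fin (T.k c + 1) => (-z) ^ (j : ℕ) •
        P (.inr (.inl ⟨c, j⟩))) Finset.univ
      simp only [Matrix.mulVecLin_apply, Matrix.mulVec_smul] at this
      exact this
    rw [hm, hm, dotProduct_add, dotProduct_smul, dotProduct_sum, dotProduct_sum,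
      ← kvk_sum T t c z k, smul_eq_mul, Finset.mul_sum, ← Finset.sum_add_distrib]
    refine Finset.sum_congr rfl fun j _ => ?_
    rw [dotProduct_smul, dotProduct_smul, (hP _ _).1, (hP _ _).2, smul_eq_mul, smul_eq_mul]
    ring
  funext i
  refine Polynomial.funext fun z => ?_
  have h1 := congrFun (key z) i
  rw [Pi.zero_apply, Polynomial.eval_zero]
  rw [← show (0 : ι → ℂ) i = 0 from rfl, ← h1]
  rw [Pi.add_apply, Pi.smul_apply, smul_eq_mul]
  unfold Matrix.mulVec dotProduct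
  rw [Polynomial.eval_finsetSum, Finset.mul_sum, ← Finset.sum_add_distrib]
  refine Finset.sum_congr rfl fun l _ => ?_
  have h2 : Polynomial.eval z (kerVec T P c l) =
      (∑ j : Fin (T.k c + 1), (-z) ^ (j : ℕ) • P (.inr (.inl ⟨c, j⟩))) l := by
    unfold kerVec
    rw [Polynomial.eval_finsetSum, Finset.sum_apply]
    refine Finset.sum_congr rfl fun j _ => ?_
    simp
    ring
  rw [Polynomial.eval_mul, h2]
  have h3 : Polynomial.eval z (pencil A B i l) = A i l + z * B i l := by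
    simp [pencil]
    ring
  rw [h3]
  ring

end Pool.Agent.Helper783.JK
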