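import Pool.Agent.Helper783.JK.Defs

open Module MvPolynomial Matrix

namespace Pool.Agent.Helper783.JK



open Polynomial in
lemma kp_jordan_det {n : ℕ} (M : Matrix (Fin n) (Fin n) (Polynomial ℂ))
    (h0 : ∀ r j : Fin n, (r:ℕ) < j → M r j = 0) (h1 : ∀ r, M r r ≠ 0) : M.det ≠ 0 := by
  rw [Matrix.det_of_isLowerTriangular M (fun r j h => h0 r j h)]
  exact Finset.prod_ne_zero_iff.mpr fun r _ => h1 r

lemma kp_repr {T : JKType} {ι : Type} [Fintype ι] [DecidableEq ι]
    (P : Basis (Row T ⊕ Col T) ℂ (ι → ℂ)) (z : ι → Polynomial ℂ) (i : ι) :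
    z i = ∑ k, (∑ i, Polynomial.C (P.repr (Pi.single i 1) k) * z i) * Polynomial.C (P k i) := by
  simp only [Finset.sum_mul]
  rw [Finset.sum_comm]
  have h2 : ∀ j, ∑ k, Polynomial.C (P.repr (Pi.single j 1) k) * z j * Polynomial.C (P k i) = (if i = j then z j else 0) := by
    intro j
    have h1 : ∑ k, (P.repr (Pi.single j 1) k) * P k i = (Pi.single j (1:ℂ) : ι → ℂ) i := by
      have := congrFun (P.sum_repr (Pi.single j (1:ℂ))) i
      simpa [Finset.sum_apply] using this
    calc _ = z j * Polynomial.C (∑ k, (P.repr (Pi.single j 1) k) * P k i) := by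
            rw [map_sum, Finset.mul_sum]
            refine Finset.sum_congr rfl fun k _ => ?_
            rw [map_mul]; ring
      _ = _ := by
            rw [h1, Pi.single_apply]
            split_ifs <;> simp
  simp [h2]

lemma kp_eq {T : JKType} {t : T.E → Option ℂ} {ι : Type} [Fintype ι] [DecidableEq ι]
    (A B : Matrix ι ι ℂ) (P : Basis (Row T ⊕ Col T) ℂ (ι → ℂ)) (hP : CanonO T t A B P)
    (z : ι → Polynomial ℂ) (hz : pencil A B *ᵥ z = 0) (y : Row T ⊕ Col T → Polynomial ℂ)
    (hy : ∀ i, z i = ∑ k, y k * Polynomial.C (P k i)) (l : Row T ⊕ Col T) :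
    ∑ k, (Polynomial.C (canForm (RA T t) l k) + Polynomial.X * Polynomial.C (canForm (RB T t) l k)) * y k = 0 := by
  have h0 : ∑ i, Polynomial.C (P l i) * (pencil A B *ᵥ z) i = 0 := by rw [hz]; simp
  rw [← h0]
  have h1 : ∀ i, (pencil A B *ᵥ z) i = ∑ k, (∑ j, (Polynomial.C (A i j) + Polynomial.X * Polynomial.C (B i j)) * Polynomial.C (P k j)) * y k := by
    intro i
    simp only [Matrix.mulVec, dotProduct, pencil, Matrix.add_apply, Matrix.smul_apply, Matrix.map_apply, smul_eq_mul]
    simp only [hy, Finset.mul_sum, Finset.sum_mul]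
    rw [Finset.sum_comm]
    refine Finset.sum_congr rfl fun k _ => Finset.sum_congr rfl fun j _ => ?_
    ring
  simp only [h1, Finset.mul_sum]
  rw [Finset.sum_comm]
  refine Finset.sum_congr rfl fun k _ => ?_
  rw [← (hP l k).1, ← (hP l k).2]
  simp only [Matrix.mulVec, dotProduct, map_sum, map_mul, Finset.mul_sum, Finset.sum_mul, ← Finset.sum_add_distrib, add_mul]
  refine Finset.sum_congr rfl fun i _ => Finset.sum_congr rfl fun j _ => ?_
  ring

lemma kp_sigma {J : Type} [Fintype J] [DecidableEq J] {n : J → ℕ} (f : (Σ b, Fin (n b)) → Polynomial ℂ) (b : J)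
    (hf : ∀ s : (Σ b, Fin (n b)), s.1 ≠ b → f s = 0) : ∑ s, f s = ∑ j : Fin (n b), f ⟨b, j⟩ := by
  rw [Fintype.sum_sigma, Finset.sum_eq_single b]
  · intro b' _ hb'
    exact Finset.sum_eq_zero fun j _ => hf _ hb'
  · intro h; exact absurd (Finset.mem_univ b) h

theorem ker_poly (T : JKType) (t : T.E → Option ℂ) {ι : Type} [Fintype ι] [DecidableEq ι]
    (A B : Matrix ι ι ℂ) (P : Basis (Row T ⊕ Col T) ℂ (ι → ℂ)) (hP : CanonO T t A B P)
    (z : ι → Polynomial ℂ) (hz : pencil A B *ᵥ z = 0) :
    ∃ p : T.κ → Polynomial ℂ, ∀ i, z i = ∑ c, p c * kerVec T P c i := by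
  classical
  obtain ⟨y, hy⟩ : ∃ y : Row T ⊕ Col T → Polynomial ℂ, ∀ i, z i = ∑ k, y k * Polynomial.C (P k i) :=
    ⟨_, kp_repr P z⟩
  have E := kp_eq A B P hP z hz y hy
  -- (2) the columns of the Jordan blocks
  have J2 : ∀ s, y (.inr (.inr s)) = 0 := by
    rintro ⟨b, r0⟩
    have hM : (fun j => y (.inr (.inr ⟨b, j⟩))) = 0 := by
      refine Matrix.eq_zero_of_mulVec_eq_zero (M := fun r j : Fin (T.m b) =>
        Polynomial.C (RA T t (.inr ⟨b, r⟩) (.inr ⟨b, j⟩)) + Polynomial.X * Polynomial.C (RB T t (.inr ⟨b, r⟩) (.inr ⟨b, j⟩))) ?_ ?_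
      · refine kp_jordan_det _ ?_ ?_
        · intro r j hrj
          cases h : t (T.ev b) <;> simp [RA, RB, h, show (r:ℕ) ≠ j by omega, show (r:ℕ) ≠ j + 1 by omega]
        · intro r
          cases h : t (T.ev b) with
          | none => simp [RA, RB, h]
          | some z0 =>
            simp only [RA, RB, h, if_true, map_one, mul_one]
            rw [add_comm]
            exact Polynomial.X_add_C_ne_zero z0
      · funext r
        have := E (.inl (.inr ⟨b, r⟩))
        rw [Fintype.sum_sum_type, Fintype.sum_sum_type, Fintype.sum_sum_type] at this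
        simp only [canForm, RA, RB, map_zero, mul_zero, add_zero, zero_mul, Finset.sum_const_zero, zero_add] at this
        rw [kp_sigma _ b] at this
        · simpa [Matrix.mulVec, dotProduct, RA, RB] using this
        · intro s hs
          simp [Ne.symm hs]
    exact congrFun hM r0
  -- (4) the rows of the Jordan blocks
  have J4 : ∀ s, y (.inl (.inr s)) = 0 := by
    rintro ⟨b, r0⟩
    have hM : (fun j => y (.inl (.inr ⟨b, j⟩))) = 0 := by
      refine Matrix.eq_zero_of_mulVec_eq_zero (M := (Matrix.of (fun r j : Fin (T.m b) =>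
        Polynomial.C (RA T t (.inr ⟨b, r⟩) (.inr ⟨b, j⟩)) + Polynomial.X * Polynomial.C (RB T t (.inr ⟨b, r⟩) (.inr ⟨b, j⟩))))ᵀ) ?_ ?_
      · rw [Matrix.det_transpose]
        refine kp_jordan_det _ ?_ ?_
        · intro r j hrj
          cases h : t (T.ev b) <;> simp [RA, RB, h, show (r:ℕ) ≠ j by omega, show (r:ℕ) ≠ j + 1 by omega]
        · intro r
          cases h : t (T.ev b) with
          | none => simp [RA, RB, h]
          | some z0 =>
            simp only [Matrix.of_apply, RA, RB, h, if_true, map_one, mul_one]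
            rw [add_comm]
            exact Polynomial.X_add_C_ne_zero z0
      · funext r
        have := E (.inr (.inr ⟨b, r⟩))
        rw [Fintype.sum_sum_type, Fintype.sum_sum_type, Fintype.sum_sum_type] at this
        simp only [canForm, RA, RB, map_zero, mul_zero, add_zero, zero_mul, Finset.sum_const_zero, zero_add, neg_zero] at this
        rw [kp_sigma _ b] at this
        · have h2 := congrArg Neg.neg this
          rw [← Finset.sum_neg_distrib, neg_zero] at h2
          rw [Pi.zero_apply, ← h2]
          simp only [Matrix.mulVec, dotProduct, RA, RB, Matrix.transpose_apply, Matrix.of_apply]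
          refine Finset.sum_congr rfl fun j _ => ?_
          simp only [map_neg]
          ring
        · intro s hs
          simp [hs]
    exact congrFun hM r0
  -- (3) the rows of the Kronecker blocks
  have J3 : ∀ s, y (.inl (.inl s)) = 0 := by
    rintro ⟨c, r0⟩
    have hM : (fun j => y (.inl (.inl ⟨c, j⟩))) = 0 := by
      refine Matrix.eq_zero_of_mulVec_eq_zero (M := fun j r : Fin (T.k c) =>
        if (j:ℕ) = r then Polynomial.X else if (j:ℕ) = r + 1 then 1 else 0) ?_ ?_
      · refine kp_jordan_det _ ?_ ?_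
        · intro r j hrj
          simp [show (r:ℕ) ≠ j by omega, show (r:ℕ) ≠ j + 1 by omega]
        · intro r
          simp [Polynomial.X_ne_zero]
      · funext j
        have := E (.inr (.inl ⟨c, j.castSucc⟩))
        rw [Fintype.sum_sum_type, Fintype.sum_sum_type, Fintype.sum_sum_type] at this
        simp only [canForm, RA, RB, map_zero, mul_zero, add_zero, zero_mul, Finset.sum_const_zero, zero_add, neg_zero] at this
        rw [kp_sigma _ c] at this
        · have h2 := congrArg Neg.neg this
          rw [← Finset.sum_neg_distrib, neg_zero] at h2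
          rw [Pi.zero_apply]
          refine Eq.trans ?_ h2
          simp only [Matrix.mulVec, dotProduct, Fin.val_castSucc, true_and]
          refine Finset.sum_congr rfl fun r _ => ?_
          by_cases h1 : (j:ℕ) = r
          · simp [h1]
          · by_cases h3 : (j:ℕ) = r + 1
            · simp [h3]
            · simp [h1, h3]
        · intro s hs
          simp [hs]
    exact congrFun hM r0
  -- (1) the columns of the Kronecker blocks
  have J1 : ∀ (c : T.κ) (n : ℕ) (hn : n < T.k c + 1), y (.inr (.inl ⟨c, ⟨n, hn⟩⟩)) =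
      (-Polynomial.X) ^ n * y (.inr (.inl ⟨c, 0⟩)) := by
    intro c n
    induction n with
    | zero => intro hn; simp
    | succ n ih =>
      intro hn
      have := E (.inl (.inl ⟨c, ⟨n, by omega⟩⟩))
      rw [Fintype.sum_sum_type, Fintype.sum_sum_type, Fintype.sum_sum_type] at this
      simp only [canForm, RA, RB, map_zero, mul_zero, add_zero, zero_mul, Finset.sum_const_zero, zero_add, neg_zero] at this
      rw [kp_sigma _ c] at this
      · simp only [true_and, add_mul, Finset.sum_add_distrib] at this
        rw [Finset.sum_eq_single ⟨n+1, hn⟩, Finset.sum_eq_single ⟨n, by omega⟩] at this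
        · simp only [if_true, map_one, one_mul, mul_one] at this
          rw [ih (by omega)] at this
          rw [eq_neg_of_add_eq_zero_left this]
          ring
        · intro j _ hj
          rw [if_neg]
          · simp
          · intro h; exact hj (Fin.ext h)
        · simp
        · intro j _ hj
          rw [if_neg]
          · simp
          · intro h; exact hj (Fin.ext h)
        · simp
      · intro s hs
        simp [Ne.symm hs]
  refine ⟨fun c => y (.inr (.inl ⟨c, 0⟩)), fun i => ?_⟩
  rw [hy i, Fintype.sum_sum_type, Fintype.sum_sum_type, Fintype.sum_sum_type]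
  simp only [J2, J3, J4, zero_mul, Finset.sum_const_zero, zero_add, add_zero]
  rw [Fintype.sum_sigma]
  refine Finset.sum_congr rfl fun c _ => ?_
  rw [kerVec, Finset.mul_sum]
  refine Finset.sum_congr rfl fun j _ => ?_
  rw [J1 c j.1 j.2]
  ring

end Pool.Agent.Helper783.JK
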