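import Pool.Agent.Helper783.JK.Defs

open Module MvPolynomial Matrix

namespace Pool.Agent.Helper783.JK



theorem wedge_zero {ι : Type} [Fintype ι] (E0 : Matrix ι ι ℂ) (hE0 : E0ᵀ = -E0) (δ : ι → ℂ)
    (hδ : ∀ i j k, δ i * E0 j k + δ j * E0 k i + δ k * E0 i j = 0)
    (c : ℂ) (hc : c ≠ 0) (f1 f2 α1 α2 : ι → ℂ) (hf : LinearIndependent ℂ ![f1, f2])
    (h1 : E0 *ᵥ α1 = c • f1) (h2 : E0 *ᵥ α2 = c • f2) (h12 : α2 ⬝ᵥ f1 = 0) : δ = 0 := by
  classical
  have hskew : ∀ i j, E0 i j = - E0 j i := by
    intro i j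
    have := congrFun (congrFun hE0 j) i
    simpa [Matrix.transpose_apply] using this
  have key : ∀ (α f : ι → ℂ), E0 *ᵥ α = c • f → ∀ i k,
      (∑ j, δ j * α j) * E0 k i = c * (δ i * f k - δ k * f i) := by
    intro α f hα i k
    have ha : ∀ i, ∑ j, E0 i j * α j = c * f i := by
      intro i
      have := congrFun hα i
      simpa [Matrix.mulVec, dotProduct] using this
    have hb : ∀ k, ∑ j, E0 j k * α j = -(c * f k) := by
      intro k
      rw [← ha k, ← Finset.sum_neg_distrib]
      refine Finset.sum_congr rfl fun j _ => ?_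
      rw [hskew j k]; ring
    have hs : ∑ j, (δ i * E0 j k + δ j * E0 k i + δ k * E0 i j) * α j = 0 := by
      refine Finset.sum_eq_zero fun j _ => ?_
      rw [hδ i j k, zero_mul]
    have he : ∑ j, (δ i * E0 j k + δ j * E0 k i + δ k * E0 i j) * α j
        = δ i * (∑ j, E0 j k * α j) + (∑ j, δ j * α j) * E0 k i
          + δ k * (∑ j, E0 i j * α j) := by
      rw [Finset.mul_sum, Finset.mul_sum, Finset.sum_mul, ← Finset.sum_add_distrib,
        ← Finset.sum_add_distrib]
      refine Finset.sum_congr rfl fun j _ => ?_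
      ring
    rw [he, hb k, ha i] at hs
    linear_combination hs
  have k1 := key α1 f1 h1
  have k2 := key α2 f2 h2
  set s1 : ℂ := ∑ j, δ j * α1 j with hs1
  set s2 : ℂ := ∑ j, δ j * α2 j with hs2
  have ha2 : ∀ i, ∑ j, E0 i j * α2 j = c * f2 i := by
    intro i
    have := congrFun h2 i
    simpa [Matrix.mulVec, dotProduct] using this
  have h12' : ∑ i, α2 i * f1 i = 0 := by simpa [dotProduct] using h12
  have hrel : ∀ k, s1 * (c * f2 k) = c * (s2 * f1 k) := by
    intro k
    have e1 : s1 * (c * f2 k) = ∑ i, (s1 * E0 k i) * α2 i := by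
      rw [← ha2 k, Finset.mul_sum]
      refine Finset.sum_congr rfl fun i _ => ?_
      ring
    rw [e1]
    have e2 : ∑ i, (s1 * E0 k i) * α2 i
        = c * ((∑ i, δ i * α2 i) * f1 k) - c * δ k * ∑ i, α2 i * f1 i := by
      rw [Finset.sum_mul, Finset.mul_sum, Finset.mul_sum, ← Finset.sum_sub_distrib]
      refine Finset.sum_congr rfl fun i _ => ?_
      rw [k1 i k]; ring
    rw [e2, h12', mul_zero, sub_zero]
  have hind := LinearIndependent.pair_iff.mp hf
  have hs : s2 = 0 ∧ s1 = 0 := by
    have h := hind s2 (-s1) (by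
      funext k
      have := hrel k
      have h' : c * (s2 * f1 k + -s1 * f2 k) = 0 := by linear_combination -this
      have h'' := (mul_eq_zero.mp h').resolve_left hc
      simpa using h'')
    exact ⟨h.1, by simpa using h.2⟩
  have c1 : ∀ i k, δ i * f1 k = δ k * f1 i := by
    intro i k
    have := k1 i k
    rw [hs.2, zero_mul] at this
    have h' := (mul_eq_zero.mp this.symm).resolve_left hc
    linear_combination h'
  have c2 : ∀ i k, δ i * f2 k = δ k * f2 i := by
    intro i k
    have := k2 i k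
    rw [hs.1, zero_mul] at this
    have h' := (mul_eq_zero.mp this.symm).resolve_left hc
    linear_combination h'
  by_contra hne
  obtain ⟨i, hi⟩ : ∃ i, δ i ≠ 0 := by
    by_contra hcon
    push Not at hcon
    exact hne (funext hcon)
  have h := hind (f2 i) (-(f1 i)) (by
    funext k
    have e1 := c1 i k
    have e2 := c2 i k
    have h' : δ i * (f2 i * f1 k + -(f1 i) * f2 k) = 0 := by
      linear_combination (f2 i) * e1 - (f1 i) * e2
    have h'' := (mul_eq_zero.mp h').resolve_left hi
    simpa using h'')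
  have hf1i : f1 i = 0 := by simpa using h.2
  have hf1 : f1 = 0 := by
    funext k
    have e1 := c1 i k
    rw [hf1i, mul_zero] at e1
    exact (mul_eq_zero.mp e1).resolve_left hi
  have h3 := hind 1 0 (by rw [hf1]; simp)
  exact one_ne_zero h3.1

end Pool.Agent.Helper783.JK
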