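import Pool.Agent.Helper783.JK.Defs
import Pool.Agent.Helper783.JK.P_jacobi_contract
import Pool.Agent.Helper783.JK.P_wedge_zero
import Pool.Agent.Helper783.JK.P_kerVec_ker
import Pool.Agent.Helper783.JK.P_ker_poly
import Pool.Agent.Helper783.JK.P_jord_inv2
import Pool.Agent.Helper783.JK.P_jord_vec2

open Module MvPolynomial Matrix

namespace Pool.Agent.Helper783.JK



theorem bd2_skew {T : JKType} {ι : Type} [Fintype ι] [DecidableEq ι] (A : Matrix ι ι ℂ)
    (P : Basis (Row T ⊕ Col T) ℂ (ι → ℂ)) (R : Row T → Col T → ℂ)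
    (hA : ∀ i j, P i ⬝ᵥ (A *ᵥ P j) = canForm R i j) : Aᵀ = -A := by
  have hs : ∀ i j, canForm R i j = - canForm R j i := by
    intro i j
    cases i <;> cases j <;> simp [canForm]
  have h1 : Matrix.toBilin' Aᵀ = Matrix.toBilin' (-A) := by
    refine LinearMap.BilinForm.ext_basis P fun i j => ?_
    rw [Matrix.toBilin'_apply', Matrix.toBilin'_apply', Matrix.neg_mulVec, dotProduct_neg, hA,
      Matrix.mulVec_transpose, dotProduct_comm, ← Matrix.dotProduct_mulVec, hA, hs j i]
  exact Matrix.toBilin'.injective h1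

lemma bd2_split {ι J M : Type} [Fintype ι] [Fintype J] [AddCommMonoid M] {r : ℕ} {j : J → ι}
    {s : Fin r → ι} (hjs : Function.Bijective (Sum.elim j s)) (F : ι → M) :
    ∑ i, F i = ∑ k, F (j k) + ∑ c, F (s c) := by
  rw [← (Equiv.ofBijective _ hjs).sum_comp F, Fintype.sum_sum_type]
  rfl

/-- the projection -/
def prjR {R : Type} [CommRing R] {ι : Type} {r : ℕ} (g : R) (Z : Matrix ι (Fin r) R)
    (s : Fin r → ι) (u : ι → R) : ι → R := fun i => g * u i - ∑ c, Z i c * u (s c)

lemma prjR_s {R : Type} [CommRing R] {ι : Type} {r : ℕ} {g : R} {Z : Matrix ι (Fin r) R}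
    {s : Fin r → ι} (hZ : ∀ c c', Z (s c) c' = if c = c' then g else 0) (u : ι → R) (c : Fin r) :
    prjR g Z s u (s c) = 0 := by
  unfold prjR
  rw [Finset.sum_eq_single c]
  · rw [hZ, if_pos rfl, sub_self]
  · intro b _ hb
    rw [hZ, if_neg (fun h => hb h.symm), zero_mul]
  · intro h; exact absurd (Finset.mem_univ c) h

lemma prjR_ker {R : Type} [CommRing R] {ι : Type} [Fintype ι] {r : ℕ} {g : R}
    {Z : Matrix ι (Fin r) R} {s : Fin r → ι} (M : Matrix ι ι R) (hMZ : M * Z = 0) (u : ι → R) :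
    M *ᵥ prjR g Z s u = g • (M *ᵥ u) := by
  have h : prjR g Z s u = g • u - Z *ᵥ (fun c => u (s c)) := by
    funext i
    rfl
  rw [h, Matrix.mulVec_sub, Matrix.mulVec_smul, Matrix.mulVec_mulVec, hMZ, Matrix.zero_mulVec,
    sub_zero]

lemma prjR_sub {R : Type} [CommRing R] {ι J : Type} [Fintype ι] [Fintype J] {r : ℕ} {g : R}
    {Z : Matrix ι (Fin r) R} {j : J → ι} {s : Fin r → ι}
    (hjs : Function.Bijective (Sum.elim j s)) (M : Matrix ι ι R) (hMZ : M * Z = 0)
    (hZ : ∀ c c', Z (s c) c' = if c = c' then g else 0) (u : ι → R) :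
    (M.submatrix j j) *ᵥ (fun k => prjR g Z s u (j k)) = fun i => g * (M *ᵥ u) (j i) := by
  funext i
  have h := congrFun (prjR_ker (g := g) (s := s) M hMZ u) (j i)
  rw [Matrix.mulVec, dotProduct, bd2_split hjs] at h
  simp only [prjR_s hZ, mul_zero, Finset.sum_const_zero, add_zero] at h
  exact h

theorem bad_delta2 (T : JKType) (t : T.E → ℂ) (ht : Function.Injective t) {ι J : Type}
    [Fintype ι] [DecidableEq ι] [Fintype J] [DecidableEq J] (A B : Matrix ι ι ℂ)
    (P : Basis (Row T ⊕ Col T) ℂ (ι → ℂ)) (hP : CanonO T (fun e => some (t e)) A B P)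
    (r : ℕ) (j : J → ι) (s : Fin r → ι) (hjs : Function.Bijective (Sum.elim j s))
    (Z : Matrix ι (Fin r) (Polynomial ℂ)) (g0 : Polynomial ℂ) (hMZ : pencil A B * Z = 0)
    (hZ : ∀ c c', Z (s c) c' = if c = c' then g0 else 0)
    (EE : Matrix J J (Polynomial ℂ)) (f : Polynomial ℂ) (hf : f ≠ 0)
    (hE : (pencil A B).submatrix j j * EE = f • (1 : Matrix J J (Polynomial ℂ)))
    (b1 b2 : T.β) (hb : b1 ≠ b2) (hev : T.ev b1 = T.ev b2) (hm12 : T.m b1 = T.m b2)
    (hmax : ∀ b, T.ev b = T.ev b1 → T.m b ≤ T.m b1)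
    (hg0 : g0.eval (- t (T.ev b1)) ≠ 0)
    (hne : ∃ i k, (EE i k).eval (- t (T.ev b1)) ≠ 0) (δ : J → ℂ)
    (hδ : ∀ i k l, δ i * (EE k l).eval (- t (T.ev b1)) + δ k * (EE l i).eval (- t (T.ev b1)) +
      δ l * (EE i k).eval (- t (T.ev b1)) = 0) : δ = 0 := by
  classical
  set L : Matrix ι ι (Polynomial ℂ) := pencil A B with hL
  set τ : ℂ := - t (T.ev b1) with hτ
  have hAs := bd2_skew A P _ (fun i j => (hP i j).1)
  have hBs := bd2_skew B P _ (fun i j => (hP i j).2)
  have hLs : (L.submatrix j j)ᵀ = -(L.submatrix j j) := by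
    ext1 i k
    have h1 : A (j k) (j i) = - A (j i) (j k) := congrFun (congrFun hAs (j i)) (j k)
    have h2 : B (j k) (j i) = - B (j i) (j k) := congrFun (congrFun hBs (j i)) (j k)
    simp only [hL, pencil, Matrix.transpose_apply, Matrix.submatrix_apply, Matrix.add_apply,
      Matrix.map_apply, Matrix.smul_apply, Matrix.neg_apply, h1, h2, map_neg, smul_eq_mul]
    ring
  obtain ⟨hEs, hEL, -⟩ := jacobi_contract (L.submatrix j j) EE f hf hLs hE (fun _ => 0) (by simp)
  obtain ⟨u1, α1, hu1, ho1, ho1', hl1⟩ := jord_vec2 T t A B P hP b1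
  obtain ⟨u2, α2, hu2, ho2, ho2', hl2⟩ := jord_vec2 T t A B P hP b2
  rw [← hev] at hu2
  rw [← hev, ← hm12] at hl2
  rw [← hL] at hl1 hl2
  obtain ⟨χ, hχ, hinv⟩ := jord_inv2 T t ht A B P hP (T.ev b1) (T.m b1) hmax
  rw [← hL] at hinv
  rw [← hτ] at hu1 hu2 hχ
  have hεeq : (Polynomial.X + Polynomial.C (t (T.ev b1)) : Polynomial ℂ)
      = Polynomial.X - Polynomial.C τ := by
    rw [hτ, map_neg, sub_neg_eq_add]
  have hεp : Prime (Polynomial.X + Polynomial.C (t (T.ev b1)) : Polynomial ℂ) := by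
    rw [hεeq]; exact Polynomial.prime_X_sub_C τ
  have hετ : (Polynomial.X + Polynomial.C (t (T.ev b1)) : Polynomial ℂ).eval τ = 0 := by
    rw [hεeq]; simp
  generalize (Polynomial.X + Polynomial.C (t (T.ev b1)) : Polynomial ℂ) = ε at *
  -- projection
  have hmul : ∀ u v : ι → Polynomial ℂ, L *ᵥ u = v →
      ∀ i, f * prjR g0 Z s u (j i) = (EE *ᵥ (fun k => g0 * v (j k))) i := by
    intro u v huv i
    have h := prjR_sub hjs L hMZ hZ u
    rw [huv] at h
    rw [← h, Matrix.mulVec_mulVec, hEL, Matrix.smul_mulVec, Matrix.one_mulVec]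
    rfl
  -- evaluation of the projection
  set G0 : ℂ := g0.eval τ with hG0
  set Z0 : Matrix ι (Fin r) ℂ := Z.map (fun p => p.eval τ) with hZ0
  have hZ0s : ∀ c c', Z0 (s c) c' = if c = c' then G0 else 0 := by
    intro c c'
    rw [hZ0, Matrix.map_apply, hZ]
    split_ifs <;> simp [hG0]
  have hpev : ∀ (u : ι → Polynomial ℂ) (p : ι → ℂ), (∀ i, (u i).eval τ = p i) →
      ∀ i, (prjR g0 Z s u i).eval τ = prjR G0 Z0 s p i := by
    intro u p hup i
    unfold prjR
    rw [Polynomial.eval_sub, Polynomial.eval_mul, Polynomial.eval_finsetSum, hup]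
    simp only [Polynomial.eval_mul, hup]
    rfl
  have hZcol : ∀ (φ : (ι → ℂ) →ₗ[ℂ] ℂ), (∀ s', φ (P (.inr (.inl s'))) = 0) →
      ∀ c, φ (fun i => Z0 i c) = 0 := by
    intro φ hφ c
    have hz : pencil A B *ᵥ (fun i => Z i c) = 0 := by
      funext i
      exact congrFun (congrFun hMZ i) c
    obtain ⟨p, hp⟩ := ker_poly T _ A B P hP _ hz
    have h1 : (fun i => Z0 i c) = ∑ c', ∑ k : Fin (T.k c' + 1),
        (((p c').eval τ) * (-τ) ^ (k : ℕ)) • P (.inr (.inl ⟨c', k⟩)) := by
      funext i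
      rw [hZ0, Matrix.map_apply, hp i, Polynomial.eval_finsetSum, Finset.sum_apply]
      apply Finset.sum_congr rfl
      intro c' _
      rw [Polynomial.eval_mul, kerVec, Polynomial.eval_finsetSum, Finset.mul_sum, Finset.sum_apply]
      apply Finset.sum_congr rfl
      intro k _
      rw [Pi.smul_apply, smul_eq_mul, Polynomial.eval_mul, Polynomial.eval_C, Polynomial.eval_pow,
        Polynomial.eval_neg, Polynomial.eval_X]
      ring
    rw [h1, map_sum]
    apply Finset.sum_eq_zero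
    intro c' _
    rw [map_sum]
    apply Finset.sum_eq_zero
    intro k _
    rw [map_smul, hφ, smul_zero]
  have hφprj : ∀ (φ : (ι → ℂ) →ₗ[ℂ] ℂ), (∀ s', φ (P (.inr (.inl s'))) = 0) →
      ∀ v : ι → ℂ, φ (prjR G0 Z0 s v) = G0 * φ v := by
    intro φ hφ v
    have h1 : prjR G0 Z0 s v = G0 • v - ∑ c, (v (s c)) • (fun i => Z0 i c) := by
      funext i
      simp only [prjR, Pi.sub_apply, Pi.smul_apply, smul_eq_mul, Finset.sum_apply]
      congr 1
      apply Finset.sum_congr rfl
      intro c _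
      ring
    rw [h1, map_sub, map_smul, map_sum]
    simp only [map_smul, hZcol φ hφ, mul_zero, Finset.sum_const_zero, sub_zero, smul_eq_mul]
  set p1 := P (.inl (.inr ⟨b1, ⟨0, T.m_pos b1⟩⟩)) with hp1
  set p2 := P (.inl (.inr ⟨b2, ⟨0, T.m_pos b2⟩⟩)) with hp2
  set f1 : J → ℂ := fun k => prjR G0 Z0 s p1 (j k) with hf1d
  set f2 : J → ℂ := fun k => prjR G0 Z0 s p2 (j k) with hf2d
  have hidx : (Sum.inl (Sum.inr ⟨b1, ⟨0, T.m_pos b1⟩⟩) : Row T ⊕ Col T) ≠
      Sum.inl (Sum.inr ⟨b2, ⟨0, T.m_pos b2⟩⟩) := by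
    intro h
    exact hb (congrArg Sigma.fst (Sum.inr_injective (Sum.inl_injective h)))
  have hli : LinearIndependent ℂ ![f1, f2] := by
    rw [LinearIndependent.pair_iff]
    intro a b hab
    have hv0 : prjR G0 Z0 s (a • p1 + b • p2) = 0 := by
      have hlin : ∀ i, prjR G0 Z0 s (a • p1 + b • p2) i =
          a * prjR G0 Z0 s p1 i + b * prjR G0 Z0 s p2 i := by
        intro i
        simp only [prjR, Pi.add_apply, Pi.smul_apply, smul_eq_mul, mul_add, Finset.sum_add_distrib,
          mul_sub, Finset.mul_sum]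
        have e1 : ∀ x, Z0 i x * (a * p1 (s x)) = a * (Z0 i x * p1 (s x)) := fun x => by ring
        have e2 : ∀ x, Z0 i x * (b * p2 (s x)) = b * (Z0 i x * p2 (s x)) := fun x => by ring
        simp only [e1, e2]
        ring
      funext i
      obtain ⟨x, rfl⟩ := hjs.2 i
      rcases x with k | c
      · change prjR G0 Z0 s (a • p1 + b • p2) (j k) = 0
        rw [hlin]
        exact congrFun hab k
      · exact prjR_s hZ0s _ c
    have hφ1 := hφprj (P.coord (Sum.inl (Sum.inr ⟨b1, ⟨0, T.m_pos b1⟩⟩))) (by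
      intro s'
      rw [Basis.coord_apply, Basis.repr_self, Finsupp.single_eq_of_ne]
      simp) (a • p1 + b • p2)
    have hφ2 := hφprj (P.coord (Sum.inl (Sum.inr ⟨b2, ⟨0, T.m_pos b2⟩⟩))) (by
      intro s'
      rw [Basis.coord_apply, Basis.repr_self, Finsupp.single_eq_of_ne]
      simp) (a • p1 + b • p2)
    rw [hv0, map_zero, map_add, map_smul, map_smul, hp1, hp2, Basis.coord_apply, Basis.coord_apply,
      Basis.repr_self, Basis.repr_self, Finsupp.single_eq_same] at hφ1 hφ2
    rw [Finsupp.single_eq_of_ne hidx] at hφ1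
    rw [Finsupp.single_eq_of_ne hidx.symm] at hφ2
    simp only [smul_eq_mul, mul_one, mul_zero, add_zero, zero_add] at hφ1 hφ2
    exact ⟨(mul_eq_zero.1 hφ1.symm).resolve_left hg0, (mul_eq_zero.1 hφ2.symm).resolve_left hg0⟩
  have hα : (fun k => α2 (j k)) ⬝ᵥ f1 = 0 := by
    have h1 := hφprj (Fintype.linearCombination ℂ α2) (by
      intro s'
      rw [Fintype.linearCombination_apply]
      have := ho2' s'
      rw [dotProduct_comm] at this
      exact this) p1
    have h2 : Fintype.linearCombination ℂ α2 p1 = 0 := by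
      rw [Fintype.linearCombination_apply]
      have := ho2 (.inr ⟨b1, ⟨0, T.m_pos b1⟩⟩)
      rw [dotProduct_comm] at this
      exact this
    rw [h2, mul_zero, Fintype.linearCombination_apply, bd2_split hjs] at h1
    simp only [prjR_s hZ0s, zero_smul, Finset.sum_const_zero, add_zero] at h1
    rw [dotProduct_comm]
    exact h1
  have h1 : ∀ i, f * prjR g0 Z s u1 (j i) =
      ε ^ T.m b1 * (g0 * (EE *ᵥ fun i => Polynomial.C (α1 (j i))) i) := by
    intro i
    rw [hmul _ _ hl1 i]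
    have : (fun k => g0 * (ε ^ T.m b1 • fun i => Polynomial.C (α1 i)) (j k)) =
        (ε ^ T.m b1 * g0) • (fun i => Polynomial.C (α1 (j i))) := by
      funext k
      simp only [Pi.smul_apply, smul_eq_mul]
      ring
    rw [this, Matrix.mulVec_smul]
    simp only [Pi.smul_apply, smul_eq_mul]
    ring
  have h2 : ∀ i, f * prjR g0 Z s u2 (j i) =
      ε ^ T.m b1 * (g0 * (EE *ᵥ fun i => Polynomial.C (α2 (j i))) i) := by
    intro i
    rw [hmul _ _ hl2 i]
    have : (fun k => g0 * (ε ^ T.m b1 • fun i => Polynomial.C (α2 i)) (j k)) =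
        (ε ^ T.m b1 * g0) • (fun i => Polynomial.C (α2 (j i))) := by
      funext k
      simp only [Pi.smul_apply, smul_eq_mul]
      ring
    rw [this, Matrix.mulVec_smul]
    simp only [Pi.smul_apply, smul_eq_mul]
    ring
  have hf1 : f1 ≠ 0 := hli.ne_zero 0
  obtain ⟨i0, hi0⟩ := Function.ne_iff.1 hf1
  have hnd : ¬ ε ∣ prjR g0 Z s u1 (j i0) := by
    rintro ⟨q, hq⟩
    apply hi0
    rw [hf1d]
    change prjR G0 Z0 s p1 (j i0) = 0
    rw [← hpev u1 p1 hu1, hq, Polynomial.eval_mul, hετ, zero_mul]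
  obtain ⟨ψ, hψ⟩ := hεp.pow_dvd_of_dvd_mul_right (T.m b1) hnd (a := f)
    (⟨_, h1 i0⟩)
  have hεμ : ε ^ T.m b1 ≠ 0 := pow_ne_zero _ hεp.ne_zero
  have h1' : ∀ i, ψ * prjR g0 Z s u1 (j i) =
      g0 * (EE *ᵥ fun i => Polynomial.C (α1 (j i))) i := by
    intro i
    apply mul_left_cancel₀ hεμ
    rw [← h1 i, hψ]; ring
  have h2' : ∀ i, ψ * prjR g0 Z s u2 (j i) =
      g0 * (EE *ᵥ fun i => Polynomial.C (α2 (j i))) i := by
    intro i
    apply mul_left_cancel₀ hεμ
    rw [← h2 i, hψ]; ring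
  set E0 : Matrix J J ℂ := EE.map (fun p => p.eval τ) with hE0
  have hev0 : ∀ (γ : J → ℂ) i, ((EE *ᵥ fun i => Polynomial.C (γ i)) i).eval τ = (E0 *ᵥ γ) i := by
    intro γ i
    simp only [Matrix.mulVec, dotProduct, Polynomial.eval_finsetSum, Polynomial.eval_mul,
      Polynomial.eval_C, hE0, Matrix.map_apply]
  have e1 : E0 *ᵥ (fun k => α1 (j k)) = (G0⁻¹ * ψ.eval τ) • f1 := by
    funext i
    have h3 := congrArg (Polynomial.eval τ) (h1' i)
    rw [Polynomial.eval_mul, Polynomial.eval_mul, hev0, hpev u1 p1 hu1] at h3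
    rw [Pi.smul_apply, smul_eq_mul, mul_assoc]
    change _ = G0⁻¹ * (ψ.eval τ * prjR G0 Z0 s p1 (j i))
    rw [h3, ← mul_assoc, inv_mul_cancel₀ hg0, one_mul]
  have e2 : E0 *ᵥ (fun k => α2 (j k)) = (G0⁻¹ * ψ.eval τ) • f2 := by
    funext i
    have h3 := congrArg (Polynomial.eval τ) (h2' i)
    rw [Polynomial.eval_mul, Polynomial.eval_mul, hev0, hpev u2 p2 hu2] at h3
    rw [Pi.smul_apply, smul_eq_mul, mul_assoc]
    change _ = G0⁻¹ * (ψ.eval τ * prjR G0 Z0 s p2 (j i))
    rw [h3, ← mul_assoc, inv_mul_cancel₀ hg0, one_mul]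
  have hc : ψ.eval τ ≠ 0 := by
    intro hc
    have hz : ∀ γ : J → ℂ, E0 *ᵥ γ = 0 := by
      intro γ
      set eqv := Equiv.ofBijective _ hjs with heqv
      set γ' : ι → Polynomial ℂ := fun i => Sum.elim (fun k => g0 * Polynomial.C (γ k))
        (fun c => - ∑ k, Z (j k) c * Polynomial.C (γ k)) (eqv.symm i) with hγ'
      have hγj : ∀ k, γ' (j k) = g0 * Polynomial.C (γ k) := by
        intro k
        have : eqv.symm (j k) = Sum.inl k := eqv.symm_apply_eq.2 rfl
        rw [hγ']
        simp only [this, Sum.elim_inl]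
      have hγs : ∀ c, γ' (s c) = - ∑ k, Z (j k) c * Polynomial.C (γ k) := by
        intro c
        have : eqv.symm (s c) = Sum.inr c := eqv.symm_apply_eq.2 rfl
        rw [hγ']
        simp only [this, Sum.elim_inr]
      obtain ⟨w, hw⟩ := hinv γ' (by
        intro c
        have hk : L *ᵥ kerVec T P c = 0 := kerVec_ker T _ A B P hP c
        have hu0 : ∀ i, prjR g0 Z s (kerVec T P c) (j i) = 0 := by
          intro i
          have h3 := hmul _ _ hk i
          have h4 : (fun k => g0 * (0 : ι → Polynomial ℂ) (j k)) = 0 := by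
            funext k
            simp
          rw [h4, Matrix.mulVec_zero] at h3
          exact (mul_eq_zero.1 h3).resolve_left hf
        rw [bd2_split hjs]
        simp only [hγj, hγs]
        have h5 : ∀ c', (- ∑ k, Z (j k) c' * Polynomial.C (γ k)) * kerVec T P c (s c') =
            ∑ k, -(Polynomial.C (γ k) * (Z (j k) c' * kerVec T P c (s c'))) := by
          intro c'
          rw [neg_mul, Finset.sum_mul, ← Finset.sum_neg_distrib]
          apply Finset.sum_congr rfl
          intro k _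
          ring
        simp only [h5]
        rw [Finset.sum_comm, ← Finset.sum_add_distrib]
        apply Finset.sum_eq_zero
        intro k _
        have h6 := hu0 k
        unfold prjR at h6
        rw [Finset.sum_neg_distrib, ← Finset.mul_sum]
        have h7 : g0 * Polynomial.C (γ k) * kerVec T P c (j k) +
            -(Polynomial.C (γ k) * ∑ c', Z (j k) c' * kerVec T P c (s c')) =
            Polynomial.C (γ k) * (g0 * kerVec T P c (j k) -
              ∑ c', Z (j k) c' * kerVec T P c (s c')) := by ring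
        rw [h7, h6, mul_zero])
      funext i
      have h3 := hmul _ _ hw i
      have h3' : (fun k => g0 * ((ε ^ T.m b1 * χ) • γ') (j k)) =
          (ε ^ T.m b1 * (g0 * g0 * χ)) • (fun k => Polynomial.C (γ k)) := by
        funext k
        rw [Pi.smul_apply, Pi.smul_apply, hγj, smul_eq_mul, smul_eq_mul]
        ring
      rw [h3', Matrix.mulVec_smul] at h3
      change f * prjR g0 Z s w (j i) =
        ε ^ T.m b1 * (g0 * g0 * χ) * (EE *ᵥ fun i => Polynomial.C (γ i)) i at h3
      have h4 : ψ * prjR g0 Z s w (j i) =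
          (g0 * g0 * χ) * (EE *ᵥ fun i => Polynomial.C (γ i)) i := by
        apply mul_left_cancel₀ hεμ
        rw [← mul_assoc, ← mul_assoc, ← h3, hψ]
      have h5 := congrArg (Polynomial.eval τ) h4
      rw [Polynomial.eval_mul, Polynomial.eval_mul, hc, zero_mul, hev0] at h5
      have h7 : (g0 * g0 * χ).eval τ ≠ 0 := by
        rw [Polynomial.eval_mul, Polynomial.eval_mul]
        exact mul_ne_zero (mul_ne_zero hg0 hg0) hχ
      have h6 := (mul_eq_zero.1 h5.symm).resolve_left h7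
      simpa using h6
    obtain ⟨i, k, hij⟩ := hne
    apply hij
    have h3 := congrFun (hz (Pi.single k 1)) i
    rw [Matrix.mulVec_single_one] at h3
    exact h3
  have hE0s : E0ᵀ = -E0 := by
    ext i k
    have h3 : EE k i = - EE i k := congrFun (congrFun hEs i) k
    simp only [hE0, Matrix.transpose_apply, Matrix.map_apply, Matrix.neg_apply, h3,
      Polynomial.eval_neg]
  exact wedge_zero E0 hE0s δ hδ (G0⁻¹ * ψ.eval τ) (mul_ne_zero (inv_ne_zero hg0) hc) _ _
    (fun k => α1 (j k)) (fun k => α2 (j k)) hli e1 e2 hα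

end Pool.Agent.Helper783.JK
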