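import Pool.Agent.Helper783.JK.Defs

open Module MvPolynomial Matrix

namespace Pool.Agent.Helper783.JK



theorem hc_bil {g : Type} [LieRing g] [LieAlgebra ℂ g] {ι : Type} [Fintype ι]
    [DecidableEq ι] (e : Basis ι ℂ g) (x : ι → ℂ) (v w : g) :
    (e.equivFun v) ⬝ᵥ (((fullMat e).map (eval x)) *ᵥ (e.equivFun w)) =
      lieForm (e.constr ℂ x) v w := by
  have hm : ∀ i k, ((fullMat e).map (eval x)) i k = (e.constr ℂ x) ⁅e i, e k⁆ := by
    intro i k
    rw [Matrix.map_apply, Basis.constr_apply_fintype]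
    unfold fullMat
    rw [map_sum]
    refine Finset.sum_congr rfl fun l _ => ?_
    rw [map_mul, eval_C, eval_X]
    rfl
  have hv : ⁅v, w⁆ = ∑ i, ∑ k, (e.equivFun v i * e.equivFun w k) • ⁅e i, e k⁆ := by
    conv_lhs => rw [← e.sum_equivFun v, ← e.sum_equivFun w]
    rw [sum_lie]
    refine Finset.sum_congr rfl fun i _ => ?_
    rw [lie_sum]
    refine Finset.sum_congr rfl fun k _ => ?_
    rw [smul_lie, lie_smul, smul_smul]
  unfold lieForm
  rw [hv, map_sum]
  unfold dotProduct Matrix.mulVec dotProduct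
  refine Finset.sum_congr rfl fun i _ => ?_
  rw [map_sum, Finset.mul_sum]
  refine Finset.sum_congr rfl fun k _ => ?_
  show e.equivFun v i * (((fullMat e).map (eval x)) i k * e.equivFun w k) = _
  rw [hm, map_smul, smul_eq_mul]
  ring

theorem has_canon {g : Type} [LieRing g] [LieAlgebra ℂ g] (T : JKType) {ι : Type} [Fintype ι]
    [DecidableEq ι] (e : Basis ι ℂ g) (x a : ι → ℂ)
    (h : HasType (lieForm (e.constr ℂ x)) (lieForm (e.constr ℂ a)) T) :
    ∃ (t : T.E → Option ℂ) (P : Basis (Row T ⊕ Col T) ℂ (ι → ℂ)), Function.Injective t ∧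
      CanonO T t ((fullMat e).map (eval x)) ((fullMat e).map (eval a)) P := by
  obtain ⟨t, ht, bb, hb⟩ := h
  refine ⟨t, bb.map e.equivFun, ht, ?_⟩
  intro i j
  rw [Basis.map_apply, Basis.map_apply, hc_bil, hc_bil]
  exact hb i j

end Pool.Agent.Helper783.JK
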