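import Pool.Agent.Helper783.JK.Defs

open Module MvPolynomial Matrix

namespace Pool.Agent.Helper783.JK



theorem aeval_eq_eval' {σ : Type} (f : σ → ℂ) (p : MvPolynomial σ ℂ) :
    MvPolynomial.aeval f p = MvPolynomial.eval f p := rfl

theorem jk_any_basis {g : Type} [LieRing g] [LieAlgebra ℂ g] (T : JKType)
    (hT : IsJKInvariant g T) {ι : Type} [Fintype ι] (e : Basis ι ℂ g) :
    Gen ι (fun x a => HasType (lieForm (e.constr ℂ x)) (lieForm (e.constr ℂ a)) T) := by
  obtain ⟨n, b, F, hF, h⟩ := hT
  let Li : Fin n → MvPolynomial (ι ⊕ ι) ℂ := fun i =>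
    ∑ l, MvPolynomial.C (e.repr (b i) l) * MvPolynomial.X (Sum.inl l)
  let Ri : Fin n → MvPolynomial (ι ⊕ ι) ℂ := fun i =>
    ∑ l, MvPolynomial.C (e.repr (b i) l) * MvPolynomial.X (Sum.inr l)
  let G : MvPolynomial (ι ⊕ ι) ℂ := MvPolynomial.aeval (Sum.elim Li Ri) F
  have hG : ∀ x a : ι → ℂ, eval (Sum.elim x a) G =
      eval (Sum.elim (fun i => e.constr ℂ x (b i)) (fun i => e.constr ℂ a (b i))) F := by
    intro x a
    have h1 : eval (Sum.elim x a) G =
        MvPolynomial.aeval (Sum.elim x a) (MvPolynomial.aeval (Sum.elim Li Ri) F) := rfl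
    rw [h1, MvPolynomial.comp_aeval_apply, aeval_eq_eval']
    have h2 : (fun i => MvPolynomial.aeval (R := ℂ) (Sum.elim x a) ((Sum.elim Li Ri) i)) =
        Sum.elim (fun i => e.constr ℂ x (b i)) (fun i => e.constr ℂ a (b i)) := by
      funext s
      rcases s with i | i
      · simp only [Sum.elim_inl, Li, map_sum, map_mul, aeval_eq_eval',
          MvPolynomial.eval_C, MvPolynomial.eval_X, Basis.constr_apply_fintype,
          Basis.equivFun_apply, smul_eq_mul]
      · simp only [Sum.elim_inr, Ri, map_sum, map_mul, aeval_eq_eval',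
          MvPolynomial.eval_C, MvPolynomial.eval_X, Basis.constr_apply_fintype,
          Basis.equivFun_apply, smul_eq_mul]
    rw [h2]
  refine ⟨G, ?_, ?_⟩
  · intro hG0
    have hex : ∃ z : Fin n ⊕ Fin n → ℂ, eval z F ≠ 0 := by
      by_contra hcon
      push Not at hcon
      apply hF
      apply MvPolynomial.funext
      intro z
      rw [hcon z, map_zero]
    obtain ⟨z, hz⟩ := hex
    let x : ι → ℂ := fun l => (b.constr ℂ (fun i => z (Sum.inl i))) (e l)
    let a : ι → ℂ := fun l => (b.constr ℂ (fun i => z (Sum.inr i))) (e l)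
    have hx : e.constr ℂ x = b.constr ℂ (fun i => z (Sum.inl i)) :=
      e.ext fun l => by rw [Basis.constr_basis]
    have ha : e.constr ℂ a = b.constr ℂ (fun i => z (Sum.inr i)) :=
      e.ext fun l => by rw [Basis.constr_basis]
    apply hz
    have h3 := hG x a
    rw [hG0, map_zero, hx, ha] at h3
    simp only [Basis.constr_basis] at h3
    rw [h3]
    congr 1
    congr 1
    funext s
    rcases s with i | i <;> rfl
  · intro x a hxa
    rw [hG] at hxa
    exact h _ _ hxa

end Pool.Agent.Helper783.JK
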