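import Pool.Agent.Helper783.JK.Defs

open Module MvPolynomial Matrix

namespace Pool.Agent.Helper783.JK



open Classical in
lemma kd_pick {X : Type} [Fintype X] (sz : X → ℕ) (x : X) (n : ℕ)
    (y : (Σ x, Fin (sz x)) → ℂ) :
    ∑ c : (Σ x, Fin (sz x)), (if x = c.1 ∧ (c.2 : ℕ) = n then y c else 0)
      = if h : n < sz x then y ⟨x, ⟨n, h⟩⟩ else 0 := by
  by_cases h : n < sz x
  · rw [dif_pos h, Finset.sum_eq_single ⟨x, ⟨n, h⟩⟩]
    · simp
    · rintro ⟨c1, c2⟩ _ hne
      rw [if_neg]
      rintro ⟨h1, h2⟩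
      apply hne
      simp only at h1 h2
      subst h1
      congr
      exact Fin.ext h2
    · intro h'; exact absurd (Finset.mem_univ _) h'
  · rw [dif_neg h]
    refine Finset.sum_eq_zero ?_
    rintro ⟨c1, c2⟩ _
    rw [if_neg]
    rintro ⟨h1, h2⟩
    simp only at h1 h2
    subst h1
    exact h (h2 ▸ c2.2)

/-- extension by zero -/
noncomputable def kdX {X : Type} {sz : X → ℕ} (y : (Σ x, Fin (sz x)) → ℂ) (x : X) (n : ℕ) : ℂ :=
  if h : n < sz x then y ⟨x, ⟨n, h⟩⟩ else 0

lemma kdX_apply {X : Type} {sz : X → ℕ} (y : (Σ x, Fin (sz x)) → ℂ) (x : X) (i : Fin (sz x)) :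
    kdX y x i = y ⟨x, i⟩ := by
  simp [kdX]

lemma kdX_ge {X : Type} {sz : X → ℕ} (y : (Σ x, Fin (sz x)) → ℂ) (x : X) (n : ℕ)
    (h : sz x ≤ n) : kdX y x n = 0 := by
  simp [kdX, not_lt.mpr h]

/-- diagonal coefficient of the Jordan blocks -/
noncomputable def kdα (T : JKType) (t : T.E → Option ℂ) (s : ℂ) (b : T.β) : ℂ :=
  match t (T.ev b) with
  | some z => z + s
  | none => 1

/-- off-diagonal coefficient of the Jordan blocks -/
noncomputable def kdβ (T : JKType) (t : T.E → Option ℂ) (s : ℂ) (b : T.β) : ℂ :=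
  match t (T.ev b) with
  | some _ => 1
  | none => s

lemma kdα_ne (T : JKType) (t : T.E → Option ℂ) (s : ℂ) (hs : ∀ e, t e ≠ some (-s)) (b : T.β) :
    kdα T t s b ≠ 0 := by
  unfold kdα
  cases h : t (T.ev b) with
  | none => simp
  | some z =>
    intro h0
    simp only at h0
    apply hs (T.ev b)
    rw [h]
    congr 1
    linear_combination h0

open Classical in
lemma kd_inl (T : JKType) (t : T.E → Option ℂ) (s : ℂ) (r : Σ c : T.κ, Fin (T.k c))
    (c : Σ c : T.κ, Fin (T.k c + 1)) (z : ℂ) :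
    (RA T t (.inl r) (.inl c) + s * RB T t (.inl r) (.inl c)) * z =
      (if r.1 = c.1 ∧ (c.2 : ℕ) = (r.2 : ℕ) + 1 then z else 0) +
      s * (if r.1 = c.1 ∧ (c.2 : ℕ) = (r.2 : ℕ) then z else 0) := by
  simp only [RA, RB]
  split_ifs <;> ring

open Classical in
lemma kd_inr (T : JKType) (t : T.E → Option ℂ) (s : ℂ) (r : Σ b : T.β, Fin (T.m b))
    (c : Σ b : T.β, Fin (T.m b)) (z : ℂ) :
    (RA T t (.inr r) (.inr c) + s * RB T t (.inr r) (.inr c)) * z =
      kdα T t s r.1 * (if r.1 = c.1 ∧ (c.2 : ℕ) = (r.2 : ℕ) then z else 0) +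
      kdβ T t s r.1 * (if r.1 = c.1 ∧ (r.2 : ℕ) = (c.2 : ℕ) + 1 then z else 0) := by
  simp only [RA, RB, kdα, kdβ]
  by_cases h : r.1 = c.1
  · simp only [h, if_true, true_and]
    cases t (T.ev c.1) with
    | none =>
      by_cases h1 : (r.2 : ℕ) = (c.2 : ℕ)
      · have h2 : (c.2 : ℕ) = (r.2 : ℕ) := h1.symm
        have h3 : ¬ (r.2 : ℕ) = (c.2 : ℕ) + 1 := by omega
        simp only [if_pos h1, if_pos h2, if_neg h3]; ring
      · have h2 : ¬ (c.2 : ℕ) = (r.2 : ℕ) := fun h => h1 h.symm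
        simp only [if_neg h1, if_neg h2]
        split_ifs <;> ring
    | some z' =>
      by_cases h1 : (r.2 : ℕ) = (c.2 : ℕ)
      · have h2 : (c.2 : ℕ) = (r.2 : ℕ) := h1.symm
        have h3 : ¬ (r.2 : ℕ) = (c.2 : ℕ) + 1 := by omega
        simp only [if_pos h1, if_pos h2, if_neg h3]; ring
      · have h2 : ¬ (c.2 : ℕ) = (r.2 : ℕ) := fun h => h1 h.symm
        simp only [if_neg h1, if_neg h2]
        split_ifs <;> ring
  · simp [h]

/-- row equations, Kronecker part -/
lemma kd_rowK (T : JKType) (t : T.E → Option ℂ) (s : ℂ) (y : Col T → ℂ)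
    (r : Σ c : T.κ, Fin (T.k c)) :
    ∑ c : Col T, (RA T t (.inl r) c + s * RB T t (.inl r) c) * y c =
      kdX (fun q => y (.inl q)) r.1 ((r.2 : ℕ) + 1) + s * kdX (fun q => y (.inl q)) r.1 r.2 := by
  classical
  rw [Fintype.sum_sum_type]
  have h2 : ∑ c : (Σ b : T.β, Fin (T.m b)),
      (RA T t (.inl r) (.inr c) + s * RB T t (.inl r) (.inr c)) * y (.inr c) = 0 :=
    Finset.sum_eq_zero fun c _ => by simp [RA, RB]
  rw [h2, add_zero]
  simp only [kd_inl]
  rw [Finset.sum_add_distrib, ← Finset.mul_sum]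
  congr 1
  · exact kd_pick _ _ _ (fun q => y (.inl q))
  · congr 1
    exact kd_pick _ _ _ (fun q => y (.inl q))

/-- row equations, Jordan part -/
lemma kd_rowJ (T : JKType) (t : T.E → Option ℂ) (s : ℂ) (y : Col T → ℂ)
    (r : Σ b : T.β, Fin (T.m b)) :
    ∑ c : Col T, (RA T t (.inr r) c + s * RB T t (.inr r) c) * y c =
      kdα T t s r.1 * kdX (fun q => y (.inr q)) r.1 r.2 +
      kdβ T t s r.1 * (if (r.2 : ℕ) = 0 then 0 else
        kdX (fun q => y (.inr q)) r.1 ((r.2 : ℕ) - 1)) := by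
  classical
  rw [Fintype.sum_sum_type]
  have h2 : ∑ c : (Σ c : T.κ, Fin (T.k c + 1)),
      (RA T t (.inr r) (.inl c) + s * RB T t (.inr r) (.inl c)) * y (.inl c) = 0 :=
    Finset.sum_eq_zero fun c _ => by simp [RA, RB]
  rw [h2, zero_add]
  simp only [kd_inr]
  rw [Finset.sum_add_distrib, ← Finset.mul_sum, ← Finset.mul_sum]
  congr 1
  · congr 1
    exact kd_pick _ _ _ (fun q => y (.inr q))
  · congr 1
    by_cases h0 : (r.2 : ℕ) = 0
    · rw [if_pos h0]
      refine Finset.sum_eq_zero fun c _ => ?_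
      rw [if_neg]
      rintro ⟨_, h⟩
      omega
    · rw [if_neg h0]
      have h3 : ∀ c : (Σ b : T.β, Fin (T.m b)), (r.1 = c.1 ∧ (r.2 : ℕ) = (c.2 : ℕ) + 1) ↔
          (r.1 = c.1 ∧ (c.2 : ℕ) = (r.2 : ℕ) - 1) := by
        intro c
        constructor
        · rintro ⟨h4, h5⟩; exact ⟨h4, by omega⟩
        · rintro ⟨h4, h5⟩; exact ⟨h4, by omega⟩
      simp only [h3]
      exact kd_pick _ _ _ (fun q => y (.inr q))

/-- column equations, Kronecker part -/
lemma kd_colK (T : JKType) (t : T.E → Option ℂ) (s : ℂ) (y : Row T → ℂ)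
    (c : Σ c : T.κ, Fin (T.k c + 1)) :
    ∑ r : Row T, (RA T t r (.inl c) + s * RB T t r (.inl c)) * y r =
      (if (c.2 : ℕ) = 0 then 0 else kdX (fun q => y (.inl q)) c.1 ((c.2 : ℕ) - 1)) +
      s * kdX (fun q => y (.inl q)) c.1 c.2 := by
  classical
  rw [Fintype.sum_sum_type]
  have h2 : ∑ r : (Σ b : T.β, Fin (T.m b)),
      (RA T t (.inr r) (.inl c) + s * RB T t (.inr r) (.inl c)) * y (.inr r) = 0 :=
    Finset.sum_eq_zero fun r _ => by simp [RA, RB]
  rw [h2, add_zero]
  simp only [kd_inl]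
  rw [Finset.sum_add_distrib, ← Finset.mul_sum]
  have hsym : ∀ (r : Σ c : T.κ, Fin (T.k c)) , (r.1 = c.1) ↔ (c.1 = r.1) :=
    fun r => ⟨Eq.symm, Eq.symm⟩
  congr 1
  · by_cases h0 : (c.2 : ℕ) = 0
    · rw [if_pos h0]
      refine Finset.sum_eq_zero fun r _ => ?_
      rw [if_neg]
      rintro ⟨_, h⟩
      omega
    · rw [if_neg h0]
      have h3 : ∀ r : (Σ c : T.κ, Fin (T.k c)), (r.1 = c.1 ∧ (c.2 : ℕ) = (r.2 : ℕ) + 1) ↔
          (c.1 = r.1 ∧ (r.2 : ℕ) = (c.2 : ℕ) - 1) := by
        intro r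
        constructor
        · rintro ⟨h4, h5⟩; exact ⟨h4.symm, by omega⟩
        · rintro ⟨h4, h5⟩; exact ⟨h4.symm, by omega⟩
      simp only [h3]
      exact kd_pick _ _ _ (fun q => y (.inl q))
  · congr 1
    have h3 : ∀ r : (Σ c : T.κ, Fin (T.k c)), (r.1 = c.1 ∧ (c.2 : ℕ) = (r.2 : ℕ)) ↔
        (c.1 = r.1 ∧ (r.2 : ℕ) = (c.2 : ℕ)) := by
      intro r
      constructor
      · rintro ⟨h4, h5⟩; exact ⟨h4.symm, by omega⟩
      · rintro ⟨h4, h5⟩; exact ⟨h4.symm, by omega⟩
    simp only [h3]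
    exact kd_pick _ _ _ (fun q => y (.inl q))

/-- column equations, Jordan part -/
lemma kd_colJ (T : JKType) (t : T.E → Option ℂ) (s : ℂ) (y : Row T → ℂ)
    (c : Σ b : T.β, Fin (T.m b)) :
    ∑ r : Row T, (RA T t r (.inr c) + s * RB T t r (.inr c)) * y r =
      kdα T t s c.1 * kdX (fun q => y (.inr q)) c.1 c.2 +
      kdβ T t s c.1 * kdX (fun q => y (.inr q)) c.1 ((c.2 : ℕ) + 1) := by
  classical
  rw [Fintype.sum_sum_type]
  have h2 : ∑ r : (Σ c : T.κ, Fin (T.k c)),
      (RA T t (.inl r) (.inr c) + s * RB T t (.inl r) (.inr c)) * y (.inl r) = 0 :=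
    Finset.sum_eq_zero fun r _ => by simp [RA, RB]
  rw [h2, zero_add]
  have h4 : ∀ r : (Σ b : T.β, Fin (T.m b)),
      (RA T t (.inr r) (.inr c) + s * RB T t (.inr r) (.inr c)) * y (.inr r) =
      kdα T t s c.1 * (if c.1 = r.1 ∧ (r.2 : ℕ) = (c.2 : ℕ) then y (.inr r) else 0) +
      kdβ T t s c.1 * (if c.1 = r.1 ∧ (r.2 : ℕ) = (c.2 : ℕ) + 1 then y (.inr r) else 0) := by
    intro r
    rw [kd_inr]
    obtain ⟨r1, r2⟩ := r
    obtain ⟨c1, c2⟩ := c
    by_cases h : r1 = c1
    · subst h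
      simp only [true_and, eq_comm (a := (c2 : ℕ)) (b := (r2 : ℕ))]
    · have h' : ¬ c1 = r1 := fun h1 => h h1.symm
      simp [h, h']
  simp only [h4]
  rw [Finset.sum_add_distrib, ← Finset.mul_sum, ← Finset.mul_sum]
  congr 1
  · congr 1
    exact kd_pick _ _ _ (fun q => y (.inr q))
  · congr 1
    exact kd_pick _ _ _ (fun q => y (.inr q))

/-- the kernel in terms of coordinates -/
lemma kd_ker (T : JKType) (t : T.E → Option ℂ) {ι : Type} [Fintype ι] [DecidableEq ι]
    (A B : Matrix ι ι ℂ) (P : Basis (Row T ⊕ Col T) ℂ (ι → ℂ)) (hP : CanonO T t A B P)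
    (s : ℂ) (v : ι → ℂ) :
    (A + s • B) *ᵥ v = 0 ↔
      (∀ r : Row T, ∑ c : Col T, (RA T t r c + s * RB T t r c) * P.repr v (.inr c) = 0) ∧
      (∀ c : Col T, ∑ r : Row T, (RA T t r c + s * RB T t r c) * P.repr v (.inl r) = 0) := by
  have e1 : ∀ l, P l ⬝ᵥ ((A + s • B) *ᵥ v) =
      ∑ k, (canForm (RA T t) l k + s * canForm (RB T t) l k) * P.repr v k := by
    intro l
    conv_lhs => rw [← P.sum_repr v]
    rw [Matrix.mulVec_sum, dotProduct_sum]
    refine Finset.sum_congr rfl fun k _ => ?_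
    rw [Matrix.mulVec_smul, dotProduct_smul, Matrix.add_mulVec, dotProduct_add,
      Matrix.smul_mulVec, dotProduct_smul, (hP l k).1, (hP l k).2]
    simp only [smul_eq_mul]
    ring
  have e2 : (A + s • B) *ᵥ v = 0 ↔ ∀ l, P l ⬝ᵥ ((A + s • B) *ᵥ v) = 0 := by
    constructor
    · intro h l; rw [h]; simp
    · intro h
      set w := (A + s • B) *ᵥ v with hw
      let L : (ι → ℂ) →ₗ[ℂ] ℂ :=
        { toFun := fun u => u ⬝ᵥ w
          map_add' := fun a b => add_dotProduct _ _ _
          map_smul' := fun a b => by simp }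
      have hL : L = 0 := P.ext fun l => h l
      funext i
      have := congrArg (fun f => f (Pi.single i 1)) hL
      simpa [L] using this
  rw [e2]
  simp only [e1]
  constructor
  · intro h
    constructor
    · intro r
      have := h (.inl r)
      rw [Fintype.sum_sum_type] at this
      simpa [canForm] using this
    · intro c
      have := h (.inr c)
      rw [Fintype.sum_sum_type] at this
      have h0 : ∑ x : Col T, (canForm (RA T t) (Sum.inr c) (Sum.inr x) +
          s * canForm (RB T t) (Sum.inr c) (Sum.inr x)) * P.repr v (Sum.inr x) = 0 :=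
        Finset.sum_eq_zero fun x _ => by simp [canForm]
      rw [h0, add_zero] at this
      rw [← neg_eq_zero, ← Finset.sum_neg_distrib, ← this]
      refine Finset.sum_congr rfl fun r _ => ?_
      simp only [canForm]
      ring
  · rintro ⟨h1, h2⟩ l
    rw [Fintype.sum_sum_type]
    rcases l with r | c
    · have h0 : ∑ x : Row T, (canForm (RA T t) (Sum.inl r) (Sum.inl x) +
          s * canForm (RB T t) (Sum.inl r) (Sum.inl x)) * P.repr v (Sum.inl x) = 0 :=
        Finset.sum_eq_zero fun x _ => by simp [canForm]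
      rw [h0, zero_add]
      simpa [canForm] using h1 r
    · have h0 : ∑ x : Col T, (canForm (RA T t) (Sum.inr c) (Sum.inr x) +
          s * canForm (RB T t) (Sum.inr c) (Sum.inr x)) * P.repr v (Sum.inr x) = 0 :=
        Finset.sum_eq_zero fun x _ => by simp [canForm]
      rw [h0, add_zero, ← neg_eq_zero, ← Finset.sum_neg_distrib, ← h2 c]
      refine Finset.sum_congr rfl fun r _ => ?_
      simp only [canForm]
      ring

theorem ker_dimO (T : JKType) (t : T.E → Option ℂ) {ι : Type} [Fintype ι] [DecidableEq ι]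
    (A B : Matrix ι ι ℂ) (P : Basis (Row T ⊕ Col T) ℂ (ι → ℂ)) (hP : CanonO T t A B P)
    (s : ℂ) (hs : ∀ e, t e ≠ some (-s)) :
    Module.finrank ℂ (LinearMap.ker (A + s • B).mulVecLin) = Fintype.card T.κ := by
  let Φ : LinearMap.ker (A + s • B).mulVecLin →ₗ[ℂ] (T.κ → ℂ) :=
    { toFun := fun v c => P.repr v.1 (.inr (.inl ⟨c, 0⟩))
      map_add' := fun a b => by funext c; simp
      map_smul' := fun a b => by funext c; simp }
  have hinj : Function.Injective Φ := by
    rw [injective_iff_map_eq_zero]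
    intro v hv
    have hv0 : (A + s • B) *ᵥ v.1 = 0 := by
      have := v.2
      rwa [LinearMap.mem_ker, Matrix.mulVecLin_apply] at this
    obtain ⟨h1, h2⟩ := (kd_ker T t A B P hP s v.1).1 hv0
    set y := P.repr v.1 with hy
    have hv' : ∀ c, y (.inr (.inl ⟨c, 0⟩)) = 0 := fun c => congrFun hv c
    -- column part, Kronecker
    have c1 : ∀ c : T.κ, ∀ j, kdX (fun q : (Σ c : T.κ, Fin (T.k c + 1)) => y (.inr (.inl q))) c j
        = 0 := by
      intro c j
      induction j with
      | zero =>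
        have := hv' c
        rw [kdX, dif_pos (Nat.succ_pos _)]
        exact this
      | succ j ih =>
        by_cases hj : j < T.k c
        · have h3 := h1 (.inl ⟨c, ⟨j, hj⟩⟩)
          rw [kd_rowK T t s (fun q => y (.inr q))] at h3
          simp only at h3
          rw [ih, mul_zero, add_zero] at h3
          exact h3
        · exact kdX_ge _ _ _ (by omega)
    have c2 : ∀ b : T.β, ∀ j, kdX (fun q : (Σ b : T.β, Fin (T.m b)) => y (.inr (.inr q))) b j
        = 0 := by
      intro b j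
      induction j with
      | zero =>
        have h3 := h1 (.inr ⟨b, ⟨0, T.m_pos b⟩⟩)
        rw [kd_rowJ T t s (fun q => y (.inr q))] at h3
        simp only [if_true, mul_zero, add_zero] at h3
        exact (mul_eq_zero.1 h3).resolve_left (kdα_ne T t s hs b)
      | succ j ih =>
        by_cases hj : j + 1 < T.m b
        · have h3 := h1 (.inr ⟨b, ⟨j + 1, hj⟩⟩)
          rw [kd_rowJ T t s (fun q => y (.inr q))] at h3
          simp only [Nat.add_sub_cancel, ih, Nat.succ_ne_zero, if_false, mul_zero,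
            add_zero] at h3
          exact (mul_eq_zero.1 h3).resolve_left (kdα_ne T t s hs b)
        · exact kdX_ge _ _ _ (by omega)
    have r1 : ∀ c : T.κ, ∀ n j, T.k c ≤ j + n →
        kdX (fun q : (Σ c : T.κ, Fin (T.k c)) => y (.inl (.inl q))) c j = 0 := by
      intro c n
      induction n with
      | zero => intro j hj; exact kdX_ge _ _ _ (by omega)
      | succ n ih =>
        intro j hj
        by_cases hj2 : j < T.k c
        · have h3 := h2 (.inl ⟨c, ⟨j + 1, by omega⟩⟩)
          rw [kd_colK T t s (fun q => y (.inl q))] at h3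
          simp only [Nat.add_sub_cancel, Nat.succ_ne_zero, if_false] at h3
          rw [ih (j + 1) (by omega), mul_zero, add_zero] at h3
          exact h3
        · exact kdX_ge _ _ _ (by omega)
    have r2 : ∀ b : T.β, ∀ n j, T.m b ≤ j + n →
        kdX (fun q : (Σ b : T.β, Fin (T.m b)) => y (.inl (.inr q))) b j = 0 := by
      intro b n
      induction n with
      | zero => intro j hj; exact kdX_ge _ _ _ (by omega)
      | succ n ih =>
        intro j hj
        by_cases hj2 : j < T.m b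
        · have h3 := h2 (.inr ⟨b, ⟨j, hj2⟩⟩)
          rw [kd_colJ T t s (fun q => y (.inl q))] at h3
          simp only at h3
          rw [ih (j + 1) (by omega), mul_zero, add_zero] at h3
          exact (mul_eq_zero.1 h3).resolve_left (kdα_ne T t s hs b)
        · exact kdX_ge _ _ _ (by omega)
    have hy0 : y = 0 := by
      ext l
      rcases l with (⟨c, i⟩ | ⟨b, i⟩) | (⟨c, i⟩ | ⟨b, i⟩)
      · have := r1 c (T.k c) i (by omega)
        rwa [kdX_apply] at this
      · have := r2 b (T.m b) i (by omega)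
        rwa [kdX_apply] at this
      · have := c1 c i
        rwa [kdX_apply] at this
      · have := c2 b i
        rwa [kdX_apply] at this
    apply Subtype.ext
    exact P.repr.map_eq_zero_iff.1 hy0
  have hsurj : Function.Surjective Φ := by
    intro w
    let y0 : Row T ⊕ Col T → ℂ := fun l => match l with
      | .inl _ => 0
      | .inr (.inl q) => (-s) ^ (q.2 : ℕ) * w q.1
      | .inr (.inr _) => 0
    let v := P.equivFun.symm y0
    have hr : ∀ l, P.repr v l = y0 l := by
      intro l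
      have := congrFun (P.equivFun.apply_symm_apply y0) l
      rwa [Basis.equivFun_apply] at this
    have hv : (A + s • B) *ᵥ v = 0 := by
      rw [kd_ker T t A B P hP s v]
      simp only [hr]
      constructor
      · rintro (r | r)
        · rw [kd_rowK T t s (fun q => y0 (.inr q))]
          have hlt := r.2.2
          simp only [y0]
          rw [kdX, kdX, dif_pos (show (r.2 : ℕ) + 1 < T.k r.1 + 1 by omega),
            dif_pos (show (r.2 : ℕ) < T.k r.1 + 1 by omega)]
          simp only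
          ring
        · rw [kd_rowJ T t s (fun q => y0 (.inr q))]
          simp [y0, kdX]
      · intro c
        exact Finset.sum_eq_zero fun r _ => by simp [y0]
    refine ⟨⟨v, by rw [LinearMap.mem_ker, Matrix.mulVecLin_apply]; exact hv⟩, ?_⟩
    funext c
    change P.repr v (.inr (.inl ⟨c, 0⟩)) = w c
    rw [hr]
    simp [y0]
  rw [(LinearEquiv.ofBijective Φ ⟨hinj, hsurj⟩).finrank_eq, Module.finrank_pi]

end Pool.Agent.Helper783.JK
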