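import Pool.Agent.Helper783.JK.Defs
import Pool.Agent.Helper783.JK.P_jk_any_basis
import Pool.Agent.Helper783.JK.P_ker_dimO
import Pool.Agent.Helper783.JK.P_has_canon

open Module MvPolynomial Matrix

namespace Pool.Agent.Helper783.JK



lemma j18690_ker {ι J : Type} [Fintype ι] [DecidableEq ι] [Fintype J]
    [DecidableEq J] (r : ℕ) (j : J → ι) (s : Fin r → ι)
    (hjs : Function.Bijective (Sum.elim j s)) (M : Matrix ι ι ℂ) (Z : Matrix ι (Fin r) ℂ)
    (g : ℂ) (hg : g ≠ 0) (hMZ : M * Z = 0)
    (hZ : ∀ c c', Z (s c) c' = if c = c' then g else 0)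
    (hdet : (M.submatrix j j).det ≠ 0) :
    Module.finrank ℂ (LinearMap.ker M.mulVecLin) = r := by
  have hZs : ∀ (w : Fin r → ℂ) (c : Fin r), (Z *ᵥ w) (s c) = g * w c := by
    intro w c
    simp only [Matrix.mulVec, dotProduct, hZ]
    simp
  have hinj : Function.Injective Z.mulVecLin := by
    intro w w' h
    funext c
    have h1 := congrFun h (s c)
    simp only [Matrix.mulVecLin_apply, hZs] at h1
    exact mul_left_cancel₀ hg h1
  have hrange : LinearMap.range Z.mulVecLin = LinearMap.ker M.mulVecLin := by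
    apply le_antisymm
    · rintro _ ⟨w, rfl⟩
      simp only [LinearMap.mem_ker, Matrix.mulVecLin_apply, Matrix.mulVec_mulVec, hMZ,
        Matrix.zero_mulVec]
    · intro v hv
      have hv' : M *ᵥ v = 0 := by simpa using hv
      set v' : ι → ℂ := g • v - Z *ᵥ (v ∘ s) with hv'def
      have hMv' : M *ᵥ v' = 0 := by
        rw [hv'def, Matrix.mulVec_sub, Matrix.mulVec_smul, hv', Matrix.mulVec_mulVec, hMZ,
          Matrix.zero_mulVec, smul_zero, sub_zero]
      have hs0 : ∀ c, v' (s c) = 0 := by
        intro c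
        simp only [hv'def, Pi.sub_apply, Pi.smul_apply, hZs, smul_eq_mul, Function.comp, sub_self]
      have hj0 : (M.submatrix j j) *ᵥ (v' ∘ j) = 0 := by
        funext i
        have h1 := congrFun hMv' (j i)
        simp only [Matrix.mulVec, dotProduct, Pi.zero_apply] at h1 ⊢
        rw [← (Equiv.ofBijective _ hjs).sum_comp, Fintype.sum_sum_type] at h1
        simp only [Equiv.ofBijective_apply, Sum.elim_inl, Sum.elim_inr, hs0, mul_zero,
          Finset.sum_const_zero, add_zero] at h1
        simpa using h1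
      have hj1 : v' ∘ j = 0 := Matrix.eq_zero_of_mulVec_eq_zero hdet hj0
      have hv0 : v' = 0 := by
        funext i
        obtain ⟨z, hz⟩ := hjs.2 i
        rcases z with a | c
        · rw [← hz]
          exact congrFun hj1 a
        · rw [← hz]
          exact hs0 c
      refine ⟨g⁻¹ • (v ∘ s), ?_⟩
      have h2 : g • v = Z *ᵥ (v ∘ s) := by
        have := hv'def ▸ hv0
        exact sub_eq_zero.mp this
      rw [Matrix.mulVecLin_apply, Matrix.mulVec_smul, ← h2, smul_smul, inv_mul_cancel₀ hg, one_smul]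
  rw [← hrange, LinearMap.finrank_range_of_inj hinj]
  simp

lemma j18690_line {ι : Type} [Fintype ι] (p : MvPolynomial ι ℂ) (x a : ι → ℂ)
    (h : eval x p ≠ 0) (S : Finset ℂ) : ∃ s : ℂ, s ∉ S ∧ eval (x + s • a) p ≠ 0 := by
  let q : Polynomial ℂ := aeval (fun k => Polynomial.C (x k) + Polynomial.X * Polynomial.C (a k)) p
  have hq : ∀ s : ℂ, Polynomial.eval s q = eval (x + s • a) p := by
    intro s
    have h1 : Polynomial.eval s q = (Polynomial.aeval s) q := by
      simp [Polynomial.coe_aeval_eq_eval]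
    rw [h1]
    simp only [q]
    rw [MvPolynomial.comp_aeval_apply]
    have h2 : (fun i => (Polynomial.aeval s) (Polynomial.C (x i) + Polynomial.X *
        Polynomial.C (a i))) = x + s • a := by
      funext k
      simp
      ring
    rw [h2, ← MvPolynomial.coe_aeval_eq_eval]
    rfl
  have hq0 : q ≠ 0 := by
    intro h0
    have := hq 0
    rw [h0] at this
    simp only [Polynomial.eval_zero, zero_smul, add_zero] at this
    exact h this.symm
  obtain ⟨s, hs⟩ := Infinite.exists_notMem_finset (S ∪ q.roots.toFinset)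
  refine ⟨s, fun h' => hs (Finset.mem_union_left _ h'), fun h' => hs (Finset.mem_union_right _ ?_)⟩
  rw [Multiset.mem_toFinset, Polynomial.mem_roots hq0, Polynomial.IsRoot.def, hq, h']

lemma j18690_fm {g : Type} [LieRing g] [LieAlgebra ℂ g] {ι : Type} [Fintype ι]
    (e : Basis ι ℂ g) (x a : ι → ℂ) (s : ℂ) :
    (fullMat e).map (eval (x + s • a)) =
      (fullMat e).map (eval x) + s • (fullMat e).map (eval a) := by
  ext i j
  simp only [fullMat, Matrix.map_apply, Matrix.add_apply, Matrix.smul_apply, map_sum, map_mul,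
    eval_C, eval_X, Pi.add_apply, Pi.smul_apply, smul_eq_mul, Finset.mul_sum]
  rw [← Finset.sum_add_distrib]
  refine Finset.sum_congr rfl fun k _ => ?_
  ring

theorem corank_eq {g : Type} [LieRing g] [LieAlgebra ℂ g] (T : JKType)
    (hT : IsJKInvariant g T) {ι J : Type} [Fintype ι] [DecidableEq ι] [Fintype J]
    [DecidableEq J] (e : Basis ι ℂ g) (r : ℕ) (j : J → ι) (s : Fin r → ι)
    (hjs : Function.Bijective (Sum.elim j s)) (Z : Matrix ι (Fin r) (MvPolynomial ι ℂ))
    (g0 : MvPolynomial ι ℂ) (hg0 : g0 ≠ 0) (hMZ : fullMat e * Z = 0)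
    (hZ : ∀ c c', Z (s c) c' = if c = c' then g0 else 0)
    (hdet : ((fullMat e).submatrix j j).det ≠ 0) : r = Fintype.card T.κ := by
  obtain ⟨G, hG, hT'⟩ := jk_any_basis T hT e
  set D := ((fullMat e).submatrix j j).det with hD
  have hinl : Function.Injective (rename (R := ℂ) (Sum.inl : ι → ι ⊕ ι)) :=
    rename_injective _ Sum.inl_injective
  have hF : G * rename Sum.inl (g0 * D) ≠ 0 := by
    refine mul_ne_zero hG ?_
    intro h0
    exact mul_ne_zero hg0 hdet (hinl (by rw [h0, map_zero]))
  obtain ⟨v, hv⟩ : ∃ v, eval v (G * rename Sum.inl (g0 * D)) ≠ 0 := by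
    by_contra hcon
    push Not at hcon
    exact hF (MvPolynomial.funext fun v => by rw [hcon v, map_zero])
  rw [map_mul, eval_rename] at hv
  set x : ι → ℂ := v ∘ Sum.inl with hx
  set a : ι → ℂ := v ∘ Sum.inr with ha
  have hvx : v = Sum.elim x a := by
    funext i
    rcases i with i | i <;> rfl
  have hv1 := left_ne_zero_of_mul hv
  have hv2 := right_ne_zero_of_mul hv
  rw [hvx] at hv1
  obtain ⟨t, P, _, hP⟩ := has_canon T e x a (hT' x a hv1)
  classical
  obtain ⟨s0, hs0, hs1⟩ := j18690_line (g0 * D) x a hv2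
    (Finset.univ.image fun ee : T.E => - ((t ee).getD 0))
  rw [map_mul] at hs1
  have hgy := left_ne_zero_of_mul hs1
  have hDy := right_ne_zero_of_mul hs1
  have hk := ker_dimO T t _ _ P hP s0 (by
    intro ee hee
    apply hs0
    rw [Finset.mem_image]
    exact ⟨ee, Finset.mem_univ _, by rw [hee]; simp⟩)
  rw [← j18690_fm e x a s0] at hk
  rw [← hk]
  symm
  refine j18690_ker r j s hjs _ (Z.map (eval (x + s0 • a))) (eval (x + s0 • a) g0) hgy ?_ ?_ ?_
  · rw [← Matrix.map_mul, hMZ]
    ext i k
    simp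
  · intro c c'
    rw [Matrix.map_apply, hZ]
    split_ifs <;> simp
  · rw [Matrix.submatrix_map]
    have := (RingHom.map_det (eval (x + s0 • a)) ((fullMat e).submatrix j j))
    rw [RingHom.mapMatrix_apply] at this
    rw [← this]
    exact hDy

end Pool.Agent.Helper783.JK
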