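import Pool.Agent.Helper783.JK.Defs
import Pool.Agent.Helper783.JK.P_jacobi_contract

open Module MvPolynomial Matrix

namespace Pool.Agent.Helper783.JK



theorem aux_der {ι J : Type} [Fintype ι] {r : ℕ} (j : J → ι) (s : Fin r → ι)
    (Z : Matrix ι (Fin r) (MvPolynomial ι ℂ)) (g0 : MvPolynomial ι ℂ) (i : J) :
    ∃ D : Derivation ℂ (MvPolynomial ι ℂ) (MvPolynomial ι ℂ), ∀ p, tanD j s Z g0 i p = D p := by
  refine ⟨Derivation.mk' { toFun := tanD j s Z g0 i, map_add' := ?_, map_smul' := ?_ } ?_,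
    fun p => rfl⟩
  · intro p q
    unfold tanD
    simp only [map_add, mul_add, Finset.sum_add_distrib]
    ring
  · intro c p
    unfold tanD
    simp only [Derivation.map_smul, mul_smul_comm, ← Finset.smul_sum, smul_sub, RingHom.id_apply]
  · intro p q
    show tanD j s Z g0 i (p * q) = p • tanD j s Z g0 i q + q • tanD j s Z g0 i p
    unfold tanD
    have h1 : ∑ c, Z (j i) c * pderiv (s c) (p * q) =
        p * ∑ c, Z (j i) c * pderiv (s c) q + q * ∑ c, Z (j i) c * pderiv (s c) p := by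
      rw [Finset.mul_sum, Finset.mul_sum, ← Finset.sum_add_distrib]
      refine Finset.sum_congr rfl fun c _ => ?_
      rw [Derivation.leibniz, smul_eq_mul, smul_eq_mul]
      ring
    rw [h1, Derivation.leibniz, smul_eq_mul, smul_eq_mul, smul_eq_mul, smul_eq_mul]
    ring

theorem aux_split {ι J : Type} [Fintype ι] [Fintype J] {r : ℕ} (j : J → ι) (s : Fin r → ι)
    (hjs : Function.Bijective (Sum.elim j s)) {A : Type} [AddCommMonoid A] (F : ι → A) :
    ∑ n, F n = ∑ l : J, F (j l) + ∑ c, F (s c) := by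
  rw [← (Equiv.ofBijective _ hjs).sum_comp F, Fintype.sum_sum_type]
  rfl

theorem aux_tan {ι J : Type} [Fintype ι] [Fintype J] {r : ℕ} (j : J → ι)
    (s : Fin r → ι) (hjs : Function.Bijective (Sum.elim j s))
    (Z : Matrix ι (Fin r) (MvPolynomial ι ℂ)) (g0 : MvPolynomial ι ℂ)
    (hZ : ∀ c c', Z (s c) c' = if c = c' then g0 else 0) (v : ι → MvPolynomial ι ℂ)
    (hv : ∀ c, ∑ n, v n * Z n c = 0) (p : MvPolynomial ι ℂ) :
    ∑ l : J, v (j l) * tanD j s Z g0 l p = g0 * ∑ n, v n * pderiv n p := by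
  have h1 : ∀ c, ∑ l : J, v (j l) * Z (j l) c = - (v (s c) * g0) := by
    intro c
    have h2 := hv c
    rw [aux_split j s hjs] at h2
    have h3 : ∑ c', v (s c') * Z (s c') c = v (s c) * g0 := by
      rw [Finset.sum_eq_single c]
      · rw [hZ, if_pos rfl]
      · intro b _ hb
        rw [hZ, if_neg hb, mul_zero]
      · intro hn
        exact absurd (Finset.mem_univ _) hn
    rw [h3] at h2
    exact eq_neg_of_add_eq_zero_left h2
  rw [aux_split j s hjs]
  unfold tanD
  have h4 : ∑ l : J, v (j l) * (g0 * pderiv (j l) p - ∑ c, Z (j l) c * pderiv (s c) p) =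
      g0 * ∑ l : J, v (j l) * pderiv (j l) p -
        ∑ c, (∑ l : J, v (j l) * Z (j l) c) * pderiv (s c) p := by
    have h5 : ∑ c, (∑ l : J, v (j l) * Z (j l) c) * pderiv (s c) p =
        ∑ l : J, v (j l) * ∑ c, Z (j l) c * pderiv (s c) p := by
      simp only [Finset.sum_mul, Finset.mul_sum]
      rw [Finset.sum_comm]
      refine Finset.sum_congr rfl fun l _ => Finset.sum_congr rfl fun c _ => ?_
      ring
    rw [h5, Finset.mul_sum, ← Finset.sum_sub_distrib]
    refine Finset.sum_congr rfl fun l _ => ?_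
    ring
  rw [h4, mul_add]
  simp only [h1]
  rw [sub_eq_add_neg, ← Finset.sum_neg_distrib, Finset.mul_sum Finset.univ (fun c => v (s c) * _)]
  congr 1
  refine Finset.sum_congr rfl fun c _ => ?_
  ring

theorem aux_rho {g : Type} [LieRing g] [LieAlgebra ℂ g] {ι : Type} [Fintype ι]
    (e : Basis ι ℂ g) : ∃ ρ : g →ₗ[ℂ] MvPolynomial ι ℂ,
      (∀ i k, fullMat e i k = ρ ⁅e i, e k⁆) ∧
      (∀ n y, pderiv n (ρ y) = MvPolynomial.C (e.repr y n)) ∧
      ∀ i y, ∑ n, ρ ⁅e i, e n⁆ * MvPolynomial.C (e.repr y n) = ρ ⁅e i, y⁆ := by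
  classical
  have hval : ∀ y, e.constr ℂ (fun n => (MvPolynomial.X n : MvPolynomial ι ℂ)) y =
      ∑ n, MvPolynomial.C (e.repr y n) * MvPolynomial.X n := by
    intro y
    rw [Basis.constr_apply_fintype]
    refine Finset.sum_congr rfl fun n _ => ?_
    rw [MvPolynomial.smul_eq_C_mul]
    rfl
  refine ⟨e.constr ℂ (fun n => (MvPolynomial.X n : MvPolynomial ι ℂ)), ?_, ?_, ?_⟩
  · intro i k
    rw [hval]
    rfl
  · intro n y
    rw [hval, map_sum]
    rw [Finset.sum_eq_single n]
    · rw [pderiv_C_mul, pderiv_X_self, mul_one]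
    · intro b _ hb
      rw [pderiv_C_mul, pderiv_X_of_ne hb, mul_zero]
    · intro hn
      exact absurd (Finset.mem_univ _) hn
  · intro i y
    conv_rhs => rw [← e.sum_repr y]
    rw [lie_sum, map_sum]
    refine Finset.sum_congr rfl fun n _ => ?_
    rw [lie_smul, map_smul, MvPolynomial.smul_eq_C_mul, mul_comm]

theorem aux_jac {g : Type} [LieRing g] [LieAlgebra ℂ g] {ι : Type} [Fintype ι]
    (e : Basis ι ℂ g) (i k l : ι) :
    ∑ n, fullMat e i n * pderiv n (fullMat e k l) + ∑ n, fullMat e k n * pderiv n (fullMat e l i) +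
      ∑ n, fullMat e l n * pderiv n (fullMat e i k) = 0 := by
  obtain ⟨ρ, h1, h2, h3⟩ := aux_rho e
  simp only [h1, h2, h3]
  rw [← map_add, ← map_add, lie_jacobi, map_zero]

theorem dq_wedge2 {g : Type} [LieRing g] [LieAlgebra ℂ g] {ι J : Type} [Fintype ι]
    [DecidableEq ι] [Fintype J] [DecidableEq J] (e : Basis ι ℂ g) (r : ℕ) (j : J → ι)
    (s : Fin r → ι) (hjs : Function.Bijective (Sum.elim j s))
    (Z : Matrix ι (Fin r) (MvPolynomial ι ℂ)) (g0 : MvPolynomial ι ℂ)
    (hMZ : fullMat e * Z = 0) (hZ : ∀ c c', Z (s c) c' = if c = c' then g0 else 0)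
    (E : Matrix J J (MvPolynomial ι ℂ)) (q h : MvPolynomial ι ℂ) (m : ℕ) (hm : 0 < m)
    (hq : Prime q) (hh : ¬ q ∣ h)
    (hME : (fullMat e).submatrix j j * E = (q ^ m * h) • (1 : Matrix J J (MvPolynomial ι ℂ))) :
    ∀ i k l : J, q ∣ tanD j s Z g0 i q * E k l + tanD j s Z g0 k q * E l i +
      tanD j s Z g0 l q * E i k := by
  choose D hD using aux_der j s Z g0
  simp only [hD]
  obtain ⟨M, hM⟩ : ∃ M : Matrix J J (MvPolynomial ι ℂ), M = (fullMat e).submatrix j j := ⟨_, rfl⟩
  have hMa : ∀ i k, M i k = fullMat e (j i) (j k) := by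
    intro i k
    rw [hM]
    rfl
  rw [← hM] at hME
  obtain ⟨f, hf⟩ : ∃ f, f = q ^ m * h := ⟨_, rfl⟩
  rw [← hf] at hME
  have hh0 : h ≠ 0 := by
    rintro rfl
    exact hh (dvd_zero q)
  have hf0 : f ≠ 0 := by
    rw [hf]
    exact mul_ne_zero (pow_ne_zero _ hq.ne_zero) hh0
  have hskew : Mᵀ = -M := by
    ext1 i k
    rw [Matrix.transpose_apply, Matrix.neg_apply, hMa, hMa]
    obtain ⟨ρ, h1, -, -⟩ := aux_rho e
    rw [h1, h1, ← map_neg, lie_skew]
  have htan : ∀ (i' : ι) (p : MvPolynomial ι ℂ),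
      ∑ l : J, fullMat e i' (j l) * D l p = g0 * ∑ n, fullMat e i' n * pderiv n p := by
    intro i' p
    have h1 := aux_tan j s hjs Z g0 hZ (fun n => fullMat e i' n) (by
      intro c
      have h2 := congrFun (congrFun hMZ i') c
      rw [Matrix.mul_apply] at h2
      exact h2) p
    simp only [hD] at h1
    exact h1
  obtain ⟨hE1, hE2, hE3⟩ := jacobi_contract M E f hf0 hskew hME (fun l => M.map (D l)) (by
    intro a b c
    rw [Finset.sum_add_distrib, Finset.sum_add_distrib]
    simp only [Matrix.map_apply, hMa]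
    rw [htan, htan, htan, ← mul_add, ← mul_add, aux_jac, mul_zero])
  have hder : ∀ i, M.map (D i) * E + M * E.map (D i) = (D i f) • (1 : Matrix J J (MvPolynomial ι ℂ)) := by
    intro i
    ext1 a b
    have h1 := congrArg (D i) (congrFun (congrFun hME a) b)
    rw [Matrix.mul_apply, map_sum] at h1
    rw [Matrix.add_apply, Matrix.mul_apply, Matrix.mul_apply, ← Finset.sum_add_distrib]
    have h2 : ∑ x, (M.map (D i) a x * E x b + M a x * E.map (D i) x b) =
        ∑ x, D i (M a x * E x b) := by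
      refine Finset.sum_congr rfl fun x _ => ?_
      rw [Derivation.leibniz, smul_eq_mul, smul_eq_mul, Matrix.map_apply, Matrix.map_apply]
      ring
    rw [h2, h1, Matrix.smul_apply, Matrix.smul_apply, Matrix.one_apply, smul_eq_mul, smul_eq_mul]
    by_cases hab : a = b
    · rw [if_pos hab, mul_one, mul_one]
    · rw [if_neg hab, mul_zero, mul_zero, map_zero]
  have hEDE : ∀ i k l, (E * M.map (D i) * E) k l = D i f * E k l - f * D i (E k l) := by
    intro i k l
    have h1 : E * (M.map (D i) * E + M * E.map (D i)) =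
        E * ((D i f) • (1 : Matrix J J (MvPolynomial ι ℂ))) := by rw [hder i]
    rw [mul_add, ← mul_assoc, ← mul_assoc, hE2, Matrix.mul_smul, mul_one, Matrix.smul_mul,
      one_mul] at h1
    have h2 := congrFun (congrFun h1 k) l
    rw [Matrix.add_apply, Matrix.smul_apply, Matrix.smul_apply, smul_eq_mul, smul_eq_mul,
      Matrix.map_apply] at h2
    exact eq_sub_of_add_eq h2
  intro i k l
  have h1 := hE3 i k l
  rw [hEDE, hEDE, hEDE] at h1
  obtain ⟨m', rfl⟩ : ∃ m', m = m' + 1 := ⟨m - 1, by omega⟩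
  have hDf : ∀ i, D i f = q ^ m' * (((m' : MvPolynomial ι ℂ) + 1) * D i q * h + q * D i h) := by
    intro i
    rw [hf, Derivation.leibniz, Derivation.leibniz_pow, smul_eq_mul, smul_eq_mul, smul_eq_mul,
      nsmul_eq_mul]
    simp only [Nat.add_sub_cancel]
    push_cast
    ring
  have hff : f = q ^ m' * (q * h) := by
    rw [hf]
    ring
  rw [hDf, hDf, hDf] at h1
  have h2 : q ^ m' * (((m' : MvPolynomial ι ℂ) + 1) * h *
      (D i q * E k l + D k q * E l i + D l q * E i k) -
      q * (h * (D i (E k l) + D k (E l i) + D l (E i k)) -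
        (D i h * E k l + D k h * E l i + D l h * E i k))) = 0 := by
    rw [← h1, hff]
    ring
  have h3 := (mul_eq_zero.1 h2).resolve_left (pow_ne_zero _ hq.ne_zero)
  have h4 : q ∣ ((m' : MvPolynomial ι ℂ) + 1) * h *
      (D i q * E k l + D k q * E l i + D l q * E i k) := by
    rw [sub_eq_zero.1 h3]
    exact dvd_mul_right _ _
  rcases hq.dvd_or_dvd h4 with h5 | h5
  · exfalso
    rcases hq.dvd_or_dvd h5 with h6 | h6
    · apply hq.not_isUnit
      apply isUnit_of_dvd_unit h6
      have h7 : ((m' : MvPolynomial ι ℂ) + 1) = MvPolynomial.C ((m' : ℂ) + 1) := by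
        rw [map_add, map_natCast, map_one]
      rw [h7]
      exact (isUnit_iff_ne_zero.2 (Nat.cast_add_one_ne_zero m')).map MvPolynomial.C
    · exact hh h6
  · exact h5

end Pool.Agent.Helper783.JK
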