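import Pool.Agent.Helper783.JK.Defs

open Module MvPolynomial Matrix

namespace Pool.Agent.Helper783.JK


theorem fe_extract {R ι : Type} [CommRing R] [IsDomain R] (q : R) (hq : q ≠ 0) :
    ∀ (n : ℕ) (A : Matrix ι ι R), (∃ i j a, ¬ q ∣ a ∧ A i j = q ^ n * a) →
      ∃ (u : ℕ) (E : Matrix ι ι R), A = q ^ u • E ∧ ∃ i j, ¬ q ∣ E i j := by
  intro n
  induction n with
  | zero =>
    rintro A ⟨i, j, a, ha, hA⟩
    refine ⟨0, A, by simp, i, j, ?_⟩
    rw [hA, pow_zero, one_mul]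
    exact ha
  | succ n ih =>
    rintro A ⟨i, j, a, ha, hA⟩
    by_cases hall : ∃ i j, ¬ q ∣ A i j
    · exact ⟨0, A, by simp, hall⟩
    · push Not at hall
      choose A' hA' using hall
      obtain ⟨u, E, hE, hE'⟩ := ih (Matrix.of A') ⟨i, j, a, ha, by
        have h1 := hA' i j
        rw [hA, pow_succ'] at h1
        have h2 : q * (q ^ n * a) = q * A' i j := by rw [← h1]; ring
        exact (mul_left_cancel₀ hq h2).symm⟩
      refine ⟨u + 1, E, ?_, hE'⟩
      ext i' j'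
      have h3 := congrFun (congrFun hE i') j'
      rw [Matrix.of_apply, Matrix.smul_apply, smul_eq_mul] at h3
      rw [Matrix.smul_apply, smul_eq_mul, hA' i' j', h3]
      ring

theorem fe_cancel {R ι : Type} [CommRing R] [IsDomain R] {c : R} (hc : c ≠ 0)
    {X Y : Matrix ι ι R} (h : c • X = c • Y) : X = Y := by
  ext i j
  have h1 := congrFun (congrFun h i) j
  rw [Matrix.smul_apply, Matrix.smul_apply, smul_eq_mul, smul_eq_mul] at h1
  exact mul_left_cancel₀ hc h1

theorem fe_main {R ι : Type} [CommRing R] [IsDomain R] [WfDvdMonoid R] [Fintype ι] [DecidableEq ι]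
    (M : Matrix ι ι R) (hdet : M.det ≠ 0) (q : R)
    (hq : Prime q) (hqM : q ∣ M.det) :
    ∃ (E : Matrix ι ι R) (m : ℕ) (h : R), 0 < m ∧ ¬ q ∣ h ∧
      M * E = (q ^ m * h) • (1 : Matrix ι ι R) ∧ ∃ i j, ¬ q ∣ E i j := by
  obtain ⟨s, h, hh, hs⟩ := WfDvdMonoid.max_power_factor hdet hq.irreducible
  have hne : Nonempty ι := by
    by_contra hcon
    rw [not_nonempty_iff] at hcon
    rw [Matrix.det_isEmpty] at hqM
    exact hq.not_unit (isUnit_of_dvd_one hqM)
  have hadj : ∃ i j, M.adjugate i j ≠ 0 := by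
    by_contra hcon
    push Not at hcon
    have h0 : M.adjugate = 0 := by
      ext i j
      exact hcon i j
    have h1 := Matrix.mul_adjugate M
    rw [h0, Matrix.mul_zero] at h1
    obtain ⟨i⟩ := hne
    have h2 := congrFun (congrFun h1 i) i
    rw [Matrix.smul_apply, Matrix.one_apply_eq, smul_eq_mul, mul_one, Matrix.zero_apply] at h2
    exact hdet h2.symm
  obtain ⟨i0, j0, hij⟩ := hadj
  obtain ⟨n, a, ha, hn⟩ := WfDvdMonoid.max_power_factor hij hq.irreducible
  obtain ⟨u, E, hE, hE'⟩ := fe_extract q hq.ne_zero n M.adjugate ⟨i0, j0, a, ha, hn⟩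
  have key := Matrix.mul_adjugate M
  rw [hE, Matrix.mul_smul, hs] at key
  rcases lt_or_ge u s with hus | hus
  · obtain ⟨m, rfl⟩ := Nat.exists_eq_add_of_lt hus
    refine ⟨E, m + 1, h, Nat.succ_pos m, hh, ?_, hE'⟩
    apply fe_cancel (pow_ne_zero u hq.ne_zero)
    rw [key, smul_smul]
    congr 1
    ring
  · exfalso
    obtain ⟨t, rfl⟩ := Nat.exists_eq_add_of_le hus
    have h1 : M * (q ^ t • E) = h • (1 : Matrix ι ι R) := by
      apply fe_cancel (pow_ne_zero s hq.ne_zero)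
      rw [smul_smul, ← key, Matrix.mul_smul, smul_smul, pow_add]
    have h2 := congrArg Matrix.det h1
    rw [Matrix.det_mul, Matrix.det_smul, Matrix.det_smul, Matrix.det_one, mul_one] at h2
    have h3 : q ∣ h ^ Fintype.card ι := by
      rw [← h2]
      exact Dvd.dvd.mul_right hqM _
    exact hh (hq.dvd_of_dvd_pow h3)

theorem factor_E {σ ι : Type} [Fintype ι] [DecidableEq ι]
    (M : Matrix ι ι (MvPolynomial σ ℂ)) (hdet : M.det ≠ 0) (q : MvPolynomial σ ℂ)
    (hq : Prime q) (hqM : q ∣ M.det) :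
    ∃ (E : Matrix ι ι (MvPolynomial σ ℂ)) (m : ℕ) (h : MvPolynomial σ ℂ), 0 < m ∧ ¬ q ∣ h ∧
      M * E = (q ^ m * h) • (1 : Matrix ι ι (MvPolynomial σ ℂ)) ∧ ∃ i j, ¬ q ∣ E i j := by
  exact fe_main M hdet q hq hqM

end Pool.Agent.Helper783.JK
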