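import Pool.Agent.Helper783.JK.Defs

open Module MvPolynomial Matrix

namespace Pool.Agent.Helper783.JK



theorem sat_kernel_extract {R ι : Type} [CommRing R] [IsDomain R] [UniqueFactorizationMonoid R]
    (q : R) (hq : Prime q) (x : ι → R) (hx : x ≠ 0) :
    ∃ (n : ℕ) (u : ι → R) (i0 : ι), x = (q ^ n) • u ∧ ¬ q ∣ u i0 := by
  classical
  obtain ⟨i1, hi1⟩ : ∃ i, x i ≠ 0 := by
    by_contra h
    push Not at h
    exact hx (funext h)
  obtain ⟨n1, hn1⟩ : FiniteMultiplicity q (x i1) := FiniteMultiplicity.of_not_isUnit hq.not_unit hi1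
  have hex : ∃ n, ¬ ∀ i, q ^ (n + 1) ∣ x i := ⟨n1, fun h => hn1 (h i1)⟩
  have hs := Nat.find_spec hex
  set n := Nat.find hex with hn
  have hall : ∀ i, q ^ n ∣ x i := by
    rcases Nat.eq_zero_or_pos n with h0 | h0
    · intro i; rw [h0, pow_zero]; exact one_dvd _
    · have h1 : ¬ ¬ ∀ i, q ^ ((n - 1) + 1) ∣ x i := Nat.find_min hex (by omega)
      rw [not_not, Nat.sub_add_cancel h0] at h1
      exact h1
  choose u hu using hall
  obtain ⟨i0, hi0⟩ := not_forall.mp hs
  refine ⟨n, u, i0, ?_, ?_⟩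
  · funext i
    rw [hu i]
    rfl
  · intro h
    apply hi0
    rw [hu i0, pow_succ]
    exact mul_dvd_mul_left _ h

theorem sat_kernel_ech {R ι : Type} [CommRing R] [IsDomain R] [UniqueFactorizationMonoid R]
    [Fintype ι] (q : R) (hq : Prime q) : ∀ (n : ℕ) (N : Submodule R (ι → R)),
    (∀ (a : R) (x : ι → R), a ≠ 0 → a • x ∈ N → x ∈ N) →
    {i : ι | ∃ x ∈ N, x i ≠ 0}.ncard ≤ n →
    ∃ (r : ℕ) (s : Fin r → ι) (Z : Fin r → ι → R) (g0 : R), ¬ q ∣ g0 ∧ (∀ c, Z c ∈ N) ∧
      (∀ c c', Z c (s c') = if c = c' then g0 else 0) ∧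
      ∀ x ∈ N, (∀ c, x (s c) = 0) → x = 0 := by
  intro n
  induction n with
  | zero =>
    intro N hN hcard
    have h1 : {i : ι | ∃ x ∈ N, x i ≠ 0} = ∅ := by
      rw [Nat.le_zero, Set.ncard_eq_zero (Set.toFinite _)] at hcard
      exact hcard
    refine ⟨0, Fin.elim0, Fin.elim0, 1, ?_, fun c => c.elim0, fun c => c.elim0, ?_⟩
    · intro h
      exact hq.not_unit (isUnit_of_dvd_one h)
    · intro x hx _
      funext i
      by_contra h
      have : i ∈ {i : ι | ∃ x ∈ N, x i ≠ 0} := ⟨x, hx, h⟩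
      rw [h1] at this
      exact this
  | succ n ih =>
    intro N hN hcard
    by_cases hbot : ∀ x ∈ N, x = 0
    · refine ⟨0, Fin.elim0, Fin.elim0, 1, ?_, fun c => c.elim0, fun c => c.elim0, ?_⟩
      · intro h
        exact hq.not_unit (isUnit_of_dvd_one h)
      · intro x hx _
        exact hbot x hx
    push Not at hbot
    obtain ⟨x, hxN, hx0⟩ := hbot
    obtain ⟨m, u, i0, hxu, hui⟩ := sat_kernel_extract q hq x hx0
    have huN : u ∈ N := hN (q ^ m) u (pow_ne_zero _ hq.ne_zero) (hxu ▸ hxN)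
    have hui0 : u i0 ≠ 0 := fun h => hui (h ▸ dvd_zero q)
    let N' : Submodule R (ι → R) := N ⊓ LinearMap.ker (LinearMap.proj (R := R) (φ := fun _ : ι => R) i0)
    have hmem : ∀ y, y ∈ N' ↔ y ∈ N ∧ y i0 = 0 := by
      intro y
      simp [N', Submodule.mem_inf, LinearMap.mem_ker]
    have hN' : ∀ (a : R) (x : ι → R), a ≠ 0 → a • x ∈ N' → x ∈ N' := by
      intro a y ha hy
      rw [hmem] at hy ⊢
      refine ⟨hN a y ha hy.1, ?_⟩
      have h1 : a * y i0 = 0 := hy.2
      exact (mul_eq_zero.mp h1).resolve_left ha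
    have hcard' : {i : ι | ∃ x ∈ N', x i ≠ 0}.ncard ≤ n := by
      have hss : {i : ι | ∃ x ∈ N', x i ≠ 0} ⊂ {i : ι | ∃ x ∈ N, x i ≠ 0} := by
        refine ⟨?_, ?_⟩
        · rintro i ⟨y, hy, hyi⟩
          exact ⟨y, ((hmem y).mp hy).1, hyi⟩
        · intro h
          obtain ⟨y, hy, hyi⟩ := h (show i0 ∈ {i : ι | ∃ x ∈ N, x i ≠ 0} from ⟨u, huN, hui0⟩)
          exact hyi ((hmem y).mp hy).2
      have := Set.ncard_lt_ncard hss (Set.toFinite _)
      omega
    obtain ⟨r, s, Z, g, hg, hZN, hZ, hsp⟩ := ih N' hN' hcard'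
    refine ⟨r + 1, Fin.cons i0 s,
      Fin.cons (g • u - ∑ c, u (s c) • Z c) (fun c => u i0 • Z c), g * u i0, ?_, ?_, ?_, ?_⟩
    · intro h
      rcases hq.dvd_or_dvd h with h | h
      · exact hg h
      · exact hui h
    · intro c
      refine Fin.cases ?_ (fun c => ?_) c
      · rw [Fin.cons_zero]
        exact N.sub_mem (N.smul_mem _ huN)
          (N.sum_mem (fun c _ => N.smul_mem _ ((hmem _).mp (hZN c)).1))
      · rw [Fin.cons_succ]
        exact N.smul_mem _ ((hmem _).mp (hZN c)).1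
    · intro c c'
      refine Fin.cases ?_ (fun c => ?_) c
      · rw [Fin.cons_zero]
        refine Fin.cases ?_ (fun c' => ?_) c'
        · rw [Fin.cons_zero, if_pos rfl]
          have h1 : ∀ c, Z c i0 = 0 := fun c => ((hmem _).mp (hZN c)).2
          simp [Finset.sum_apply, h1]
        · rw [Fin.cons_succ, if_neg (Fin.succ_ne_zero c').symm]
          simp [Finset.sum_apply, hZ, mul_comm]
      · rw [Fin.cons_succ]
        refine Fin.cases ?_ (fun c' => ?_) c'
        · rw [Fin.cons_zero, if_neg (Fin.succ_ne_zero c)]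
          have h1 : Z c i0 = 0 := ((hmem _).mp (hZN c)).2
          simp [h1]
        · rw [Fin.cons_succ]
          have h1 := hZ c c'
          simp only [Pi.smul_apply, smul_eq_mul, h1, Fin.succ_inj]
          split_ifs
          · ring
          · ring
    · intro y hy hyc
      have h0 := hyc 0
      rw [Fin.cons_zero] at h0
      apply hsp y ((hmem y).mpr ⟨hy, h0⟩)
      intro c
      have h1 := hyc c.succ
      rwa [Fin.cons_succ] at h1

theorem sat_kernel {R ι : Type} [CommRing R] [IsDomain R] [UniqueFactorizationMonoid R]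
    [Fintype ι] [DecidableEq ι] (M : Matrix ι ι R) (hM : Mᵀ = -M) (q : R) (hq : Prime q) :
    ∃ (J : Type) (_ : Fintype J) (_ : DecidableEq J) (r : ℕ) (j : J → ι) (s : Fin r → ι)
      (Z : Matrix ι (Fin r) R) (g0 : R), Function.Bijective (Sum.elim j s) ∧ ¬ q ∣ g0 ∧
      M * Z = 0 ∧ (∀ c c', Z (s c) c' = if c = c' then g0 else 0) ∧
      (M.submatrix j j).det ≠ 0 := by
  classical
  let N : Submodule R (ι → R) := LinearMap.ker (Matrix.mulVecLin M)
  have hmem : ∀ y, y ∈ N ↔ M.mulVec y = 0 := by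
    intro y
    simp [N, LinearMap.mem_ker]
  have hsat : ∀ (a : R) (x : ι → R), a ≠ 0 → a • x ∈ N → x ∈ N := by
    intro a x ha hx
    rw [hmem] at hx ⊢
    rw [Matrix.mulVec_smul] at hx
    exact (smul_eq_zero.mp hx).resolve_left ha
  obtain ⟨r, s, Z, g0, hg, hZN, hZ, hsp⟩ := sat_kernel_ech q hq _ N hsat le_rfl
  have hg0 : g0 ≠ 0 := fun h => hg (h ▸ dvd_zero q)
  have hsinj : Function.Injective s := by
    intro c c' h
    by_contra hne
    have h1 := hZ c c
    have h2 := hZ c c'
    rw [if_pos rfl] at h1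
    rw [if_neg hne, ← h, h1] at h2
    exact hg0 h2
  have hMZ : ∀ c, M.mulVec (Z c) = 0 := fun c => (hmem _).mp (hZN c)
  refine ⟨{i // i ∉ Set.range s}, inferInstance, inferInstance, r, Subtype.val, s,
    Matrix.of (fun i c => Z c i), g0, ?_, hg, ?_, ?_, ?_⟩
  · constructor
    · rintro (a | a) (b | b) hab
      · simp only [Sum.elim_inl] at hab
        rw [Subtype.ext hab]
      · simp only [Sum.elim_inl, Sum.elim_inr] at hab
        exact absurd ⟨b, hab.symm⟩ a.2
      · simp only [Sum.elim_inl, Sum.elim_inr] at hab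
        exact absurd ⟨a, hab⟩ b.2
      · simp only [Sum.elim_inr] at hab
        rw [hsinj hab]
    · intro i
      by_cases hi : i ∈ Set.range s
      · obtain ⟨c, rfl⟩ := hi
        exact ⟨Sum.inr c, rfl⟩
      · exact ⟨Sum.inl ⟨i, hi⟩, rfl⟩
  · ext i c
    have := congrFun (hMZ c) i
    simpa [Matrix.mul_apply, Matrix.mulVec, dotProduct] using this
  · intro c c'
    rw [Matrix.of_apply, hZ c' c]
    simp only [eq_comm]
  · intro hdet
    obtain ⟨v, hv0, hv⟩ := Matrix.exists_mulVec_eq_zero_iff.mpr hdet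
    let v' : ι → R := fun i => if h : i ∉ Set.range s then v ⟨i, h⟩ else 0
    have hv's : ∀ c, v' (s c) = 0 := by
      intro c
      show (if h : s c ∉ Set.range s then v ⟨s c, h⟩ else 0) = 0
      rw [dif_neg (fun h => h ⟨c, rfl⟩)]
    have hv'j : ∀ i : {i // i ∉ Set.range s}, v' i.1 = v i := by
      intro i
      show (if h : i.1 ∉ Set.range s then v ⟨i.1, h⟩ else 0) = v i
      rw [dif_pos i.2]
    -- splitting sums
    have hsplit : ∀ f : ι → R, ∑ i, f i = ∑ i : {i // i ∉ Set.range s}, f i.1 + ∑ c, f (s c) := by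
      intro f
      have hbij : Function.Bijective (Sum.elim (Subtype.val : {i // i ∉ Set.range s} → ι) s) := by
        constructor
        · rintro (a | a) (b | b) hab
          · simp only [Sum.elim_inl] at hab
            rw [Subtype.ext hab]
          · simp only [Sum.elim_inl, Sum.elim_inr] at hab
            exact absurd ⟨b, hab.symm⟩ a.2
          · simp only [Sum.elim_inl, Sum.elim_inr] at hab
            exact absurd ⟨a, hab⟩ b.2
          · simp only [Sum.elim_inr] at hab
            rw [hsinj hab]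
        · intro i
          by_cases hi : i ∈ Set.range s
          · obtain ⟨c, rfl⟩ := hi
            exact ⟨Sum.inr c, rfl⟩
          · exact ⟨Sum.inl ⟨i, hi⟩, rfl⟩
      rw [← (Equiv.ofBijective _ hbij).sum_comp f, Fintype.sum_sum_type]
      rfl
    have hJ : ∀ i : {i // i ∉ Set.range s}, M.mulVec v' i.1 = 0 := by
      intro i
      have h1 := congrFun hv i
      simp only [Matrix.mulVec, dotProduct, Matrix.submatrix_apply, Pi.zero_apply] at h1 ⊢
      rw [hsplit]
      simp only [hv's, hv'j, mul_zero, Finset.sum_const_zero, add_zero]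
      exact h1
    have hS : ∀ c, M.mulVec v' (s c) = 0 := by
      intro c
      have h1 : dotProduct (Z c) (M.mulVec v') = 0 := by
        rw [Matrix.dotProduct_mulVec, ← Matrix.mulVec_transpose, hM, Matrix.neg_mulVec, hMZ c]
        simp
      have h2 : dotProduct (Z c) (M.mulVec v') = g0 * M.mulVec v' (s c) := by
        show ∑ i, Z c i * M.mulVec v' i = _
        rw [hsplit]
        simp only [hJ, mul_zero, Finset.sum_const_zero, zero_add, hZ, ite_mul, zero_mul]
        simp
      rw [h1] at h2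
      exact (mul_eq_zero.mp h2.symm).resolve_left hg0
    have hMv : M.mulVec v' = 0 := by
      funext i
      by_cases hi : i ∈ Set.range s
      · obtain ⟨c, rfl⟩ := hi
        exact hS c
      · exact hJ ⟨i, hi⟩
    have h3 := hsp v' ((hmem _).mpr hMv) hv's
    apply hv0
    funext i
    rw [← hv'j i, h3]
    rfl

end Pool.Agent.Helper783.JK
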