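import Pool.Agent.Helper783.JK.Defs
import Pool.Agent.Helper783.JK.P_line_avoid
import Pool.Agent.Helper783.JK.P_factor_E
import Pool.Agent.Helper783.JK.P_sat_kernel
import Pool.Agent.Helper783.JK.P_dq_wedge2
import Pool.Agent.Helper783.JK.P_kerVec_ker
import Pool.Agent.Helper783.JK.P_ker_poly
import Pool.Agent.Helper783.JK.P_bad_delta2
import Pool.Agent.Helper783.JK.P_corank_eq

open Module MvPolynomial Matrix

namespace Pool.Agent.Helper783.JK



/-! helper lemmas for `bad_grad` -/

theorem bg_skew {g : Type} [LieRing g] [LieAlgebra ℂ g] {ι : Type} [Fintype ι]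
    (e : Basis ι ℂ g) : (fullMat e)ᵀ = -(fullMat e) := by
  ext1 i j
  rw [Matrix.transpose_apply, Matrix.neg_apply]
  unfold fullMat
  rw [← Finset.sum_neg_distrib]
  refine Finset.sum_congr rfl fun k _ => ?_
  rw [← lie_skew (e j) (e i), map_neg]
  simp

/-- restriction to a line -/
noncomputable def bgLine {ι : Type} (x a : ι → ℂ) : MvPolynomial ι ℂ →+* Polynomial ℂ :=
  MvPolynomial.eval₂Hom Polynomial.C
    (fun l => Polynomial.C (x l) + Polynomial.X * Polynomial.C (a l))

theorem bgLine_eval {ι : Type} (x a : ι → ℂ) (p : MvPolynomial ι ℂ) (s : ℂ) :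
    (bgLine x a p).eval s = eval (x + s • a) p := by
  have h : ((Polynomial.evalRingHom s).comp (bgLine x a)) = eval (x + s • a) := by
    refine MvPolynomial.ringHom_ext ?_ ?_
    · intro r
      simp [bgLine]
    · intro i
      simp [bgLine]
      ring
  have := RingHom.congr_fun h p
  simpa using this

theorem bgLine_fullMat {g : Type} [LieRing g] [LieAlgebra ℂ g] {ι : Type} [Fintype ι]
    (e : Basis ι ℂ g) (x a : ι → ℂ) : (fullMat e).map (bgLine x a) =
      pencil ((fullMat e).map (eval x)) ((fullMat e).map (eval a)) := by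
  ext1 i j
  unfold pencil
  rw [Matrix.map_apply, Matrix.add_apply, Matrix.smul_apply, Matrix.map_apply, Matrix.map_apply,
    Matrix.map_apply, Matrix.map_apply]
  unfold fullMat
  simp only [map_sum, map_mul, eval_C, eval_X, smul_eq_mul, Finset.mul_sum]
  rw [← Finset.sum_add_distrib]
  refine Finset.sum_congr rfl fun k _ => ?_
  simp only [bgLine, eval₂Hom_C, eval₂Hom_X']
  ring

theorem bg_pencil_eval {ι : Type} [Fintype ι] (A B : Matrix ι ι ℂ) (z : ι → Polynomial ℂ)
    (s : ℂ) (hz : pencil A B *ᵥ z = 0) :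
    (A + s • B) *ᵥ (fun l => (z l).eval s) = 0 := by
  funext i
  have h := congrFun hz i
  have h2 := congrArg (Polynomial.eval s) h
  simp only [Matrix.mulVec, dotProduct, pencil, Matrix.add_apply, Matrix.smul_apply,
    Matrix.map_apply, smul_eq_mul, Pi.zero_apply, Polynomial.eval_zero,
    Polynomial.eval_finset_sum, Polynomial.eval_mul, Polynomial.eval_add, Polynomial.eval_C,
    Polynomial.eval_X] at h2 ⊢
  exact h2

theorem bg_pair {ι I : Type} [Fintype ι] (P : Basis I ℂ (ι → ℂ)) (w : ι → ℂ)
    (h : ∀ i, P i ⬝ᵥ w = 0) : w = 0 := by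
  classical
  let φ : (ι → ℂ) →ₗ[ℂ] ℂ :=
    { toFun := fun v => v ⬝ᵥ w
      map_add' := fun u v => add_dotProduct u v w
      map_smul' := fun c v => smul_dotProduct c v w }
  have hφ : φ = 0 := P.ext fun i => h i
  funext i
  have h1 : φ (Pi.single i 1) = 0 := by rw [hφ]; rfl
  have h2 : φ (Pi.single i 1) = w i := by
    show (Pi.single i (1 : ℂ)) ⬝ᵥ w = w i
    rw [single_dotProduct, one_mul]
  rw [Pi.zero_apply, ← h2, h1]

theorem bg_jordan (T : JKType) (t : T.E → ℂ) {ι : Type} [Fintype ι]
    (A B : Matrix ι ι ℂ) (P : Basis (Row T ⊕ Col T) ℂ (ι → ℂ))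
    (hP : CanonO T (fun e => some (t e)) A B P) (b : T.β) (s : ℂ) (hs : s = - t (T.ev b)) :
    (A + s • B) *ᵥ P (.inl (.inr ⟨b, ⟨0, T.m_pos b⟩⟩)) = 0 := by
  refine bg_pair P _ fun i => ?_
  rw [Matrix.add_mulVec, Matrix.smul_mulVec, dotProduct_add, dotProduct_smul, (hP _ _).1,
    (hP _ _).2, smul_eq_mul, hs]
  rcases i with i | c
  · simp [canForm]
  · rcases c with c | c
    · simp [canForm, RA, RB]
    · simp only [canForm, RA, RB]
      by_cases h1 : b = c.1
      · rw [if_pos h1, if_pos h1]
        by_cases h2 : (0 : ℕ) = (c.2 : ℕ)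
        · rw [if_pos h2, if_pos h2]; ring
        · rw [if_neg h2, if_neg h2, if_neg (by omega)]; ring
      · rw [if_neg h1, if_neg h1]; ring

theorem bg_kerVec_eval (T : JKType) {ι : Type} (P : Basis (Row T ⊕ Col T) ℂ (ι → ℂ))
    (c : T.κ) (s : ℂ) : (fun l => (kerVec T P c l).eval s) =
      ∑ j : Fin (T.k c + 1), (-s) ^ (j : ℕ) • P (.inr (.inl ⟨c, j⟩)) := by
  funext l
  simp only [kerVec, Polynomial.eval_finset_sum, Polynomial.eval_mul, Polynomial.eval_C,
    Polynomial.eval_pow, Polynomial.eval_neg, Polynomial.eval_X, Finset.sum_apply, Pi.smul_apply,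
    smul_eq_mul]
  exact Finset.sum_congr rfl fun j _ => mul_comm _ _

/-- the kernel vectors -/
noncomputable def bgW (T : JKType) {ι : Type} (P : Basis (Row T ⊕ Col T) ℂ (ι → ℂ))
    (b : T.β) (s : ℂ) : Option T.κ → (ι → ℂ)
  | none => P (.inl (.inr ⟨b, ⟨0, T.m_pos b⟩⟩))
  | some c => fun l => (kerVec T P c l).eval s

theorem bgW_indep (T : JKType) {ι : Type} (P : Basis (Row T ⊕ Col T) ℂ (ι → ℂ))
    (b : T.β) (s : ℂ) : LinearIndependent ℂ (bgW T P b s) := by
  classical
  rw [Fintype.linearIndependent_iff]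
  intro G hG
  rw [Fintype.sum_option] at hG
  have hG' : G none • P (.inl (.inr ⟨b, ⟨0, T.m_pos b⟩⟩)) + ∑ c : T.κ, G (some c) •
      ∑ j : Fin (T.k c + 1), (-s) ^ (j : ℕ) • P (.inr (.inl ⟨c, j⟩)) = 0 := by
    rw [← hG]
    congr 1
    refine Finset.sum_congr rfl fun c _ => ?_
    rw [← bg_kerVec_eval]
    rfl
  have key : ∀ i, (P.repr (G none • P (.inl (.inr ⟨b, ⟨0, T.m_pos b⟩⟩)) + ∑ c : T.κ, G (some c) •
      ∑ j : Fin (T.k c + 1), (-s) ^ (j : ℕ) • P (.inr (.inl ⟨c, j⟩)))) i = 0 := by
    intro i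
    rw [hG', map_zero]
    rfl
  intro o
  rcases o with _ | c0
  · have h := key (.inl (.inr ⟨b, ⟨0, T.m_pos b⟩⟩))
    simpa [Finsupp.single_apply] using h
  · have h := key (.inr (.inl ⟨c0, 0⟩))
    simp only [map_add, map_sum, map_smul, Basis.repr_self, Finsupp.add_apply,
      Finsupp.smul_apply, Finsupp.finset_sum_apply, Finsupp.single_apply, smul_eq_mul] at h
    rw [if_neg (by simp), mul_zero, zero_add, Finset.sum_eq_single c0] at h
    · rw [Finset.sum_eq_single (0 : Fin (T.k c0 + 1))] at h
      · simpa using h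
      · intro j _ hj
        rw [if_neg (by
          intro hh
          apply hj
          simpa using hh), mul_zero]
      · intro hh; exact absurd (Finset.mem_univ _) hh
    · intro c _ hc
      rw [Finset.sum_eq_zero, mul_zero]
      intro j _
      rw [if_neg (by
        intro hh
        apply hc
        simp only [Sum.inr.injEq, Sum.inl.injEq, Sigma.mk.injEq] at hh
        exact hh.1), mul_zero]
    · intro hh; exact absurd (Finset.mem_univ _) hh

theorem bg_restrict {ι J : Type} [Fintype ι] [Fintype J] [DecidableEq J] {r : ℕ} (j : J → ι)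
    (s : Fin r → ι) (hjs : Function.Bijective (Sum.elim j s)) (N : Matrix ι ι ℂ)
    (hN : (N.submatrix j j).det ≠ 0) (v : ι → ℂ) (hv : N *ᵥ v = 0) (hvs : ∀ c, v (s c) = 0) :
    v = 0 := by
  have h1 : (N.submatrix j j) *ᵥ (fun i => v (j i)) = 0 := by
    funext i
    have h := congrFun hv (j i)
    simp only [Matrix.mulVec, dotProduct, Pi.zero_apply] at h ⊢
    rw [← h]
    let eqv := Equiv.ofBijective _ hjs
    rw [← eqv.sum_comp (fun l => N (j i) l * v l), Fintype.sum_sum_type]
    have h2 : ∑ c : Fin r, N (j i) (eqv (Sum.inr c)) * v (eqv (Sum.inr c)) = 0 := by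
      refine Finset.sum_eq_zero fun c _ => ?_
      have : eqv (Sum.inr c) = s c := rfl
      rw [this, hvs, mul_zero]
    rw [h2, add_zero]
    rfl
  have h3 : (fun i => v (j i)) = 0 := Matrix.eq_zero_of_mulVec_eq_zero hN h1
  funext l
  obtain ⟨o, rfl⟩ := hjs.2 l
  rcases o with i | c
  · exact congrFun h3 i
  · exact hvs c

theorem bg_dim {ι J K : Type} [Fintype ι] [Fintype J] [DecidableEq J] [Fintype K] {r : ℕ}
    (j : J → ι) (s : Fin r → ι) (hjs : Function.Bijective (Sum.elim j s)) (N : Matrix ι ι ℂ)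
    (hN : (N.submatrix j j).det ≠ 0) (w : K → ι → ℂ) (hw : LinearIndependent ℂ w)
    (hker : ∀ k, N *ᵥ w k = 0) : Fintype.card K ≤ r := by
  have h1 : LinearIndependent ℂ (fun (k : K) (c : Fin r) => w k (s c)) := by
    rw [Fintype.linearIndependent_iff] at hw ⊢
    intro G hG
    refine hw G ?_
    refine bg_restrict j s hjs N hN _ ?_ ?_
    · rw [Matrix.mulVec_sum]
      refine Finset.sum_eq_zero fun k _ => ?_
      rw [Matrix.mulVec_smul, hker, smul_zero]
    · intro c
      have := congrFun hG c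
      simpa [Finset.sum_apply] using this
  have h2 := h1.fintype_card_le_finrank
  simpa using h2

theorem bg_lin {g : Type} [LieRing g] [LieAlgebra ℂ g] {ι : Type} [Fintype ι]
    (e : Basis ι ℂ g) (x a : ι → ℂ) (s : ℂ) : (fullMat e).map (eval (x + s • a)) =
      (fullMat e).map (eval x) + s • (fullMat e).map (eval a) := by
  ext1 i j
  have h := congrFun (congrFun (bgLine_fullMat e x a) i) j
  have h2 := congrArg (Polynomial.eval s) h
  rw [Matrix.map_apply, bgLine_eval] at h2
  rw [Matrix.map_apply, h2]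
  simp [pencil]
  ring

theorem bg_Gdet {ι : Type} (p : MvPolynomial ι ℂ) (hp : p ≠ 0) :
    Gen ι (fun x _ => eval x p ≠ 0) := by
  refine ⟨rename Sum.inl p, ?_, fun x a h => ?_⟩
  · intro h
    exact hp (rename_injective _ Sum.inl_injective (by rw [h, map_zero]))
  · rw [eval_rename] at h
    exact h

theorem bg_caseA {g : Type} [LieRing g] [LieAlgebra ℂ g] (T : JKType) {ι J : Type} [Fintype ι]
    [DecidableEq ι] [Fintype J] [DecidableEq J]
    (e : Basis ι ℂ g) (j : J → ι) (r : ℕ) (s : Fin r → ι)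
    (hjs : Function.Bijective (Sum.elim j s)) (hr : r = Fintype.card T.κ) (x a : ι → ℂ)
    (t : T.E → ℂ) (P : Basis (Row T ⊕ Col T) ℂ (ι → ℂ))
    (hP : CanonO T (fun e => some (t e)) ((fullMat e).map (eval x)) ((fullMat e).map (eval a)) P)
    (b : T.β)
    (hdet : eval (x + (- t (T.ev b)) • a) ((fullMat e).submatrix j j).det ≠ 0) : False := by
  have h2 := bg_dim j s hjs ((fullMat e).map (eval x) + (- t (T.ev b)) • (fullMat e).map (eval a))
    (by
      rw [← bg_lin]
      have e1 : ((fullMat e).map (eval (x + (- t (T.ev b)) • a))).submatrix j j =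
          (eval (x + (- t (T.ev b)) • a)).mapMatrix ((fullMat e).submatrix j j) := rfl
      rw [e1, ← RingHom.map_det]
      exact hdet)
    (bgW T P b (- t (T.ev b))) (bgW_indep T P b _) (by
      intro k
      rcases k with _ | c
      · exact bg_jordan T t _ _ P hP b _ rfl
      · exact bg_pencil_eval _ _ _ _ (kerVec_ker T _ _ _ P hP c))
  rw [Fintype.card_option] at h2
  omega

theorem bg_cancel {J : Type} [Fintype J] [DecidableEq J] (N E : Matrix J J (Polynomial ℂ))
    (hN : N.det ≠ 0) (h : N * E = 0) : E = 0 := by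
  have h1 : N.adjugate * (N * E) = 0 := by rw [h, mul_zero]
  rw [← Matrix.mul_assoc, Matrix.adjugate_mul, Matrix.smul_mul, Matrix.one_mul] at h1
  ext1 i k
  have h2 := congrFun (congrFun h1 i) k
  rw [Matrix.smul_apply, smul_eq_mul] at h2
  exact (mul_eq_zero.1 h2).resolve_left hN

theorem bad_grad {g : Type} [LieRing g] [LieAlgebra ℂ g] (T : JKType)
    (hT : IsJKInvariant g T) {ι : Type} [Fintype ι] [DecidableEq ι] (e : Basis ι ℂ g)
    (q : MvPolynomial ι ℂ) (hq : Prime q) :
    Gen ι (fun x a => ∀ (t : T.E → ℂ) (P : Basis (Row T ⊕ Col T) ℂ (ι → ℂ)),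
      Function.Injective t → CanonO T (fun e => some (t e)) ((fullMat e).map (eval x))
        ((fullMat e).map (eval a)) P → ∀ e0, Bad T e0 → eval (x + (- t e0) • a) q = 0 →
        ∃ β : T.κ → ℂ, ∀ l, eval (x + (- t e0) • a) (pderiv l q) =
          ∑ c, β c * (kerVec T P c l).eval (- t e0)) := by
  classical
  obtain ⟨J, fJ, dJ, r, j, s, Z, g0, hjs, hqg0, hMZ, hZ, hdet⟩ :=
    sat_kernel (fullMat e) (bg_skew e) q hq
  have hg0 : g0 ≠ 0 := by rintro rfl; exact hqg0 (dvd_zero q)
  have hr := corank_eq T hT e r j s hjs Z g0 hg0 hMZ hZ hdet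
  by_cases hqd : q ∣ ((fullMat e).submatrix j j).det
  · obtain ⟨E, m, h, hm, hh, hME, i0, k0, hE0⟩ := factor_E _ hdet q hq hqd
    refine (((line_avoid q g0 hq hqg0).and (line_avoid q (E i0 k0) hq hE0)).and
      (bg_Gdet _ hdet)).mono ?_
    rintro x a ⟨⟨hx1, hx2⟩, hx3⟩ t P ht hP e0 hbad hq0
    obtain ⟨b1, b2, hb, hb1, hb2, hm12, hmax⟩ := hbad
    subst hb1
    set y := x + (- t (T.ev b1)) • a with hy
    have hpen := bgLine_fullMat e x a
    have hev : ∀ p, (bgLine x a p).eval (- t (T.ev b1)) = eval y p := fun p =>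
      bgLine_eval x a p _
    have hMZ' : pencil ((fullMat e).map (eval x)) ((fullMat e).map (eval a)) *
        Z.map (bgLine x a) = 0 := by
      rw [← hpen, ← Matrix.map_mul, hMZ]
      ext1 i k
      simp
    have hZ' : ∀ c c', (Z.map (bgLine x a)) (s c) c' = if c = c' then bgLine x a g0 else 0 := by
      intro c c'
      rw [Matrix.map_apply, hZ]
      split_ifs
      · rfl
      · exact map_zero _
    have hE' : (pencil ((fullMat e).map (eval x)) ((fullMat e).map (eval a))).submatrix j j *
        E.map (bgLine x a) = (bgLine x a (q ^ m * h)) • (1 : Matrix J J (Polynomial ℂ)) := by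
      have e1 : (pencil ((fullMat e).map (eval x)) ((fullMat e).map (eval a))).submatrix j j =
          ((fullMat e).submatrix j j).map (bgLine x a) := by
        rw [← hpen]; rfl
      rw [e1, ← Matrix.map_mul, hME]
      ext1 i k
      rw [Matrix.map_apply, Matrix.smul_apply, Matrix.smul_apply, smul_eq_mul, smul_eq_mul,
        map_mul, Matrix.one_apply, Matrix.one_apply]
      split_ifs
      · rw [map_one]
      · rw [map_zero]
    have hf : bgLine x a (q ^ m * h) ≠ 0 := by
      intro hf0
      rw [hf0, zero_smul] at hE'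
      have hN : ((pencil ((fullMat e).map (eval x))
          ((fullMat e).map (eval a))).submatrix j j).det ≠ 0 := by
        have e1 : (pencil ((fullMat e).map (eval x)) ((fullMat e).map (eval a))).submatrix j j =
            (bgLine x a).mapMatrix ((fullMat e).submatrix j j) := by
          rw [← hpen]; rfl
        rw [e1, ← RingHom.map_det]
        intro h0
        apply hx3
        have := bgLine_eval x a ((fullMat e).submatrix j j).det 0
        rw [h0, Polynomial.eval_zero, zero_smul, add_zero] at this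
        exact this.symm
      have h0 := bg_cancel _ _ hN hE'
      have h1 := hx2 _ hq0
      apply h1
      rw [← hev]
      have h2 := congrFun (congrFun h0 i0) k0
      rw [Matrix.map_apply] at h2
      rw [h2]
      simp
    have hδ0 := bad_delta2 T t ht _ _ P hP r j s hjs (Z.map (bgLine x a)) (bgLine x a g0) hMZ' hZ'
      (E.map (bgLine x a)) (bgLine x a (q ^ m * h)) hf hE' b1 b2 hb hb2.symm hm12 hmax
      (by rw [hev]; exact hx1 _ hq0)
      ⟨i0, k0, by rw [Matrix.map_apply, hev]; exact hx2 _ hq0⟩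
      (fun i => eval y (tanD j s Z g0 i q))
      (by
        intro i k l
        rw [Matrix.map_apply, Matrix.map_apply, Matrix.map_apply, hev, hev, hev]
        obtain ⟨w, hw⟩ := dq_wedge2 e r j s hjs Z g0 hMZ hZ E q h m hm hq hh hME i k l
        have := congrArg (eval y) hw
        rw [map_mul, hq0, zero_mul] at this
        rw [← this, map_add, map_add, map_mul, map_mul, map_mul])
    have hgy : eval y g0 ≠ 0 := hx1 _ hq0
    have hgrad : ∀ l, eval y g0 * eval y (pderiv l q) =
        ∑ c, eval y (Z l c) * eval y (pderiv (s c) q) := by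
      intro l
      obtain ⟨o, rfl⟩ := hjs.2 l
      rcases o with i | c
      · have h1 := congrFun hδ0 i
        simp only [tanD, map_sub, map_mul, map_sum, Pi.zero_apply] at h1
        exact sub_eq_zero.1 h1
      · show eval y g0 * eval y (pderiv (s c) q) =
          ∑ c', eval y (Z (s c) c') * eval y (pderiv (s c') q)
        rw [Finset.sum_eq_single c]
        · rw [hZ, if_pos rfl]
        · intro c' _ hc'
          rw [hZ, if_neg (Ne.symm hc'), map_zero, zero_mul]
        · intro hc'; exact absurd (Finset.mem_univ _) hc'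
    have hcol : ∀ c : Fin r, ∃ p : T.κ → Polynomial ℂ, ∀ i, bgLine x a (Z i c) =
        ∑ c', p c' * kerVec T P c' i := by
      intro c
      refine ker_poly T _ _ _ P hP (fun i => bgLine x a (Z i c)) ?_
      funext i
      exact congrFun (congrFun hMZ' i) c
    choose p hp using hcol
    refine ⟨fun c' => ∑ c : Fin r, eval y (pderiv (s c) q) / eval y g0 *
      (p c c').eval (- t (T.ev b1)), fun l => ?_⟩
    have h1 := hgrad l
    have h2 : ∀ c, eval y (Z l c) = ∑ c', (p c c').eval (- t (T.ev b1)) *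
        (kerVec T P c' l).eval (- t (T.ev b1)) := by
      intro c
      rw [← hev, hp c l, Polynomial.eval_finset_sum]
      exact Finset.sum_congr rfl fun c' _ => Polynomial.eval_mul
    have h3 : eval y (pderiv l q) = (∑ c, eval y (Z l c) * eval y (pderiv (s c) q)) / eval y g0 := by
      rw [← h1]
      field_simp
    rw [h3, Finset.sum_div]
    simp only [h2, Finset.sum_mul, Finset.sum_div]
    rw [Finset.sum_comm]
    refine Finset.sum_congr rfl fun c' _ => Finset.sum_congr rfl fun c _ => ?_
    ring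
  · refine (line_avoid q _ hq hqd).mono ?_
    intro x a hx t P ht hP e0 hbad hq0
    obtain ⟨b1, b2, hb, hb1, hb2, hm12, hmax⟩ := hbad
    subst hb1
    exact (bg_caseA T e j r s hjs hr x a t P hP b1 (hx _ hq0)).elim

end Pool.Agent.Helper783.JK
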