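import Pool.Agent.Helper783.JK.Defs
import Pool.Agent.Helper783.JK.P_jk_any_basis
import Pool.Agent.Helper783.JK.P_sat_kernel
import Pool.Agent.Helper783.JK.P_has_canon
import Pool.Agent.Helper783.JK.P_corank_eq

open Module MvPolynomial Matrix

namespace Pool.Agent.Helper783.JK



theorem cg_zero {ι S : Type} [Fintype ι] [DecidableEq ι] (P : Basis S ℂ (ι → ℂ)) (w : ι → ℂ)
    (h : ∀ i, P i ⬝ᵥ w = 0) : w = 0 := by
  let ℓ : (ι → ℂ) →ₗ[ℂ] ℂ :=
    { toFun := fun v => v ⬝ᵥ w
      map_add' := fun u v => add_dotProduct u v w
      map_smul' := fun c v => by simp }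
  have h1 : ℓ = 0 := P.ext fun i => by
    change P i ⬝ᵥ w = 0
    exact h i
  funext i
  have h2 : ℓ (Pi.single i 1) = 0 := by rw [h1]; rfl
  have h3 : ℓ (Pi.single i 1) = w i := by
    change (Pi.single i (1 : ℂ)) ⬝ᵥ w = w i
    rw [single_dotProduct]
    simp
  rw [← h3, h2]
  rfl

theorem cg_ker {ι J : Type} [Fintype ι] [DecidableEq ι] [Fintype J] [DecidableEq J] {r : ℕ}
    (j : J → ι) (s : Fin r → ι) (hjs : Function.Bijective (Sum.elim j s))
    (B : Matrix ι ι ℂ) (hdet : (B.submatrix j j).det ≠ 0) (v : ι → ℂ) (hv : B *ᵥ v = 0)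
    (hs : ∀ c, v (s c) = 0) : v = 0 := by
  have h1 : (B.submatrix j j) *ᵥ (fun k => v (j k)) = 0 := by
    funext i
    have h2 : (B *ᵥ v) (j i) = 0 := by rw [hv]; rfl
    have h3 : (B *ᵥ v) (j i) = ∑ k, B (j i) k * v k := rfl
    rw [h3, ← Function.Bijective.sum_comp hjs (fun k => B (j i) k * v k),
      Fintype.sum_sum_type] at h2
    simp only [Sum.elim_inl, Sum.elim_inr, hs, mul_zero, Finset.sum_const_zero, add_zero] at h2
    exact h2
  have h4 := Matrix.eq_zero_of_mulVec_eq_zero hdet h1
  funext i
  obtain ⟨k, rfl⟩ := hjs.2 i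
  rcases k with k | c
  · exact congrFun h4 k
  · exact hs c

theorem cg_skew {g : Type} [LieRing g] [LieAlgebra ℂ g] {ι : Type} [Fintype ι]
    (e : Basis ι ℂ g) : (fullMat e)ᵀ = -(fullMat e) := by
  ext1 i j
  rw [Matrix.transpose_apply, Matrix.neg_apply]
  unfold fullMat
  rw [← Finset.sum_neg_distrib]
  refine Finset.sum_congr rfl fun k _ => ?_
  rw [← lie_skew (e j) (e i), map_neg, Finsupp.neg_apply, map_neg, neg_mul]

theorem canon_gen {g : Type} [LieRing g] [LieAlgebra ℂ g] (T : JKType)
    (hT : IsJKInvariant g T) {ι : Type} [Fintype ι] [DecidableEq ι] (e : Basis ι ℂ g) :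
    Gen ι (fun x a => ∃ (t : T.E → ℂ) (P : Basis (Row T ⊕ Col T) ℂ (ι → ℂ)),
      Function.Injective t ∧ CanonO T (fun e => some (t e)) ((fullMat e).map (eval x))
        ((fullMat e).map (eval a)) P) := by
  classical
  have g1 := jk_any_basis T hT e
  -- it suffices that generically there is no label `none`
  suffices hgen : Gen ι (fun x a => ∀ (t' : T.E → Option ℂ)
      (P : Basis (Row T ⊕ Col T) ℂ (ι → ℂ)), CanonO T t' ((fullMat e).map (eval x))
        ((fullMat e).map (eval a)) P → ∀ e', t' e' ≠ none) by
    refine (g1.and hgen).mono fun x a h => ?_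
    obtain ⟨h1, h2⟩ := h
    obtain ⟨t', P, hinj, hP⟩ := has_canon T e x a h1
    have h3 := h2 t' P hP
    have h4 : ∀ e', ∃ z, t' e' = some z := fun e' => Option.ne_none_iff_exists'.1 (h3 e')
    choose t ht using h4
    refine ⟨t, P, ?_, ?_⟩
    · intro e1 e2 h12
      apply hinj
      rw [ht, ht, h12]
    · have h5 : (fun e => some (t e)) = t' := by
        funext e'
        exact (ht e').symm
      rw [h5]
      exact hP
  by_cases hι : Nonempty ι
  · obtain ⟨i0⟩ := hι
    obtain ⟨J, _, _, r, j, s, Z, g0, hjs, hndvd, hMZ, hZ, hdet⟩ :=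
      sat_kernel (fullMat e) (cg_skew e) (X i0) (X_prime)
    have hg0 : g0 ≠ 0 := fun h => hndvd (h ▸ dvd_zero _)
    have hr := corank_eq T hT e r j s hjs Z g0 hg0 hMZ hZ hdet
    refine ⟨rename Sum.inr ((fullMat e).submatrix j j).det, ?_, ?_⟩
    · intro h
      apply hdet
      apply rename_injective Sum.inr Sum.inr_injective
      rw [h, map_zero]
    · intro x a hxa t' P hP e' he'
      have hxa' : eval a ((fullMat e).submatrix j j).det ≠ 0 := by
        intro h
        apply hxa
        rw [eval_rename]
        exact h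
      set B := (fullMat e).map (eval a) with hB
      have hdB : (B.submatrix j j).det ≠ 0 := by
        have : (eval a) ((fullMat e).submatrix j j).det = (B.submatrix j j).det := by
          rw [RingHom.map_det]
          rfl
        rw [← this]
        exact hxa'
      obtain ⟨b, hb⟩ := T.ev_surj e'
      -- the kernel vectors
      let φ : Option T.κ → Row T ⊕ Col T := fun o => match o with
        | some c => .inr (.inl ⟨c, Fin.last (T.k c)⟩)
        | none => .inl (.inr ⟨b, ⟨0, T.m_pos b⟩⟩)
      have hφ : Function.Injective φ := by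
        intro o o' hoo
        rcases o with _ | c <;> rcases o' with _ | c'
        · rfl
        · simp [φ] at hoo
        · simp [φ] at hoo
        · simp only [φ, Sum.inr.injEq, Sum.inl.injEq, Sigma.mk.injEq] at hoo
          rw [hoo.1]
      have hker : ∀ o, B *ᵥ P (φ o) = 0 := by
        intro o
        apply cg_zero P
        intro i
        rw [(hP i (φ o)).2]
        rcases o with _ | c
        · rcases i with i | i
          · rfl
          · rcases i with i | i
            · change - RB T t' (.inr ⟨b, ⟨0, T.m_pos b⟩⟩) (.inl i) = 0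
              simp [RB]
            · change - RB T t' (.inr ⟨b, ⟨0, T.m_pos b⟩⟩) (.inr i) = 0
              simp only [RB]
              rw [hb, he']
              simp
        · rcases i with i | i
          · rcases i with i | i
            · change RB T t' (.inl i) (.inl ⟨c, Fin.last (T.k c)⟩) = 0
              simp only [RB]
              obtain ⟨c', i2⟩ := i
              rw [if_neg]
              rintro ⟨h1, h2⟩
              simp only at h1 h2
              subst h1
              have h3 := i2.2
              rw [Fin.val_last] at h2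
              omega
            · change RB T t' (.inr i) (.inl ⟨c, Fin.last (T.k c)⟩) = 0
              simp [RB]
          · rfl
      have hli : LinearIndependent ℂ (fun o => P (φ o)) := P.linearIndependent.comp φ hφ
      have hspan : ∀ v ∈ Submodule.span ℂ (Set.range fun o => P (φ o)), B *ᵥ v = 0 := by
        intro v hv
        induction hv using Submodule.span_induction with
        | mem v hv =>
          obtain ⟨o, rfl⟩ := hv
          exact hker o
        | zero => exact Matrix.mulVec_zero B
        | add u v _ _ hu hv => rw [Matrix.mulVec_add, hu, hv, add_zero]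
        | smul c v _ hv => rw [Matrix.mulVec_smul, hv, smul_zero]
      have hli2 := hli.map (f := LinearMap.funLeft ℂ ℂ s) (by
        rw [Submodule.disjoint_def]
        intro v hv hv2
        rw [LinearMap.mem_ker] at hv2
        exact cg_ker j s hjs B hdB v (hspan v hv) (fun c => congrFun hv2 c))
      have hcard := hli2.fintype_card_le_finrank
      rw [Fintype.card_option, Module.finrank_fin_fun, hr] at hcard
      omega
  · rw [not_nonempty_iff] at hι
    refine ⟨1, one_ne_zero, fun x a _ t' P hP e' he' => ?_⟩
    obtain ⟨b, hb⟩ := T.ev_surj e'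
    have h1 := P.ne_zero (.inl (.inr ⟨b, ⟨0, T.m_pos b⟩⟩))
    exact h1 (Subsingleton.elim _ _)

end Pool.Agent.Helper783.JK
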