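import Pool.Agent.Helper783.JK.Defs
import Pool.Agent.Helper783.JK.P_ker_poly

open Module MvPolynomial Matrix

namespace Pool.Agent.Helper783.JK



theorem kl_coeff (T : JKType) {ι : Type} [Fintype ι] (P : Basis (Row T ⊕ Col T) ℂ (ι → ℂ))
    (p : T.κ → Polynomial ℂ) (i : ι) (N : ℕ) :
    (∑ c, p c * kerVec T P c i).coeff N =
      ∑ s : Σ c, Fin (T.k c + 1), (p s.1 * (-Polynomial.X) ^ (s.2 : ℕ)).coeff N *
        P (.inr (.inl s)) i := by
  rw [Polynomial.finsetSum_coeff, Fintype.sum_sigma]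
  refine Finset.sum_congr rfl fun c _ => ?_
  unfold kerVec
  rw [Finset.mul_sum, Polynomial.finsetSum_coeff]
  refine Finset.sum_congr rfl fun j _ => ?_
  have e : p c * (Polynomial.C (P (.inr (.inl ⟨c, j⟩)) i) * (-Polynomial.X) ^ (j : ℕ)) =
      Polynomial.C (P (.inr (.inl ⟨c, j⟩)) i) * (p c * (-Polynomial.X) ^ (j : ℕ)) := by ring
  rw [e, Polynomial.coeff_C_mul, mul_comm]

theorem ker_low (T : JKType) (t : T.E → Option ℂ) {ι : Type} [Fintype ι] [DecidableEq ι]
    (A B : Matrix ι ι ℂ) (P : Basis (Row T ⊕ Col T) ℂ (ι → ℂ)) (hP : CanonO T t A B P)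
    (hk1 : ∀ c, T.k c ≠ 1) (hk0 : ∀ c c', T.k c = 0 → T.k c' = 0 → c = c')
    (w0 w1 : ι → ℂ) (h0 : A *ᵥ w0 = 0) (h1 : A *ᵥ w1 + B *ᵥ w0 = 0) (h2 : B *ᵥ w1 = 0) :
    ∃ (v0 : ι → ℂ) (α0 α1 : ℂ), w0 = α0 • v0 ∧ w1 = α1 • v0 := by
  obtain ⟨z, hz⟩ : ∃ z : ι → Polynomial ℂ,
      ∀ i, z i = Polynomial.C (w0 i) + Polynomial.X * Polynomial.C (w1 i) := ⟨_, fun _ => rfl⟩
  have hpen : pencil A B *ᵥ z = 0 := by
    funext i
    have e0 : ∑ j, A i j * w0 j = 0 := congrFun h0 i
    have e1 : ∑ j, A i j * w1 j + ∑ j, B i j * w0 j = 0 := congrFun h1 i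
    have e2 : ∑ j, B i j * w1 j = 0 := congrFun h2 i
    show ∑ j, (pencil A B) i j * z j = 0
    have e : ∀ j, (pencil A B) i j * z j = Polynomial.C (A i j * w0 j) +
        Polynomial.X * Polynomial.C (A i j * w1 j) + Polynomial.X * Polynomial.C (B i j * w0 j) +
        Polynomial.X ^ 2 * Polynomial.C (B i j * w1 j) := by
      intro j
      have e' : (pencil A B) i j = Polynomial.C (A i j) + Polynomial.X * Polynomial.C (B i j) := rfl
      rw [e', hz]
      simp only [Polynomial.C_mul]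
      ring
    simp only [e, Finset.sum_add_distrib, ← Finset.mul_sum, ← map_sum]
    rw [e0, e2, Polynomial.C_0, add_assoc (0 : Polynomial ℂ), ← mul_add, ← Polynomial.C_add, e1,
      Polynomial.C_0]
    ring
  obtain ⟨p, hp⟩ := ker_poly T t A B P hP z hpen
  have hp0 : ∀ c, T.k c ≠ 0 → p c = 0 := by
    intro c hc
    have hc2 : 2 ≤ T.k c := by
      have := hk1 c
      omega
    have hli : LinearIndependent ℂ (fun s : Σ c, Fin (T.k c + 1) => P (.inr (.inl s))) :=
      P.linearIndependent.comp (fun s : Σ c, Fin (T.k c + 1) =>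
        (.inr (.inl s) : Row T ⊕ Col T)) (fun s s' h => Sum.inl_injective (Sum.inr_injective h))
    have hco : ∀ N, 2 ≤ N → ∀ s : Σ c, Fin (T.k c + 1),
        (p s.1 * (-Polynomial.X) ^ (s.2 : ℕ)).coeff N = 0 := by
      intro N hN
      have hgen := Fintype.linearIndependent_iff.mp hli
        (fun s : Σ c, Fin (T.k c + 1) => (p s.1 * (-Polynomial.X) ^ (s.2 : ℕ)).coeff N)
      refine hgen ?_
      funext i
      rw [Finset.sum_apply]
      have h3 := kl_coeff T P p i N
      rw [← hp i, hz i] at h3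
      have h4 : (Polynomial.C (w0 i) + Polynomial.X * Polynomial.C (w1 i)).coeff N = 0 := by
        rw [Polynomial.coeff_add, Polynomial.coeff_C, if_neg (by omega), zero_add]
        obtain ⟨M, rfl⟩ : ∃ M, N = M + 1 := ⟨N - 1, by omega⟩
        rw [Polynomial.coeff_X_mul, Polynomial.coeff_C, if_neg (by omega)]
      rw [h4] at h3
      exact h3.symm
    have h5 : p c * (-1) ^ (T.k c) = 0 := by
      ext M
      have h6 := hco (M + T.k c) (by omega) ⟨c, Fin.last (T.k c)⟩
      have h7 : p c * (-Polynomial.X) ^ ((Fin.last (T.k c) : Fin (T.k c + 1)) : ℕ) =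
          (p c * (-1) ^ (T.k c)) * Polynomial.X ^ (T.k c) := by
        rw [Fin.val_last, neg_pow]
        ring
      have h8 : (p c * (-Polynomial.X) ^ ((Fin.last (T.k c) : Fin (T.k c + 1)) : ℕ)).coeff
        (M + T.k c) = 0 := h6
      rw [h7, Polynomial.coeff_mul_X_pow] at h8
      rw [h8, Polynomial.coeff_zero]
    rcases mul_eq_zero.mp h5 with h | h
    · exact h
    · exact absurd h (pow_ne_zero _ (by norm_num))
  have hc0 : ∀ i, (z i).coeff 0 = w0 i := by
    intro i
    rw [hz, Polynomial.coeff_add, Polynomial.coeff_C_zero, Polynomial.mul_coeff_zero,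
      Polynomial.coeff_X_zero, zero_mul, add_zero]
  have hc1 : ∀ i, (z i).coeff 1 = w1 i := by
    intro i
    rw [hz, Polynomial.coeff_add, Polynomial.coeff_C, if_neg one_ne_zero, zero_add,
      Polynomial.coeff_X_mul, Polynomial.coeff_C_zero]
  by_cases hex : ∃ c0, T.k c0 = 0
  · obtain ⟨c0, hc0'⟩ := hex
    have hz' : ∀ i, z i = Polynomial.C (P (.inr (.inl ⟨c0, 0⟩)) i) * p c0 := by
      intro i
      rw [hp i, Finset.sum_eq_single c0]
      · unfold kerVec
        rw [Finset.sum_eq_single (0 : Fin (T.k c0 + 1))]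
        · rw [Fin.val_zero, pow_zero, mul_one, mul_comm]
        · intro j _ hj
          exfalso
          apply hj
          ext
          have := j.2
          rw [Fin.val_zero]
          omega
        · intro h; exact absurd (Finset.mem_univ _) h
      · intro c _ hc
        rw [hp0 c (fun h => hc (hk0 c c0 h hc0')), zero_mul]
      · intro h; exact absurd (Finset.mem_univ _) h
    refine ⟨P (.inr (.inl ⟨c0, 0⟩)), (p c0).coeff 0, (p c0).coeff 1, ?_, ?_⟩
    · funext i
      rw [← hc0 i, hz' i, Polynomial.coeff_C_mul, mul_comm]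
      rfl
    · funext i
      rw [← hc1 i, hz' i, Polynomial.coeff_C_mul, mul_comm]
      rfl
  · push Not at hex
    have hz0 : ∀ i, z i = 0 := by
      intro i
      rw [hp i]
      exact Finset.sum_eq_zero fun c _ => by rw [hp0 c (hex c), zero_mul]
    refine ⟨0, 0, 0, ?_, ?_⟩
    · funext i
      rw [← hc0 i, hz0 i]
      simp
    · funext i
      rw [← hc1 i, hz0 i]
      simp

end Pool.Agent.Helper783.JK
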