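import Pool.Agent.Helper783.JK.Defs
import Pool.Agent.Helper783.JK.P_ker_low

open Module MvPolynomial Matrix

namespace Pool.Agent.Helper783.JK



theorem count_bad_indep {ι E : Type} [DecidableEq E] (N : ι → Module.End ℂ (ι → ℂ)) (v χ : E → ι → ℂ) (S : Finset E)
    (hN : ∀ e ∈ S, ∀ l, N l (v e) = χ e l • v e) (hv : ∀ e ∈ S, v e ≠ 0)
    (hχ : ∀ e ∈ S, ∀ e' ∈ S, χ e = χ e' → e = e') :
    ∀ c : E → ℂ, ∑ e ∈ S, c e • v e = 0 → ∀ e ∈ S, c e = 0 := by
  induction S using Finset.induction_on with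
  | empty => intro c _ e he; simp at he
  | insert e0 S' h0 ih =>
    intro c hc
    have ih' := ih (fun e he => hN e (Finset.mem_insert_of_mem he)) (fun e he => hv e (Finset.mem_insert_of_mem he))
      (fun e he e' he' => hχ e (Finset.mem_insert_of_mem he) e' (Finset.mem_insert_of_mem he'))
    have h1 : ∀ l, ∀ e ∈ S', c e * (χ e l - χ e0 l) = 0 := by
      intro l
      refine ih' (fun e => c e * (χ e l - χ e0 l)) ?_
      have h2 : N l (∑ e ∈ insert e0 S', c e • v e) = 0 := by rw [hc, map_zero]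
      rw [map_sum] at h2
      have h3 : ∑ e ∈ insert e0 S', N l (c e • v e) = ∑ e ∈ insert e0 S', (c e * χ e l) • v e := by
        refine Finset.sum_congr rfl fun e he => ?_
        rw [map_smul, hN e he l, smul_smul]
      rw [h3] at h2
      have h4 : ∑ e ∈ insert e0 S', (c e * (χ e l - χ e0 l)) • v e = 0 := by
        have h5 : ∑ e ∈ insert e0 S', (c e * (χ e l - χ e0 l)) • v e =
            ∑ e ∈ insert e0 S', (c e * χ e l) • v e - χ e0 l • ∑ e ∈ insert e0 S', c e • v e := by
          rw [Finset.smul_sum, ← Finset.sum_sub_distrib]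
          refine Finset.sum_congr rfl fun e _ => ?_
          rw [smul_smul, ← sub_smul]
          congr 1
          ring
        rw [h5, h2, hc, smul_zero, sub_zero]
      rw [Finset.sum_insert h0, sub_self, mul_zero, zero_smul, zero_add] at h4
      exact h4
    have h2 : ∀ e ∈ S', c e = 0 := by
      intro e he
      by_contra hce
      have h3 : χ e = χ e0 := by
        funext l
        rcases mul_eq_zero.1 (h1 l e he) with h4 | h4
        · exact absurd h4 hce
        · exact sub_eq_zero.1 h4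
      have h4 := hχ e (Finset.mem_insert_of_mem he) e0 (Finset.mem_insert_self _ _) h3
      exact h0 (h4 ▸ he)
    intro e he
    rcases Finset.mem_insert.1 he with h3 | h3
    · rw [h3]
      rw [Finset.sum_insert h0, Finset.sum_eq_zero (fun e he => by rw [h2 e he, zero_smul]), add_zero] at hc
      exact (smul_eq_zero.1 hc).resolve_right (hv e0 (Finset.mem_insert_self _ _))
    · exact h2 e h3

theorem count_bad (T : JKType) (hk1 : ∀ c, T.k c ≠ 1)
    (hk0 : ∀ c c', T.k c = 0 → T.k c' = 0 → c = c') (t : T.E → ℂ)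
    (ht : Function.Injective t) {ι : Type} [Fintype ι] [DecidableEq ι] (A B : Matrix ι ι ℂ)
    (P : Basis (Row T ⊕ Col T) ℂ (ι → ℂ)) (hP : CanonO T (fun e => some (t e)) A B P)
    (x a : ι → ℂ) (N : ι → Module.End ℂ (ι → ℂ)) (v χ : T.E → ι → ℂ) (S : Finset T.E)
    (hN : ∀ e ∈ S, ∀ l, N l (v e) = χ e l • v e)
    (hA : ∀ e ∈ S, A *ᵥ v e = (x ⬝ᵥ v e) • χ e) (hB : ∀ e ∈ S, B *ᵥ v e = (a ⬝ᵥ v e) • χ e)
    (hr : ∀ e ∈ S, x ⬝ᵥ v e = t e * (a ⬝ᵥ v e)) (ha : ∀ e ∈ S, a ⬝ᵥ v e ≠ 0)
    (hK : ∀ e ∈ S, ∃ β : T.κ → ℂ, ∀ l, v e l = ∑ c, β c * (kerVec T P c l).eval (- t e)) :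
    S.card ≤ ∑ c, (T.k c + 1) := by
  classical
  have hne : ∀ e ∈ S, v e ≠ 0 := by
    intro e he h0
    apply ha e he
    rw [h0, dotProduct_zero]
  have hχ : ∀ e ∈ S, ∀ e' ∈ S, χ e = χ e' → e = e' := by
    intro e he e' he' hee
    by_contra hneq
    have hte : t e' - t e ≠ 0 := fun h => hneq (ht (sub_eq_zero.1 h)).symm
    obtain ⟨v0, α0, α1, hw0, hw1⟩ := ker_low T (fun e => some (t e)) A B P hP hk1 hk0
      ((x ⬝ᵥ v e') • v e - (x ⬝ᵥ v e) • v e') ((a ⬝ᵥ v e') • v e - (a ⬝ᵥ v e) • v e')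
      (by
        rw [mulVec_sub, mulVec_smul, mulVec_smul, hA e he, hA e' he', hee, smul_smul, smul_smul, mul_comm, sub_self])
      (by
        rw [mulVec_sub, mulVec_smul, mulVec_smul, hA e he, hA e' he', hee, mulVec_sub, mulVec_smul, mulVec_smul,
          hB e he, hB e' he', hee]
        simp only [smul_smul, ← sub_smul, ← add_smul]
        have h1 : a ⬝ᵥ v e' * x ⬝ᵥ v e - a ⬝ᵥ v e * x ⬝ᵥ v e' + (x ⬝ᵥ v e' * a ⬝ᵥ v e - x ⬝ᵥ v e * a ⬝ᵥ v e') = 0 := by
          ring
        rw [h1, zero_smul])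
      (by
        rw [mulVec_sub, mulVec_smul, mulVec_smul, hB e he, hB e' he', hee, smul_smul, smul_smul, mul_comm, sub_self])
    have e1 := congrArg (fun w => a ⬝ᵥ w) hw0
    have e2 := congrArg (fun w => a ⬝ᵥ w) hw1
    have e3 := congrArg (fun w => x ⬝ᵥ w) hw0
    have e4 := congrArg (fun w => x ⬝ᵥ w) hw1
    simp only [dotProduct_sub, dotProduct_smul, smul_eq_mul] at e1 e2 e3 e4
    have hr1 := hr e he
    have hr2 := hr e' he'
    have ha1 := ha e he
    have ha2 := ha e' he'
    rw [hr1, hr2] at e1 e3 e4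
    generalize a ⬝ᵥ v e = p at *
    generalize a ⬝ᵥ v e' = p' at *
    generalize a ⬝ᵥ v0 = y at *
    generalize x ⬝ᵥ v0 = z at *
    have f1 : (t e' - t e) * (p * p') = (α0 - t e * α1) * y := by linear_combination e1 - t e * e2
    have f2 : (α0 - t e * α1) * z = t e * ((α0 - t e * α1) * y) := by
      rw [← f1]; linear_combination -e3 + t e * e4
    have f3 : (t e' - t e) * (p * p') = (α0 - t e' * α1) * y := by linear_combination e1 - t e' * e2
    have f4 : (α0 - t e' * α1) * z = t e' * ((α0 - t e' * α1) * y) := by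
      rw [← f3]; linear_combination -e3 + t e' * e4
    have hL : (t e' - t e) * (p * p') ≠ 0 := mul_ne_zero hte (mul_ne_zero ha1 ha2)
    have g1 : α0 - t e * α1 ≠ 0 := fun h => hL (by rw [f1, h, zero_mul])
    have g2 : α0 - t e' * α1 ≠ 0 := fun h => hL (by rw [f3, h, zero_mul])
    have g3 : y ≠ 0 := fun h => hL (by rw [f1, h, mul_zero])
    have k1 : z = t e * y := mul_left_cancel₀ g1 (by rw [f2]; ring)
    have k2 : z = t e' * y := mul_left_cancel₀ g2 (by rw [f4]; ring)
    apply hte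
    have k3 : (t e' - t e) * y = 0 := by linear_combination k1 - k2
    exact (mul_eq_zero.1 k3).resolve_right g3
  have hind := count_bad_indep N v χ S hN hne hχ
  let b : (Σ c : T.κ, Fin (T.k c + 1)) → (ι → ℂ) := fun s => P (.inr (.inl s))
  have hmem : ∀ e ∈ S, v e ∈ Submodule.span ℂ (Set.range b) := by
    intro e he
    obtain ⟨β, hβ⟩ := hK e he
    have h1 : v e = ∑ c, β c • ∑ j : Fin (T.k c + 1), (t e) ^ (j : ℕ) • b ⟨c, j⟩ := by
      funext l
      rw [hβ l, Finset.sum_apply]
      refine Finset.sum_congr rfl fun c _ => ?_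
      rw [Pi.smul_apply, Finset.sum_apply, smul_eq_mul]
      congr 1
      unfold kerVec
      rw [Polynomial.eval_finsetSum]
      refine Finset.sum_congr rfl fun j _ => ?_
      simp only [Polynomial.eval_mul, Polynomial.eval_C, Polynomial.eval_pow, Polynomial.eval_neg, Polynomial.eval_X,
        neg_neg, Pi.smul_apply, smul_eq_mul, b]
      ring
    rw [h1]
    refine Submodule.sum_mem _ fun c _ => Submodule.smul_mem _ _ (Submodule.sum_mem _ fun j _ =>
      Submodule.smul_mem _ _ (Submodule.subset_span ⟨_, rfl⟩))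
  have hli : LinearIndependent ℂ (fun e : S => (⟨v e, hmem e e.2⟩ : Submodule.span ℂ (Set.range b))) := by
    rw [Fintype.linearIndependent_iff]
    intro g hg
    have h1 : ∑ e : S, g e • v e = 0 := by
      have h2 := congrArg Subtype.val hg
      simpa using h2
    have h2 : ∑ e ∈ S, (fun e => if h : e ∈ S then g ⟨e, h⟩ else 0) e • v e = 0 := by
      rw [← Finset.sum_coe_sort, ← h1]
      refine Finset.sum_congr rfl fun e _ => ?_
      simp
    intro e
    have h3 := hind _ h2 e e.2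
    simpa using h3
  have h1 := hli.fintype_card_le_finrank
  have h2 := finrank_range_le_card (R := ℂ) (b := b)
  rw [Fintype.card_coe] at h1
  have h3 : Fintype.card (Σ c : T.κ, Fin (T.k c + 1)) = ∑ c, (T.k c + 1) := by
    rw [Fintype.card_sigma]
    simp
  rw [← h3]
  exact le_trans h1 h2

end Pool.Agent.Helper783.JK
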