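import Pool.Agent.Helper783.JK.Defs

open Module MvPolynomial Matrix

namespace Pool.Agent.Helper783.JK



noncomputable def line_avoid2_sig (ι : Type) : MvPolynomial ι ℂ →+* Polynomial (MvPolynomial (ι ⊕ ι) ℂ) :=
  MvPolynomial.eval₂Hom (Polynomial.C.comp MvPolynomial.C)
    (fun i => Polynomial.C (X (Sum.inl i)) + Polynomial.X * Polynomial.C (X (Sum.inr i)))

noncomputable def line_avoid2_h (ι : Type) (c : ℂ) :
    MvPolynomial (ι ⊕ ι) ℂ →+* Polynomial (MvPolynomial (ι ⊕ ι) ℂ) :=
  MvPolynomial.eval₂Hom (Polynomial.C.comp MvPolynomial.C)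
    (Sum.elim (fun i => Polynomial.C (X (Sum.inl i)) +
      Polynomial.C (C c) * (Polynomial.X * Polynomial.C (X (Sum.inr i))))
      (fun i => Polynomial.C (X (Sum.inr i))))

noncomputable def line_avoid2_th (ι : Type) (c : ℂ) :
    Polynomial (MvPolynomial (ι ⊕ ι) ℂ) →+* Polynomial (MvPolynomial (ι ⊕ ι) ℂ) :=
  Polynomial.eval₂RingHom (line_avoid2_h ι c) Polynomial.X

theorem line_avoid2_th_C (ι : Type) (c : ℂ) (p : MvPolynomial (ι ⊕ ι) ℂ) :
    line_avoid2_th ι c (Polynomial.C p) = line_avoid2_h ι c p := by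
  simp [line_avoid2_th]

theorem line_avoid2_th_X (ι : Type) (c : ℂ) : line_avoid2_th ι c Polynomial.X = Polynomial.X := by
  simp [line_avoid2_th]

theorem line_avoid2_th_inv (ι : Type) (c : ℂ) : (line_avoid2_th ι c).comp (line_avoid2_th ι (-c)) = RingHom.id _ := by
  apply Polynomial.ringHom_ext'
  · apply MvPolynomial.ringHom_ext
    · intro r
      simp only [RingHom.comp_apply, RingHom.id_apply, line_avoid2_th_C]
      simp [line_avoid2_h, line_avoid2_th_C]
    · intro i
      rcases i with i | i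
      · simp only [RingHom.comp_apply, RingHom.id_apply, line_avoid2_th_C]
        simp [line_avoid2_h, line_avoid2_th_C, line_avoid2_th_X]
        ring
      · simp only [RingHom.comp_apply, RingHom.id_apply, line_avoid2_th_C]
        simp [line_avoid2_h, line_avoid2_th_C]
  · simp only [RingHom.comp_apply, RingHom.id_apply, line_avoid2_th_X]

theorem line_avoid2_sig_eq (ι : Type) (q : MvPolynomial ι ℂ) :
    line_avoid2_sig ι q = line_avoid2_th ι 1 (Polynomial.C (rename Sum.inl q)) := by
  rw [line_avoid2_th_C]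
  have : line_avoid2_sig ι = (line_avoid2_h ι 1).comp (rename Sum.inl : MvPolynomial ι ℂ →ₐ[ℂ] _).toRingHom := by
    apply MvPolynomial.ringHom_ext
    · intro r
      simp [line_avoid2_sig, line_avoid2_h]
    · intro i
      simp [line_avoid2_sig, line_avoid2_h]
  rw [this]
  rfl

theorem line_avoid2_prime_rename (ι : Type) (q : MvPolynomial ι ℂ) (hq : Prime q) :
    Prime (rename Sum.inl q : MvPolynomial (ι ⊕ ι) ℂ) := by
  have h1 : Prime (MvPolynomial.C q : MvPolynomial ι (MvPolynomial ι ℂ)) :=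
    (MvPolynomial.prime_C_iff ι).2 hq
  let e := (sumAlgEquiv ℂ ι ι).symm.trans (renameEquiv ℂ (Equiv.sumComm ι ι))
  have h2 : ∀ q, e (C q) = rename Sum.inl q := by
    intro q
    induction q using MvPolynomial.induction_on with
    | C a => simp [e]
    | add p q hp hq => rw [map_add, map_add, hp, hq, map_add]
    | mul_X p i hp =>
      rw [map_mul, map_mul, hp, map_mul]
      congr 1
      simp [e]
  rw [← h2]
  exact (MulEquiv.prime_iff e).2 h1

theorem line_avoid2_sig_prime (ι : Type) (q : MvPolynomial ι ℂ) (hq : Prime q) : Prime (line_avoid2_sig ι q) := by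
  rw [line_avoid2_sig_eq]
  let e : Polynomial (MvPolynomial (ι ⊕ ι) ℂ) ≃+* Polynomial (MvPolynomial (ι ⊕ ι) ℂ) :=
    RingEquiv.ofRingHom (line_avoid2_th ι 1) (line_avoid2_th ι (-1)) (line_avoid2_th_inv ι 1)
      (by have := line_avoid2_th_inv ι (-1); rwa [neg_neg] at this)
  exact (MulEquiv.prime_iff e).2 (Polynomial.prime_C_iff.2 (line_avoid2_prime_rename ι q hq))

theorem line_avoid2_ev (ι : Type) (x a : ι → ℂ) (s : ℂ) (q : MvPolynomial ι ℂ) :
    Polynomial.eval₂ (eval (Sum.elim x a)) s (line_avoid2_sig ι q) = eval (x + s • a) q := by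
  have : (Polynomial.eval₂RingHom (eval (Sum.elim x a)) s).comp (line_avoid2_sig ι) = eval (x + s • a) := by
    apply MvPolynomial.ringHom_ext
    · intro r
      simp [line_avoid2_sig]
    · intro i
      simp [line_avoid2_sig]
      ring
  exact congrArg (fun φ : MvPolynomial ι ℂ →+* ℂ => φ q) this

/-- `Y ↦ 0` -/
theorem line_avoid2_back_sig (ι : Type) (q : MvPolynomial ι ℂ) :
    Polynomial.evalRingHom 0 (line_avoid2_sig ι q) = rename Sum.inl q := by
  have : (Polynomial.evalRingHom 0).comp (line_avoid2_sig ι) =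
      (rename Sum.inl : MvPolynomial ι ℂ →ₐ[ℂ] MvPolynomial (ι ⊕ ι) ℂ).toRingHom := by
    apply MvPolynomial.ringHom_ext
    · intro r
      simp [line_avoid2_sig]
    · intro i
      simp [line_avoid2_sig]
  exact congrArg (fun φ : MvPolynomial ι ℂ →+* MvPolynomial (ι ⊕ ι) ℂ => φ q) this

theorem line_avoid2_back_h (ι : Type) (f : MvPolynomial (ι ⊕ ι) ℂ) :
    Polynomial.evalRingHom 0 (line_avoid2_h ι 1 f) = f := by
  have : (Polynomial.evalRingHom 0).comp (line_avoid2_h ι 1) = RingHom.id _ := by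
    apply MvPolynomial.ringHom_ext
    · intro r
      simp [line_avoid2_h]
    · intro i
      rcases i with i | i
      · simp [line_avoid2_h]
      · simp [line_avoid2_h]
  exact congrArg (fun φ : MvPolynomial (ι ⊕ ι) ℂ →+* MvPolynomial (ι ⊕ ι) ℂ => φ f) this

theorem line_avoid2_ev_h (ι : Type) (x a : ι → ℂ) (s : ℂ) (f : MvPolynomial (ι ⊕ ι) ℂ) :
    Polynomial.eval₂ (eval (Sum.elim x a)) s (line_avoid2_h ι 1 f) =
      eval (Sum.elim (x + s • a) a) f := by
  have : (Polynomial.eval₂RingHom (eval (Sum.elim x a)) s).comp (line_avoid2_h ι 1) =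
      eval (Sum.elim (x + s • a) a) := by
    apply MvPolynomial.ringHom_ext
    · intro r
      simp [line_avoid2_h]
    · intro i
      rcases i with i | i
      · simp [line_avoid2_h]
        ring
      · simp [line_avoid2_h]
  exact congrArg (fun φ : MvPolynomial (ι ⊕ ι) ℂ →+* ℂ => φ f) this

theorem line_avoid2_coprime {R : Type} [CommRing R] [IsDomain R] [UniqueFactorizationMonoid R]
    (p q : Polynomial R) (hp : Prime p) (hd : p.natDegree ≠ 0) (hq : ¬ p ∣ q) :
    ∃ (u v : Polynomial R) (g : R), g ≠ 0 ∧ u * p + v * q = Polynomial.C g := by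
  let K := FractionRing R
  have hirr : Irreducible p := hp.irreducible
  have hprim := hirr.isPrimitive hd
  have h1 : Irreducible (p.map (algebraMap R K)) :=
    hprim.irreducible_iff_irreducible_map_fraction_map.1 hirr
  have h2 : ¬ p.map (algebraMap R K) ∣ q.map (algebraMap R K) := fun h =>
    hq (hprim.dvd_of_fraction_map_dvd_fraction_map h)
  obtain ⟨u, v, huv⟩ := (h1.coprime_iff_not_dvd).2 h2
  obtain ⟨b, hb, hb'⟩ := IsLocalization.integerNormalization_spec (nonZeroDivisors R) u
  obtain ⟨c, hc, hc'⟩ := IsLocalization.integerNormalization_spec (nonZeroDivisors R) v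
  refine ⟨Polynomial.C c * IsLocalization.integerNormalization (nonZeroDivisors R) u,
    Polynomial.C b * IsLocalization.integerNormalization (nonZeroDivisors R) v, b * c,
    mul_ne_zero (nonZeroDivisors.ne_zero hb) (nonZeroDivisors.ne_zero hc), ?_⟩
  apply Polynomial.map_injective (algebraMap R K) (IsFractionRing.injective _ _)
  rw [Polynomial.map_add, Polynomial.map_mul, Polynomial.map_mul, Polynomial.map_mul,
    Polynomial.map_mul, hb', hc', Polynomial.map_C, Polynomial.map_C, Polynomial.map_C,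
    Algebra.smul_def, Algebra.smul_def, Polynomial.algebraMap_apply, Polynomial.algebraMap_apply]
  rw [map_mul, Polynomial.C_mul]
  linear_combination (Polynomial.C (algebraMap R K b) * Polynomial.C (algebraMap R K c)) * huv

theorem line_avoid2 {ι : Type} [Fintype ι] (q : MvPolynomial ι ℂ)
    (f : MvPolynomial (ι ⊕ ι) ℂ) (hq : Prime q) (hf : ¬ (rename Sum.inl q) ∣ f) :
    Gen ι (fun x a => ∀ s : ℂ, eval (x + s • a) q = 0 →
      eval (Sum.elim (x + s • a) a) f ≠ 0) := by
  have hp := line_avoid2_sig_prime ι q hq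
  by_cases hd : (line_avoid2_sig ι q).natDegree = 0
  · obtain ⟨g, hg⟩ := Polynomial.natDegree_eq_zero.1 hd
    refine ⟨g, ?_, ?_⟩
    · rintro rfl
      rw [map_zero] at hg
      exact hp.ne_zero hg.symm
    · intro x a hx s hs
      exfalso
      apply hx
      rw [← line_avoid2_ev, ← hg, Polynomial.eval₂_C] at hs
      exact hs
  · have hnd : ¬ line_avoid2_sig ι q ∣ line_avoid2_h ι 1 f := by
      intro h
      have h2 := map_dvd (Polynomial.evalRingHom (0 : MvPolynomial (ι ⊕ ι) ℂ)) h
      rw [line_avoid2_back_sig, line_avoid2_back_h] at h2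
      exact hf h2
    obtain ⟨u, v, g, hg, huv⟩ := line_avoid2_coprime _ _ hp hd hnd
    refine ⟨g, hg, ?_⟩
    intro x a hx s hs hfs
    apply hx
    have h3 := congrArg (Polynomial.eval₂ (eval (Sum.elim x a)) s) huv
    rw [Polynomial.eval₂_add, Polynomial.eval₂_mul, Polynomial.eval₂_mul, line_avoid2_ev,
      line_avoid2_ev_h, hs, hfs, mul_zero, mul_zero, add_zero, Polynomial.eval₂_C] at h3
    exact h3.symm

end Pool.Agent.Helper783.JK
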