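import Pool.Agent.Helper783.JK.Defs
import Pool.Agent.Helper783.JK.P_line_avoid2

open Module MvPolynomial Matrix

namespace Pool.Agent.Helper783.JK



theorem gr_rows {m n : Type} [Fintype m] [Fintype n] (M : Matrix m n ℂ) (k : ℕ)
    (hk : k ≤ M.rank) : ∃ f : Fin k → m, LinearIndependent ℂ (fun i => M (f i)) := by
  obtain ⟨κ, a, ha, hspan, hli⟩ := exists_linearIndependent' ℂ M.row
  have : Finite κ := Finite.of_injective a ha
  let : Fintype κ := Fintype.ofFinite κ
  have hcard : Fintype.card κ = M.rank := by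
    rw [Matrix.rank_eq_finrank_span_row, ← hspan]
    exact (finrank_span_eq_card hli).symm
  obtain ⟨e⟩ : Nonempty (Fin k ↪ κ) := Function.Embedding.nonempty_of_card_le (by
    rw [Fintype.card_fin, hcard]; exact hk)
  exact ⟨a ∘ e, hli.comp e e.injective⟩

theorem gr_minor {α : Type} [Fintype α] (M : Matrix α α ℂ) (k : ℕ) (hk : k ≤ M.rank) :
    ∃ f g : Fin k → α, (M.submatrix f g).det ≠ 0 := by
  obtain ⟨f, hf⟩ := gr_rows M k hk
  have h1 : (M.submatrix f id).rank = k := by
    have := LinearIndependent.rank_matrix (M := M.submatrix f id) hf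
    rwa [Fintype.card_fin] at this
  have h2 : k ≤ (M.submatrix f id)ᵀ.rank := by rw [Matrix.rank_transpose, h1]
  obtain ⟨g, hg⟩ := gr_rows _ k h2
  refine ⟨f, g, ?_⟩
  have h3 : IsUnit ((M.submatrix f g)ᵀ) := Matrix.linearIndependent_rows_iff_isUnit.1 hg
  have h4 := (Matrix.isUnit_iff_isUnit_det _).1 h3
  rw [Matrix.det_transpose] at h4
  exact h4.ne_zero

theorem gr_not_unit {ι : Type} (q : MvPolynomial ι ℂ) (hq : Prime q) :
    ¬ IsUnit (rename Sum.inl q : MvPolynomial (ι ⊕ ι) ℂ) := by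
  intro h
  apply hq.not_isUnit
  let v : ι ⊕ ι → MvPolynomial ι ℂ := Sum.elim X (fun _ => 0)
  have h2 := h.map (aeval v)
  have h3 : aeval v (rename Sum.inl q : MvPolynomial (ι ⊕ ι) ℂ) = q := by
    rw [aeval_rename]
    have : v ∘ Sum.inl = X := rfl
    rw [this, aeval_X_left_apply]
  rwa [h3] at h2

theorem gen_rank {ι α : Type} [Fintype ι] [Fintype α] [DecidableEq α] (q : MvPolynomial ι ℂ)
    (hq : Prime q) (W : Matrix α α (MvPolynomial (ι ⊕ ι) ℂ)) :
    ∃ ρ : ℕ, Gen ι (fun x a => ∀ s : ℂ, eval (x + s • a) q = 0 →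
      (W.map (eval (Sum.elim (x + s • a) a))).rank = ρ) := by
  classical
  let Pk : ℕ → Prop := fun k => ∃ f g : Fin k → α,
    ¬ ((rename Sum.inl q : MvPolynomial (ι ⊕ ι) ℂ) ∣ (W.submatrix f g).det)
  have hP0 : Pk 0 := by
    refine ⟨Fin.elim0, Fin.elim0, ?_⟩
    rw [Matrix.det_fin_zero]
    intro h
    exact gr_not_unit q hq (isUnit_of_dvd_one h)
  obtain ⟨ρ, hρ⟩ : ∃ ρ, ρ = Nat.findGreatest Pk (Fintype.card α) := ⟨_, rfl⟩
  have h1 : Pk ρ := by
    rw [hρ]
    exact Nat.findGreatest_spec (Nat.zero_le _) hP0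
  have h2 : ¬ Pk (ρ + 1) := by
    by_cases hle : ρ + 1 ≤ Fintype.card α
    · exact Nat.findGreatest_is_greatest (by rw [← hρ]; exact Nat.lt_succ_self ρ) hle
    · rintro ⟨f, g, hfg⟩
      have hni : ¬ Function.Injective f := by
        intro hi
        have := Fintype.card_le_of_injective f hi
        rw [Fintype.card_fin] at this
        exact hle this
      rw [Function.Injective] at hni
      push Not at hni
      obtain ⟨i, j, hij, hne⟩ := hni
      apply hfg
      rw [Matrix.det_zero_of_row_eq hne (by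
        funext c
        show W (f i) (g c) = W (f j) (g c)
        rw [hij])]
      exact dvd_zero _
  obtain ⟨f, g, hfg⟩ := h1
  refine ⟨ρ, (line_avoid2 q _ hq hfg).mono ?_⟩
  intro x a hxa s hs
  have h3 := hxa s hs
  obtain ⟨φ, hφ⟩ : ∃ φ : MvPolynomial (ι ⊕ ι) ℂ →+* ℂ, φ = eval (Sum.elim (x + s • a) a) :=
    ⟨_, rfl⟩
  rw [← hφ] at h3 ⊢
  have hmap : ∀ {k : ℕ} (f g : Fin k → α), ((W.map φ).submatrix f g).det
      = φ (W.submatrix f g).det := by
    intro k f g
    rw [RingHom.map_det]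
    rfl
  apply le_antisymm
  · by_contra hlt
    push Not at hlt
    obtain ⟨f', g', hd⟩ := gr_minor (W.map φ) (ρ + 1) hlt
    apply hd
    rw [hmap]
    have h4 : (rename Sum.inl q : MvPolynomial (ι ⊕ ι) ℂ) ∣ (W.submatrix f' g').det := by
      by_contra hc
      exact h2 ⟨f', g', hc⟩
    obtain ⟨r, hr⟩ := h4
    rw [hr, map_mul]
    have h5 : φ (rename Sum.inl q) = 0 := by
      rw [hφ, eval_rename]
      exact hs
    rw [h5, zero_mul]
  · have h4 : ((W.map φ).submatrix f g).det ≠ 0 := by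
      rw [hmap]; exact h3
    have h5 := Matrix.rank_of_det_ne_zero h4
    rw [Fintype.card_fin] at h5
    rw [← h5]
    exact Matrix.rank_submatrix_le _ _ _

end Pool.Agent.Helper783.JK
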