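import Pool.Agent.Helper783.JK.Defs
import Pool.Agent.Helper783.JK.P_line_avoid2

open Module MvPolynomial Matrix

namespace Pool.Agent.Helper783.JK



noncomputable def many_roots_L {ι : Type} (x a : ι → ℂ) : MvPolynomial ι ℂ →ₐ[ℂ] Polynomial ℂ :=
  aeval (fun i => Polynomial.C (x i) + Polynomial.X * Polynomial.C (a i))

lemma many_roots_eval {ι : Type} (x a : ι → ℂ) (s : ℂ) (q : MvPolynomial ι ℂ) :
    (many_roots_L x a q).eval s = eval (x + s • a) q := by
  unfold many_roots_L
  induction q using MvPolynomial.induction_on with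
  | C c => rw [algHom_C, Polynomial.algebraMap_eq, Polynomial.eval_C, eval_C]
  | add p q hp hq => rw [map_add, Polynomial.eval_add, hp, hq, map_add]
  | mul_X p i hp =>
    rw [map_mul, aeval_X, Polynomial.eval_mul, hp, map_mul, eval_X]
    simp only [Polynomial.eval_add, Polynomial.eval_mul, Polynomial.eval_C, Polynomial.eval_X,
      Pi.add_apply, Pi.smul_apply, smul_eq_mul]

lemma many_roots_deriv {ι : Type} [Fintype ι] (x a : ι → ℂ) (q : MvPolynomial ι ℂ) :
    Polynomial.derivative (many_roots_L x a q) =
      ∑ l, Polynomial.C (a l) * many_roots_L x a (pderiv l q) := by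
  classical
  unfold many_roots_L
  induction q using MvPolynomial.induction_on with
  | C c =>
    rw [algHom_C, Polynomial.algebraMap_eq, Polynomial.derivative_C]
    simp
  | add p q hp hq =>
    rw [map_add, Polynomial.derivative_add, hp, hq, ← Finset.sum_add_distrib]
    refine Finset.sum_congr rfl fun l _ => ?_
    rw [map_add, map_add, mul_add]
  | mul_X p i hp =>
    rw [map_mul, aeval_X, Polynomial.derivative_mul, hp]
    have h1 : Polynomial.derivative (Polynomial.C (x i) + Polynomial.X * Polynomial.C (a i)) =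
        Polynomial.C (a i) := by simp
    rw [h1]
    have h2 : ∀ l, Polynomial.C (a l) *
        (aeval fun i => Polynomial.C (x i) + Polynomial.X * Polynomial.C (a i))
          (pderiv l (p * X i)) =
        (Polynomial.C (a l) * (aeval fun i => Polynomial.C (x i) +
          Polynomial.X * Polynomial.C (a i)) (pderiv l p)) *
          (Polynomial.C (x i) + Polynomial.X * Polynomial.C (a i)) +
        (if l = i then (aeval fun i => Polynomial.C (x i) +
          Polynomial.X * Polynomial.C (a i)) p * Polynomial.C (a i) else 0) := by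
      intro l
      rw [pderiv_mul, map_add, map_mul, map_mul, aeval_X]
      by_cases e : l = i
      · subst e
        rw [pderiv_X_self, map_one, if_pos rfl]
        ring
      · rw [pderiv_X_of_ne (fun h => e h.symm), map_zero, if_neg e]
        ring
    simp_rw [h2]
    rw [Finset.sum_add_distrib, Finset.sum_ite_eq' Finset.univ i, if_pos (Finset.mem_univ i),
      Finset.sum_mul]

lemma many_roots_coeff {ι : Type} (a : ι → ℂ) (n : ℕ) (q : MvPolynomial ι ℂ) :
    (many_roots_L 0 a q).coeff n = eval a (homogeneousComponent n q) := by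
  classical
  unfold many_roots_L
  induction q using MvPolynomial.induction_on' with
  | monomial u c =>
    rw [aeval_monomial]
    have h1 : (u.prod fun i k => (Polynomial.C ((0 : ι → ℂ) i) +
        Polynomial.X * Polynomial.C (a i)) ^ k) =
        Polynomial.C (u.prod fun i k => a i ^ k) * Polynomial.X ^ u.degree := by
      rw [Finsupp.prod, Finsupp.prod, Finsupp.degree_apply, map_prod, ← Finset.prod_pow_eq_pow_sum,
        ← Finset.prod_mul_distrib]
      refine Finset.prod_congr rfl fun i _ => ?_
      rw [Pi.zero_apply, Polynomial.C_0, zero_add, mul_pow, mul_comm, Polynomial.C_pow]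
    rw [h1, Polynomial.algebraMap_eq, ← mul_assoc, ← Polynomial.C_mul,
      Polynomial.coeff_C_mul_X_pow]
    have h2 : (monomial u c : MvPolynomial ι ℂ) ∈ homogeneousSubmodule ι ℂ u.degree :=
      (mem_homogeneousSubmodule _ _).2 (isHomogeneous_monomial c rfl)
    rw [homogeneousComponent_of_mem h2]
    split_ifs with e
    · rw [eval_monomial]
    · rw [map_zero]
  | add p q hp hq => rw [map_add, Polynomial.coeff_add, hp, hq, map_add, map_add]

lemma many_roots_map {ι : Type} (x a : ι → ℂ) (q : MvPolynomial ι ℂ) :
    Polynomial.map (eval (Sum.elim x a)) (aeval (fun i : ι =>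
      (Polynomial.C (X (Sum.inl i)) + Polynomial.X * Polynomial.C (X (Sum.inr i)) :
        Polynomial (MvPolynomial (ι ⊕ ι) ℂ))) q) = many_roots_L x a q := by
  unfold many_roots_L
  induction q using MvPolynomial.induction_on with
  | C c =>
    rw [algHom_C, algHom_C, Polynomial.algebraMap_eq]
    rw [Polynomial.algebraMap_apply, Polynomial.map_C]
    simp [MvPolynomial.algebraMap_eq]
  | add p q hp hq => rw [map_add, Polynomial.map_add, hp, hq, map_add]
  | mul_X p i hp =>
    rw [map_mul, Polynomial.map_mul, hp, map_mul, aeval_X, aeval_X]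
    simp

lemma many_roots_top {ι : Type} (q : MvPolynomial ι ℂ) (hq : q ≠ 0) :
    homogeneousComponent q.totalDegree q ≠ 0 := by
  have hs : q.support.Nonempty := by
    rw [Finset.nonempty_iff_ne_empty]
    intro e
    exact hq (support_eq_empty.1 e)
  obtain ⟨m, hm, hm2⟩ := Finset.exists_mem_eq_sup q.support hs (fun s => s.sum fun _ e => e)
  intro h
  have h1 := congrArg (coeff m) h
  rw [coeff_homogeneousComponent, if_pos, coeff_zero] at h1
  · exact (MvPolynomial.mem_support_iff.1 hm) h1
  · rw [totalDegree, hm2]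
    rfl

lemma many_roots_tdlt {ι : Type} (l : ι) (q : MvPolynomial ι ℂ) (hd : 0 < q.totalDegree) :
    (pderiv l q).totalDegree < q.totalDegree := by
  rw [totalDegree, Finset.sup_lt_iff (by simpa using hd)]
  intro m hm
  rw [MvPolynomial.mem_support_iff, coeff_pderiv] at hm
  have h1 : m + Finsupp.single l 1 ∈ q.support := MvPolynomial.mem_support_iff.2 (left_ne_zero_of_mul hm)
  have h2 := le_totalDegree h1
  rw [Finsupp.sum_add_index' (fun _ => rfl) (fun _ _ _ => rfl), Finsupp.sum_single_index rfl] at h2
  omega

lemma many_roots_exl {ι : Type} (q : MvPolynomial ι ℂ) (hd : 0 < q.totalDegree) :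
    ∃ l, pderiv l q ≠ 0 := by
  by_contra h
  push Not at h
  have : q.totalDegree ≤ 0 := by
    rw [totalDegree, Finset.sup_le_iff]
    intro m hm
    have hm0 : m = 0 := by
      ext l
      by_contra hl
      have h1 := congrArg (coeff (m - Finsupp.single l 1)) (h l)
      rw [coeff_pderiv, coeff_zero] at h1
      have h2 : m - Finsupp.single l 1 + Finsupp.single l 1 = m := by
        apply tsub_add_cancel_of_le
        rw [Finsupp.single_le_iff]
        exact Nat.one_le_iff_ne_zero.2 hl
      rw [h2] at h1
      rcases mul_eq_zero.1 h1 with h3 | h3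
      · exact (MvPolynomial.mem_support_iff.1 hm) h3
      · exact absurd h3 (Nat.cast_add_one_ne_zero _)
    subst hm0
    simp
  omega

lemma many_roots_ndvd {ι : Type} [Fintype ι] (q : MvPolynomial ι ℂ) (hd : 0 < q.totalDegree) :
    ¬ (rename Sum.inl q : MvPolynomial (ι ⊕ ι) ℂ) ∣
      ∑ l, X (Sum.inr l) * rename Sum.inl (pderiv l q) := by
  classical
  intro hdiv
  obtain ⟨l, hl⟩ := many_roots_exl q hd
  have h1 := map_dvd (aeval (Sum.elim X (fun i => C (if i = l then (1 : ℂ) else 0))) :
    MvPolynomial (ι ⊕ ι) ℂ →ₐ[ℂ] MvPolynomial ι ℂ) hdiv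
  have h2 : ∀ r : MvPolynomial ι ℂ, aeval (Sum.elim X (fun i => C (if i = l then (1 : ℂ) else 0)))
      (rename Sum.inl r : MvPolynomial (ι ⊕ ι) ℂ) = r := by
    intro r
    rw [aeval_rename, Sum.elim_comp_inl, aeval_X_left, AlgHom.id_apply]
  rw [h2, map_sum] at h1
  have h3 : ∑ l', aeval (Sum.elim X (fun i => C (if i = l then (1 : ℂ) else 0)))
      (X (Sum.inr l') * rename Sum.inl (pderiv l' q) : MvPolynomial (ι ⊕ ι) ℂ) = pderiv l q := by
    rw [Finset.sum_eq_single l]
    · rw [map_mul, h2, aeval_X, Sum.elim_inr, if_pos rfl, C_1, one_mul]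
    · intro b _ hb
      rw [map_mul, aeval_X, Sum.elim_inr, if_neg hb, C_0, zero_mul]
    · intro h; exact absurd (Finset.mem_univ l) h
  rw [h3] at h1
  obtain ⟨r, hr⟩ := h1
  have hr0 : r ≠ 0 := by
    rintro rfl
    rw [mul_zero] at hr
    exact hl hr
  have hq0 : q ≠ 0 := by
    rintro rfl
    rw [zero_mul] at hr
    exact hl hr
  have h4 := many_roots_tdlt l q hd
  rw [hr, totalDegree_mul_of_isDomain hq0 hr0] at h4
  omega

theorem many_roots {ι : Type} [Fintype ι] (q : MvPolynomial ι ℂ) (hq : Prime q)
    (hd : 2 ≤ q.totalDegree) :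
    Gen ι (fun x a => ∀ s : ℂ, eval (x + s • a) q = 0 →
      ∃ s' : ℂ, s' ≠ s ∧ eval (x + s' • a) q = 0) := by
  classical
  have hd0 : 0 < q.totalDegree := by omega
  have g1 := line_avoid2 q _ hq (many_roots_ndvd q hd0)
  have g2 : Gen ι (fun x a => (many_roots_L x a q).coeff q.totalDegree ≠ 0) := by
    refine ⟨(aeval (fun i : ι =>
      (Polynomial.C (X (Sum.inl i)) + Polynomial.X * Polynomial.C (X (Sum.inr i)) :
        Polynomial (MvPolynomial (ι ⊕ ι) ℂ))) q).coeff q.totalDegree, ?_, ?_⟩
    · intro h0
      have h1 : ∀ a : ι → ℂ, eval a (homogeneousComponent q.totalDegree q) = 0 := by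
        intro a
        rw [← many_roots_coeff, ← many_roots_map, Polynomial.coeff_map, h0, map_zero]
      apply many_roots_top q hq.ne_zero
      apply MvPolynomial.funext
      intro a
      rw [h1 a, map_zero]
    · intro x a h
      rw [← many_roots_map, Polynomial.coeff_map]
      exact h
  refine (g1.and g2).mono ?_
  rintro x a ⟨h1, h2⟩ s hs
  by_contra hcon
  push Not at hcon
  have hQ0 : many_roots_L x a q ≠ 0 := by
    intro e
    rw [e, Polynomial.coeff_zero] at h2
    exact h2 rfl
  have hdeg : 2 ≤ (many_roots_L x a q).natDegree :=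
    hd.trans (Polynomial.le_natDegree_of_ne_zero h2)
  have hroots : ∀ r ∈ (many_roots_L x a q).roots, r = s := by
    intro r hr
    by_contra hne
    apply hcon r hne
    rw [← many_roots_eval]
    exact (Polynomial.mem_roots hQ0).1 hr
  have hrep := Multiset.eq_replicate_of_mem hroots
  have hcard : Multiset.card (many_roots_L x a q).roots = (many_roots_L x a q).natDegree :=
    IsAlgClosed.card_roots_eq_natDegree
  have hcount : (many_roots_L x a q).rootMultiplicity s = (many_roots_L x a q).natDegree := by
    rw [← Polynomial.count_roots, hrep, Multiset.count_replicate_self, hcard]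
  have h3 : 1 < (many_roots_L x a q).rootMultiplicity s := by omega
  have h4 := ((Polynomial.one_lt_rootMultiplicity_iff_isRoot hQ0).1 h3).2
  apply h1 s hs
  rw [map_sum]
  rw [Polynomial.IsRoot.def, many_roots_deriv, Polynomial.eval_finset_sum] at h4
  rw [← h4]
  refine Finset.sum_congr rfl fun l _ => ?_
  rw [map_mul, eval_X, Sum.elim_inr, eval_rename, Sum.elim_comp_inl, Polynomial.eval_mul,
    Polynomial.eval_C, many_roots_eval]

end Pool.Agent.Helper783.JK
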