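import Pool.Agent.Helper783.JK.Defs

open Module MvPolynomial Matrix

namespace Pool.Agent.Helper783.JK



open Classical in
theorem part_eq (T : JKType) (e e' : T.E)
    (h : ∀ N, ∑ b, (if T.ev b = e then min (T.m b) N else 0) =
      ∑ b, (if T.ev b = e' then min (T.m b) N else 0)) : SamePart T e e' := by
  intro n
  have hcard : ∀ x : T.E, Nat.card {b : T.β // T.ev b = x ∧ T.m b = n} =
      ∑ b, (if T.ev b = x ∧ T.m b = n then 1 else 0) := by
    intro x
    rw [Nat.card_eq_fintype_card, Fintype.card_subtype, Finset.card_filter]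
  rw [hcard, hcard]
  have hG : ∀ N, ∑ b, (if T.ev b = e ∧ N + 1 ≤ T.m b then 1 else 0) =
      ∑ b, (if T.ev b = e' ∧ N + 1 ≤ T.m b then 1 else 0) := by
    intro N
    have hs : ∀ x : T.E, ∑ b, (if T.ev b = x then min (T.m b) (N + 1) else 0) =
        ∑ b, (if T.ev b = x then min (T.m b) N else 0) +
          ∑ b, (if T.ev b = x ∧ N + 1 ≤ T.m b then 1 else 0) := by
      intro x
      rw [← Finset.sum_add_distrib]
      refine Finset.sum_congr rfl fun b _ => ?_
      by_cases h1 : T.ev b = x
      · by_cases h2 : N + 1 ≤ T.m b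
        · rw [if_pos h1, if_pos h1, if_pos ⟨h1, h2⟩, min_eq_right h2, min_eq_right (by omega)]
        · rw [if_pos h1, if_pos h1, if_neg (fun h3 => h2 h3.2), min_eq_left (by omega),
            min_eq_left (by omega)]
          rfl
      · rw [if_neg h1, if_neg h1, if_neg (fun h3 => h1 h3.1)]
    have h1 := h (N + 1)
    rw [hs, hs, h N] at h1
    exact Nat.add_left_cancel h1
  cases n with
  | zero =>
    have hz : ∀ x : T.E, ∑ b, (if T.ev b = x ∧ T.m b = 0 then 1 else 0) = 0 := by
      intro x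
      refine Finset.sum_eq_zero fun b _ => ?_
      rw [if_neg]
      rintro ⟨-, h2⟩
      have := T.m_pos b
      omega
    rw [hz, hz]
  | succ n =>
    have hs : ∀ x : T.E, ∑ b, (if T.ev b = x ∧ n + 1 ≤ T.m b then 1 else 0) =
        ∑ b, (if T.ev b = x ∧ T.m b = n + 1 then 1 else 0) +
          ∑ b, (if T.ev b = x ∧ n + 1 + 1 ≤ T.m b then 1 else 0) := by
      intro x
      rw [← Finset.sum_add_distrib]
      refine Finset.sum_congr rfl fun b _ => ?_
      by_cases h1 : T.ev b = x
      · by_cases h2 : T.m b = n + 1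
        · rw [if_pos ⟨h1, by omega⟩, if_pos ⟨h1, h2⟩, if_neg (fun h3 => by omega)]
        · by_cases h4 : n + 1 ≤ T.m b
          · rw [if_pos ⟨h1, h4⟩, if_neg (fun h3 => h2 h3.2), if_pos ⟨h1, by omega⟩]
          · rw [if_neg (fun h3 => h4 h3.2), if_neg (fun h3 => h2 h3.2),
              if_neg (fun h3 => by omega)]
      · rw [if_neg (fun h3 => h1 h3.1), if_neg (fun h3 => h1 h3.1), if_neg (fun h3 => h1 h3.1)]
    have h1 := hG n
    rw [hs, hs, hG (n + 1)] at h1
    exact Nat.add_right_cancel h1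

end Pool.Agent.Helper783.JK
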