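import Pool.Agent.Helper783.JK.Defs

open Module MvPolynomial Matrix

namespace Pool.Agent.Helper783.JK



/-- block diagonal lift -/
def lft {ι κ : Type} (N : ℕ) (X : Matrix κ ι ℂ) : Matrix (Fin N × κ) (Fin N × ι) ℂ :=
  fun p q => if p.1 = q.1 then X p.2 q.2 else 0

theorem lft_mul {ι κ : Type} [Fintype ι] (N : ℕ) (X : Matrix κ ι ℂ) {μ : Type}
    (Z : Matrix (Fin N × ι) μ ℂ) (p : Fin N × κ) (q : μ) :
    (lft N X * Z) p q = ∑ i, X p.2 i * Z (p.1, i) q := by
  rw [Matrix.mul_apply, Fintype.sum_prod_type, Finset.sum_eq_single p.1]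
  · simp [lft]
  · intro b _ hb
    apply Finset.sum_eq_zero
    intro i _
    simp [lft, Ne.symm hb]
  · intro h; exact absurd (Finset.mem_univ _) h

theorem mul_lft {ι κ : Type} [Fintype ι] (N : ℕ) (Y : Matrix ι κ ℂ) {μ : Type}
    (Z : Matrix μ (Fin N × ι) ℂ) (p : μ) (q : Fin N × κ) :
    (Z * lft N Y) p q = ∑ i, Z p (q.1, i) * Y i q.2 := by
  rw [Matrix.mul_apply, Fintype.sum_prod_type, Finset.sum_eq_single q.1]
  · simp [lft]
  · intro b _ hb
    apply Finset.sum_eq_zero
    intro i _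
    simp [lft, hb]
  · intro h; exact absurd (Finset.mem_univ _) h

theorem toep_conj {ι κ : Type} [Fintype ι] (N : ℕ) (X : Matrix κ ι ℂ)
    (Y : Matrix ι κ ℂ) (A B : Matrix ι ι ℂ) :
    toep N (X * A * Y) (X * B * Y) = lft N X * toep N A B * lft N Y := by
  ext p q
  rw [mul_lft]
  simp_rw [lft_mul]
  by_cases h1 : p.1 = q.1
  · simp [toep, h1, Matrix.mul_apply]
  · by_cases h2 : (p.1 : ℕ) = (q.1 : ℕ) + 1
    · simp [toep, h1, h2, Matrix.mul_apply]
    · simp [toep, h1, h2]

theorem toep_rank_le {ι κ : Type} [Fintype ι] [Fintype κ] (N : ℕ) (X : Matrix κ ι ℂ)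
    (Y : Matrix ι κ ℂ) (A B : Matrix ι ι ℂ) :
    (toep N (X * A * Y) (X * B * Y)).rank ≤ (toep N A B).rank := by
  rw [toep_conj]
  exact (Matrix.rank_mul_le_left _ _).trans (Matrix.rank_mul_le_right _ _)

theorem toep_rank_conj {ι κ : Type} [Fintype ι] [Fintype κ] [DecidableEq ι] (N : ℕ)
    (X : Matrix ι κ ℂ) (Y : Matrix κ ι ℂ) (hXY : X * Y = 1) (A B : Matrix ι ι ℂ) :
    (toep N (Xᵀ * A * X) (Xᵀ * B * X)).rank = (toep N A B).rank := by
  apply le_antisymm (toep_rank_le N _ _ _ _)
  have h : Yᵀ * Xᵀ = 1 := by rw [← Matrix.transpose_mul, hXY, Matrix.transpose_one]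
  have key : ∀ C : Matrix ι ι ℂ, Yᵀ * (Xᵀ * C * X) * Y = C := by
    intro C
    calc Yᵀ * (Xᵀ * C * X) * Y = (Yᵀ * Xᵀ) * C * (X * Y) := by
          simp only [Matrix.mul_assoc]
      _ = C := by rw [h, hXY, Matrix.one_mul, Matrix.mul_one]
  have h2 := toep_rank_le N Yᵀ Y (Xᵀ * A * X) (Xᵀ * B * X)
  rw [key, key] at h2
  exact h2

theorem rank_anti {α β : Type} [Fintype α] [Fintype β] (U : Matrix α β ℂ) (V : Matrix β α ℂ) :
    (Matrix.fromBlocks 0 U V 0).rank = U.rank + V.rank := by
  classical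
  let e : LinearMap.ker (Matrix.fromBlocks 0 U V 0).mulVecLin ≃ₗ[ℂ]
      LinearMap.ker U.mulVecLin × LinearMap.ker V.mulVecLin :=
    { toFun := fun y => (⟨y.1 ∘ Sum.inr, by
          have h := y.2
          rw [LinearMap.mem_ker, Matrix.mulVecLin_apply, Matrix.fromBlocks_mulVec] at h
          rw [LinearMap.mem_ker, Matrix.mulVecLin_apply]
          funext i
          have := congrFun h (Sum.inl i)
          simpa using this⟩, ⟨y.1 ∘ Sum.inl, by
          have h := y.2
          rw [LinearMap.mem_ker, Matrix.mulVecLin_apply, Matrix.fromBlocks_mulVec] at h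
          rw [LinearMap.mem_ker, Matrix.mulVecLin_apply]
          funext i
          have := congrFun h (Sum.inr i)
          simpa using this⟩)
      invFun := fun p => ⟨Sum.elim p.2.1 p.1.1, by
          have h1 := p.1.2
          have h2 := p.2.2
          rw [LinearMap.mem_ker, Matrix.mulVecLin_apply] at h1 h2
          rw [LinearMap.mem_ker, Matrix.mulVecLin_apply, Matrix.fromBlocks_mulVec]
          funext i
          rcases i with i | i
          · simpa using congrFun h1 i
          · simpa using congrFun h2 i⟩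
      left_inv := by
        intro y
        apply Subtype.ext
        funext i
        rcases i with i | i <;> rfl
      right_inv := by
        intro p
        rfl
      map_add' := by
        intro x y
        rfl
      map_smul' := by
        intro c x
        rfl }
  have h1 := e.finrank_eq
  rw [Module.finrank_prod] at h1
  have h2 := LinearMap.finrank_range_add_finrank_ker (Matrix.fromBlocks 0 U V 0).mulVecLin
  have h3 := LinearMap.finrank_range_add_finrank_ker U.mulVecLin
  have h4 := LinearMap.finrank_range_add_finrank_ker V.mulVecLin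
  rw [Module.finrank_fintype_fun_eq_card] at h2 h3 h4
  rw [Fintype.card_sum] at h2
  unfold Matrix.rank
  omega

theorem aux_rank_neg {α β : Type} [Fintype α] [Fintype β] [DecidableEq α] (X : Matrix α β ℂ) :
    (-X).rank = X.rank := by
  apply le_antisymm
  · have : -X = (-1 : Matrix α α ℂ) * X := by simp
    rw [this]
    exact Matrix.rank_mul_le_right _ _
  · have : X = (-1 : Matrix α α ℂ) * (-X) := by simp
    conv_lhs => rw [this]
    exact Matrix.rank_mul_le_right _ _

/-- rectangular block Toeplitz matrix -/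
def rtoep {α β : Type} (N : ℕ) (R S : α → β → ℂ) : Matrix (Fin N × α) (Fin N × β) ℂ :=
  fun p q => if p.1 = q.1 then R p.2 q.2 else if (p.1 : ℕ) = (q.1 : ℕ) + 1 then S p.2 q.2 else 0

theorem rtoep_rev {α β : Type} [Fintype α] [Fintype β] (N : ℕ) (R S : α → β → ℂ) :
    (rtoep N (fun c r => - R r c) (fun c r => - S r c)).rank = (rtoep N R S).rank := by
  classical
  have h : rtoep N (fun c r => - R r c) (fun c r => - S r c) =
      ((-(rtoep N R S)ᵀ).submatrix (Equiv.prodCongr (Fin.revPerm (n := N)) (Equiv.refl β))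
        (Equiv.prodCongr (Fin.revPerm (n := N)) (Equiv.refl α))) := by
    ext p q
    simp only [rtoep, Matrix.submatrix_apply, Matrix.neg_apply, Matrix.transpose_apply,
      Equiv.prodCongr_apply, Prod.map, Fin.revPerm_apply, Equiv.refl_apply, Fin.rev_inj,
      Fin.val_rev]
    by_cases h1 : p.1 = q.1
    · simp [h1]
    · have h1' : ¬ q.1 = p.1 := fun e => h1 e.symm
      have hp := p.1.2
      have hq := q.1.2
      by_cases h2 : (p.1 : ℕ) = (q.1 : ℕ) + 1
      · have h3 : N - ((q.1 : ℕ) + 1) = N - ((p.1 : ℕ) + 1) + 1 := by omega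
        rw [if_neg h1, if_pos h2, if_neg h1', if_pos h3]
      · have h3 : ¬ (N - ((q.1 : ℕ) + 1) = N - ((p.1 : ℕ) + 1) + 1) := by omega
        rw [if_neg h1, if_neg h2, if_neg h1', if_neg h3, neg_zero]
  rw [h, Matrix.rank_submatrix, aux_rank_neg, Matrix.rank_transpose]

/-- reduction of the rank of the skew block Toeplitz matrix -/
theorem toep_skew_rank {α β : Type} [Fintype α] [Fintype β] (N : ℕ) (R S : α → β → ℂ)
    (A B : Matrix (α ⊕ β) (α ⊕ β) ℂ)
    (hA : ∀ i j, A i j = (match i, j with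
      | .inl r, .inr c => R r c
      | .inr c, .inl r => - R r c
      | _, _ => 0))
    (hB : ∀ i j, B i j = (match i, j with
      | .inl r, .inr c => S r c
      | .inr c, .inl r => - S r c
      | _, _ => 0)) :
    (toep N A B).rank = 2 * (rtoep N R S).rank := by
  classical
  have h : toep N A B = ((Matrix.fromBlocks 0 (rtoep N R S)
      (rtoep N (fun c r => - R r c) (fun c r => - S r c)) 0).submatrix
        (Equiv.prodSumDistrib (Fin N) α β) (Equiv.prodSumDistrib (Fin N) α β)) := by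
    ext ⟨p, i⟩ ⟨q, j⟩
    rcases i with i | i <;> rcases j with j | j <;> simp [toep, rtoep, hA, hB]
  rw [h, Matrix.rank_submatrix, rank_anti, rtoep_rev]
  ring

/-- extension by zero of the blocks of a vector -/
def ez {α : Type} {N : ℕ} (y : Fin N × α → ℂ) (p : ℕ) (r : α) : ℂ :=
  if h : p < N then y (⟨p, h⟩, r) else 0

theorem rtoep_T_mulVec {α β : Type} [Fintype α] [Fintype β] (N : ℕ) (R S : α → β → ℂ)
    (y : Fin N × α → ℂ) (q : Fin N) (c : β) :
    ((rtoep N R S)ᵀ *ᵥ y) (q, c) = ∑ r, R r c * ez y q r + ∑ r, S r c * ez y (q + 1) r := by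
  have h1 : ((rtoep N R S)ᵀ *ᵥ y) (q, c) = ∑ p : Fin N, ((if p = q then ∑ r, R r c * y (p, r) else 0)
      + (if (p : ℕ) = (q : ℕ) + 1 then ∑ r, S r c * y (p, r) else 0)) := by
    rw [Matrix.mulVec, dotProduct, Fintype.sum_prod_type]
    apply Finset.sum_congr rfl
    intro p _
    by_cases hp : p = q
    · subst hp
      simp [rtoep, Matrix.transpose_apply]
    · by_cases hp2 : (p : ℕ) = (q : ℕ) + 1
      · simp [rtoep, Matrix.transpose_apply, hp, hp2]
      · simp [rtoep, Matrix.transpose_apply, hp, hp2]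
  rw [h1, Finset.sum_add_distrib, Finset.sum_ite_eq' Finset.univ q]
  simp only [Finset.mem_univ, if_true]
  congr 1
  · apply Finset.sum_congr rfl
    intro r _
    unfold ez
    rw [dif_pos q.2]
  · by_cases h : (q : ℕ) + 1 < N
    · rw [Finset.sum_eq_single (⟨(q : ℕ) + 1, h⟩ : Fin N)]
      · simp only [if_true]
        apply Finset.sum_congr rfl
        intro r _
        unfold ez
        rw [dif_pos h]
      · intro p _ hp
        rw [if_neg]
        intro e
        exact hp (Fin.ext e)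
      · intro h'; exact absurd (Finset.mem_univ _) h'
    · rw [Finset.sum_eq_zero]
      · symm
        apply Finset.sum_eq_zero
        intro r _
        unfold ez
        rw [dif_neg h, mul_zero]
      · intro p _
        rw [if_neg]
        intro e
        have := p.2
        omega

open Classical in
theorem sum_sig {κ : Type} [Fintype κ] {k : κ → ℕ} (f : (Σ c, Fin (k c)) → ℂ) (c : κ) (n : ℕ) :
    ∑ s, (if s.1 = c ∧ (s.2 : ℕ) = n then f s else 0) = if h : n < k c then f ⟨c, ⟨n, h⟩⟩ else 0 := by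
  by_cases h : n < k c
  · rw [dif_pos h, Finset.sum_eq_single (⟨c, ⟨n, h⟩⟩ : Σ c, Fin (k c))]
    · simp
    · rintro ⟨c', i⟩ _ hs
      rw [if_neg]
      rintro ⟨h1, h2⟩
      apply hs
      subst h1
      congr 1
      exact Fin.ext h2
    · intro h'; exact absurd (Finset.mem_univ _) h'
  · rw [dif_neg h]
    apply Finset.sum_eq_zero
    rintro ⟨c', i⟩ _
    rw [if_neg]
    rintro ⟨h1, h2⟩
    have h1' : c' = c := h1
    have h2' : (i : ℕ) = n := h2
    apply h
    rw [← h1', ← h2']
    exact i.2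

/-- Kronecker coordinates, extended by zero -/
def xk (T : JKType) (x : Row T → ℂ) (c : T.κ) (i : ℕ) : ℂ :=
  if h : i < T.k c then x (.inl ⟨c, ⟨i, h⟩⟩) else 0

/-- Jordan coordinates, extended by zero -/
def xj (T : JKType) (x : Row T → ℂ) (b : T.β) (i : ℕ) : ℂ :=
  if h : i < T.m b then x (.inr ⟨b, ⟨i, h⟩⟩) else 0

theorem SA_inl0 (T : JKType) (t : T.E → ℂ) (x : Row T → ℂ) (c : T.κ) (j : Fin (T.k c + 1))
    (hj : (j : ℕ) = 0) : ∑ r, RA T (fun e => some (t e)) r (.inl ⟨c, j⟩) * x r = 0 := by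
  apply Finset.sum_eq_zero
  rintro (r | r) _
  · have : ¬ (r.1 = c ∧ (j : ℕ) = (r.2 : ℕ) + 1) := by
      rintro ⟨_, h⟩
      omega
    simp [RA, this]
  · simp [RA]

theorem SA_inlS (T : JKType) (t : T.E → ℂ) (x : Row T → ℂ) (c : T.κ) (j : Fin (T.k c + 1))
    (n : ℕ) (hj : (j : ℕ) = n + 1) :
    ∑ r, RA T (fun e => some (t e)) r (.inl ⟨c, j⟩) * x r = xk T x c n := by
  classical
  rw [Fintype.sum_sum_type]
  have h2 : ∑ r : (Σ b : T.β, Fin (T.m b)),
      RA T (fun e => some (t e)) (.inr r) (.inl ⟨c, j⟩) * x (.inr r) = 0 := by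
    apply Finset.sum_eq_zero
    intro r _
    simp [RA]
  rw [h2, add_zero]
  unfold xk
  rw [← sum_sig (fun s => x (.inl s)) c n]
  apply Finset.sum_congr rfl
  intro s _
  by_cases hs : s.1 = c ∧ (s.2 : ℕ) = n
  · have h3 : s.1 = c ∧ (j : ℕ) = (s.2 : ℕ) + 1 := ⟨hs.1, by omega⟩
    rw [if_pos hs]
    simp only [RA]
    rw [if_pos h3, one_mul]
  · have h3 : ¬ (s.1 = c ∧ (j : ℕ) = (s.2 : ℕ) + 1) := fun h => hs ⟨h.1, by omega⟩
    rw [if_neg hs]
    simp only [RA]
    rw [if_neg h3, zero_mul]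

theorem SB_inl (T : JKType) (t : T.E → ℂ) (x : Row T → ℂ) (c : T.κ) (j : Fin (T.k c + 1)) :
    ∑ r, RB T (fun e => some (t e)) r (.inl ⟨c, j⟩) * x r = xk T x c j := by
  classical
  rw [Fintype.sum_sum_type]
  have h2 : ∑ r : (Σ b : T.β, Fin (T.m b)),
      RB T (fun e => some (t e)) (.inr r) (.inl ⟨c, j⟩) * x (.inr r) = 0 := by
    apply Finset.sum_eq_zero
    intro r _
    simp [RB]
  rw [h2, add_zero]
  unfold xk
  rw [← sum_sig (fun s => x (.inl s)) c (j : ℕ)]
  apply Finset.sum_congr rfl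
  intro s _
  by_cases hs : s.1 = c ∧ (s.2 : ℕ) = (j : ℕ)
  · have h3 : s.1 = c ∧ (j : ℕ) = (s.2 : ℕ) := ⟨hs.1, by omega⟩
    rw [if_pos hs]
    simp only [RB]
    rw [if_pos h3, one_mul]
  · have h3 : ¬ (s.1 = c ∧ (j : ℕ) = (s.2 : ℕ)) := fun h => hs ⟨h.1, by omega⟩
    rw [if_neg hs]
    simp only [RB]
    rw [if_neg h3, zero_mul]

theorem SA_inr (T : JKType) (t : T.E → ℂ) (x : Row T → ℂ) (b : T.β) (j : Fin (T.m b)) :
    ∑ r, RA T (fun e => some (t e)) r (.inr ⟨b, j⟩) * x r =
      t (T.ev b) * xj T x b j + xj T x b (j + 1) := by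
  classical
  rw [Fintype.sum_sum_type]
  have h2 : ∑ r : (Σ c : T.κ, Fin (T.k c)),
      RA T (fun e => some (t e)) (.inl r) (.inr ⟨b, j⟩) * x (.inl r) = 0 := by
    apply Finset.sum_eq_zero
    intro r _
    simp [RA]
  rw [h2, zero_add]
  unfold xj
  rw [← sum_sig (fun s => x (.inr s)) b (j : ℕ), ← sum_sig (fun s => x (.inr s)) b ((j : ℕ) + 1),
    Finset.mul_sum, ← Finset.sum_add_distrib]
  apply Finset.sum_congr rfl
  rintro ⟨b', i⟩ _
  by_cases hb : b' = b
  · subst hb
    by_cases hi : (i : ℕ) = (j : ℕ)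
    · simp [RA, hi]
    · by_cases hi2 : (i : ℕ) = (j : ℕ) + 1
      · simp [RA, hi2]
      · simp [RA, hi, hi2]
  · simp [RA, hb]

theorem SB_inr (T : JKType) (t : T.E → ℂ) (x : Row T → ℂ) (b : T.β) (j : Fin (T.m b)) :
    ∑ r, RB T (fun e => some (t e)) r (.inr ⟨b, j⟩) * x r = xj T x b j := by
  classical
  rw [Fintype.sum_sum_type]
  have h2 : ∑ r : (Σ c : T.κ, Fin (T.k c)),
      RB T (fun e => some (t e)) (.inl r) (.inr ⟨b, j⟩) * x (.inl r) = 0 := by
    apply Finset.sum_eq_zero
    intro r _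
    simp [RB]
  rw [h2, zero_add]
  unfold xj
  rw [← sum_sig (fun s => x (.inr s)) b (j : ℕ)]
  apply Finset.sum_congr rfl
  rintro ⟨b', i⟩ _
  by_cases hb : b' = b
  · subst hb
    by_cases hi : (i : ℕ) = (j : ℕ)
    · simp [RB, hi]
    · simp [RB, hi]
  · simp [RB, hb]

theorem ez_ge {α : Type} {N : ℕ} (y : Fin N × α → ℂ) {p : ℕ} (hp : ¬ p < N) (r : α) :
    ez y p r = 0 := by
  unfold ez
  rw [dif_neg hp]

theorem xk_ez_ge (T : JKType) {N : ℕ} (y : Fin N × Row T → ℂ) {p : ℕ} (hp : ¬ p < N)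
    (c : T.κ) (n : ℕ) : xk T (ez y p) c n = 0 := by
  unfold xk
  split_ifs
  · exact ez_ge y hp _
  · rfl

theorem xj_ez_ge (T : JKType) {N : ℕ} (y : Fin N × Row T → ℂ) {p : ℕ} (hp : ¬ p < N)
    (b : T.β) (n : ℕ) : xj T (ez y p) b n = 0 := by
  unfold xj
  split_ifs
  · exact ez_ge y hp _
  · rfl

theorem xk_ge (T : JKType) (x : Row T → ℂ) (c : T.κ) {n : ℕ} (h : ¬ n < T.k c) :
    xk T x c n = 0 := by
  unfold xk
  rw [dif_neg h]

theorem xj_ge (T : JKType) (x : Row T → ℂ) (b : T.β) {n : ℕ} (h : ¬ n < T.m b) :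
    xj T x b n = 0 := by
  unfold xj
  rw [dif_neg h]

theorem sum_split {α : Type} [Fintype α] (f g x : α → ℂ) (s : ℂ) :
    ∑ r, (f r + s * g r) * x r = ∑ r, f r * x r + s * ∑ r, g r * x r := by
  rw [Finset.mul_sum, ← Finset.sum_add_distrib]
  apply Finset.sum_congr rfl
  intro r _
  ring

theorem ker_K (T : JKType) (t : T.E → ℂ) (s : ℂ) (N : ℕ) (y : Fin N × Row T → ℂ)
    (hy : (rtoep N (fun r c => RA T (fun e => some (t e)) r c + s * RB T (fun e => some (t e)) r c)
      (RB T (fun e => some (t e))))ᵀ *ᵥ y = 0) (q : ℕ) (hq : q < N) (c : T.κ) (n : ℕ)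
    (hn : n + 1 ≤ T.k c) :
    xk T (ez y q) c n + s * xk T (ez y q) c (n + 1) + xk T (ez y (q + 1)) c (n + 1) = 0 := by
  have h := congrFun hy (⟨q, hq⟩, Sum.inl ⟨c, ⟨n + 1, by omega⟩⟩)
  rw [rtoep_T_mulVec, sum_split, SA_inlS T t _ c _ n rfl, SB_inl, SB_inl] at h
  exact h

theorem ker_J (T : JKType) (t : T.E → ℂ) (s : ℂ) (N : ℕ) (y : Fin N × Row T → ℂ)
    (hy : (rtoep N (fun r c => RA T (fun e => some (t e)) r c + s * RB T (fun e => some (t e)) r c)
      (RB T (fun e => some (t e))))ᵀ *ᵥ y = 0) (q : ℕ) (hq : q < N) (b : T.β) (j : ℕ)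
    (hj : j < T.m b) :
    (t (T.ev b) + s) * xj T (ez y q) b j + xj T (ez y q) b (j + 1) +
      xj T (ez y (q + 1)) b j = 0 := by
  have h := congrFun hy (⟨q, hq⟩, Sum.inr ⟨b, ⟨j, hj⟩⟩)
  rw [rtoep_T_mulVec, sum_split, SA_inr, SB_inr, SB_inr] at h
  simp only [Pi.zero_apply] at h
  linear_combination h

theorem kron_zero (T : JKType) (s : ℂ) (N : ℕ) (y : Fin N × Row T → ℂ) (c : T.κ)
    (h : ∀ q < N, ∀ n, n + 1 ≤ T.k c →
      xk T (ez y q) c n + s * xk T (ez y q) c (n + 1) + xk T (ez y (q + 1)) c (n + 1) = 0) :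
    ∀ d q n, n + d = T.k c → xk T (ez y q) c n = 0 := by
  intro d
  induction d with
  | zero =>
    intro q n hn
    exact xk_ge T _ c (by omega)
  | succ d ih =>
    intro q n hn
    by_cases hq : q < N
    · have h1 := h q hq n (by omega)
      rw [ih q (n + 1) (by omega), ih (q + 1) (n + 1) (by omega)] at h1
      simpa using h1
    · exact xk_ez_ge T y hq c n

theorem jord_zero (T : JKType) (σ : ℂ) (hσ : σ ≠ 0) (N : ℕ) (y : Fin N × Row T → ℂ) (b : T.β)
    (h : ∀ q < N, ∀ j < T.m b, σ * xj T (ez y q) b j + xj T (ez y q) b (j + 1) +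
      xj T (ez y (q + 1)) b j = 0) :
    ∀ e q j, (N - q) + (T.m b - j) ≤ e → xj T (ez y q) b j = 0 := by
  intro e
  induction e with
  | zero =>
    intro q j he
    exact xj_ez_ge T y (by omega) b j
  | succ e ih =>
    intro q j he
    by_cases hq : q < N
    · by_cases hj : j < T.m b
      · have h1 := h q hq j hj
        rw [ih q (j + 1) (by omega), ih (q + 1) j (by omega)] at h1
        simp only [add_zero] at h1
        rcases mul_eq_zero.1 h1 with h2 | h2
        · exact absurd h2 hσ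
        · exact h2
      · exact xj_ge T _ b hj
    · exact xj_ez_ge T y hq b j

theorem jord_shift (T : JKType) (N : ℕ) (y : Fin N × Row T → ℂ) (b : T.β)
    (h : ∀ q < N, ∀ j < T.m b, xj T (ez y q) b (j + 1) + xj T (ez y (q + 1)) b j = 0) :
    ∀ q ≤ N, ∀ j, xj T (ez y q) b j = (-1) ^ q * xj T (ez y 0) b (q + j) := by
  intro q
  induction q with
  | zero =>
    intro _ j
    simp
  | succ q ih =>
    intro hq j
    by_cases hj : j < T.m b
    · have h1 := h q (by omega) j hj
      have h2 := ih (by omega) (j + 1)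
      have h3 : q + (j + 1) = q + 1 + j := by omega
      rw [h3] at h2
      rw [h2] at h1
      rw [pow_succ]
      linear_combination h1
    · rw [xj_ge T _ b hj, xj_ge T _ b (by omega), mul_zero]

/-- index set of the kernel -/
abbrev Idx (T : JKType) (t : T.E → ℂ) (s : ℂ) (N : ℕ) : Type :=
  Σ b : {b : T.β // t (T.ev b) = -s}, Fin (min (T.m b.1) N)

theorem ker_finrank (T : JKType) (t : T.E → ℂ) (s : ℂ) (N : ℕ) :
    Module.finrank ℂ (LinearMap.ker (rtoep N (fun r c => RA T (fun e => some (t e)) r c +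
      s * RB T (fun e => some (t e)) r c) (RB T (fun e => some (t e))))ᵀ.mulVecLin) =
      ∑ b, (if t (T.ev b) = -s then min (T.m b) N else 0) := by
  classical
  set W := (rtoep N (fun r c => RA T (fun e => some (t e)) r c +
      s * RB T (fun e => some (t e)) r c) (RB T (fun e => some (t e))))ᵀ with hW
  let Φ : LinearMap.ker W.mulVecLin →ₗ[ℂ] (Idx T t s N → ℂ) :=
    { toFun := fun y i => y.1 (⟨0, by have := i.2.2; omega⟩,
        Sum.inr ⟨i.1.1, ⟨(i.2 : ℕ), by have := i.2.2; omega⟩⟩)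
      map_add' := fun _ _ => rfl
      map_smul' := fun _ _ => rfl }
  have hinj : Function.Injective Φ := by
    rw [injective_iff_map_eq_zero]
    intro y hy
    have hk : W *ᵥ y.1 = 0 := by
      have := y.2
      rw [LinearMap.mem_ker, Matrix.mulVecLin_apply] at this
      exact this
    apply Subtype.ext
    funext ⟨q, r⟩
    rcases r with ⟨c, i⟩ | ⟨b, j⟩
    · have h1 := kron_zero T s N y.1 c (fun q hq n hn => ker_K T t s N y.1 hk q hq c n hn)
        (T.k c - (i : ℕ)) q i (by have := i.2; omega)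
      unfold xk ez at h1
      rw [dif_pos i.2, dif_pos q.2] at h1
      exact h1
    · have h2 : xj T (ez y.1 q) b j = 0 := by
        by_cases hσ : t (T.ev b) + s = 0
        · have hJ : ∀ q < N, ∀ j < T.m b, xj T (ez y.1 q) b (j + 1) +
              xj T (ez y.1 (q + 1)) b j = 0 := by
            intro q hq j hj
            have := ker_J T t s N y.1 hk q hq b j hj
            rw [hσ, zero_mul, zero_add] at this
            exact this
          have hsh := jord_shift T N y.1 b hJ
          rw [hsh q q.2.le j]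
          have h0 : xj T (ez y.1 0) b ((q : ℕ) + j) = 0 := by
            by_cases hm : (q : ℕ) + j < T.m b
            · by_cases hN : (q : ℕ) + j < N
              · have h3 := congrFun hy ⟨⟨b, by linear_combination hσ⟩,
                  ⟨(q : ℕ) + j, lt_min hm hN⟩⟩
                unfold xj ez
                rw [dif_pos hm, dif_pos (by omega)]
                exact h3
              · have h3 := hsh N le_rfl ((q : ℕ) + j - N)
                rw [xj_ez_ge T y.1 (by omega) b] at h3
                have h4 : N + ((q : ℕ) + j - N) = (q : ℕ) + j := by omega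
                rw [h4] at h3
                have h5 : ((-1 : ℂ)) ^ N ≠ 0 := pow_ne_zero _ (by norm_num)
                rcases mul_eq_zero.1 h3.symm with h6 | h6
                · exact absurd h6 h5
                · exact h6
            · exact xj_ge T _ b hm
          rw [h0, mul_zero]
        · exact jord_zero T _ hσ N y.1 b (fun q hq j hj => ker_J T t s N y.1 hk q hq b j hj)
            _ q j le_rfl
      unfold xj ez at h2
      rw [dif_pos j.2, dif_pos q.2] at h2
      exact h2
  have hsurj : Function.Surjective Φ := by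
    intro f
    let F : T.β → ℕ → ℂ := fun b n =>
      if h : t (T.ev b) = -s ∧ n < min (T.m b) N then f ⟨⟨b, h.1⟩, ⟨n, h.2⟩⟩ else 0
    let y : Fin N × Row T → ℂ := fun p => Sum.elim (fun _ => 0)
      (fun r => (-1) ^ (p.1 : ℕ) * F r.1 ((p.1 : ℕ) + (r.2 : ℕ))) p.2
    have hyk : ∀ q c n, xk T (ez y q) c n = 0 := by
      intro q c n
      unfold xk ez
      split_ifs <;> rfl
    have hyj : ∀ q b j, xj T (ez y q) b j = (-1) ^ q * F b (q + j) := by
      intro q b j
      by_cases hj : j < T.m b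
      · by_cases hq : q < N
        · unfold xj ez
          rw [dif_pos hj, dif_pos hq]
          rfl
        · rw [xj_ez_ge T y hq b]
          have : F b (q + j) = 0 := dif_neg (by
            rintro ⟨_, h⟩
            have := lt_of_lt_of_le h (min_le_right _ _)
            omega)
          rw [this, mul_zero]
      · rw [xj_ge T _ b hj]
        have : F b (q + j) = 0 := dif_neg (by
          rintro ⟨_, h⟩
          have := lt_of_lt_of_le h (min_le_left _ _)
          omega)
        rw [this, mul_zero]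
    have hker : W *ᵥ y = 0 := by
      funext ⟨q, c⟩
      rw [hW, rtoep_T_mulVec, sum_split]
      rcases c with ⟨c, j⟩ | ⟨b, j⟩
      · rw [SB_inl, SB_inl, hyk, hyk]
        obtain ⟨j, hj⟩ := j
        cases j with
        | zero => rw [SA_inl0 T t _ c _ rfl]; simp
        | succ n => rw [SA_inlS T t _ c _ n rfl, hyk]; simp
      · rw [SA_inr, SB_inr, SB_inr, hyj, hyj, hyj]
        simp only [Pi.zero_apply]
        by_cases hσ : t (T.ev b) = -s
        · rw [hσ]
          have h3 : (q : ℕ) + ((j : ℕ) + 1) = (q : ℕ) + 1 + (j : ℕ) := by omega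
          rw [h3, pow_succ]
          ring
        · have hF : ∀ n, F b n = 0 := fun n => dif_neg (fun h => hσ h.1)
          rw [hF, hF, hF]
          ring
    refine ⟨⟨y, ?_⟩, ?_⟩
    · rw [LinearMap.mem_ker, Matrix.mulVecLin_apply]
      exact hker
    · funext ⟨⟨b, hb⟩, ⟨n, hn⟩⟩
      show (-1) ^ (0 : ℕ) * F b (0 + n) = f ⟨⟨b, hb⟩, ⟨n, hn⟩⟩
      rw [pow_zero, one_mul, zero_add]
      exact dif_pos ⟨hb, hn⟩
  have e := LinearEquiv.ofBijective Φ ⟨hinj, hsurj⟩
  rw [e.finrank_eq, Module.finrank_fintype_fun_eq_card, Fintype.card_sigma]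
  simp only [Fintype.card_fin]
  rw [← Finset.sum_filter]
  exact (Finset.sum_subtype (Finset.univ.filter fun b : T.β => t (T.ev b) = -s)
    (by intro b; simp) (fun b => min (T.m b) N)).symm

theorem toep_rank (T : JKType) (t : T.E → ℂ) {ι : Type} [Fintype ι] [DecidableEq ι]
    (A B : Matrix ι ι ℂ) (P : Basis (Row T ⊕ Col T) ℂ (ι → ℂ))
    (hP : CanonO T (fun e => some (t e)) A B P) (N : ℕ) (s : ℂ) :
    (toep N (A + s • B) B).rank + (N * Fintype.card T.κ +
      2 * ∑ b, (if t (T.ev b) = -s then min (T.m b) N else 0)) = N * Fintype.card ι := by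
  classical
  set X : Matrix ι (Row T ⊕ Col T) ℂ := (Pi.basisFun ℂ ι).toMatrix P with hX
  set Y : Matrix (Row T ⊕ Col T) ι ℂ := P.toMatrix (Pi.basisFun ℂ ι) with hY
  have hXY : X * Y = 1 := Basis.toMatrix_mul_toMatrix_flip _ _
  have hXe : ∀ i j, X i j = P j i := by
    intro i j
    simp [hX, Basis.toMatrix_apply]
  have hC : ∀ C : Matrix ι ι ℂ, ∀ i j, (Xᵀ * C * X) i j = P i ⬝ᵥ (C *ᵥ P j) := by
    intro C i j
    rw [Matrix.mul_assoc, Matrix.mul_apply]
    simp only [dotProduct, Matrix.mulVec, Matrix.mul_apply, Matrix.transpose_apply, hXe]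
  rw [← toep_rank_conj N X Y hXY]
  rw [toep_skew_rank N (fun r c => RA T (fun e => some (t e)) r c +
      s * RB T (fun e => some (t e)) r c) (RB T (fun e => some (t e)))]
  · have h1 := ker_finrank T t s N
    have h2 := LinearMap.finrank_range_add_finrank_ker (rtoep N (fun r c =>
      RA T (fun e => some (t e)) r c +
      s * RB T (fun e => some (t e)) r c) (RB T (fun e => some (t e))))ᵀ.mulVecLin
    rw [h1, Module.finrank_fintype_fun_eq_card, Fintype.card_prod, Fintype.card_fin] at h2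
    have h3 := Matrix.rank_transpose (rtoep N (fun r c =>
      RA T (fun e => some (t e)) r c +
      s * RB T (fun e => some (t e)) r c) (RB T (fun e => some (t e))))
    have h4 : Fintype.card ι = Fintype.card (Row T ⊕ Col T) := by
      have h5 := Module.finrank_eq_card_basis P
      rw [Module.finrank_fintype_fun_eq_card] at h5
      exact h5
    have h6 : Fintype.card (Row T ⊕ Col T) = 2 * Fintype.card (Row T) + Fintype.card T.κ := by
      simp only [Fintype.card_sum, Fintype.card_sigma, Fintype.card_fin, Finset.sum_add_distrib,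
        Finset.sum_const, Finset.card_univ, smul_eq_mul, mul_one]
      ring
    rw [h4, h6, ← h3]
    unfold Matrix.rank
    have h7 : N * (2 * Fintype.card (Row T) + Fintype.card T.κ) =
        2 * (N * Fintype.card (Row T)) + N * Fintype.card T.κ := by ring
    rw [h7]
    omega
  · intro i j
    rw [hC]
    have : P i ⬝ᵥ ((A + s • B) *ᵥ P j) = P i ⬝ᵥ (A *ᵥ P j) + s * (P i ⬝ᵥ (B *ᵥ P j)) := by
      rw [Matrix.add_mulVec, dotProduct_add, Matrix.smul_mulVec, dotProduct_smul, smul_eq_mul]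
    rw [this, (hP i j).1, (hP i j).2]
    rcases i with i | i <;> rcases j with j | j <;> simp [canForm]
    ring
  · intro i j
    rw [hC, (hP i j).2]
    rcases i with i | i <;> rcases j with j | j <;> simp [canForm]

end Pool.Agent.Helper783.JK
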