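import Pool.Agent.Helper783.JK.Defs
import Pool.Agent.Helper783.JK.P_many_roots
import Pool.Agent.Helper783.JK.P_toep_rank
import Pool.Agent.Helper783.JK.P_gen_rank
import Pool.Agent.Helper783.JK.P_part_eq

open Module MvPolynomial Matrix

namespace Pool.Agent.Helper783.JK



lemma NL_eval {g : Type} [LieRing g] [LieAlgebra ℂ g] {ι : Type} [Fintype ι]
    (e : Basis ι ℂ g) (x a : ι → ℂ) (s : ℂ) (i j : ι) :
    eval (x + s • a) (fullMat e i j) = eval x (fullMat e i j) + s * eval a (fullMat e i j) := by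
  unfold fullMat
  simp only [map_sum, map_mul, eval_C, eval_X, Pi.add_apply, Pi.smul_apply, smul_eq_mul]
  rw [Finset.mul_sum, ← Finset.sum_add_distrib]
  refine Finset.sum_congr rfl fun k _ => ?_
  ring

lemma NL_toep {g : Type} [LieRing g] [LieAlgebra ℂ g] {ι : Type} [Fintype ι]
    (e : Basis ι ℂ g) (x a : ι → ℂ) (s : ℂ) (N : ℕ) :
    (toep N ((fullMat e).map (rename (Sum.inl : ι → ι ⊕ ι)))
      ((fullMat e).map (rename (Sum.inr : ι → ι ⊕ ι)))).map (eval (Sum.elim (x + s • a) a)) =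
    toep N ((fullMat e).map (eval x) + s • (fullMat e).map (eval a))
      ((fullMat e).map (eval a)) := by
  ext p r
  simp only [Matrix.map_apply, toep]
  split_ifs with h1 h2
  · rw [eval_rename, Sum.elim_comp_inl, NL_eval]
    simp [Matrix.add_apply, Matrix.smul_apply]
  · rw [eval_rename, Sum.elim_comp_inr]
  · exact map_zero _

theorem nonlin {g : Type} [LieRing g] [LieAlgebra ℂ g] (T : JKType)
    {ι : Type} [Fintype ι] [DecidableEq ι] (e : Basis ι ℂ g)
    (q : MvPolynomial ι ℂ) (hq : Prime q) (hd : 2 ≤ q.totalDegree) :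
    Gen ι (fun x a => ∀ (t : T.E → ℂ) (P : Basis (Row T ⊕ Col T) ℂ (ι → ℂ)),
      Function.Injective t → CanonO T (fun e => some (t e)) ((fullMat e).map (eval x))
        ((fullMat e).map (eval a)) P → ∀ e0, eval (x + (- t e0) • a) q = 0 →
        ∃ e1, e1 ≠ e0 ∧ SamePart T e0 e1) := by
  have hρ' : ∀ N : ℕ, ∃ ρ : ℕ, Gen ι (fun x a => ∀ s : ℂ, eval (x + s • a) q = 0 →
      ((toep N ((fullMat e).map (rename (Sum.inl : ι → ι ⊕ ι)))
      ((fullMat e).map (rename (Sum.inr : ι → ι ⊕ ι)))).map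
        (eval (Sum.elim (x + s • a) a))).rank = ρ) := fun N => gen_rank q hq _
  choose ρ hρ using hρ'
  obtain ⟨Nm, hNm⟩ : ∃ Nm, Nm = ∑ b, T.m b + 1 := ⟨_, rfl⟩
  have hmN : ∀ b, T.m b ≤ Nm := by
    intro b
    have := Finset.single_le_sum (f := fun b => T.m b) (fun b _ => Nat.zero_le _)
      (Finset.mem_univ b)
    omega
  refine Gen.mono (Gen.and (Gen.all (fun j : Fin (Nm + 1) => hρ j)) (many_roots q hq hd)) ?_
  rintro x a ⟨h1, h2⟩ t P hinj hcan e0 he0
  obtain ⟨s', hs', hq'⟩ := h2 (-t e0) he0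
  have key1 : ∀ N, N ≤ Nm → ∑ b, (if t (T.ev b) = -(-t e0) then min (T.m b) N else 0) =
      ∑ b, (if t (T.ev b) = -s' then min (T.m b) N else 0) := by
    intro N hN
    have r1 := h1 ⟨N, by omega⟩ (-t e0) he0
    have r2 := h1 ⟨N, by omega⟩ s' hq'
    rw [NL_toep] at r1 r2
    have t1 := toep_rank T t _ _ P hcan N (-t e0)
    have t2 := toep_rank T t _ _ P hcan N s'
    rw [r1] at t1
    rw [r2] at t2
    omega
  have key2 : ∀ N, ∑ b, (if t (T.ev b) = -(-t e0) then min (T.m b) N else 0) =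
      ∑ b, (if t (T.ev b) = -s' then min (T.m b) N else 0) := by
    intro N
    by_cases hN : N ≤ Nm
    · exact key1 N hN
    · have e1 : ∀ b, min (T.m b) N = min (T.m b) Nm := by
        intro b
        have := hmN b
        omega
      simp_rw [e1]
      exact key1 Nm le_rfl
  obtain ⟨b0, hb0⟩ := T.ev_surj e0
  have hex : ∃ b, t (T.ev b) = -s' := by
    by_contra hcon
    push Not at hcon
    have h3 := key2 1
    have h4 : ∑ b, (if t (T.ev b) = -s' then min (T.m b) 1 else 0) = 0 := by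
      apply Finset.sum_eq_zero
      intro b _
      rw [if_neg (hcon b)]
    rw [h4, Finset.sum_eq_zero_iff] at h3
    have h5 := h3 b0 (Finset.mem_univ _)
    rw [hb0, neg_neg, if_pos rfl] at h5
    have := T.m_pos b0
    omega
  obtain ⟨b1, hb1⟩ := hex
  refine ⟨T.ev b1, ?_, ?_⟩
  · intro h
    apply hs'
    rw [h] at hb1
    rw [hb1, neg_neg]
  · apply part_eq
    intro N
    have h3 := key2 N
    have c1 : ∀ b, t (T.ev b) = -(-t e0) ↔ T.ev b = e0 := by
      intro b
      rw [neg_neg]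
      exact hinj.eq_iff
    have c2 : ∀ b, t (T.ev b) = -s' ↔ T.ev b = T.ev b1 := by
      intro b
      rw [← hb1]
      exact hinj.eq_iff
    convert h3 using 2 with b _ b _
    · by_cases hh : T.ev b = e0
      · rw [if_pos hh, if_pos ((c1 b).2 hh)]
      · rw [if_neg hh, if_neg (fun h => hh ((c1 b).1 h))]
    · by_cases hh : T.ev b = T.ev b1
      · rw [if_pos hh, if_pos ((c2 b).2 hh)]
      · rw [if_neg hh, if_neg (fun h => hh ((c2 b).1 h))]

end Pool.Agent.Helper783.JK
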