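import Pool.Agent.Helper783.JK.Defs
import Pool.Agent.Helper783.JK.P_sat_kernel
import Pool.Agent.Helper783.JK.P_corank_eq

open Module MvPolynomial Matrix

namespace Pool.Agent.Helper783.JK



lemma rf_eval_hom {ι : Type} {n : ℕ} {p : MvPolynomial ι ℂ} (hp : p.IsHomogeneous n)
    (c : ℂ) (y : ι → ℂ) : eval (c • y) p = c ^ n * eval y p := by
  classical
  rw [eval_eq, eval_eq, Finset.mul_sum]
  refine Finset.sum_congr rfl fun d hd => ?_
  have hd' : d.degree = n := by
    by_contra h
    exact (mem_support_iff.mp hd) (hp.coeff_eq_zero h)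
  have : ∏ i ∈ d.support, (c • y) i ^ d i = c ^ n * ∏ i ∈ d.support, y i ^ d i := by
    rw [← hd', Finsupp.degree_apply, ← Finset.prod_pow_eq_pow_sum, ← Finset.prod_mul_distrib]
    refine Finset.prod_congr rfl fun i _ => ?_
    simp [mul_pow]
  rw [this]; ring

lemma rf_eval_deg_one {ι : Type} {q : MvPolynomial ι ℂ} (hq : q.totalDegree = 1)
    (c : ℂ) (y : ι → ℂ) : eval (c • y) q = eval 0 q + c * (eval y q - eval 0 q) := by
  have hs : q = homogeneousComponent 0 q + homogeneousComponent 1 q := by
    conv_lhs => rw [← sum_homogeneousComponent q]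
    rw [hq, Finset.sum_range_succ, Finset.sum_range_one]
  have h0 := fun y => rf_eval_hom (homogeneousComponent_isHomogeneous 0 q) c y
  have h1 := fun y => rf_eval_hom (homogeneousComponent_isHomogeneous 1 q) c y
  have h1' := rf_eval_hom (homogeneousComponent_isHomogeneous 1 q) 0 y
  have h0' := rf_eval_hom (homogeneousComponent_isHomogeneous 0 q) 0 y
  simp only [zero_smul, pow_one, zero_mul, pow_zero, one_mul] at h1' h0' h0 h1
  rw [hs]
  simp only [map_add, h0, h1, h1', h0']
  ring

lemma rf_eval_fullMat {g : Type} [LieRing g] [LieAlgebra ℂ g] {ι : Type} [Fintype ι]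
    (e : Basis ι ℂ g) (y : ι → ℂ) (i j : ι) :
    eval y (fullMat e i j) = ∑ k, e.repr ⁅e i, e j⁆ k * y k := by
  simp [fullMat]

lemma rf_skew {g : Type} [LieRing g] [LieAlgebra ℂ g] {ι : Type} [Fintype ι]
    (e : Basis ι ℂ g) : (fullMat e)ᵀ = -(fullMat e) := by
  ext1 i j
  rw [Matrix.transpose_apply, Matrix.neg_apply]
  unfold fullMat
  rw [← Finset.sum_neg_distrib]
  refine Finset.sum_congr rfl fun k _ => ?_
  rw [← lie_skew (e j) (e i), map_neg, Finsupp.neg_apply, map_neg, neg_mul]

lemma rf_det_smul {g : Type} [LieRing g] [LieAlgebra ℂ g] {ι J : Type} [Fintype ι]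
    [Fintype J] [DecidableEq J] (e : Basis ι ℂ g) (j : J → ι) (c : ℂ) (y : ι → ℂ) :
    eval (c • y) (((fullMat e).submatrix j j).det) =
      c ^ Fintype.card J * eval y (((fullMat e).submatrix j j).det) := by
  rw [RingHom.map_det, RingHom.map_det, ← Matrix.det_smul]
  congr 1
  ext a b
  simp only [RingHom.mapMatrix_apply, Matrix.map_apply, Matrix.submatrix_apply, Matrix.smul_apply,
    rf_eval_fullMat, Pi.smul_apply, smul_eq_mul, Finset.mul_sum]
  refine Finset.sum_congr rfl fun k _ => ?_
  ring

/-- a factor of degree one of a homogeneous polynomial vanishes at the origin -/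
lemma rf_factor {ι : Type} {D q : MvPolynomial ι ℂ} (n : ℕ) (hD : D ≠ 0)
    (hh : ∀ (c : ℂ) (y : ι → ℂ), eval (c • y) D = c ^ n * eval y D) (hqD : q ∣ D)
    (hq : q.totalDegree = 1) : eval 0 q = 0 := by
  by_contra h0
  have key : (q - C (eval 0 q)) * D = 0 := by
    apply MvPolynomial.funext
    intro y
    rw [map_mul, map_sub, eval_C, map_zero]
    by_cases hL : eval y q - eval 0 q = 0
    · rw [hL, zero_mul]
    · have hc : (-(eval 0 q) / (eval y q - eval 0 q)) ≠ 0 := div_ne_zero (neg_ne_zero.mpr h0) hL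
      have h1 : eval ((-(eval 0 q) / (eval y q - eval 0 q)) • y) q = 0 := by
        rw [rf_eval_deg_one hq]
        field_simp
        ring
      have h2 : eval ((-(eval 0 q) / (eval y q - eval 0 q)) • y) D = 0 := by
        obtain ⟨D', rfl⟩ := hqD
        rw [map_mul, h1, zero_mul]
      rw [hh] at h2
      rcases mul_eq_zero.mp h2 with h3 | h3
      · exact absurd h3 (pow_ne_zero n hc)
      · rw [h3, mul_zero]
  rcases mul_eq_zero.mp key with h | h
  · have : q = C (eval 0 q) := sub_eq_zero.mp h
    rw [this, totalDegree_C] at hq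
    exact absurd hq (by norm_num)
  · exact hD h

/-- the kernel of the pencil at an eigenvalue is larger than the number of Kronecker blocks, so
the minor vanishes -/
lemma rf_det_zero {T : JKType} {ι J : Type} [Fintype ι] [DecidableEq ι]
    [Fintype J] [DecidableEq J] (A B : Matrix ι ι ℂ) (t : T.E → ℂ)
    (P : Basis (Row T ⊕ Col T) ℂ (ι → ℂ)) (hP : CanonO T (fun e => some (t e)) A B P) (e0 : T.E)
    (j : J → ι) (s : Fin (Fintype.card T.κ) → ι) (hjs : Function.Bijective (Sum.elim j s)) :
    ((A + (- t e0) • B).submatrix j j).det = 0 := by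
  classical
  by_contra hdet
  obtain ⟨b0, hb0⟩ := T.ev_surj e0
  set N : Matrix ι ι ℂ := A + (- t e0) • B with hN
  -- the kernel vectors
  let w : ι → ℂ := P (.inl (.inr ⟨b0, ⟨0, T.m_pos b0⟩⟩))
  let u : T.κ → (ι → ℂ) := fun c => ∑ i : Fin (T.k c + 1), (t e0) ^ (i : ℕ) • P (.inr (.inl ⟨c, i⟩))
  have hker : ∀ v : ι → ℂ, (∀ k, P k ⬝ᵥ (N *ᵥ v) = 0) → N *ᵥ v = 0 := by
    intro v hv
    have : ∀ z : ι → ℂ, z ⬝ᵥ (N *ᵥ v) = 0 := by
      intro z
      rw [← P.sum_repr z, sum_dotProduct]
      refine Finset.sum_eq_zero fun k _ => ?_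
      rw [smul_dotProduct, hv k, smul_zero]
    exact dotProduct_eq_zero _ (fun z => by rw [dotProduct_comm]; exact this z)
  have hpair : ∀ k l, P k ⬝ᵥ (N *ᵥ P l) = canForm (RA T (fun e => some (t e))) k l
      - t e0 * canForm (RB T (fun e => some (t e))) k l := by
    intro k l
    rw [hN, Matrix.add_mulVec, dotProduct_add, (hP k l).1, Matrix.smul_mulVec, dotProduct_smul,
      (hP k l).2]
    simp [sub_eq_add_neg]
  have hw : N *ᵥ w = 0 := by
    apply hker
    intro k
    rw [hpair]
    rcases k with k | k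
    · simp [canForm]
    · rcases k with k | k
      · simp [canForm, RA, RB]
      · obtain ⟨b, i⟩ := k
        by_cases hb : b0 = b
        · subst hb
          simp only [canForm, RA, RB, hb0, if_true]
          by_cases hi : (i : ℕ) = 0
          · simp [hi]
          · have : ¬ (0 = (i : ℕ)) := fun h => hi h.symm
            simp [this]
        · simp [canForm, RA, RB, hb]
  have hu : ∀ c, N *ᵥ (u c) = 0 := by
    intro c
    apply hker
    intro k
    have : N *ᵥ (u c) = ∑ i : Fin (T.k c + 1), (t e0) ^ (i : ℕ) • (N *ᵥ P (.inr (.inl ⟨c, i⟩))) := by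
      simp only [u]
      rw [Matrix.mulVec_sum]
      refine Finset.sum_congr rfl fun i _ => ?_
      rw [Matrix.mulVec_smul]
    rw [this, dotProduct_sum]
    simp only [dotProduct_smul, hpair]
    rcases k with k | k
    · rcases k with k | k
      · obtain ⟨c', l⟩ := k
        by_cases hc : c' = c
        · subst hc
          simp only [canForm, RA, RB, true_and]
          have e1 : ∀ i : Fin (T.k c' + 1), ((i : ℕ) = (l : ℕ) + 1) ↔ i = l.succ := by
            intro i; rw [Fin.ext_iff]; simp
          have e2 : ∀ i : Fin (T.k c' + 1), ((i : ℕ) = (l : ℕ)) ↔ i = l.castSucc := by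
            intro i; rw [Fin.ext_iff]; simp
          simp only [e1, e2, smul_eq_mul, mul_sub, mul_ite, mul_one, mul_zero,
            Finset.sum_sub_distrib, Finset.sum_ite_eq', Finset.mem_univ, if_true]
          simp [pow_succ]
        · simp [canForm, RA, RB, hc]
      · simp [canForm, RA, RB]
    · simp [canForm]
  -- a kernel vector vanishing at the `s`
  let V : Option T.κ → (ι → ℂ) := fun o => o.elim w u
  have hV : ∀ o, N *ᵥ (V o) = 0 := by
    rintro (_ | c)
    · exact hw
    · exact hu c
  let Φ : (Option T.κ → ℂ) →ₗ[ℂ] (Fin (Fintype.card T.κ) → ℂ) :=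
    (LinearMap.funLeft ℂ ℂ s) ∘ₗ (Fintype.linearCombination ℂ V)
  have hΦ : LinearMap.ker Φ ≠ ⊥ := by
    apply LinearMap.ker_ne_bot_of_finrank_lt
    simp
  obtain ⟨α, hα, hα0⟩ := Submodule.exists_mem_ne_zero_of_ne_bot hΦ
  rw [LinearMap.mem_ker] at hα
  set v : ι → ℂ := Fintype.linearCombination ℂ V α with hv
  have hvs : ∀ c, v (s c) = 0 := fun c => congrFun hα c
  have hvsum : v = ∑ o, α o • V o := by
    rw [hv, Fintype.linearCombination_apply]
  have hNv : N *ᵥ v = 0 := by
    rw [hvsum, Matrix.mulVec_sum]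
    refine Finset.sum_eq_zero fun o _ => ?_
    rw [Matrix.mulVec_smul, hV o, smul_zero]
  have hvj : (fun a => v (j a)) = 0 := by
    apply Matrix.eq_zero_of_mulVec_eq_zero hdet
    funext a
    have h1 : (N *ᵥ v) (j a) = 0 := by rw [hNv]; rfl
    rw [Matrix.mulVec, dotProduct, ← (Equiv.ofBijective _ hjs).sum_comp, Fintype.sum_sum_type] at h1
    simp only [Equiv.ofBijective_apply, Sum.elim_inl, Sum.elim_inr, hvs, mul_zero,
      Finset.sum_const_zero, add_zero] at h1
    simpa [Matrix.mulVec, dotProduct] using h1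
  have hv0 : v = 0 := by
    funext i
    obtain ⟨o, rfl⟩ := hjs.2 i
    rcases o with a | c
    · exact congrFun hvj a
    · exact hvs c
  apply hα0
  have hc : ∀ k, ∑ o, α o * P.repr (V o) k = 0 := by
    intro k
    have : P.repr v k = 0 := by rw [hv0]; simp
    rw [hvsum, map_sum, Finsupp.finsetSum_apply] at this
    simpa using this
  have hru : ∀ c k, P.repr (u c) k = ∑ i : Fin (T.k c + 1), (t e0) ^ (i : ℕ) *
      (if (Sum.inr (Sum.inl ⟨c, i⟩) : Row T ⊕ Col T) = k then 1 else 0) := by
    intro c k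
    simp only [u, map_sum, map_smul, Finsupp.finsetSum_apply, Finsupp.smul_apply, Basis.repr_self,
      smul_eq_mul, Finsupp.single_apply]
  have hrw : ∀ k, P.repr w k =
      (if (Sum.inl (Sum.inr ⟨b0, ⟨0, T.m_pos b0⟩⟩) : Row T ⊕ Col T) = k then 1 else 0) := by
    intro k
    simp only [w, Basis.repr_self, Finsupp.single_apply]
  funext o
  rcases o with _ | c
  · have := hc (.inl (.inr ⟨b0, ⟨0, T.m_pos b0⟩⟩))
    rw [Fintype.sum_option] at this
    simpa [V, hru, hrw] using this
  · have := hc (.inr (.inl ⟨c, 0⟩))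
    rw [Fintype.sum_option, Finset.sum_eq_single c] at this
    · have h2 : P.repr (u c) (.inr (.inl ⟨c, 0⟩)) = 1 := by
        rw [hru, Finset.sum_eq_single 0]
        · simp
        · intro i _ hi
          simp [hi]
        · simp
      simpa [V, hrw, h2] using this
    · intro c' _ hc'
      have h2 : P.repr (u c') (.inr (.inl ⟨c, 0⟩)) = 0 := by
        rw [hru]
        refine Finset.sum_eq_zero fun i _ => ?_
        simp [hc']
      simp [V, h2]
    · simp

theorem root_factor {g : Type} [LieRing g] [LieAlgebra ℂ g] (T : JKType)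
    (hT : IsJKInvariant g T) {ι : Type} [Fintype ι] [DecidableEq ι] (e : Basis ι ℂ g) :
    ∃ Q : Finset (MvPolynomial ι ℂ),
      (∀ q ∈ Q, Prime q ∧ (q.totalDegree = 1 → eval 0 q = 0)) ∧
      Gen ι (fun x a => ∀ (t : T.E → ℂ) (P : Basis (Row T ⊕ Col T) ℂ (ι → ℂ)),
        CanonO T (fun e => some (t e)) ((fullMat e).map (eval x))
          ((fullMat e).map (eval a)) P → ∀ e0, ∃ q ∈ Q, eval (x + (- t e0) • a) q = 0) := by
  classical
  rcases isEmpty_or_nonempty ι with hι | ⟨⟨i0⟩⟩
  · refine ⟨∅, by simp, Gen.true.mono ?_⟩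
    intro x a _ t P _ e0
    obtain ⟨b, _⟩ := T.ev_surj e0
    exact absurd (Subsingleton.elim _ _) (P.ne_zero (.inl (.inr ⟨b, ⟨0, T.m_pos b⟩⟩)))
  · obtain ⟨J, _, _, r, j, s, Z, g0, hjs, hg0, hMZ, hZ, hdet⟩ :=
      sat_kernel (fullMat e) (rf_skew e) (X i0) (MvPolynomial.X_prime)
    have hg0' : g0 ≠ 0 := by
      rintro rfl
      exact hg0 (dvd_zero _)
    have hr : r = Fintype.card T.κ := corank_eq T hT e r j s hjs Z g0 hg0' hMZ hZ hdet
    subst hr
    set D := ((fullMat e).submatrix j j).det with hD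
    refine ⟨(UniqueFactorizationMonoid.factors D).toFinset, ?_, Gen.true.mono ?_⟩
    · intro q hq
      rw [Multiset.mem_toFinset] at hq
      refine ⟨UniqueFactorizationMonoid.prime_of_factor q hq, fun h => ?_⟩
      exact rf_factor (Fintype.card J) hdet (fun c y => rf_det_smul e j c y)
        (UniqueFactorizationMonoid.dvd_of_mem_factors hq) h
    · intro x a _ t P hP e0
      have h0 : eval (x + (- t e0) • a) D = 0 := by
        rw [hD, RingHom.map_det]
        have := rf_det_zero _ _ t P hP e0 j s hjs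
        rw [← this]
        congr 1
        ext k l
        simp only [RingHom.mapMatrix_apply, Matrix.map_apply, Matrix.submatrix_apply,
          Matrix.smul_apply, Matrix.add_apply, rf_eval_fullMat, Pi.smul_apply, Pi.add_apply,
          smul_eq_mul, Finset.mul_sum]
        rw [← Finset.sum_add_distrib]
        refine Finset.sum_congr rfl fun k _ => ?_
        ring
      obtain ⟨v, hv⟩ := (UniqueFactorizationMonoid.factors_prod hdet).symm
      have h1 : eval (x + (- t e0) • a) (UniqueFactorizationMonoid.factors D).prod = 0 := by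
        rw [← hv, map_mul, h0, zero_mul]
      rw [map_multiset_prod, Multiset.prod_eq_zero_iff, Multiset.mem_map] at h1
      obtain ⟨q, hq, hq0⟩ := h1
      exact ⟨q, Multiset.mem_toFinset.mpr hq, hq0⟩

end Pool.Agent.Helper783.JK
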