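import Pool.Agent.Helper783.JK.Defs
import Pool.Agent.Helper783.JK.P_line_avoid
import Pool.Agent.Helper783.JK.P_kerVec_ker
import Pool.Agent.Helper783.JK.P_canon_gen
import Pool.Agent.Helper783.JK.P_bad_grad
import Pool.Agent.Helper783.JK.P_root_factor
import Pool.Agent.Helper783.JK.P_nonlin
import Pool.Agent.Helper783.JK.P_count_bad

open Module MvPolynomial Matrix

namespace Pool.Agent.Helper783.JK



lemma nec_eval_full {g : Type} [LieRing g] [LieAlgebra ℂ g] {ι : Type} [Fintype ι]
    (e : Basis ι ℂ g) (i j : ι) (y : ι → ℂ) :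
    eval y (fullMat e i j) = ∑ k, (e.repr ⁅e i, e j⁆ k) * y k := by
  simp [fullMat, map_sum]

lemma nec_exists {ι : Type} {Q : (ι → ℂ) → (ι → ℂ) → Prop} (h : Gen ι Q) :
    ∃ x a, Q x a := by
  obtain ⟨G, hG, h⟩ := h
  by_contra hne
  push Not at hne
  apply hG
  apply MvPolynomial.funext
  intro p
  rw [map_zero]
  by_contra hp
  refine hne (p ∘ Sum.inl) (p ∘ Sum.inr) (h _ _ ?_)
  rwa [Sum.elim_comp_inl_inr]

lemma nec_gen_ne {ι : Type} (q : MvPolynomial ι ℂ) (hq : q ≠ 0) :
    Gen ι (fun _ a => eval a q ≠ 0) := by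
  refine ⟨rename Sum.inr q, ?_, fun x a h => ?_⟩
  · intro h
    apply hq
    apply rename_injective (R := ℂ) (Sum.inr : ι → ι ⊕ ι) Sum.inr_injective
    rw [h, map_zero]
  · rw [eval_rename] at h
    simpa using h

/-- the linear form attached to the row `l` -/
noncomputable def necF {g : Type} [LieRing g] [LieAlgebra ℂ g] {ι : Type} [Fintype ι]
    (e : Basis ι ℂ g) (q : MvPolynomial ι ℂ) (l : ι) : MvPolynomial ι ℂ :=
  ∑ i, fullMat e l i * C (coeff (Finsupp.single i 1) q)

lemma nec_full_deg {g : Type} [LieRing g] [LieAlgebra ℂ g] {ι : Type} [Fintype ι]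
    (e : Basis ι ℂ g) (i j : ι) : (fullMat e i j).totalDegree ≤ 1 := by
  unfold fullMat
  refine (totalDegree_finsetSum _ _).trans (Finset.sup_le fun k _ => ?_)
  refine (totalDegree_mul _ _).trans ?_
  rw [totalDegree_C, totalDegree_X]

lemma nec_F_deg {g : Type} [LieRing g] [LieAlgebra ℂ g] {ι : Type} [Fintype ι]
    (e : Basis ι ℂ g) (q : MvPolynomial ι ℂ) (l : ι) : (necF e q l).totalDegree ≤ 1 := by
  unfold necF
  refine (totalDegree_finsetSum _ _).trans (Finset.sup_le fun k _ => ?_)
  refine (totalDegree_mul _ _).trans ?_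
  rw [totalDegree_C, add_zero]
  exact nec_full_deg e l k

/-- a polynomial of degree at most one without constant term is linear -/
lemma nec_linear {ι : Type} [Fintype ι] (q : MvPolynomial ι ℂ) (hd : q.totalDegree ≤ 1)
    (h0 : eval 0 q = 0) : q = ∑ l, C (coeff (Finsupp.single l 1) q) * X l := by
  classical
  ext m
  rw [coeff_sum]
  simp only [coeff_C_mul, coeff_X]
  by_cases hm : ∃ l, m = Finsupp.single l 1
  · obtain ⟨l, rfl⟩ := hm
    rw [Finset.sum_eq_single l]
    · simp
    · intro l' _ hl'
      rw [if_neg, mul_zero]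
      intro h
      exact hl' (Finsupp.single_left_injective one_ne_zero h)
    · intro h; exact absurd (Finset.mem_univ l) h
  · push Not at hm
    rw [Finset.sum_eq_zero]
    · by_cases hz : m = 0
      · subst hz
        rw [← constantCoeff_eq, ← h0, ← MvPolynomial.eval_zero]
      · by_contra hc
        have h1 : m ∈ q.support := mem_support_iff.2 hc
        have h2 := (le_totalDegree h1).trans hd
        have h3 : m.degree ≤ 1 := h2
        have h4 : m.degree ≠ 0 := fun h => hz (m.degree_eq_zero_iff.1 h)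
        have h5 : m.degree = 1 := by omega
        have h6 : m ∈ Set.range (fun a : ι => Finsupp.single a 1) := by
          rw [Finsupp.range_single_one]
          exact h5
        obtain ⟨l, hl⟩ := h6
        exact hm l hl.symm
    · intro l _
      rw [if_neg (fun h => hm l h.symm), mul_zero]

theorem necessity2 (T : JKType) (hT : Realizable T)
    (hk1 : ∀ c, T.k c ≠ 1) (hk0 : ∀ c c', T.k c = 0 → T.k c' = 0 → c = c') :
    Nat.card {e // Bad T e ∧ ∀ e', SamePart T e e' → e' = e} ≤ ∑ c, (T.k c + 1) := by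
  classical
  obtain ⟨g, _, _, hT'⟩ := hT
  obtain ⟨n, b, _⟩ := id hT'
  obtain ⟨Q, hQ, GQ⟩ := root_factor T hT' b
  have G1 : Gen (Fin n) (fun x a => ∀ q : {q // q ∈ Q},
      ((∀ (t : T.E → ℂ) (P : Basis (Row T ⊕ Col T) ℂ (Fin n → ℂ)),
      Function.Injective t → CanonO T (fun e => some (t e)) ((fullMat b).map (eval x))
        ((fullMat b).map (eval a)) P → ∀ e0, Bad T e0 → eval (x + (- t e0) • a) q.1 = 0 →
        ∃ β : T.κ → ℂ, ∀ l, eval (x + (- t e0) • a) (pderiv l q.1) =
          ∑ c, β c * (kerVec T P c l).eval (- t e0)) ∧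
      (2 ≤ q.1.totalDegree → ∀ (t : T.E → ℂ) (P : Basis (Row T ⊕ Col T) ℂ (Fin n → ℂ)),
      Function.Injective t → CanonO T (fun e => some (t e)) ((fullMat b).map (eval x))
        ((fullMat b).map (eval a)) P → ∀ e0, eval (x + (- t e0) • a) q.1 = 0 →
        ∃ e1, e1 ≠ e0 ∧ SamePart T e0 e1)) ∧
      (eval a q.1 ≠ 0 ∧ ∀ l : Fin n, ¬ q.1 ∣ necF b q.1 l → ∀ s : ℂ,
        eval (x + s • a) q.1 = 0 → eval (x + s • a) (necF b q.1 l) ≠ 0)) := by
    refine Gen.all fun q => ?_
    have hp := (hQ q.1 q.2).1
    refine Gen.and (Gen.and (bad_grad T hT' b q.1 hp) ?_) (Gen.and (nec_gen_ne q.1 hp.ne_zero) ?_)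
    · by_cases h2 : 2 ≤ q.1.totalDegree
      · exact (nonlin T b q.1 hp h2).mono fun x a h _ => h
      · exact Gen.true.mono fun x a _ h => absurd h h2
    · refine Gen.all fun l => ?_
      by_cases h2 : q.1 ∣ necF b q.1 l
      · exact Gen.true.mono fun x a _ h => absurd h2 h
      · exact (line_avoid q.1 _ hp h2).mono fun x a h _ => h
  obtain ⟨x, a, ⟨t, P, ht, hP⟩, hroot, hq⟩ := nec_exists ((canon_gen T hT' b).and (GQ.and G1))
  have key : ∀ e0, (Bad T e0 ∧ ∀ e', SamePart T e0 e' → e' = e0) → ∃ v χ : Fin n → ℂ,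
      (∀ y : Fin n → ℂ, ∀ l, ∑ i, eval y (fullMat b l i) * v i = (y ⬝ᵥ v) * χ l) ∧
      x ⬝ᵥ v = t e0 * (a ⬝ᵥ v) ∧ a ⬝ᵥ v ≠ 0 ∧
      ∃ β : T.κ → ℂ, ∀ l, v l = ∑ c, β c * (kerVec T P c l).eval (- t e0) := by
    rintro e0 ⟨hb, hu⟩
    obtain ⟨q, hqQ, hq0⟩ := hroot t P hP e0
    obtain ⟨⟨hbg, hnl⟩, hane, havoid⟩ := hq ⟨q, hqQ⟩
    obtain ⟨hp, h01⟩ := hQ q hqQ
    have hdeg : q.totalDegree = 1 := by
      have h2 : ¬ 2 ≤ q.totalDegree := by
        intro h2
        obtain ⟨e1, hne, hs⟩ := hnl h2 t P ht hP e0 hq0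
        exact hne (hu e1 hs)
      have h0 : q.totalDegree ≠ 0 := by
        intro h0
        have hC := totalDegree_eq_zero_iff_eq_C.1 h0
        have hc : coeff 0 q ≠ 0 := by
          intro hc
          rw [hc, C_0] at hC
          exact hp.ne_zero hC
        apply hp.not_isUnit
        rw [hC]
        exact (isUnit_iff_ne_zero.2 hc).map C
      omega
    have hq00 := h01 hdeg
    set v : Fin n → ℂ := fun l => coeff (Finsupp.single l 1) q with hv
    have hlin : q = ∑ l, C (v l) * X l := nec_linear q hdeg.le hq00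
    have hev : ∀ y : Fin n → ℂ, eval y q = y ⬝ᵥ v := by
      intro y
      rw [hlin, map_sum]
      simp only [dotProduct, map_mul, eval_C, eval_X]
      exact Finset.sum_congr rfl fun i _ => mul_comm _ _
    have hpd : ∀ l, pderiv l q = C (v l) := by
      intro l
      conv_lhs => rw [hlin]
      rw [map_sum]
      simp only [pderiv_C_mul, pderiv_X]
      rw [Finset.sum_eq_single l]
      · simp
      · intro i _ hi
        simp [hi]
      · intro h; exact absurd (Finset.mem_univ l) h
    obtain ⟨β, hβ⟩ := hbg t P ht hP e0 hb hq0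
    have hβ' : ∀ l, v l = ∑ c, β c * (kerVec T P c l).eval (- t e0) := by
      intro l
      rw [← hβ l, hpd, eval_C]
    -- `(A - t B) v = 0`
    have hker : ∀ l, eval (x + (- t e0) • a) (necF b q l) = 0 := by
      intro l
      have h1 : eval (x + (- t e0) • a) (necF b q l)
          = ∑ i, (eval x (fullMat b l i) + (- t e0) * eval a (fullMat b l i)) * v i := by
        unfold necF
        rw [map_sum]
        refine Finset.sum_congr rfl fun i _ => ?_
        rw [map_mul, eval_C, nec_eval_full, nec_eval_full, nec_eval_full, Finset.mul_sum,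
          ← Finset.sum_add_distrib]
        congr 1
        refine Finset.sum_congr rfl fun k _ => ?_
        simp only [Pi.add_apply, Pi.smul_apply, smul_eq_mul]
        ring
      rw [h1]
      have h2 : ∀ c, ∑ i, (eval x (fullMat b l i) + (- t e0) * eval a (fullMat b l i)) *
          (kerVec T P c i).eval (- t e0) = 0 := by
        intro c
        have h3 := congrFun (kerVec_ker T (fun e => some (t e)) _ _ P hP c) l
        have h4 := congrArg (Polynomial.eval (- t e0)) h3
        simp only [Matrix.mulVec, dotProduct, pencil, Matrix.add_apply, Matrix.map_apply,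
          Matrix.smul_apply, smul_eq_mul, Polynomial.eval_finsetSum, Polynomial.eval_mul,
          Polynomial.eval_add, Polynomial.eval_C, Polynomial.eval_X, Pi.zero_apply,
          Polynomial.eval_zero] at h4
        exact h4
      calc ∑ i, (eval x (fullMat b l i) + (- t e0) * eval a (fullMat b l i)) * v i
          = ∑ i, ∑ c, β c * ((eval x (fullMat b l i) + (- t e0) * eval a (fullMat b l i)) *
          (kerVec T P c i).eval (- t e0)) := by
            refine Finset.sum_congr rfl fun i _ => ?_
            rw [hβ' i, Finset.mul_sum]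
            refine Finset.sum_congr rfl fun c _ => ?_
            ring
        _ = ∑ c, β c * ∑ i, ((eval x (fullMat b l i) + (- t e0) * eval a (fullMat b l i)) *
          (kerVec T P c i).eval (- t e0)) := by
            rw [Finset.sum_comm]
            refine Finset.sum_congr rfl fun c _ => ?_
            rw [Finset.mul_sum]
        _ = 0 := by
            refine Finset.sum_eq_zero fun c _ => ?_
            rw [h2 c, mul_zero]
    have hdvd : ∀ l, q ∣ necF b q l := by
      intro l
      by_contra hnd
      exact havoid l hnd (- t e0) hq0 (hker l)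
    have hχ : ∀ l, ∃ c : ℂ, necF b q l = C c * q := by
      intro l
      obtain ⟨h, hh⟩ := hdvd l
      by_cases hz : h = 0
      · exact ⟨0, by rw [hh, hz]; simp⟩
      · have h1 := totalDegree_mul_of_isDomain hp.ne_zero hz
        rw [← hh] at h1
        have h2 := nec_F_deg b q l
        have h3 : h.totalDegree = 0 := by omega
        have h4 := totalDegree_eq_zero_iff_eq_C.1 h3
        exact ⟨coeff 0 h, by rw [hh, ← h4, mul_comm]⟩
    choose χ hχ using hχ
    refine ⟨v, χ, ?_, ?_, ?_, β, hβ'⟩
    · intro y l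
      have h1 := congrArg (eval y) (hχ l)
      rw [map_mul, eval_C, hev] at h1
      rw [mul_comm, ← h1]
      unfold necF
      rw [map_sum]
      refine Finset.sum_congr rfl fun i _ => ?_
      rw [map_mul, eval_C]
    · have h1 := hq0
      rw [hev, add_dotProduct, smul_dotProduct, smul_eq_mul] at h1
      linear_combination h1
    · rw [← hev]; exact hane
  choose! v χ h1 h2 h3 h4 using key
  have hc := count_bad T hk1 hk0 t ht ((fullMat b).map (eval x)) ((fullMat b).map (eval a)) P hP
    x a (fun l => Matrix.toLin' (Matrix.of fun k i => b.repr ⁅b l, b i⁆ k)) v χ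
    (Finset.univ.filter fun e => Bad T e ∧ ∀ e', SamePart T e e' → e' = e) ?_ ?_ ?_ ?_ ?_ ?_
  · rwa [Nat.card_eq_fintype_card, Fintype.card_subtype]
  · intro e he l
    have hb := (Finset.mem_filter.1 he).2
    funext k
    have h5 := h1 e hb (Pi.single k 1) l
    rw [Matrix.toLin'_apply]
    simp only [Matrix.mulVec, dotProduct, Matrix.of_apply, Pi.smul_apply, smul_eq_mul]
    have h6 : (Pi.single k (1:ℂ) : Fin n → ℂ) ⬝ᵥ v e = v e k := by simp
    rw [h6] at h5
    rw [mul_comm, ← h5]
    refine Finset.sum_congr rfl fun i _ => ?_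
    rw [nec_eval_full]
    simp [Pi.single_apply]
  · intro e he
    have hb := (Finset.mem_filter.1 he).2
    funext l
    have h5 := h1 e hb x l
    simpa [Matrix.mulVec, dotProduct] using h5
  · intro e he
    have hb := (Finset.mem_filter.1 he).2
    funext l
    have h5 := h1 e hb a l
    simpa [Matrix.mulVec, dotProduct] using h5
  · intro e he
    exact h2 e (Finset.mem_filter.1 he).2
  · intro e he
    exact h3 e (Finset.mem_filter.1 he).2
  · intro e he
    exact h4 e (Finset.mem_filter.1 he).2

end Pool.Agent.Helper783.JK
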