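import Pool.Agent.Helper783.JK.Defs

open Module MvPolynomial Matrix

namespace Pool.Agent.Helper783.JK



/-- lower shift -/
noncomputable def shN (n : ℕ) : Matrix (Fin n) (Fin n) (Polynomial ℂ) :=
  fun i j => if (i : ℕ) = (j : ℕ) + 1 then 1 else 0

lemma shN_pow (n s : ℕ) : ∀ i j : Fin n, (i : ℕ) < s → ((shN n) ^ s) i j = 0 := by
  induction s with
  | zero => intro i j h; omega
  | succ s ih =>
    intro i j h
    rw [pow_succ', Matrix.mul_apply]
    refine Finset.sum_eq_zero (fun k _ => ?_)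
    by_cases hk : (i : ℕ) = (k : ℕ) + 1
    · rw [ih k j (by omega), mul_zero]
    · simp [shN, hk]

lemma shN_nil (n : ℕ) : (shN n) ^ n = 0 := by
  ext1 i j
  exact shN_pow n n i j i.2

lemma blk_inv (n : ℕ) (ε : Polynomial ℂ) : ∃ G : Matrix (Fin n) (Fin n) (Polynomial ℂ),
    (ε • (1 : Matrix (Fin n) (Fin n) (Polynomial ℂ)) + shN n) * G = ε ^ n • 1 ∧
    G * (ε • (1 : Matrix (Fin n) (Fin n) (Polynomial ℂ)) + shN n) = ε ^ n • 1 := by
  have hc : Commute (ε • (1 : Matrix (Fin n) (Fin n) (Polynomial ℂ))) (- shN n) :=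
    ((Commute.one_left (- shN n)).smul_left ε)
  have h1 := hc.mul_geom_sum₂ n
  have h2 := hc.geom_sum₂_mul n
  have h3 : (ε • (1 : Matrix (Fin n) (Fin n) (Polynomial ℂ))) ^ n - (- shN n) ^ n = ε ^ n • 1 := by
    rw [neg_pow, shN_nil, mul_zero, sub_zero, smul_pow, one_pow]
  rw [sub_neg_eq_add, h3] at h1 h2
  exact ⟨_, h1, h2⟩

theorem jord_inv {ι β E : Type} [Fintype ι] [DecidableEq ι] [Fintype β] [Fintype E]
    (m : β → ℕ) (ev : β → E) (t : E → ℂ) (ht : Function.Injective t) (A B : Matrix ι ι ℂ)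
    (P : Basis ((Σ b, Fin (m b)) ⊕ (Σ b, Fin (m b))) ℂ (ι → ℂ))
    (hA : ∀ i j, P i ⬝ᵥ (A *ᵥ P j) = skewOf (jordA m ev t) i j)
    (hB : ∀ i j, P i ⬝ᵥ (B *ᵥ P j) = skewOf (jordB m) i j)
    (e1 : E) (μ : ℕ) (hμ : ∀ b, ev b = e1 → m b ≤ μ) :
    ∃ χ : Polynomial ℂ, χ.eval (- t e1) ≠ 0 ∧ ∀ γ : ι → ℂ, ∃ w : ι → Polynomial ℂ,
      (A.map Polynomial.C + (Polynomial.X : Polynomial ℂ) • B.map Polynomial.C) *ᵥ w =
        ((Polynomial.X + Polynomial.C (t e1)) ^ μ * χ) • (fun i => Polynomial.C (γ i)) := by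
  classical
  set χ : Polynomial ℂ := ∏ e ∈ Finset.univ.erase e1,
    (Polynomial.X + Polynomial.C (t e)) ^ (∑ b, m b) with hχ
  refine ⟨χ, ?_, ?_⟩
  · rw [hχ, Polynomial.eval_prod, Finset.prod_ne_zero_iff]
    intro e he
    rw [Polynomial.eval_pow]
    apply pow_ne_zero
    rw [Polynomial.eval_add, Polynomial.eval_X, Polynomial.eval_C]
    intro h
    exact (Finset.mem_erase.1 he).1 (ht (by linear_combination h))
  set d : Polynomial ℂ := (Polynomial.X + Polynomial.C (t e1)) ^ μ * χ with hd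
  have hdiv : ∀ b, (Polynomial.X + Polynomial.C (t (ev b))) ^ (m b) ∣ d := by
    intro b
    by_cases hb : ev b = e1
    · rw [hb, hd]
      exact Dvd.dvd.mul_right (pow_dvd_pow _ (hμ b hb)) _
    · rw [hd]
      refine Dvd.dvd.mul_left ?_ _
      rw [hχ]
      refine dvd_trans (pow_dvd_pow _ ?_) (Finset.dvd_prod_of_mem _
        (Finset.mem_erase.2 ⟨hb, Finset.mem_univ _⟩))
      exact Finset.single_le_sum (f := m) (fun _ _ => Nat.zero_le _) (Finset.mem_univ b)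
  choose q hq using hdiv
  choose G hG1 hG2 using fun b => blk_inv (m b) (Polynomial.X + Polynomial.C (t (ev b)))
  obtain ⟨R, hR⟩ : ∃ R : Matrix (Σ b, Fin (m b)) (Σ b, Fin (m b)) (Polynomial ℂ),
      R = Matrix.blockDiagonal' (fun b => (Polynomial.X + Polynomial.C (t (ev b))) •
        (1 : Matrix (Fin (m b)) (Fin (m b)) (Polynomial ℂ)) + shN (m b)) := ⟨_, rfl⟩
  obtain ⟨R', hR'⟩ : ∃ R' : Matrix (Σ b, Fin (m b)) (Σ b, Fin (m b)) (Polynomial ℂ),
      R' = Matrix.blockDiagonal' (fun b => q b • G b) := ⟨_, rfl⟩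
  have hRR' : R * R' = d • 1 := by
    rw [hR, hR', ← Matrix.blockDiagonal'_mul, ← Matrix.blockDiagonal'_one,
      ← Matrix.blockDiagonal'_smul]
    congr 1
    funext b
    rw [Matrix.mul_smul, hG1, smul_smul]
    show _ = d • (1 : Matrix (Fin (m b)) (Fin (m b)) (Polynomial ℂ))
    rw [mul_comm, ← hq]
  have hR'R : R' * R = d • 1 := by
    rw [hR, hR', ← Matrix.blockDiagonal'_mul, ← Matrix.blockDiagonal'_one,
      ← Matrix.blockDiagonal'_smul]
    congr 1
    funext b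
    rw [Matrix.smul_mul, hG2, smul_smul]
    show _ = d • (1 : Matrix (Fin (m b)) (Fin (m b)) (Polynomial ℂ))
    rw [mul_comm, ← hq]
  have hRapp : ∀ r c, R r c = Polynomial.C (jordA m ev t r c) +
      Polynomial.X * Polynomial.C (jordB m r c) := by
    rintro ⟨b, i⟩ ⟨b', j⟩
    rw [hR]
    by_cases hb : b = b'
    · subst hb
      rw [Matrix.blockDiagonal'_apply_eq]
      simp only [jordA, jordB, shN, Matrix.add_apply, Matrix.smul_apply, Matrix.one_apply,
        smul_eq_mul, if_true, true_and]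
      by_cases hij : i = j
      · subst hij
        simp
        ring
      · have hij' : (i : ℕ) ≠ (j : ℕ) := fun h => hij (Fin.ext h)
        simp only [if_neg hij, if_neg hij']
        split_ifs <;> simp
    · rw [Matrix.blockDiagonal'_apply_ne _ _ _ hb]
      simp [jordA, jordB, hb]
  obtain ⟨J, hJ⟩ : ∃ J : Matrix ((Σ b, Fin (m b)) ⊕ (Σ b, Fin (m b)))
      ((Σ b, Fin (m b)) ⊕ (Σ b, Fin (m b))) (Polynomial ℂ),
      J = Matrix.fromBlocks 0 R (-Rᵀ) 0 := ⟨_, rfl⟩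
  obtain ⟨K, hK⟩ : ∃ K : Matrix ((Σ b, Fin (m b)) ⊕ (Σ b, Fin (m b)))
      ((Σ b, Fin (m b)) ⊕ (Σ b, Fin (m b))) (Polynomial ℂ),
      K = Matrix.fromBlocks 0 (-R'ᵀ) R' 0 := ⟨_, rfl⟩
  have hJK : J * K = d • 1 := by
    rw [hJ, hK, Matrix.fromBlocks_multiply]
    simp only [Matrix.zero_mul, Matrix.mul_zero, zero_add, add_zero, Matrix.neg_mul,
      Matrix.mul_neg, neg_neg, ← Matrix.transpose_mul, hRR', hR'R, Matrix.transpose_smul,
      Matrix.transpose_one]
    rw [← Matrix.fromBlocks_one, Matrix.fromBlocks_smul, smul_zero]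
    congr 1
    exact neg_zero
  have hJapp : ∀ i j, J i j = Polynomial.C (skewOf (jordA m ev t) i j) +
      Polynomial.X * Polynomial.C (skewOf (jordB m) i j) := by
    rintro (r | r) (c | c)
    · rw [hJ]; simp [skewOf]
    · rw [hJ, Matrix.fromBlocks_apply₁₂, hRapp]; simp [skewOf]
    · rw [hJ, Matrix.fromBlocks_apply₂₁, Matrix.neg_apply, Matrix.transpose_apply, hRapp]
      simp [skewOf]
      ring
    · rw [hJ]; simp [skewOf]
  obtain ⟨T, hT⟩ : ∃ T : Matrix ι ((Σ b, Fin (m b)) ⊕ (Σ b, Fin (m b))) ℂ,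
      T = (Pi.basisFun ℂ ι).toMatrix P := ⟨_, rfl⟩
  obtain ⟨T', hT'⟩ : ∃ T' : Matrix ((Σ b, Fin (m b)) ⊕ (Σ b, Fin (m b))) ι ℂ,
      T' = P.toMatrix (Pi.basisFun ℂ ι) := ⟨_, rfl⟩
  have hTT' : T * T' = 1 := by
    rw [hT, hT']
    exact Basis.toMatrix_mul_toMatrix_flip _ _
  have hTapp : ∀ k i, T k i = P i k := by
    intro k i
    rw [hT, Basis.toMatrix_apply, Pi.basisFun_repr]
  obtain ⟨L, hL⟩ : ∃ L : Matrix ι ι (Polynomial ℂ), L = A.map Polynomial.C +
    (Polynomial.X : Polynomial ℂ) • B.map Polynomial.C := ⟨_, rfl⟩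
  have hTLT : (T.map Polynomial.C)ᵀ * L * T.map Polynomial.C = J := by
    have e1 : ∀ (M : Matrix ι ι ℂ), (T.map Polynomial.C)ᵀ * M.map Polynomial.C *
        T.map Polynomial.C = (Tᵀ * M * T).map Polynomial.C := by
      intro M
      rw [Matrix.map_mul, Matrix.map_mul, Matrix.transpose_map]
    have e2 : ∀ (M : Matrix ι ι ℂ) i j, (Tᵀ * M * T) i j = P i ⬝ᵥ (M *ᵥ P j) := by
      intro M i j
      rw [Matrix.mul_assoc, Matrix.mul_apply]
      unfold dotProduct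
      refine Finset.sum_congr rfl (fun k _ => ?_)
      rw [Matrix.transpose_apply, hTapp, Matrix.mul_apply]
      congr 1
      unfold Matrix.mulVec dotProduct
      refine Finset.sum_congr rfl (fun l _ => ?_)
      rw [hTapp]
    rw [hL, Matrix.mul_add, Matrix.add_mul, Matrix.mul_smul, Matrix.smul_mul, e1, e1]
    ext1 i j
    rw [Matrix.add_apply, Matrix.smul_apply, Matrix.map_apply, Matrix.map_apply, e2, e2, hA, hB,
      hJapp, smul_eq_mul]
  intro γ
  refine ⟨(T.map Polynomial.C * K * (T.map Polynomial.C)ᵀ) *ᵥ (fun i => Polynomial.C (γ i)), ?_⟩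
  rw [← hL, Matrix.mulVec_mulVec]
  have h5 : (T'.map Polynomial.C)ᵀ * (T.map Polynomial.C)ᵀ =
      (1 : Matrix ι ι (Polynomial ℂ)) := by
    rw [← Matrix.transpose_mul, ← Matrix.map_mul, hTT']
    rw [Matrix.map_one _ (map_zero _) (map_one _), Matrix.transpose_one]
  have h6 : L * T.map Polynomial.C = (T'.map Polynomial.C)ᵀ * J := by
    rw [← hTLT, ← Matrix.mul_assoc, ← Matrix.mul_assoc, h5, Matrix.one_mul]
  have h7 : L * (T.map Polynomial.C * K * (T.map Polynomial.C)ᵀ) = d • 1 := by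
    rw [← Matrix.mul_assoc, ← Matrix.mul_assoc, h6, Matrix.mul_assoc (T'.map Polynomial.C)ᵀ J K,
      hJK, Matrix.mul_smul, Matrix.mul_one, Matrix.smul_mul, h5]
  rw [h7, Matrix.smul_mulVec, Matrix.one_mulVec]

end Pool.Agent.Helper783.JK
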