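import Pool.Agent.Helper783.JK.Defs

open Module MvPolynomial Matrix

namespace Pool.Agent.Helper783.JK



theorem jord_vec {ι β E : Type} [Fintype ι] [DecidableEq ι] [Fintype β] [Fintype E]
    (m : β → ℕ) (ev : β → E) (t : E → ℂ) (A B : Matrix ι ι ℂ)
    (P : Basis ((Σ b, Fin (m b)) ⊕ (Σ b, Fin (m b))) ℂ (ι → ℂ))
    (hA : ∀ i j, P i ⬝ᵥ (A *ᵥ P j) = skewOf (jordA m ev t) i j)
    (hB : ∀ i j, P i ⬝ᵥ (B *ᵥ P j) = skewOf (jordB m) i j) (b : β) (hb : 0 < m b) :
    ∃ (u : ι → Polynomial ℂ) (α : ι → ℂ),
      (∀ i, (u i).eval (- t (ev b)) = P (.inl ⟨b, ⟨0, hb⟩⟩) i) ∧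
      (∀ b' (hb' : 0 < m b'), α ⬝ᵥ P (.inl ⟨b', ⟨0, hb'⟩⟩) = 0) ∧
      (A.map Polynomial.C + (Polynomial.X : Polynomial ℂ) • B.map Polynomial.C) *ᵥ u =
        ((Polynomial.X + Polynomial.C (t (ev b))) ^ (m b)) • (fun i => Polynomial.C (α i)) := by
  classical
  set z : ℂ := t (ev b) with hz
  set ε : Polynomial ℂ := Polynomial.X + Polynomial.C z with hε
  let p : Fin (m b) → (ι → ℂ) := fun j => P (.inl ⟨b, j⟩)
  let u : ι → Polynomial ℂ := fun i => ∑ j : Fin (m b), (-ε) ^ (j : ℕ) * Polynomial.C (p j i)
  let last : Fin (m b) := ⟨m b - 1, by omega⟩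
  let φ : (ι → ℂ) →ₗ[ℂ] ℂ := ((-1 : ℂ) ^ (m b)) • P.coord (.inr ⟨b, last⟩)
  let α : ι → ℂ := fun i => φ (Pi.single i 1)
  have hα : ∀ v : ι → ℂ, α ⬝ᵥ v = φ v := by
    intro v
    have h1 : v = ∑ i, v i • (Pi.single i 1 : ι → ℂ) := by
      ext k
      simp [Finset.sum_apply, Pi.single_apply]
    conv_rhs => rw [h1]
    rw [map_sum]
    simp only [dotProduct, map_smul, smul_eq_mul, α]
    exact Finset.sum_congr rfl fun i _ => mul_comm _ _
  have hφ : ∀ k, φ (P k) = if k = .inr ⟨b, last⟩ then (-1 : ℂ) ^ (m b) else 0 := by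
    intro k
    show ((-1 : ℂ) ^ (m b)) * P.coord (.inr ⟨b, last⟩) (P k) = _
    rw [Basis.coord_apply, Basis.repr_self, Finsupp.single_apply]
    split_ifs <;> simp
  refine ⟨u, α, ?_, ?_, ?_⟩
  · intro i
    show (∑ j : Fin (m b), (-ε) ^ (j : ℕ) * Polynomial.C (p j i)).eval (-z) = p ⟨0, hb⟩ i
    rw [Polynomial.eval_finset_sum, Finset.sum_eq_single (⟨0, hb⟩ : Fin (m b))]
    · simp
    · intro j _ hj
      have hj' : (j : ℕ) ≠ 0 := fun h => hj (Fin.ext h)
      simp [hε, hj']
    · intro h; exact absurd (Finset.mem_univ _) h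
  · intro b' hb'
    rw [hα, hφ]
    simp
  · have key1 : ∀ i, ((A.map Polynomial.C + (Polynomial.X : Polynomial ℂ) • B.map Polynomial.C) *ᵥ u) i
        = ∑ j : Fin (m b), (-ε) ^ (j : ℕ) * (Polynomial.C ((A *ᵥ p j) i) +
          Polynomial.X * Polynomial.C ((B *ᵥ p j) i)) := by
      intro i
      simp only [Matrix.mulVec, dotProduct, Matrix.add_apply, Matrix.smul_apply, Matrix.map_apply,
        smul_eq_mul, u, Finset.mul_sum]
      rw [Finset.sum_comm]
      refine Finset.sum_congr rfl fun j _ => ?_
      rw [map_sum, map_sum, Finset.mul_sum, ← Finset.sum_add_distrib, Finset.mul_sum]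
      refine Finset.sum_congr rfl fun l _ => ?_
      rw [map_mul, map_mul]
      ring
    have key2 : ∀ k, ∑ i, Polynomial.C (P k i) *
        ((A.map Polynomial.C + (Polynomial.X : Polynomial ℂ) • B.map Polynomial.C) *ᵥ u) i =
        ∑ j : Fin (m b), (-ε) ^ (j : ℕ) * (Polynomial.C (P k ⬝ᵥ (A *ᵥ p j)) +
          Polynomial.X * Polynomial.C (P k ⬝ᵥ (B *ᵥ p j))) := by
      intro k
      simp only [key1, Finset.mul_sum]
      rw [Finset.sum_comm]
      refine Finset.sum_congr rfl fun j _ => ?_
      simp only [dotProduct]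
      rw [map_sum, map_sum, Finset.mul_sum, ← Finset.sum_add_distrib, Finset.mul_sum]
      refine Finset.sum_congr rfl fun l _ => ?_
      rw [map_mul, map_mul]
      ring
    have key3 : ∀ k, ∑ i, Polynomial.C (P k i) *
        ((A.map Polynomial.C + (Polynomial.X : Polynomial ℂ) • B.map Polynomial.C) *ᵥ u) i =
        ε ^ (m b) * Polynomial.C (φ (P k)) := by
      intro k
      rw [key2, hφ]
      rcases k with c | ⟨b', i⟩
      · have h0 : ∀ j : Fin (m b), (-ε) ^ (j : ℕ) * (Polynomial.C (P (Sum.inl c) ⬝ᵥ (A *ᵥ p j)) +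
            Polynomial.X * Polynomial.C (P (Sum.inl c) ⬝ᵥ (B *ᵥ p j))) = 0 := by
          intro j
          rw [hA, hB]
          simp [skewOf]
        rw [Finset.sum_congr rfl fun j _ => h0 j]
        simp
      · by_cases hbb : b' = b
        · subst hbb
          have h0 : ∀ j : Fin (m b'), (-ε) ^ (j : ℕ) *
              (Polynomial.C (P (Sum.inr ⟨b', i⟩) ⬝ᵥ (A *ᵥ p j)) +
                Polynomial.X * Polynomial.C (P (Sum.inr ⟨b', i⟩) ⬝ᵥ (B *ᵥ p j))) =
              (if j = i then (-ε) ^ ((i : ℕ) + 1) else 0) -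
                (if (j : ℕ) = (i : ℕ) + 1 then (-ε) ^ ((i : ℕ) + 1) else 0) := by
            intro j
            rw [hA, hB]
            by_cases h1 : j = i
            · subst h1
              simp only [skewOf, jordA, jordB, if_true, and_self]
              rw [if_neg (by omega : ¬ ((j : ℕ) = (j : ℕ) + 1))]
              rw [pow_succ, hε]
              simp only [map_neg, map_one, ← hz]
              ring
            · have h1' : (j : ℕ) ≠ (i : ℕ) := fun h => h1 (Fin.ext h)
              by_cases h2 : (j : ℕ) = (i : ℕ) + 1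
              · simp only [skewOf, jordA, jordB, if_true, h1, h1', h2, if_false, and_false]
                rw [if_neg (by omega : ¬ ((i : ℕ) + 1 = (i : ℕ)))]
                rw [if_neg (by omega : ¬ (True ∧ (i : ℕ) + 1 = (i : ℕ)))]
                simp
              · simp [skewOf, jordA, jordB, h1, h1', h2]
          rw [Finset.sum_congr rfl fun j _ => h0 j, Finset.sum_sub_distrib,
            Finset.sum_ite_eq' Finset.univ i]
          simp only [Finset.mem_univ, if_true]
          by_cases hl : i = last
          · subst hl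
            rw [Finset.sum_eq_zero]
            · have h5 : ((last : Fin (m b')) : ℕ) + 1 = m b' := by
                show m b' - 1 + 1 = m b'
                omega
              rw [h5, if_pos rfl, neg_pow]
              simp
              ring
            · intro j _
              rw [if_neg]
              have := j.2
              have h6 : ((last : Fin (m b')) : ℕ) = m b' - 1 := rfl
              omega
          · have hi : (i : ℕ) + 1 < m b' := by
              have h7 : (i : ℕ) ≠ m b' - 1 := fun h => hl (Fin.ext h)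
              have := i.2
              omega
            rw [Finset.sum_eq_single (⟨(i : ℕ) + 1, hi⟩ : Fin (m b'))]
            · have hne : (Sum.inr ⟨b', i⟩ : (Σ b, Fin (m b)) ⊕ (Σ b, Fin (m b))) ≠
                  Sum.inr ⟨b', last⟩ := by
                intro h
                have h8 := Sum.inr.inj h
                exact hl (eq_of_heq (Sigma.mk.inj h8).2)
              rw [if_neg hne]
              simp
            · intro j _ hj
              rw [if_neg]
              intro h
              exact hj (Fin.ext h)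
            · intro h; exact absurd (Finset.mem_univ _) h
        · have h0 : ∀ j : Fin (m b), (-ε) ^ (j : ℕ) *
              (Polynomial.C (P (Sum.inr ⟨b', i⟩) ⬝ᵥ (A *ᵥ p j)) +
                Polynomial.X * Polynomial.C (P (Sum.inr ⟨b', i⟩) ⬝ᵥ (B *ᵥ p j))) = 0 := by
            intro j
            rw [hA, hB]
            have hbb' : ¬ (b = b') := fun h => hbb h.symm
            simp [skewOf, jordA, jordB, hbb']
          rw [Finset.sum_congr rfl fun j _ => h0 j]
          have hne : (Sum.inr ⟨b', i⟩ : (Σ b, Fin (m b)) ⊕ (Σ b, Fin (m b))) ≠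
              Sum.inr ⟨b, last⟩ := by
            intro h
            have h8 := Sum.inr.inj h
            exact hbb (Sigma.mk.inj h8).1
          rw [if_neg hne]
          simp
    set w : ι → Polynomial ℂ :=
      (A.map Polynomial.C + (Polynomial.X : Polynomial ℂ) • B.map Polynomial.C) *ᵥ u with hw
    let Q1 : (ι → ℂ) →ₗ[ℂ] Polynomial ℂ :=
      { toFun := fun v => ∑ i, Polynomial.C (v i) * w i
        map_add' := by
          intro v v'
          simp only [Pi.add_apply, map_add, add_mul, Finset.sum_add_distrib]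
        map_smul' := by
          intro r v
          simp only [Pi.smul_apply, smul_eq_mul, map_mul, RingHom.id_apply, Finset.smul_sum,
            Polynomial.smul_eq_C_mul, mul_assoc] }
    let Q2 : (ι → ℂ) →ₗ[ℂ] Polynomial ℂ :=
      { toFun := fun v => ε ^ (m b) * Polynomial.C (φ v)
        map_add' := by
          intro v v'
          rw [map_add, map_add, mul_add]
        map_smul' := by
          intro r v
          rw [map_smul, smul_eq_mul, map_mul, RingHom.id_apply, Polynomial.smul_eq_C_mul]
          ring }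
    have hQ : Q1 = Q2 := P.ext fun k => key3 k
    funext i
    have h9 : Q1 (Pi.single i 1) = Q2 (Pi.single i 1) := by rw [hQ]
    have h10 : Q1 (Pi.single i 1) = w i := by
      show ∑ l, Polynomial.C ((Pi.single i (1 : ℂ) : ι → ℂ) l) * w l = w i
      rw [Finset.sum_eq_single i]
      · simp
      · intro l _ hl
        simp [Pi.single_apply, hl]
      · intro h; exact absurd (Finset.mem_univ _) h
    rw [← h10, h9]
    rfl

end Pool.Agent.Helper783.JK
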