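import Pool.Agent.Helper783.JK.Defs
import Pool.Agent.Helper783.JK.P_jacobi_contract
import Pool.Agent.Helper783.JK.P_jord_inv
import Pool.Agent.Helper783.JK.P_jord_vec
import Pool.Agent.Helper783.JK.P_wedge_zero

open Module MvPolynomial Matrix

namespace Pool.Agent.Helper783.JK



theorem bdel_skew {ι S : Type} [Fintype ι] [DecidableEq ι] [Fintype S] (A : Matrix ι ι ℂ)
    (P : Basis (S ⊕ S) ℂ (ι → ℂ)) (R : S → S → ℂ)
    (hA : ∀ i j, P i ⬝ᵥ (A *ᵥ P j) = skewOf R i j) : Aᵀ = -A := by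
  have hs : ∀ i j, skewOf R i j = - skewOf R j i := by
    intro i j
    cases i <;> cases j <;> simp [skewOf]
  have h1 : Matrix.toBilin' Aᵀ = Matrix.toBilin' (-A) := by
    refine LinearMap.BilinForm.ext_basis P fun i j => ?_
    rw [Matrix.toBilin'_apply', Matrix.toBilin'_apply', Matrix.neg_mulVec, dotProduct_neg, hA,
      Matrix.mulVec_transpose, dotProduct_comm, ← Matrix.dotProduct_mulVec, hA, hs j i]
  exact Matrix.toBilin'.injective h1

theorem bad_delta {ι β E : Type} [Fintype ι] [DecidableEq ι] [Fintype β] [Fintype E]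
    (m : β → ℕ) (ev : β → E) (t : E → ℂ) (ht : Function.Injective t) (A B : Matrix ι ι ℂ)
    (P : Basis ((Σ b, Fin (m b)) ⊕ (Σ b, Fin (m b))) ℂ (ι → ℂ))
    (hA : ∀ i j, P i ⬝ᵥ (A *ᵥ P j) = skewOf (jordA m ev t) i j)
    (hB : ∀ i j, P i ⬝ᵥ (B *ᵥ P j) = skewOf (jordB m) i j)
    (EE : Matrix ι ι (Polynomial ℂ)) (f : Polynomial ℂ) (hf : f ≠ 0)
    (hE : (A.map Polynomial.C + (Polynomial.X : Polynomial ℂ) • B.map Polynomial.C) * EE =
      f • (1 : Matrix ι ι (Polynomial ℂ)))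
    (b1 b2 : β) (hb : b1 ≠ b2) (hev : ev b1 = ev b2) (hm12 : m b1 = m b2) (hm0 : 0 < m b1)
    (hmax : ∀ b, ev b = ev b1 → m b ≤ m b1)
    (hne : ∃ i j, (EE i j).eval (- t (ev b1)) ≠ 0) (δ : ι → ℂ)
    (hδ : ∀ i j k, δ i * (EE j k).eval (- t (ev b1)) + δ j * (EE k i).eval (- t (ev b1)) +
      δ k * (EE i j).eval (- t (ev b1)) = 0) : δ = 0 := by
  classical
  set L : Matrix ι ι (Polynomial ℂ) :=
    A.map Polynomial.C + (Polynomial.X : Polynomial ℂ) • B.map Polynomial.C with hL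
  set τ : ℂ := - t (ev b1) with hτ
  have hAs := bdel_skew A P _ hA
  have hBs := bdel_skew B P _ hB
  have hLs : Lᵀ = -L := by
    ext1 i j
    have h1 : A j i = - A i j := congrFun (congrFun hAs i) j
    have h2 : B j i = - B i j := congrFun (congrFun hBs i) j
    simp only [hL, Matrix.transpose_apply, Matrix.add_apply, Matrix.map_apply,
      Matrix.smul_apply, Matrix.neg_apply, h1, h2, map_neg, smul_eq_mul]
    ring
  obtain ⟨hEs, hEL, -⟩ := jacobi_contract L EE f hf hLs hE (fun _ => 0) (by simp)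
  obtain ⟨u1, α1, hu1, ho1, hl1⟩ := jord_vec m ev t A B P hA hB b1 hm0
  have hm0' : 0 < m b2 := hm12 ▸ hm0
  obtain ⟨u2, α2, hu2, ho2, hl2⟩ := jord_vec m ev t A B P hA hB b2 hm0'
  rw [← hev] at hu2
  rw [← hev, ← hm12] at hl2
  rw [← hL] at hl1 hl2
  obtain ⟨χ, hχ, hinv⟩ := jord_inv m ev t ht A B P hA hB (ev b1) (m b1) hmax
  rw [← hL] at hinv
  rw [← hτ] at hu1 hu2 hχ
  have hεeq : (Polynomial.X + Polynomial.C (t (ev b1)) : Polynomial ℂ)
      = Polynomial.X - Polynomial.C τ := by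
    rw [hτ, map_neg, sub_neg_eq_add]
  have hεp : Prime (Polynomial.X + Polynomial.C (t (ev b1)) : Polynomial ℂ) := by
    rw [hεeq]; exact Polynomial.prime_X_sub_C τ
  have hετ : (Polynomial.X + Polynomial.C (t (ev b1)) : Polynomial ℂ).eval τ = 0 := by
    rw [hεeq]; simp
  generalize (Polynomial.X + Polynomial.C (t (ev b1)) : Polynomial ℂ) = ε at *
  have hmul : ∀ u v : ι → Polynomial ℂ, L *ᵥ u = v → ∀ i, f * u i = (EE *ᵥ v) i := by
    intro u v huv i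
    rw [← huv, Matrix.mulVec_mulVec, hEL, Matrix.smul_mulVec, Matrix.one_mulVec]
    rfl
  have h1 : ∀ i, f * u1 i = ε ^ m b1 * (EE *ᵥ fun i => Polynomial.C (α1 i)) i := by
    intro i
    rw [hmul _ _ hl1 i, Matrix.mulVec_smul]; rfl
  have h2 : ∀ i, f * u2 i = ε ^ m b1 * (EE *ᵥ fun i => Polynomial.C (α2 i)) i := by
    intro i
    rw [hmul _ _ hl2 i, Matrix.mulVec_smul]; rfl
  have hf1 : P (.inl ⟨b1, ⟨0, hm0⟩⟩) ≠ 0 := P.ne_zero _
  obtain ⟨i0, hi0⟩ := Function.ne_iff.1 hf1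
  have hnd : ¬ ε ∣ u1 i0 := by
    rintro ⟨q, hq⟩
    apply hi0
    rw [← hu1 i0, hq, Polynomial.eval_mul, hετ, zero_mul]
    rfl
  obtain ⟨ψ, hψ⟩ := hεp.pow_dvd_of_dvd_mul_right (m b1) hnd (a := f)
    (⟨_, h1 i0⟩)
  have hεμ : ε ^ m b1 ≠ 0 := pow_ne_zero _ hεp.ne_zero
  have h1' : ∀ i, ψ * u1 i = (EE *ᵥ fun i => Polynomial.C (α1 i)) i := by
    intro i
    apply mul_left_cancel₀ hεμ
    rw [← h1 i, hψ]; ring
  have h2' : ∀ i, ψ * u2 i = (EE *ᵥ fun i => Polynomial.C (α2 i)) i := by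
    intro i
    apply mul_left_cancel₀ hεμ
    rw [← h2 i, hψ]; ring
  set E0 : Matrix ι ι ℂ := EE.map (fun p => p.eval τ) with hE0
  have hev0 : ∀ (γ : ι → ℂ) i, ((EE *ᵥ fun i => Polynomial.C (γ i)) i).eval τ = (E0 *ᵥ γ) i := by
    intro γ i
    simp only [Matrix.mulVec, dotProduct, Polynomial.eval_finsetSum, Polynomial.eval_mul,
      Polynomial.eval_C, hE0, Matrix.map_apply]
  have e1 : E0 *ᵥ α1 = (ψ.eval τ) • P (.inl ⟨b1, ⟨0, hm0⟩⟩) := by
    funext i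
    rw [← hev0, ← h1', Polynomial.eval_mul, hu1]; rfl
  have e2 : E0 *ᵥ α2 = (ψ.eval τ) • P (.inl ⟨b2, ⟨0, hm0'⟩⟩) := by
    funext i
    rw [← hev0, ← h2', Polynomial.eval_mul, hu2]; rfl
  have hc : ψ.eval τ ≠ 0 := by
    intro hc
    have hz : ∀ γ : ι → ℂ, E0 *ᵥ γ = 0 := by
      intro γ
      obtain ⟨w, hw⟩ := hinv γ
      funext i
      have h3 := hmul _ _ hw i
      rw [Matrix.mulVec_smul] at h3
      change f * w i = ε ^ m b1 * χ * (EE *ᵥ fun i => Polynomial.C (γ i)) i at h3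
      have h4 : ψ * w i = χ * (EE *ᵥ fun i => Polynomial.C (γ i)) i := by
        apply mul_left_cancel₀ hεμ
        rw [← mul_assoc, ← mul_assoc, ← h3, hψ]
      have h5 := congrArg (Polynomial.eval τ) h4
      rw [Polynomial.eval_mul, Polynomial.eval_mul, hc, zero_mul, hev0] at h5
      have h6 := (mul_eq_zero.1 h5.symm).resolve_left hχ
      simpa using h6
    obtain ⟨i, j, hij⟩ := hne
    apply hij
    have h3 := congrFun (hz (Pi.single j 1)) i
    rw [Matrix.mulVec_single_one] at h3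
    exact h3
  have hE0s : E0ᵀ = -E0 := by
    ext i j
    have h3 : EE j i = - EE i j := congrFun (congrFun hEs i) j
    simp only [hE0, Matrix.transpose_apply, Matrix.map_apply, Matrix.neg_apply, h3,
      Polynomial.eval_neg]
  have hne' : (Sum.inl ⟨b1, ⟨0, hm0⟩⟩ : (Σ b, Fin (m b)) ⊕ (Σ b, Fin (m b)))
      ≠ Sum.inl ⟨b2, ⟨0, hm0'⟩⟩ := by
    intro h
    exact hb (congrArg Sigma.fst (Sum.inl_injective h))
  have hli : LinearIndependent ℂ ![P (.inl ⟨b1, ⟨0, hm0⟩⟩), P (.inl ⟨b2, ⟨0, hm0'⟩⟩)] := by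
    have h3 := P.linearIndependent.comp ![(Sum.inl ⟨b1, ⟨0, hm0⟩⟩ :
      (Σ b, Fin (m b)) ⊕ (Σ b, Fin (m b))), Sum.inl ⟨b2, ⟨0, hm0'⟩⟩] (by
        intro i j hij
        fin_cases i <;> fin_cases j
        · rfl
        · exact absurd hij hne'
        · exact absurd hij.symm hne'
        · rfl)
    convert h3 using 1
    funext i
    fin_cases i <;> rfl
  exact wedge_zero E0 hE0s δ hδ (ψ.eval τ) hc _ _ α1 α2 hli e1 e2 (ho2 b1 hm0)

end Pool.Agent.Helper783.JK
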