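import Pool.Agent.Helper783.JK.Defs

open Module MvPolynomial Matrix

namespace Pool.Agent.Helper783.JK



theorem bad_of_same (T : JKType) (e e' : T.E) (h : SamePart T e e') (hb : Bad T e) :
    Bad T e' := by
  obtain ⟨b, b', hne, hb1, hb2, hm, hmax⟩ := hb
  have h1 : 1 < Nat.card {c : T.β // T.ev c = e ∧ T.m c = T.m b} :=
    Finite.one_lt_card_iff_nontrivial.2
      ⟨⟨b, hb1, rfl⟩, ⟨b', hb2, hm.symm⟩, fun h2 => hne (congrArg Subtype.val h2)⟩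
  rw [h (T.m b)] at h1
  obtain ⟨⟨c, hc1, hc2⟩, ⟨c', hc1', hc2'⟩, hcc⟩ := Finite.one_lt_card_iff_nontrivial.1 h1
  refine ⟨c, c', fun h2 => hcc (Subtype.ext h2), hc1, hc1', hc2.trans hc2'.symm, ?_⟩
  intro b'' hb''
  have h2 : 0 < Nat.card {c : T.β // T.ev c = e' ∧ T.m c = T.m b''} :=
    Finite.card_pos_iff.2 ⟨⟨b'', hb'', rfl⟩⟩
  rw [← h] at h2
  obtain ⟨d, hd1, hd2⟩ := Finite.card_pos_iff.1 h2
  rw [hc2, ← hd2]
  exact hmax d hd1

end Pool.Agent.Helper783.JK
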