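import Pool.Agent.Helper783.JK.Defs
import Pool.Agent.Helper783.JK.P_jk_any_basis

open Module MvPolynomial Matrix

namespace Pool.Agent.Helper783.JK



/-- a nonzero polynomial does not vanish somewhere -/
theorem ce_exists_eval {σ : Type} [Finite σ] {F : MvPolynomial σ ℂ} (hF : F ≠ 0) :
    ∃ v : σ → ℂ, eval v F ≠ 0 := by
  by_contra h
  push Not at h
  exact hF (MvPolynomial.funext fun v => by rw [h v, map_zero])

theorem ce_sig {β : Type} {m : β → ℕ} (r c : Σ b, Fin (m b)) (h1 : r.1 = c.1)
    (h2 : (r.2 : ℕ) = (c.2 : ℕ)) : r = c := by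
  obtain ⟨b, i⟩ := r
  obtain ⟨b', i'⟩ := c
  simp only at h1 h2
  subst h1
  have : i = i' := Fin.ext h2
  rw [this]

/-- the Jordan part of the pencil -/
noncomputable def ceR (T : JKType) (t : T.E → Option ℂ) (lam : ℂ) :
    Matrix (Σ b, Fin (T.m b)) (Σ b, Fin (T.m b)) ℂ :=
  fun r c => RA T t (.inr r) (.inr c) + lam * RB T t (.inr r) (.inr c)

theorem ceR_diag (T : JKType) (t : T.E → Option ℂ) (lam : ℂ)
    (hl : ∀ e z, t e = some z → z + lam ≠ 0) (r : Σ b, Fin (T.m b)) : ceR T t lam r r ≠ 0 := by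
  unfold ceR RA RB
  simp only [if_true]
  rcases ht : t (T.ev r.1) with _ | z
  · simp
  · simpa using hl _ z ht

theorem ceR_low (T : JKType) (t : T.E → Option ℂ) (lam : ℂ) (r c : Σ b, Fin (T.m b))
    (hne : c ≠ r) (h : (r.2 : ℕ) ≤ (c.2 : ℕ)) : ceR T t lam r c = 0 := by
  unfold ceR RA RB
  simp only
  by_cases h1 : r.1 = c.1
  · have h2 : (r.2 : ℕ) ≠ (c.2 : ℕ) := fun h2 => hne (ce_sig r c h1 h2).symm
    have h3 : (r.2 : ℕ) ≠ (c.2 : ℕ) + 1 := by omega
    rw [if_pos h1, if_pos h1]
    rcases ht : t (T.ev r.1) with _ | z <;> simp [h2, h3]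
  · rw [if_neg h1, if_neg h1]; ring

theorem ceR_det (T : JKType) (t : T.E → Option ℂ) (lam : ℂ)
    (hl : ∀ e z, t e = some z → z + lam ≠ 0) [DecidableEq (Σ b, Fin (T.m b))] :
    (ceR T t lam).det ≠ 0 := by
  intro h
  obtain ⟨v, hv, hv0⟩ := Matrix.exists_mulVec_eq_zero_iff.2 h
  apply hv
  have key : ∀ i : ℕ, ∀ r : Σ b, Fin (T.m b), (r.2 : ℕ) = i → v r = 0 := by
    intro i
    induction i using Nat.strong_induction_on with
    | _ i ih =>
      intro r hr
      have h1 := congrFun hv0 r
      rw [Matrix.mulVec, dotProduct, Finset.sum_eq_single r] at h1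
      · exact (mul_eq_zero.1 h1).resolve_left (ceR_diag T t lam hl r)
      · intro c _ hc
        by_cases h2 : (c.2 : ℕ) < i
        · rw [ih _ h2 c rfl, mul_zero]
        · rw [ceR_low T t lam r c hc (by omega), zero_mul]
      · intro h2; exact absurd (Finset.mem_univ _) h2
  funext r
  exact key _ r rfl

/-- index equivalence -/
theorem ce_idx (T : JKType) (c0 : T.κ) (hκ : ∀ c, c = c0) (hk : T.k c0 = 0) :
    ∃ φ : Option ((Σ b, Fin (T.m b)) ⊕ (Σ b, Fin (T.m b))) ≃ Row T ⊕ Col T,
      φ none = .inr (.inl ⟨c0, 0⟩) ∧ (∀ s, φ (some (.inl s)) = .inl (.inr s)) ∧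
      ∀ s, φ (some (.inr s)) = .inr (.inr s) := by
  let f : Option ((Σ b, Fin (T.m b)) ⊕ (Σ b, Fin (T.m b))) → Row T ⊕ Col T := fun o =>
    match o with
    | none => .inr (.inl ⟨c0, 0⟩)
    | some (.inl s) => .inl (.inr s)
    | some (.inr s) => .inr (.inr s)
  have hf : Function.Bijective f := by
    constructor
    · intro o o' h
      rcases o with _ | (s | s) <;> rcases o' with _ | (s' | s') <;> simp_all [f]
    · rintro ((⟨c, r⟩ | s) | (⟨c, r⟩ | s))
      · exfalso
        have := hκ c
        subst this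
        have := r.2
        omega
      · exact ⟨some (.inl s), rfl⟩
      · refine ⟨none, ?_⟩
        have := hκ c
        subst this
        have h1 : r = 0 := by
          apply Fin.ext
          have := r.2
          simp only [Fin.val_zero]
          omega
        subst h1
        rfl
      · exact ⟨some (.inr s), rfl⟩
  exact ⟨Equiv.ofBijective f hf, rfl, fun s => rfl, fun s => rfl⟩

/-- evaluation of the determinant of brackets -/
theorem ce_eval {g : Type} [LieRing g] [LieAlgebra ℂ g] {ι : Type} [Fintype ι] [DecidableEq ι]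
    (e : Basis (Option ι) ℂ g) (a : Dual ℂ g) :
    eval (fun k => a (e k)) (strMat e).det
      = (Matrix.of fun i j => a ⁅e (some i), e (some j)⁆ : Matrix ι ι ℂ).det := by
  rw [RingHom.map_det]
  congr 1
  ext i j
  simp only [RingHom.mapMatrix_apply, Matrix.map_apply, strMat, map_sum, map_mul, eval_C, eval_X,
    Matrix.of_apply]
  conv_rhs => rw [← e.sum_repr ⁅e (some i), e (some j)⁆]
  rw [map_sum]
  refine Finset.sum_congr rfl fun k _ => ?_
  rw [map_smul, smul_eq_mul]

/-- the common radical vector of a pencil of the given type -/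
theorem ce_rad {g : Type} [LieRing g] [LieAlgebra ℂ g] (T : JKType) (c0 : T.κ)
    (hκ : ∀ c, c = c0) (hk : T.k c0 = 0) (x a : Dual ℂ g)
    (h : HasType (lieForm x) (lieForm a) T) :
    ∃ z : g, z ≠ 0 ∧ (∀ η : g, x ⁅z, η⁆ = 0) ∧ ∀ η : g, a ⁅z, η⁆ = 0 := by
  obtain ⟨t, -, b, hb⟩ := h
  refine ⟨b (.inr (.inl ⟨c0, 0⟩)), b.ne_zero _, ?_, ?_⟩
  · intro η
    have h1 : ∀ j, x ⁅b (.inr (.inl ⟨c0, 0⟩)), b j⁆ = 0 := by
      intro j
      have := (hb (.inr (.inl ⟨c0, 0⟩)) j).1
      unfold lieForm at this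
      rw [this]
      rcases j with (⟨c, r⟩ | s) | s
      · exfalso
        have := hκ c
        subst this
        have := r.2
        omega
      · simp [canForm, RA]
      · simp [canForm]
    rw [← b.sum_repr η]
    simp only [lie_sum, lie_smul, map_sum, map_smul, h1, smul_zero, Finset.sum_const_zero]
  · intro η
    have h1 : ∀ j, a ⁅b (.inr (.inl ⟨c0, 0⟩)), b j⁆ = 0 := by
      intro j
      have := (hb (.inr (.inl ⟨c0, 0⟩)) j).2
      unfold lieForm at this
      rw [this]
      rcases j with (⟨c, r⟩ | s) | s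
      · exfalso
        have := hκ c
        subst this
        have := r.2
        omega
      · simp [canForm, RB]
      · simp [canForm]
    rw [← b.sum_repr η]
    simp only [lie_sum, lie_smul, map_sum, map_smul, h1, smul_zero, Finset.sum_const_zero]

theorem central_exists {g : Type} [LieRing g] [LieAlgebra ℂ g] (T : JKType)
    (hT : IsJKInvariant g T) (c0 : T.κ) (hκ : ∀ c, c = c0) (hk : T.k c0 = 0) :
    ∃ (ι : Type) (_ : Fintype ι) (_ : DecidableEq ι) (e : Basis (Option ι) ℂ g),
      (∀ η : g, ⁅e none, η⁆ = 0) ∧ (strMat e).det ≠ 0 := by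
  classical
  -- one generic pair
  obtain ⟨n, b0, F, hF, hFT⟩ := id hT
  obtain ⟨v, hv⟩ := ce_exists_eval hF
  have hty : HasType (lieForm (b0.constr ℂ (fun i => v (.inl i)) : Dual ℂ g))
      (lieForm (b0.constr ℂ (fun i => v (.inr i)) : Dual ℂ g)) T := by
    apply hFT
    have h1 : (Sum.elim (fun i => (b0.constr ℂ (fun i => v (.inl i)) : Dual ℂ g) (b0 i))
        (fun i => (b0.constr ℂ (fun i => v (.inr i)) : Dual ℂ g) (b0 i))) = v := by
      funext s
      rcases s with s | s <;> simp
    rw [h1]; exact hv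
  set x0 : Dual ℂ g := b0.constr ℂ (fun i => v (.inl i)) with hx0
  set a0 : Dual ℂ g := b0.constr ℂ (fun i => v (.inr i)) with ha0
  obtain ⟨t, -, bb, hbb⟩ := hty
  obtain ⟨φ, hφ0, hφ1, hφ2⟩ := ce_idx T c0 hκ hk
  let e1 : Basis (Option ((Σ b, Fin (T.m b)) ⊕ (Σ b, Fin (T.m b)))) ℂ g := bb.reindex φ.symm
  have he1 : ∀ k, e1 k = bb (φ k) := fun k => by simp [e1]
  -- choose lam
  obtain ⟨lam, hlam⟩ := Infinite.exists_notMem_finset
    (Finset.univ.image fun e : T.E => -((t e).getD 0))
  have hl : ∀ e z, t e = some z → z + lam ≠ 0 := by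
    intro e z hz h
    apply hlam
    rw [Finset.mem_image]
    refine ⟨e, Finset.mem_univ _, ?_⟩
    rw [hz]
    simp only [Option.getD_some]
    linear_combination -h
  have hR := ceR_det T t lam hl
  have hD1 : (Matrix.of fun i j => (x0 + lam • a0) ⁅e1 (some i), e1 (some j)⁆ :
      Matrix ((Σ b, Fin (T.m b)) ⊕ (Σ b, Fin (T.m b))) _ ℂ).det ≠ 0 := by
    intro h
    obtain ⟨w, hw, hw0⟩ := Matrix.exists_mulVec_eq_zero_iff.2 h
    have hent : ∀ i j, (x0 + lam • a0) ⁅e1 (some i), e1 (some j)⁆
        = canForm (RA T t) (φ (some i)) (φ (some j))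
          + lam * canForm (RB T t) (φ (some i)) (φ (some j)) := by
      intro i j
      have h1 := hbb (φ (some i)) (φ (some j))
      unfold lieForm at h1
      rw [he1, he1, LinearMap.add_apply, LinearMap.smul_apply, h1.1, h1.2, smul_eq_mul]
    have h12 : ∀ r c, (x0 + lam • a0) ⁅e1 (some (.inl r)), e1 (some (.inr c))⁆ = ceR T t lam r c := by
      intro r c; rw [hent, hφ1, hφ2]; rfl
    have h11 : ∀ r c, (x0 + lam • a0) ⁅e1 (some (.inl r)), e1 (some (.inl c))⁆ = 0 := by
      intro r c; rw [hent, hφ1, hφ1]; simp [canForm]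
    have h22 : ∀ r c, (x0 + lam • a0) ⁅e1 (some (.inr r)), e1 (some (.inr c))⁆ = 0 := by
      intro r c; rw [hent, hφ2, hφ2]; simp [canForm]
    have h21 : ∀ r c, (x0 + lam • a0) ⁅e1 (some (.inr c)), e1 (some (.inl r))⁆ = - ceR T t lam r c := by
      intro r c; rw [hent, hφ1, hφ2]; simp only [canForm, ceR]; ring
    have hw2 : ∀ c, w (.inr c) = 0 := by
      have h1 : (ceR T t lam).mulVec (fun c => w (.inr c)) = 0 := by
        funext r
        have := congrFun hw0 (.inl r)
        simp only [Matrix.mulVec, dotProduct, Matrix.of_apply, Fintype.sum_sum_type, h11, h12,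
          zero_mul, Finset.sum_const_zero, zero_add, Pi.zero_apply] at this
        simpa [Matrix.mulVec, dotProduct] using this
      by_contra h2
      push Not at h2
      obtain ⟨c, hc⟩ := h2
      exact hR (Matrix.exists_mulVec_eq_zero_iff.1 ⟨_, fun h3 => hc (congrFun h3 c), h1⟩)
    have hw1 : ∀ r, w (.inl r) = 0 := by
      have h1 : (ceR T t lam).transpose.mulVec (fun r => w (.inl r)) = 0 := by
        funext c
        have := congrFun hw0 (.inr c)
        simp only [Matrix.mulVec, dotProduct, Matrix.of_apply, Fintype.sum_sum_type, h21, h22,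
          zero_mul, Finset.sum_const_zero, add_zero, Pi.zero_apply, neg_mul,
          Finset.sum_neg_distrib, neg_eq_zero] at this
        simpa [Matrix.mulVec, dotProduct] using this
      by_contra h2
      push Not at h2
      obtain ⟨c, hc⟩ := h2
      have h3 : (ceR T t lam).transpose.det = 0 :=
        Matrix.exists_mulVec_eq_zero_iff.1 ⟨_, fun h3 => hc (congrFun h3 c), h1⟩
      rw [Matrix.det_transpose] at h3
      exact hR h3
    apply hw
    funext s
    rcases s with s | s
    · exact hw1 s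
    · exact hw2 s
  have hDne : (strMat e1).det ≠ 0 := by
    intro h
    have h1 := ce_eval e1 (x0 + lam • a0)
    rw [h, map_zero] at h1
    exact hD1 h1.symm
  -- a generic pair with respect to the basis e1
  obtain ⟨G, hG, hGT⟩ := jk_any_basis T hT e1
  have hren : rename (Sum.inr : Option ((Σ b, Fin (T.m b)) ⊕ (Σ b, Fin (T.m b))) →
      Option ((Σ b, Fin (T.m b)) ⊕ (Σ b, Fin (T.m b))) ⊕
        Option ((Σ b, Fin (T.m b)) ⊕ (Σ b, Fin (T.m b)))) (strMat e1).det ≠ 0 := by
    intro h
    exact hDne (rename_injective _ Sum.inr_injective (by rw [h, map_zero]))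
  obtain ⟨u, hu⟩ := ce_exists_eval (mul_ne_zero hG hren)
  rw [map_mul, eval_rename] at hu
  set xc : Option ((Σ b, Fin (T.m b)) ⊕ (Σ b, Fin (T.m b))) → ℂ := fun i => u (.inl i) with hxc
  set ac : Option ((Σ b, Fin (T.m b)) ⊕ (Σ b, Fin (T.m b))) → ℂ := fun i => u (.inr i) with hac
  have hu1 : eval (Sum.elim xc ac) G ≠ 0 := by
    have : Sum.elim xc ac = u := by
      funext s; rcases s with s | s <;> rfl
    rw [this]; exact left_ne_zero_of_mul hu
  have hu2 : eval ac (strMat e1).det ≠ 0 := right_ne_zero_of_mul hu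
  set a : Dual ℂ g := e1.constr ℂ ac with ha
  have haD : (Matrix.of fun i j => a ⁅e1 (some i), e1 (some j)⁆ :
      Matrix ((Σ b, Fin (T.m b)) ⊕ (Σ b, Fin (T.m b))) _ ℂ).det ≠ 0 := by
    rw [← ce_eval]
    have : (fun k => a (e1 k)) = ac := by
      funext k; simp [ha]
    rw [this]; exact hu2
  obtain ⟨z, hz0, -, hza⟩ := ce_rad T c0 hκ hk _ _ (hGT xc ac hu1)
  -- a radical vector of `a` without `none` coordinate is zero
  have hrad : ∀ w : g, (∀ η, a ⁅w, η⁆ = 0) → e1.repr w none = 0 → w = 0 := by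
    intro w hw hw0
    by_contra hne
    have h1 : (Matrix.of fun i j => a ⁅e1 (some i), e1 (some j)⁆ :
      Matrix ((Σ b, Fin (T.m b)) ⊕ (Σ b, Fin (T.m b))) _ ℂ).transpose.mulVec
        (fun i => e1.repr w (some i)) = 0 := by
      funext j
      have h2 := hw (e1 (some j))
      have h3 : w = ∑ i, e1.repr w (some i) • e1 (some i) := by
        conv_lhs => rw [← e1.sum_repr w]
        rw [Fintype.sum_option, hw0, zero_smul, zero_add]
      rw [h3] at h2
      simp only [sum_lie, smul_lie, map_sum, map_smul, smul_eq_mul] at h2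
      simp only [Matrix.mulVec, dotProduct, Matrix.transpose_apply, Matrix.of_apply, Pi.zero_apply]
      rw [← h2]
      exact Finset.sum_congr rfl fun i _ => mul_comm _ _
    have h4 : ∃ i, e1.repr w (some i) ≠ 0 := by
      by_contra h5
      push Not at h5
      apply hne
      rw [← e1.sum_repr w, Fintype.sum_option, hw0, zero_smul, zero_add]
      exact Finset.sum_eq_zero fun i _ => by rw [h5 i, zero_smul]
    obtain ⟨i, hi⟩ := h4
    have h6 := Matrix.exists_mulVec_eq_zero_iff.1 ⟨_, fun h3 => hi (congrFun h3 i), h1⟩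
    rw [Matrix.det_transpose] at h6
    exact haD h6
  have hzn : e1.repr z none ≠ 0 := fun h => hz0 (hrad z hza h)
  -- z is central
  have hcen : ∀ η : g, ⁅z, η⁆ = 0 := by
    intro η
    by_contra hne
    set Ga : MvPolynomial (Option ((Σ b, Fin (T.m b)) ⊕ (Σ b, Fin (T.m b)))) ℂ :=
      aeval (Sum.elim X (fun i => C (ac i))) G with hGa
    have hGae : ∀ x, eval x Ga = eval (Sum.elim x ac) G := by
      intro x
      rw [hGa]
      have h1 : (eval x).comp (aeval (Sum.elim X (fun i => C (ac i))) :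
          MvPolynomial _ ℂ →ₐ[ℂ] MvPolynomial _ ℂ).toRingHom = eval (Sum.elim x ac) := by
        apply MvPolynomial.ringHom_ext
        · intro r; simp
        · intro s; rcases s with s | s <;> simp
      exact RingHom.congr_fun h1 G
    have hGa0 : Ga ≠ 0 := by
      intro h
      have := hGae xc
      rw [h, map_zero] at this
      exact hu1 this.symm
    set L : MvPolynomial (Option ((Σ b, Fin (T.m b)) ⊕ (Σ b, Fin (T.m b)))) ℂ :=
      ∑ k, C (e1.repr ⁅z, η⁆ k) * X k with hL
    have hLe : ∀ x, eval x L = (e1.constr ℂ x : Dual ℂ g) ⁅z, η⁆ := by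
      intro x
      rw [hL, map_sum, Basis.constr_apply_fintype]
      refine Finset.sum_congr rfl fun k _ => ?_
      rw [map_mul, eval_C, eval_X, smul_eq_mul]
      rfl
    have hL0 : L ≠ 0 := by
      intro h
      apply hne
      apply e1.repr.injective
      ext k
      have h1 := hLe (Pi.single k 1)
      rw [h, map_zero, Basis.constr_apply_fintype] at h1
      simp only [smul_eq_mul, Pi.single_apply, mul_ite, mul_one, mul_zero, Finset.sum_ite_eq',
        Finset.mem_univ, if_true] at h1
      rw [map_zero]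
      exact h1.symm
    obtain ⟨x, hx⟩ := ce_exists_eval (mul_ne_zero hGa0 hL0)
    rw [map_mul, hGae, hLe] at hx
    obtain ⟨z', hz'0, hz'x, hz'a⟩ := ce_rad T c0 hκ hk _ _ (hGT x ac (left_ne_zero_of_mul hx))
    -- z' is a multiple of z
    have h7 : z' - (e1.repr z' none / e1.repr z none) • z = 0 := by
      apply hrad
      · intro η'
        rw [sub_lie, smul_lie, map_sub, map_smul, hza, smul_zero, sub_zero]
        exact hz'a η'
      · rw [map_sub, map_smul, Finsupp.sub_apply, Finsupp.smul_apply, smul_eq_mul,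
          div_mul_cancel₀ _ hzn, sub_self]
    set κ0 := e1.repr z' none / e1.repr z none with hκ0
    have h8 : z' = κ0 • z := sub_eq_zero.1 h7
    have h9 : κ0 ≠ 0 := by
      intro h; rw [h, zero_smul] at h8; exact hz'0 h8
    have h10 := hz'x η
    rw [h8, smul_lie, map_smul, smul_eq_mul] at h10
    exact right_ne_zero_of_mul hx ((mul_eq_zero.1 h10).resolve_left h9)
  -- the new basis
  let f : g →ₗ[ℂ] g := e1.constr ℂ (fun o => match o with
    | none => z
    | some i => e1 (some i))
  have hf0 : f (e1 none) = z := by simp [f]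
  have hf1 : ∀ i, f (e1 (some i)) = e1 (some i) := fun i => by simp [f]
  have hfi : Function.Injective f := by
    rw [← LinearMap.ker_eq_bot, LinearMap.ker_eq_bot']
    intro w hw
    have h1 : f w = e1.repr w none • z + ∑ i, e1.repr w (some i) • e1 (some i) := by
      conv_lhs => rw [← e1.sum_repr w]
      rw [map_sum, Fintype.sum_option, map_smul, hf0]
      congr 1
      exact Finset.sum_congr rfl fun i _ => by rw [map_smul, hf1]
    rw [h1] at hw
    have h2 := congrArg (fun q => e1.repr q none) hw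
    simp only [map_add, map_smul, map_sum, Finsupp.add_apply, Finsupp.smul_apply, smul_eq_mul,
      Finsupp.finset_sum_apply, Basis.repr_self, map_zero, Finsupp.zero_apply] at h2
    have h3 : ∑ i, e1.repr w (some i) * (Finsupp.single (some i) (1:ℂ)) none = 0 :=
      Finset.sum_eq_zero fun i _ => by rw [Finsupp.single_eq_of_ne (by simp), mul_zero]
    rw [h3, add_zero] at h2
    have h4 : e1.repr w none = 0 := (mul_eq_zero.1 h2).resolve_right hzn
    rw [h4, zero_smul, zero_add] at hw
    rw [← e1.sum_repr w, Fintype.sum_option, h4, zero_smul, zero_add]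
    exact hw
  haveI : FiniteDimensional ℂ g := e1.finiteDimensional_of_finite
  let fe : g ≃ₗ[ℂ] g := LinearEquiv.ofInjectiveEndo f hfi
  let e : Basis (Option ((Σ b, Fin (T.m b)) ⊕ (Σ b, Fin (T.m b)))) ℂ g := e1.map fe
  have he0 : e none = z := by
    show fe (e1 none) = z
    exact hf0
  have hes : ∀ i, e (some i) = e1 (some i) := fun i => hf1 i
  refine ⟨(Σ b, Fin (T.m b)) ⊕ (Σ b, Fin (T.m b)), inferInstance, inferInstance, e, ?_, ?_⟩
  · intro η; rw [he0]; exact hcen η
  · intro h
    have h1 := ce_eval e a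
    rw [h, map_zero] at h1
    apply haD
    rw [h1]
    congr 1
    ext i j
    simp only [Matrix.of_apply, hes]

end Pool.Agent.Helper783.JK
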