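import Pool.Agent.Helper783.JK.Defs
import Pool.Agent.Helper783.JK.P_jacobi_contract

open Module MvPolynomial Matrix

namespace Pool.Agent.Helper783.JK



/-- the linear polynomial attached to a vector -/
noncomputable def dqPhi {g : Type} [LieRing g] [LieAlgebra ℂ g] {ι : Type} [Fintype ι]
    (e : Basis (Option ι) ℂ g) : g →ₗ[ℂ] MvPolynomial (Option ι) ℂ :=
  ∑ k, (LinearMap.toSpanSingleton ℂ (MvPolynomial (Option ι) ℂ) (MvPolynomial.X k)).comp (e.coord k)

theorem dqPhi_apply {g : Type} [LieRing g] [LieAlgebra ℂ g] {ι : Type} [Fintype ι]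
    (e : Basis (Option ι) ℂ g) (v : g) :
    dqPhi e v = ∑ k, MvPolynomial.C (e.repr v k) * MvPolynomial.X k := by
  unfold dqPhi
  rw [LinearMap.sum_apply]
  refine Finset.sum_congr rfl fun k _ => ?_
  rw [MvPolynomial.C_mul']
  rfl

theorem dq_strMat {g : Type} [LieRing g] [LieAlgebra ℂ g] {ι : Type} [Fintype ι]
    (e : Basis (Option ι) ℂ g) (i j : ι) :
    strMat e i j = dqPhi e ⁅e (some i), e (some j)⁆ := by
  rw [dqPhi_apply]
  rfl

theorem dq_pd {g : Type} [LieRing g] [LieAlgebra ℂ g] {ι : Type} [Fintype ι]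
    (e : Basis (Option ι) ℂ g) (i j l : ι) :
    pderiv (some l) (strMat e i j) = MvPolynomial.C (e.repr ⁅e (some i), e (some j)⁆ (some l)) := by
  classical
  unfold strMat
  rw [map_sum]
  rw [Finset.sum_eq_single (some l)]
  · rw [pderiv_C_mul, pderiv_X_self, mul_one]
  · intro b _ hb
    rw [pderiv_C_mul, pderiv_X_of_ne hb, mul_zero]
  · intro h
    exact absurd (Finset.mem_univ _) h

theorem dq_contr {g : Type} [LieRing g] [LieAlgebra ℂ g] {ι : Type} [Fintype ι]
    (e : Basis (Option ι) ℂ g) (hz : ∀ η : g, ⁅e none, η⁆ = 0) (i j k : ι) :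
    ∑ l, strMat e i l * pderiv (some l) (strMat e j k) =
      dqPhi e ⁅e (some i), ⁅e (some j), e (some k)⁆⁆ := by
  have h1 : ⁅e (some i), ⁅e (some j), e (some k)⁆⁆ =
      ∑ l : ι, (e.repr ⁅e (some j), e (some k)⁆ (some l)) • ⁅e (some i), e (some l)⁆ := by
    conv_lhs => rw [← e.sum_repr ⁅e (some j), e (some k)⁆]
    rw [lie_sum, Fintype.sum_option]
    have h0 : ⁅e (some i), e none⁆ = 0 := by
      rw [← lie_skew, hz, neg_zero]
    rw [lie_smul, h0, smul_zero, zero_add]
    exact Finset.sum_congr rfl fun l _ => by rw [lie_smul]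
  rw [h1, map_sum]
  refine Finset.sum_congr rfl fun l _ => ?_
  rw [map_smul, dq_pd, dq_strMat, mul_comm, MvPolynomial.C_mul']

theorem dq_wedge {g : Type} [LieRing g] [LieAlgebra ℂ g] {ι : Type} [Fintype ι] [DecidableEq ι]
    (e : Basis (Option ι) ℂ g) (hz : ∀ η : g, ⁅e none, η⁆ = 0)
    (E : Matrix ι ι (MvPolynomial (Option ι) ℂ)) (q h : MvPolynomial (Option ι) ℂ) (m : ℕ)
    (hm : 0 < m) (hq : Prime q) (hh : ¬ q ∣ h)
    (hME : strMat e * E = (q ^ m * h) • (1 : Matrix ι ι (MvPolynomial (Option ι) ℂ))) :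
    ∀ i j k, q ∣ pderiv (some i) q * E j k + pderiv (some j) q * E k i +
      pderiv (some k) q * E i j := by
  have hMt : (strMat e)ᵀ = -(strMat e) := by
    ext1 a b
    rw [Matrix.transpose_apply, Matrix.neg_apply, dq_strMat, dq_strMat, ← map_neg, lie_skew]
  have hh0 : h ≠ 0 := by
    rintro rfl
    exact hh (dvd_zero q)
  have hq0 : q ≠ 0 := hq.ne_zero
  have hf : q ^ m * h ≠ 0 := mul_ne_zero (pow_ne_zero _ hq0) hh0
  have hJ : ∀ i j k, ∑ l, (strMat e i l * (fun l => (strMat e).map (pderiv (some l))) l j k +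
      strMat e j l * (fun l => (strMat e).map (pderiv (some l))) l k i +
      strMat e k l * (fun l => (strMat e).map (pderiv (some l))) l i j) = 0 := by
    intro i j k
    rw [Finset.sum_add_distrib, Finset.sum_add_distrib]
    simp only [Matrix.map_apply]
    rw [dq_contr e hz, dq_contr e hz, dq_contr e hz, ← map_add, ← map_add, lie_jacobi, map_zero]
  obtain ⟨-, hEM, hcyc⟩ := jacobi_contract (strMat e) E (q ^ m * h) hf hMt hME
    (fun l => (strMat e).map (pderiv (some l))) hJ
  have hder : ∀ i : ι, (strMat e).map (pderiv (some i)) * E + strMat e * E.map (pderiv (some i)) =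
      (pderiv (some i) (q ^ m * h)) • (1 : Matrix ι ι (MvPolynomial (Option ι) ℂ)) := by
    intro i
    ext1 a b
    have h2 := congrArg (fun A : Matrix ι ι (MvPolynomial (Option ι) ℂ) => pderiv (some i) (A a b)) hME
    simp only [Matrix.mul_apply, map_sum, pderiv_mul] at h2
    rw [Matrix.add_apply, Matrix.mul_apply, Matrix.mul_apply, ← Finset.sum_add_distrib]
    simp only [Matrix.map_apply]
    rw [h2, Matrix.smul_apply, Matrix.smul_apply, smul_eq_mul, smul_eq_mul, pderiv_mul (f := q ^ m * h)]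
    rw [Matrix.one_apply]
    split_ifs
    · simp
    · simp
  have hent : ∀ i j k : ι, (E * (strMat e).map (pderiv (some i)) * E) j k =
      pderiv (some i) (q ^ m * h) * E j k - (q ^ m * h) * pderiv (some i) (E j k) := by
    intro i j k
    have h3 := congrArg (fun A => (E * A) j k) (hder i)
    simp only [Matrix.mul_add] at h3
    rw [← Matrix.mul_assoc, ← Matrix.mul_assoc, hEM, Matrix.add_apply, Matrix.smul_mul,
      Matrix.one_mul, Matrix.smul_apply, Matrix.mul_smul, Matrix.mul_one, Matrix.smul_apply,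
      Matrix.map_apply, smul_eq_mul, smul_eq_mul] at h3
    rw [← h3]
    ring
  intro i j k
  have h4 := hcyc i j k
  simp only [hent] at h4
  obtain ⟨m', rfl⟩ : ∃ m', m = m' + 1 := ⟨m - 1, by omega⟩
  have hpd : ∀ l : ι, pderiv (some l) (q ^ (m' + 1) * h) =
      q ^ m' * (((m' : MvPolynomial (Option ι) ℂ) + 1) * pderiv (some l) q * h + q * pderiv (some l) h) := by
    intro l
    rw [pderiv_mul, pderiv_pow]
    simp only [Nat.add_sub_cancel]
    push_cast
    ring
  rw [hpd, hpd, hpd] at h4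
  have h5 : q ^ m' * ((((m' : MvPolynomial (Option ι) ℂ) + 1) * h) *
      (pderiv (some i) q * E j k + pderiv (some j) q * E k i + pderiv (some k) q * E i j) -
      q * (h * (pderiv (some i) (E j k) + pderiv (some j) (E k i) + pderiv (some k) (E i j)) -
        (pderiv (some i) h * E j k + pderiv (some j) h * E k i + pderiv (some k) h * E i j))) = 0 := by
    rw [← h4]
    ring
  have h6 := (mul_eq_zero.mp h5).resolve_left (pow_ne_zero _ hq0)
  have h7 : q ∣ (((m' : MvPolynomial (Option ι) ℂ) + 1) * h) *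
      (pderiv (some i) q * E j k + pderiv (some j) q * E k i + pderiv (some k) q * E i j) :=
    ⟨_, sub_eq_zero.mp h6⟩
  rcases hq.dvd_or_dvd h7 with h8 | h8
  · exfalso
    rcases hq.dvd_or_dvd h8 with h9 | h9
    · apply hq.not_isUnit
      apply isUnit_of_dvd_unit h9
      have h10 : ((m' : MvPolynomial (Option ι) ℂ) + 1) = MvPolynomial.C ((m' : ℂ) + 1) := by
        rw [map_add, map_one, map_natCast]
      rw [h10]
      apply IsUnit.map
      rw [isUnit_iff_ne_zero]
      exact Nat.cast_add_one_ne_zero m'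
    · exact hh h9
  · exact h8

end Pool.Agent.Helper783.JK
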