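import Pool.Agent.Helper783.JK.Defs

open Module MvPolynomial Matrix

namespace Pool.Agent.Helper783.JK



theorem gen_block {β ζ : Type} [Fintype β] [Fintype ζ] (m : β → ℕ) (hm : ∀ b, 0 < m b)
    (w : β → ζ → ℂ) (hw : ∀ b, w b ≠ 0) :
    Gen ((Σ b, Fin (m b)) ⊕ ζ) (fun x a => ∀ b, hs m w a b (m b) ≠ 0 ∧
      hs m w x b (m b - 1) * hs m w a b (m b) - hs m w a b (m b - 1) * hs m w x b (m b) ≠ 0) := by
  classical
  refine Gen.all fun b => Gen.and ?_ ?_
  · obtain ⟨s0, hs0⟩ := Function.ne_iff.1 (hw b)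
    refine ⟨∑ s, C (w b s) * X (Sum.inr (Sum.inr s)), ?_, ?_⟩
    · intro h0
      have h1 := congrArg (eval (Sum.elim (fun _ => (0:ℂ))
        (Pi.single (Sum.inr s0 : (Σ b, Fin (m b)) ⊕ ζ) (1:ℂ)))) h0
      rw [map_sum, map_zero, Finset.sum_eq_single s0] at h1
      · simp at h1
        exact hs0 h1
      · intro s _ hs
        simp [Pi.single_apply, hs]
      · intro h; exact absurd (Finset.mem_univ s0) h
    · intro x a h
      have h1 : hs m w a b (m b) = ∑ s, a (Sum.inr s) * w b s := by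
        simp [hs]
      rw [h1]
      rw [map_sum] at h
      simpa [mul_comm] using h
  · obtain ⟨s0, hs0⟩ := Function.ne_iff.1 (hw b)
    have hlt : m b - 1 < m b := by have := hm b; omega
    let i0 : (Σ b, Fin (m b)) ⊕ ζ := Sum.inl ⟨b, ⟨m b - 1, hlt⟩⟩
    refine ⟨X (Sum.inl i0) * (∑ s, C (w b s) * X (Sum.inr (Sum.inr s))) -
      X (Sum.inr i0) * (∑ s, C (w b s) * X (Sum.inl (Sum.inr s))), ?_, ?_⟩
    · intro h0
      have h1 := congrArg (eval (Sum.elim (Pi.single i0 (1:ℂ))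
        (Pi.single (Sum.inr s0 : (Σ b, Fin (m b)) ⊕ ζ) (1:ℂ)))) h0
      have h2 : (∑ x : ζ, w b x * (Pi.single (Sum.inr s0 : (Σ b, Fin (m b)) ⊕ ζ) (1:ℂ) :
          (Σ b, Fin (m b)) ⊕ ζ → ℂ) (Sum.inr x)) = w b s0 := by
        rw [Finset.sum_eq_single s0]
        · simp
        · intro s _ hs
          simp [Pi.single_apply, hs]
        · intro h; exact absurd (Finset.mem_univ s0) h
      have h3 : (Pi.single (Sum.inr s0 : (Σ b, Fin (m b)) ⊕ ζ) (1:ℂ) :
          (Σ b, Fin (m b)) ⊕ ζ → ℂ) i0 = 0 := by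
        simp [i0]
      rw [map_sub, map_mul, map_mul, map_sum, map_sum, map_zero] at h1
      simp only [map_mul, eval_C, eval_X, Sum.elim_inl, Sum.elim_inr] at h1
      rw [h2, h3] at h1
      simp at h1
      exact hs0 h1
    · intro x a h
      have h1 : ∀ z, hs m w z b (m b) = ∑ s, z (Sum.inr s) * w b s := by
        intro z; simp [hs]
      have h2 : ∀ z, hs m w z b (m b - 1) = z i0 := by
        intro z; simp [hs, hlt, i0]
      rw [h1, h1, h2, h2]
      rw [map_sub, map_mul, map_mul, map_sum, map_sum] at h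
      simpa [mul_comm] using h

end Pool.Agent.Helper783.JK
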