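import Pool.Agent.Helper783.JK.Defs

open Module MvPolynomial Matrix

namespace Pool.Agent.Helper783.JK



lemma hk_coeff (m : ℕ) (h : ℕ → ℂ) (hh : ∀ n, m < n → h n = 0) (f : PowerSeries ℂ) (k : Fin m) :
    ∑ l : Fin m, h (k + l + 1) * PowerSeries.coeff (l : ℕ) f
      = PowerSeries.coeff (m - 1 - k) (PowerSeries.mk (fun n => h (m - n)) * f) := by
  have hk := k.2
  rw [mul_comm (PowerSeries.mk _) f, PowerSeries.coeff_mul,
    Finset.Nat.sum_antidiagonal_eq_sum_range_succ
      (fun a b => PowerSeries.coeff a f * PowerSeries.coeff b (PowerSeries.mk (fun n => h (m - n))))]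
  rw [Fin.sum_univ_eq_sum_range (fun l => h (k + l + 1) * PowerSeries.coeff l f) m]
  rw [← Finset.sum_subset (s₁ := Finset.range (m - 1 - k).succ) (s₂ := Finset.range m)]
  · apply Finset.sum_congr rfl
    intro l hl
    rw [Finset.mem_range] at hl
    rw [PowerSeries.coeff_mk, mul_comm (PowerSeries.coeff l f)]
    congr 2
    omega
  · intro x hx
    rw [Finset.mem_range] at hx ⊢
    omega
  · intro x hx hx2
    rw [Finset.mem_range] at hx hx2
    rw [hh _ (by omega), zero_mul]

lemma HF_eq (m : ℕ) (h : ℕ → ℂ) (u v : Fin m → ℂ) :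
    HF m h u v = ∑ i : Fin m, u i * ∑ j : Fin m, h (i + j + 1) * v j := by
  unfold HF
  apply Finset.sum_congr rfl
  intro i _
  rw [Finset.mul_sum]
  apply Finset.sum_congr rfl
  intro j _
  ring

theorem hankel_pair (m : ℕ) (hm : 0 < m) (h g : ℕ → ℂ) (hh : ∀ n, m < n → h n = 0)
    (hg : ∀ n, m < n → g n = 0) (hgm : g m ≠ 0)
    (hhg : h (m - 1) * g m - g (m - 1) * h m ≠ 0) :
    ∃ (p q : Fin m → Fin m → ℂ) (γ : ℂ), γ ≠ 0 ∧ LinearIndependent ℂ p ∧
      LinearIndependent ℂ q ∧
      (∀ i j, HF m h (p i) (q j) =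
        if (i : ℕ) = (j : ℕ) then h m / g m else if (i : ℕ) = (j : ℕ) + 1 then 1 else 0) ∧
      (∀ i j, HF m g (p i) (q j) = if (i : ℕ) = (j : ℕ) then 1 else 0) ∧
      q ⟨m - 1, by omega⟩ = γ • (Pi.single ⟨m - 1, by omega⟩ 1 : Fin m → ℂ) := by
  have hm' := hgm
  obtain ⟨c, hc⟩ : ∃ c : PowerSeries ℂ, PowerSeries.mk (fun n => h (m - n))
      = PowerSeries.mk (fun n => g (m - n)) * c := by
    refine ⟨(PowerSeries.mk (fun n => g (m - n)))⁻¹ * PowerSeries.mk (fun n => h (m - n)), ?_⟩
    rw [← mul_assoc, PowerSeries.mul_inv_cancel, one_mul]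
    simpa [← PowerSeries.coeff_zero_eq_constantCoeff_apply] using hgm
  set t := h m / g m with ht
  have hc0 : PowerSeries.constantCoeff c = t := by
    have h0 := congrArg (PowerSeries.coeff 0) hc
    rw [PowerSeries.coeff_mul] at h0
    simp at h0
    rw [ht, h0]
    field_simp
  obtain ⟨s, hs⟩ : (PowerSeries.X : PowerSeries ℂ) ∣ c - PowerSeries.C t := by
    rw [PowerSeries.X_dvd_iff]
    simp [hc0]
  have hc' : c = PowerSeries.C t + PowerSeries.X * s := by rw [← hs]; ring
  set ν := PowerSeries.constantCoeff s with hν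
  have hν0 : ν ≠ 0 := by
    intro h0
    apply hhg
    have h1 := congrArg (PowerSeries.coeff 1) hc
    rw [hc', mul_add, map_add, mul_comm _ (PowerSeries.C t), PowerSeries.coeff_C_mul,
      mul_left_comm, PowerSeries.coeff_succ_X_mul, PowerSeries.coeff_zero_eq_constantCoeff_apply, map_mul, ← hν, h0, mul_zero, add_zero,
      PowerSeries.coeff_mk, PowerSeries.coeff_mk] at h1
    rw [h1, ht]
    field_simp
    ring
  have hpow : ∀ i j : ℕ, PowerSeries.coeff i ((PowerSeries.X * s) ^ j)
      = if j ≤ i then PowerSeries.coeff (i - j) (s ^ j) else 0 := by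
    intro i j
    rw [mul_pow, PowerSeries.coeff_X_pow_mul']
  have hpowd : ∀ j : ℕ, PowerSeries.coeff j ((PowerSeries.X * s) ^ j) = ν ^ j := by
    intro j
    rw [hpow, if_pos le_rfl, Nat.sub_self, PowerSeries.coeff_zero_eq_constantCoeff_apply, map_pow]
  set Q : Matrix (Fin m) (Fin m) ℂ := Matrix.of (fun i j : Fin m =>
    PowerSeries.coeff (i : ℕ) ((PowerSeries.X * s) ^ (j : ℕ))) with hQ
  set G : Matrix (Fin m) (Fin m) ℂ := Matrix.of (fun i j : Fin m => g (i + j + 1)) with hG
  have hQdet : Q.det ≠ 0 := by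
    rw [Matrix.det_of_lowerTriangular]
    · apply Finset.prod_ne_zero_iff.mpr
      intro i _
      simp only [hQ, Matrix.of_apply, hpowd]
      exact pow_ne_zero _ hν0
    · intro i j hij
      simp only [hQ, Matrix.of_apply]
      rw [hpow, if_neg]
      have : i < j := hij
      rw [not_le]
      exact this
  have hGdet : G.det ≠ 0 := by
    have h1 : (G.submatrix Fin.revPerm id).det ≠ 0 := by
      rw [Matrix.det_of_lowerTriangular]
      · apply Finset.prod_ne_zero_iff.mpr
        intro i _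
        simp only [hG, Matrix.submatrix_apply, Matrix.of_apply, Fin.revPerm_apply, Fin.val_rev, id]
        have hi := i.2
        rw [show m - (↑i + 1) + ↑i + 1 = m by omega]
        exact hgm
      · intro i j hij
        have hij' : i < j := hij
        have hij'' : (i : ℕ) < (j : ℕ) := hij'
        simp only [hG, Matrix.submatrix_apply, Matrix.of_apply, Fin.revPerm_apply, Fin.val_rev, id]
        apply hg
        omega
    rw [Matrix.det_permute] at h1
    exact right_ne_zero_of_mul h1
  have hGQ : IsUnit (G * Q).det := by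
    rw [Matrix.det_mul]
    exact isUnit_iff_ne_zero.mpr (mul_ne_zero hGdet hQdet)
  have hPinv : (G * Q)⁻¹ * (G * Q) = 1 := Matrix.nonsing_inv_mul _ hGQ
  set P := (G * Q)⁻¹ with hP
  have hPG : ∀ (i j : Fin m), ∑ k : Fin m, P i k * ∑ l : Fin m, g (k + l + 1) *
      PowerSeries.coeff (l : ℕ) ((PowerSeries.X * s) ^ (j : ℕ)) = if (i : ℕ) = (j : ℕ) then 1 else 0 := by
    intro i j
    have h1 := congrFun (congrFun hPinv i) j
    rw [Matrix.mul_apply] at h1
    simp only [Matrix.mul_apply, hG, hQ, Matrix.of_apply, Matrix.one_apply, Fin.ext_iff] at h1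
    exact h1
  refine ⟨fun i => P i, fun j i => Q i j, ν ^ (m - 1), pow_ne_zero _ hν0, ?_, ?_, ?_, ?_, ?_⟩
  · have : IsUnit P := by
      rw [Matrix.isUnit_iff_isUnit_det]
      rw [hP]
      exact Matrix.isUnit_nonsing_inv_det _ hGQ
    exact Matrix.linearIndependent_rows_iff_isUnit.mpr this
  · have : IsUnit Q := by
      rw [Matrix.isUnit_iff_isUnit_det]
      exact isUnit_iff_ne_zero.mpr hQdet
    exact Matrix.linearIndependent_cols_iff_isUnit.mpr this
  · intro i j
    rw [HF_eq]
    simp only [hQ, Matrix.of_apply]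
    have e1 : ∀ k : Fin m, ∑ l : Fin m, h (k + l + 1) *
        PowerSeries.coeff (l : ℕ) ((PowerSeries.X * s) ^ (j : ℕ))
        = t * ∑ l : Fin m, g (k + l + 1) * PowerSeries.coeff (l : ℕ) ((PowerSeries.X * s) ^ (j : ℕ))
          + ∑ l : Fin m, g (k + l + 1) * PowerSeries.coeff (l : ℕ) ((PowerSeries.X * s) ^ ((j : ℕ) + 1)) := by
      intro k
      rw [hk_coeff m h hh, hk_coeff m g hg, hk_coeff m g hg, hc, hc', ← PowerSeries.coeff_C_mul,
        ← map_add]
      congr 1
      ring
    simp only [e1, mul_add, Finset.sum_add_distrib]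
    have e2 : ∑ k : Fin m, P i k * (t * ∑ l : Fin m, g (k + l + 1) *
      PowerSeries.coeff (l : ℕ) ((PowerSeries.X * s) ^ (j : ℕ))) = t * if (i : ℕ) = (j : ℕ) then 1 else 0 := by
      rw [← hPG i j, Finset.mul_sum]
      apply Finset.sum_congr rfl
      intro k _
      ring
    rw [e2]
    have e3 : ∑ k : Fin m, P i k * ∑ l : Fin m, g (k + l + 1) *
      PowerSeries.coeff (l : ℕ) ((PowerSeries.X * s) ^ ((j : ℕ) + 1))
        = if (i : ℕ) = (j : ℕ) + 1 then 1 else 0 := by
      by_cases hj : (j : ℕ) + 1 < m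
      · exact hPG i ⟨(j : ℕ) + 1, hj⟩
      · have hi := i.2
        rw [if_neg (by omega)]
        apply Finset.sum_eq_zero
        intro k _
        rw [Finset.sum_eq_zero, mul_zero]
        intro l _
        have hl := l.2
        rw [hpow, if_neg (by omega), mul_zero]
    rw [e3]
    by_cases hij : (i : ℕ) = (j : ℕ)
    · rw [if_pos hij, if_pos hij, if_neg (by omega)]; ring
    · rw [if_neg hij, if_neg hij]; ring
  · intro i j
    rw [HF_eq]
    simp only [hQ, Matrix.of_apply]
    exact hPG i j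
  · funext i
    simp only [hQ, Matrix.of_apply, Pi.smul_apply, smul_eq_mul, Pi.single_apply]
    have hi := i.2
    by_cases hi2 : i = ⟨m - 1, by omega⟩
    · rw [if_pos hi2, hi2, mul_one]
      exact hpowd (m - 1)
    · rw [if_neg hi2, mul_zero, hpow, if_neg]
      intro h3
      apply hi2
      apply Fin.ext
      simp only
      omega

end Pool.Agent.Helper783.JK
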