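import Pool.Agent.Helper783.JK.Defs

open Module MvPolynomial Matrix

namespace Pool.Agent.Helper783.JK



/-- convolution coefficient -/
def CF (M n : ℕ) (u v : Fin M → ℂ) : ℂ :=
  ∑ i : Fin M, ∑ j : Fin M, if (i : ℕ) + j + 1 = n then u i * v j else 0

lemma CF_add_left (M n : ℕ) (u u' v : Fin M → ℂ) : CF M n (u + u') v = CF M n u v + CF M n u' v := by
  simp only [CF, ← Finset.sum_add_distrib]
  refine Finset.sum_congr rfl fun i _ => Finset.sum_congr rfl fun j _ => ?_
  split_ifs <;> simp [add_mul]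

lemma CF_add_right (M n : ℕ) (u v v' : Fin M → ℂ) : CF M n u (v + v') = CF M n u v + CF M n u v' := by
  simp only [CF, ← Finset.sum_add_distrib]
  refine Finset.sum_congr rfl fun i _ => Finset.sum_congr rfl fun j _ => ?_
  split_ifs <;> simp [mul_add]

lemma CF_smul_left (M n : ℕ) (c : ℂ) (u v : Fin M → ℂ) : CF M n (c • u) v = c * CF M n u v := by
  simp only [CF, Finset.mul_sum]
  refine Finset.sum_congr rfl fun i _ => Finset.sum_congr rfl fun j _ => ?_
  split_ifs
  · simp; ring
  · simp

lemma CF_smul_right (M n : ℕ) (c : ℂ) (u v : Fin M → ℂ) : CF M n u (c • v) = c * CF M n u v := by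
  simp only [CF, Finset.mul_sum]
  refine Finset.sum_congr rfl fun i _ => Finset.sum_congr rfl fun j _ => ?_
  split_ifs
  · simp; ring
  · simp

lemma CF_CF (M n : ℕ) (hn : n ≤ M) (u u' v : Fin M → ℂ) :
    CF M n u (fun j => CF M j u' v) =
      ∑ i : Fin M, ∑ i' : Fin M, ∑ j' : Fin M,
        if (i : ℕ) + i' + j' + 2 = n then u i * u' i' * v j' else 0 := by
  unfold CF
  refine Finset.sum_congr rfl fun i _ => ?_
  have h1 : ∀ j : Fin M, (if (i : ℕ) + j + 1 = n then
      u i * ∑ i' : Fin M, ∑ j' : Fin M, (if (i' : ℕ) + j' + 1 = j then u' i' * v j' else 0) else 0) =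
      ∑ i' : Fin M, ∑ j' : Fin M,
        if (i : ℕ) + j + 1 = n ∧ (i' : ℕ) + j' + 1 = j then u i * u' i' * v j' else 0 := by
    intro j
    split_ifs with h
    · rw [Finset.mul_sum]
      refine Finset.sum_congr rfl fun i' _ => ?_
      rw [Finset.mul_sum]
      refine Finset.sum_congr rfl fun j' _ => ?_
      simp only [h, true_and]
      split_ifs
      · ring
      · simp
    · simp [h]
  rw [Finset.sum_congr rfl fun j _ => h1 j, Finset.sum_comm]
  refine Finset.sum_congr rfl fun i' _ => ?_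
  rw [Finset.sum_comm]
  refine Finset.sum_congr rfl fun j' _ => ?_
  split_ifs with h
  · have hlt : (i' : ℕ) + j' + 1 < M := by omega
    rw [Finset.sum_eq_single (⟨(i' : ℕ) + j' + 1, hlt⟩ : Fin M)]
    · rw [if_pos]
      exact ⟨by simp only; omega, rfl⟩
    · intro j _ hj
      rw [if_neg]
      rintro ⟨_, h2⟩
      exact hj (Fin.ext h2.symm)
    · intro h3; exact absurd (Finset.mem_univ _) h3
  · refine Finset.sum_eq_zero fun j _ => ?_
    rw [if_neg]
    rintro ⟨h1, h2⟩
    omega

lemma CF_comm (M n : ℕ) (hn : n ≤ M) (u u' v : Fin M → ℂ) :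
    CF M n u (fun j => CF M j u' v) = CF M n u' (fun j => CF M j u v) := by
  rw [CF_CF M n hn, CF_CF M n hn, Finset.sum_comm]
  refine Finset.sum_congr rfl fun i _ => Finset.sum_congr rfl fun i' _ =>
    Finset.sum_congr rfl fun j _ => ?_
  have : ((i' : ℕ) + i + j + 2 = n) ↔ ((i : ℕ) + i' + j + 2 = n) := by omega
  simp only [this]
  split_ifs
  · ring
  · rfl

theorem hfam {β ζ : Type} [Fintype β] [Fintype ζ] (m : β → ℕ) (w : β → ζ → ℂ) :
    ∃ φ : ((Σ b, Fin (m b)) → ℂ) →ₗ[ℂ] Module.End ℂ (((Σ b, Fin (m b)) ⊕ ζ) → ℂ),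
      (∀ u u', φ u * φ u' = φ u' * φ u) ∧
      ∀ (x : (Σ b, Fin (m b)) ⊕ ζ → ℂ) u v,
        x ⬝ᵥ (φ u v) =
          ∑ b, HF (m b) (hs m w x b) (fun i => u ⟨b, i⟩) (fun j => v (.inl ⟨b, j⟩)) := by
  classical
  let f : ((Σ b, Fin (m b)) → ℂ) → (((Σ b, Fin (m b)) ⊕ ζ) → ℂ) → (((Σ b, Fin (m b)) ⊕ ζ) → ℂ) :=
    fun u v => Sum.elim
      (fun r => CF (m r.1) r.2 (fun i => u ⟨r.1, i⟩) (fun j => v (.inl ⟨r.1, j⟩)))
      (fun s => ∑ b, w b s * CF (m b) (m b) (fun i => u ⟨b, i⟩) (fun j => v (.inl ⟨b, j⟩)))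
  have hfl : ∀ u v r, f u v (.inl r) =
    CF (m r.1) r.2 (fun i => u ⟨r.1, i⟩) (fun j => v (.inl ⟨r.1, j⟩)) := fun _ _ _ => rfl
  have hfr : ∀ u v s, f u v (.inr s) =
    ∑ b, w b s * CF (m b) (m b) (fun i => u ⟨b, i⟩) (fun j => v (.inl ⟨b, j⟩)) := fun _ _ _ => rfl
  let φ : ((Σ b, Fin (m b)) → ℂ) →ₗ[ℂ] Module.End ℂ (((Σ b, Fin (m b)) ⊕ ζ) → ℂ) :=
    LinearMap.mk₂ ℂ f
      (by
        intro u u' v
        funext r
        rcases r with r | s
        · exact CF_add_left _ _ _ _ _
        · show f (u + u') v (.inr s) = f u v (.inr s) + f u' v (.inr s)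
          rw [hfr, hfr, hfr, ← Finset.sum_add_distrib]
          refine Finset.sum_congr rfl fun b _ => ?_
          rw [← mul_add]
          congr 1
          exact CF_add_left _ _ _ _ _)
      (by
        intro c u v
        funext r
        rcases r with r | s
        · exact CF_smul_left _ _ _ _ _
        · show f (c • u) v (.inr s) = c * f u v (.inr s)
          rw [hfr, hfr, Finset.mul_sum]
          refine Finset.sum_congr rfl fun b _ => ?_
          rw [mul_left_comm]
          congr 1
          exact CF_smul_left _ _ _ _ _)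
      (by
        intro u v v'
        funext r
        rcases r with r | s
        · exact CF_add_right _ _ _ _ _
        · show f u (v + v') (.inr s) = f u v (.inr s) + f u v' (.inr s)
          rw [hfr, hfr, hfr, ← Finset.sum_add_distrib]
          refine Finset.sum_congr rfl fun b _ => ?_
          rw [← mul_add]
          congr 1
          exact CF_add_right _ _ _ _ _)
      (by
        intro c u v
        funext r
        rcases r with r | s
        · exact CF_smul_right _ _ _ _ _
        · show f u (c • v) (.inr s) = c * f u v (.inr s)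
          rw [hfr, hfr, Finset.mul_sum]
          refine Finset.sum_congr rfl fun b _ => ?_
          rw [mul_left_comm]
          congr 1
          exact CF_smul_right _ _ _ _ _)
  have hφ : ∀ u v, φ u v = f u v := fun _ _ => rfl
  refine ⟨φ, ?_, ?_⟩
  · intro u u'
    refine LinearMap.ext fun v => ?_
    show f u (f u' v) = f u' (f u v)
    funext r
    rcases r with r | s
    · obtain ⟨b, n⟩ := r
      simp only [hfl]
      exact CF_comm (m b) n n.2.le (fun i => u ⟨b, i⟩) (fun i => u' ⟨b, i⟩) (fun j => v (.inl ⟨b, j⟩))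
    · simp only [hfr, hfl]
      refine Finset.sum_congr rfl fun b _ => ?_
      rw [CF_comm (m b) (m b) le_rfl (fun i => u ⟨b, i⟩) (fun i => u' ⟨b, i⟩)
        (fun j => v (.inl ⟨b, j⟩))]
  · intro x u v
    rw [hφ]
    show ∑ r, x r * f u v r = _
    rw [Fintype.sum_sum_type, Fintype.sum_sigma]
    simp only [hfl, hfr]
    have h2 : ∑ s, x (.inr s) * ∑ b, w b s *
        CF (m b) (m b) (fun i => u ⟨b, i⟩) (fun j => v (.inl ⟨b, j⟩)) =
        ∑ b, (∑ s, x (.inr s) * w b s) *
          CF (m b) (m b) (fun i => u ⟨b, i⟩) (fun j => v (.inl ⟨b, j⟩)) := by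
      simp only [Finset.mul_sum, Finset.sum_mul]
      rw [Finset.sum_comm]
      refine Finset.sum_congr rfl fun b _ => Finset.sum_congr rfl fun s _ => by ring
    rw [h2, ← Finset.sum_add_distrib]
    refine Finset.sum_congr rfl fun b _ => ?_
    unfold HF CF
    have h3 : ∀ n : Fin (m b), x (.inl ⟨b, n⟩) * ∑ i : Fin (m b), ∑ j : Fin (m b),
        (if (i : ℕ) + j + 1 = n then u ⟨b, i⟩ * v (.inl ⟨b, j⟩) else 0) =
        ∑ i : Fin (m b), ∑ j : Fin (m b),
        (if (i : ℕ) + j + 1 = n then x (.inl ⟨b, n⟩) * (u ⟨b, i⟩ * v (.inl ⟨b, j⟩)) else 0) := by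
      intro n
      simp only [Finset.mul_sum, mul_ite, mul_zero]
    rw [Finset.sum_congr rfl fun n _ => h3 n, Finset.sum_comm]
    simp only [Finset.mul_sum]
    rw [← Finset.sum_add_distrib]
    refine Finset.sum_congr rfl fun i _ => ?_
    rw [Finset.sum_comm, ← Finset.sum_add_distrib]
    refine Finset.sum_congr rfl fun j _ => ?_
    unfold hs
    rcases lt_trichotomy ((i : ℕ) + j + 1) (m b) with h5 | h5 | h5
    · rw [dif_pos h5, if_neg h5.ne, mul_zero, add_zero,
        Finset.sum_eq_single (⟨(i : ℕ) + j + 1, h5⟩ : Fin (m b))]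
      · rw [if_pos rfl]
        ring
      · intro n _ hn
        rw [if_neg]
        intro h
        exact hn (Fin.ext h.symm)
      · intro h; exact absurd (Finset.mem_univ _) h
    · rw [dif_neg (by omega), if_pos h5, if_pos h5, Finset.sum_eq_zero, zero_add]
      · ring
      · intro n _
        rw [if_neg]
        have := n.2
        omega
    · rw [dif_neg (by omega), if_neg (by omega), if_neg (by omega), Finset.sum_eq_zero]
      · ring
      · intro n _
        rw [if_neg]
        have := n.2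
        omega

end Pool.Agent.Helper783.JK
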