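import Pool.Agent.Helper783.JK.Defs

open Module MvPolynomial Matrix

namespace Pool.Agent.Helper783.JK



/-- the product without the factor `j` -/
noncomputable def kvV {k : ℕ} (x a : Fin (k + 1) → ℂ) (j : Fin (k + 1)) : Polynomial ℂ :=
  ∏ l ∈ Finset.univ.erase j, (Polynomial.C (x l) + Polynomial.C (a l) * Polynomial.X)

/-- the full product -/
noncomputable def kvW {k : ℕ} (x a : Fin (k + 1) → ℂ) : Polynomial ℂ :=
  ∏ l, (Polynomial.C (x l) + Polynomial.C (a l) * Polynomial.X)

theorem kv_mul {k : ℕ} (x a : Fin (k + 1) → ℂ) (j : Fin (k + 1)) :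
    (Polynomial.C (x j) + Polynomial.C (a j) * Polynomial.X) * kvV x a j = kvW x a :=
  Finset.mul_prod_erase Finset.univ
    (fun l => Polynomial.C (x l) + Polynomial.C (a l) * Polynomial.X) (Finset.mem_univ j)

theorem kv_deg {k : ℕ} (x a : Fin (k + 1) → ℂ) (j : Fin (k + 1)) : (kvV x a j).natDegree ≤ k := by
  unfold kvV
  refine (Polynomial.natDegree_prod_le _ _).trans ?_
  have h : ∀ l ∈ Finset.univ.erase j,
      (Polynomial.C (x l) + Polynomial.C (a l) * Polynomial.X).natDegree ≤ 1 := by
    intro l _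
    compute_degree
  refine (Finset.sum_le_sum h).trans ?_
  rw [Finset.sum_const, Finset.card_erase_of_mem (Finset.mem_univ j), Finset.card_univ,
    Fintype.card_fin]
  simp

theorem kv_coeff_zero {k : ℕ} (x a : Fin (k + 1) → ℂ) (j : Fin (k + 1)) :
    x j * (kvV x a j).coeff 0 = (kvW x a).coeff 0 := by
  rw [← kv_mul x a j, add_mul, Polynomial.coeff_add, Polynomial.coeff_C_mul, mul_assoc,
    Polynomial.coeff_C_mul, Polynomial.coeff_X_mul_zero, mul_zero, add_zero]

theorem kv_coeff_succ {k : ℕ} (x a : Fin (k + 1) → ℂ) (j : Fin (k + 1)) (s : ℕ) :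
    x j * (kvV x a j).coeff (s + 1) + a j * (kvV x a j).coeff s = (kvW x a).coeff (s + 1) := by
  rw [← kv_mul x a j, add_mul, Polynomial.coeff_add, Polynomial.coeff_C_mul, mul_assoc,
    Polynomial.coeff_C_mul, Polynomial.coeff_X_mul]

theorem kv_eval_ne {k : ℕ} (x a : Fin (k + 1) → ℂ) (ha : ∀ i, a i ≠ 0) {i j : Fin (k + 1)}
    (hij : j ≠ i) : (kvV x a j).eval (-x i / a i) = 0 := by
  unfold kvV
  rw [Polynomial.eval_prod]
  apply Finset.prod_eq_zero (Finset.mem_erase.2 ⟨hij.symm, Finset.mem_univ i⟩)
  simp only [Polynomial.eval_add, Polynomial.eval_mul, Polynomial.eval_C, Polynomial.eval_X]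
  have := ha i
  field_simp
  ring

theorem kv_eval_self {k : ℕ} (x a : Fin (k + 1) → ℂ) (ha : ∀ i, a i ≠ 0)
    (hxa : ∀ i j, i ≠ j → x i * a j ≠ x j * a i) (i : Fin (k + 1)) :
    (kvV x a i).eval (-x i / a i) ≠ 0 := by
  unfold kvV
  rw [Polynomial.eval_prod]
  apply Finset.prod_ne_zero_iff.2
  intro l hl
  have hli : l ≠ i := (Finset.mem_erase.1 hl).1
  simp only [Polynomial.eval_add, Polynomial.eval_mul, Polynomial.eval_C, Polynomial.eval_X]
  intro h
  apply hxa l i hli
  have h1 := ha i
  have h2 : (x l + a l * (-x i / a i)) * a i = 0 := by rw [h, zero_mul]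
  have h3 : (x l + a l * (-x i / a i)) * a i = x l * a i - x i * a l := by
    field_simp
    ring
  rw [h3] at h2
  exact sub_eq_zero.1 h2

theorem kron_vec (k : ℕ) (x a : Fin (k + 1) → ℂ) (ha : ∀ i, a i ≠ 0)
    (hxa : ∀ i j, i ≠ j → x i * a j ≠ x j * a i) :
    ∃ v : ℕ → Fin (k + 1) → ℂ, LinearIndependent ℂ (fun s : Fin (k + 1) => v s) ∧
      (∀ i j, x i * v 0 i = x j * v 0 j) ∧ (∀ i j, a i * v k i = a j * v k j) ∧
      ∀ s, s < k → ∀ i j, x i * v (s + 1) i - a i * v s i = x j * v (s + 1) j - a j * v s j := by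
  refine ⟨fun s j => (-1) ^ s * (kvV x a j).coeff s, ?_, ?_, ?_, ?_⟩
  · let M : Matrix (Fin (k + 1)) (Fin (k + 1)) ℂ := fun s j => (-1) ^ (s : ℕ) * (kvV x a j).coeff s
    have hinj : Function.Injective M.mulVec := by
      have hker : ∀ c, M.mulVec c = 0 → c = 0 := by
        intro c hc
        have hpoly : ∑ j, Polynomial.C (c j) * kvV x a j = 0 := by
          ext s
          rw [Polynomial.finset_sum_coeff, Polynomial.coeff_zero]
          by_cases hs : s < k + 1
          · have h1 := congrFun hc ⟨s, hs⟩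
            have h2 : ∑ j, (-1) ^ s * (kvV x a j).coeff s * c j = 0 := h1
            have h3 : ∑ j, (Polynomial.C (c j) * kvV x a j).coeff s =
                (-1) ^ s * ∑ j, (-1) ^ s * (kvV x a j).coeff s * c j := by
              rw [Finset.mul_sum]
              apply Finset.sum_congr rfl
              intro j _
              rw [Polynomial.coeff_C_mul]
              have : ((-1 : ℂ) ^ s) * (-1) ^ s = 1 := by
                rw [← mul_pow]; simp
              calc c j * (kvV x a j).coeff s = (((-1 : ℂ) ^ s) * (-1) ^ s) *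
                    (c j * (kvV x a j).coeff s) := by rw [this, one_mul]
                _ = _ := by ring
            rw [h3, h2, mul_zero]
          · apply Finset.sum_eq_zero
            intro j _
            rw [Polynomial.coeff_C_mul, Polynomial.coeff_eq_zero_of_natDegree_lt, mul_zero]
            have := kv_deg x a j
            omega
        funext i
        have h1 := congrArg (Polynomial.eval (-x i / a i)) hpoly
        rw [Polynomial.eval_finset_sum, Polynomial.eval_zero, Finset.sum_eq_single i] at h1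
        · rw [Polynomial.eval_mul, Polynomial.eval_C] at h1
          exact (mul_eq_zero.1 h1).resolve_right (kv_eval_self x a ha hxa i)
        · intro j _ hji
          rw [Polynomial.eval_mul, kv_eval_ne x a ha hji, mul_zero]
        · intro h; exact absurd (Finset.mem_univ i) h
      intro c d hcd
      have h0 : M.mulVec (c - d) = 0 := by
        rw [Matrix.mulVec_sub]; exact sub_eq_zero.2 hcd
      exact sub_eq_zero.1 (hker _ h0)
    have hu : IsUnit M := Matrix.mulVec_injective_iff_isUnit.1 hinj
    exact Matrix.linearIndependent_rows_iff_isUnit.2 hu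
  · intro i j
    simp only [pow_zero, one_mul]
    rw [kv_coeff_zero, kv_coeff_zero]
  · have key : ∀ i, a i * ((-1) ^ k * (kvV x a i).coeff k) = (-1) ^ k * (kvW x a).coeff (k + 1) := by
      intro i
      rw [← kv_coeff_succ x a i k, Polynomial.coeff_eq_zero_of_natDegree_lt
        (Nat.lt_succ_of_le (kv_deg x a i))]
      ring
    intro i j
    show a i * ((-1) ^ k * (kvV x a i).coeff k) = a j * ((-1) ^ k * (kvV x a j).coeff k)
    rw [key, key]
  · intro s _
    have key : ∀ i, x i * ((-1) ^ (s + 1) * (kvV x a i).coeff (s + 1)) -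
        a i * ((-1) ^ s * (kvV x a i).coeff s) = (-1) ^ (s + 1) * (kvW x a).coeff (s + 1) := by
      intro i
      rw [← kv_coeff_succ x a i s, pow_succ]
      ring
    intro i j
    show x i * ((-1) ^ (s + 1) * (kvV x a i).coeff (s + 1)) -
        a i * ((-1) ^ s * (kvV x a i).coeff s) = x j * ((-1) ^ (s + 1) * (kvV x a j).coeff (s + 1)) -
        a j * ((-1) ^ s * (kvV x a j).coeff s)
    rw [key, key]

end Pool.Agent.Helper783.JK
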