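import Pool.Agent.Helper783.JK.Defs

open Module MvPolynomial Matrix

namespace Pool.Agent.Helper783.JK



/-- the column paired with a row by the second form -/
def mkCol1 {T : JKType} : Row T → Col T
  | .inl r => .inl ⟨r.1, Fin.castSucc r.2⟩
  | .inr r => .inr r

open Classical in
theorem mk_RB (T : JKType) (z : T.E → ℂ) (r : Row T) (c : Col T) :
    RB T (fun e => some (z e)) r c = if c = mkCol1 r then 1 else 0 := by
  rcases r with ⟨r1, r2⟩ | ⟨r1, r2⟩ <;> rcases c with ⟨c1, c2⟩ | ⟨c1, c2⟩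
  · by_cases h : r1 = c1
    · subst h
      simp [Fin.ext_iff, RB, mkCol1]
    · have hne : ¬ ((Sum.inl ⟨c1, c2⟩ : Col T) = mkCol1 (.inl ⟨r1, r2⟩)) := by
        intro h'
        have h'' : (Sum.inl ⟨c1, c2⟩ : Col T) = .inl ⟨r1, Fin.castSucc r2⟩ := h'
        simp only [Sum.inl.injEq, Sigma.mk.injEq] at h''
        exact h h''.1.symm
      rw [if_neg hne]
      simp only [RB]
      rw [if_neg (fun h' => h h'.1)]
  · simp [RB, mkCol1]
  · simp [RB, mkCol1]
  · by_cases h : r1 = c1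
    · subst h
      simp [Fin.ext_iff, eq_comm, RB, mkCol1]
    · have hne : ¬ ((Sum.inr ⟨c1, c2⟩ : Col T) = mkCol1 (.inr ⟨r1, r2⟩)) := by
        intro h'
        have h'' : (Sum.inr ⟨c1, c2⟩ : Col T) = .inr ⟨r1, r2⟩ := h'
        simp only [Sum.inr.injEq, Sigma.mk.injEq] at h''
        exact h h''.1.symm
      rw [if_neg hne]
      simp only [RB]
      rw [if_neg h]

open Classical in
theorem mk_RA (T : JKType) (t : T.E → Option ℂ) (k : T.κ) (j : Fin (T.k k)) (c : Col T) :
    RA T t (.inl ⟨k, j⟩) c = if c = .inl ⟨k, j.succ⟩ then 1 else 0 := by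
  rcases c with ⟨c1, c2⟩ | ⟨c1, c2⟩
  · simp only [RA]
    by_cases h : k = c1
    · subst h
      simp [Fin.ext_iff]
    · rw [if_neg (fun h' => h h'.1), if_neg]
      intro h'
      simp only [Sum.inl.injEq, Sigma.mk.injEq] at h'
      exact h h'.1.symm
  · simp [RA]

theorem mk_pair_left {υ ι ρ : Type} [Fintype υ] [Fintype ι] [Fintype ρ]
    (φ : (υ → ℂ) →ₗ[ℂ] Module.End ℂ (ι → ℂ)) (a : ι → ℂ) (g : ρ → ℂ) (p : ρ → υ → ℂ)
    (v : ι → ℂ) : a ⬝ᵥ (φ (∑ r, g r • p r) v) = ∑ r, g r * (a ⬝ᵥ (φ (p r) v)) := by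
  rw [map_sum, LinearMap.sum_apply, dotProduct_sum]
  apply Finset.sum_congr rfl
  intro r _
  rw [map_smul, LinearMap.smul_apply, dotProduct_smul, smul_eq_mul]

theorem mk_pair_right {υ ι ρ : Type} [Fintype υ] [Fintype ι] [Fintype ρ]
    (φ : (υ → ℂ) →ₗ[ℂ] Module.End ℂ (ι → ℂ)) (a : ι → ℂ) (g : ρ → ℂ) (q : ρ → ι → ℂ)
    (u : υ → ℂ) : a ⬝ᵥ (φ u (∑ r, g r • q r)) = ∑ r, g r * (a ⬝ᵥ (φ u (q r))) := by
  rw [map_sum, dotProduct_sum]
  apply Finset.sum_congr rfl
  intro r _
  rw [map_smul, dotProduct_smul, smul_eq_mul]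

theorem mk_rectType (T : JKType) {υ ι : Type} [Fintype υ] [Fintype ι]
    (φ : (υ → ℂ) →ₗ[ℂ] Module.End ℂ (ι → ℂ)) (ℓ : T.E → ι → ℂ) (x a : ι → ℂ)
    (hℓ : ∀ e, a ⬝ᵥ ℓ e ≠ 0)
    (hυ : Fintype.card υ = Fintype.card (Row T)) (hι : Fintype.card ι = Fintype.card (Col T))
    (p : Row T → υ → ℂ) (q : Col T → ι → ℂ)
    (hpq : ∀ r c, x ⬝ᵥ (φ (p r) (q c)) = RA T (fun e => some ((x ⬝ᵥ ℓ e) / (a ⬝ᵥ ℓ e))) r c ∧
      a ⬝ᵥ (φ (p r) (q c)) = RB T (fun e => some ((x ⬝ᵥ ℓ e) / (a ⬝ᵥ ℓ e))) r c)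
    (h0 : LinearIndependent ℂ (fun c : {c : T.κ // T.k c = 0} => q (.inl ⟨c.1, 0⟩))) :
    RectType T φ ℓ x a := by
  classical
  have hcol1 : Function.Injective (mkCol1 (T := T)) := by
    rintro (⟨r1, r2⟩ | ⟨r1, r2⟩) (⟨s1, s2⟩ | ⟨s1, s2⟩) h
    · simp only [mkCol1, Sum.inl.injEq, Sigma.mk.injEq] at h
      obtain ⟨h1, h2⟩ := h
      subst h1
      simp only [heq_eq_eq] at h2
      rw [Fin.castSucc_injective _ h2]
    · simp [mkCol1] at h
    · simp [mkCol1] at h
    · simpa [mkCol1] using h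
  have hp : LinearIndependent ℂ p := by
    rw [Fintype.linearIndependent_iff]
    intro g hg ρ
    have h1 := mk_pair_left φ a g p (q (mkCol1 ρ))
    rw [hg] at h1
    simp only [map_zero, LinearMap.zero_apply, dotProduct_zero] at h1
    simp only [fun r => (hpq r (mkCol1 ρ)).2, mk_RB, hcol1.eq_iff, mul_ite, mul_one, mul_zero,
      Finset.sum_ite_eq, Finset.mem_univ, if_true] at h1
    exact h1.symm
  have hq : LinearIndependent ℂ q := by
    rw [Fintype.linearIndependent_iff]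
    intro g hg
    have h1 : ∀ r, g (mkCol1 r) = 0 := by
      intro r
      have h1 := mk_pair_right φ a g q (p r)
      rw [hg] at h1
      simp only [map_zero, dotProduct_zero] at h1
      simp only [fun c => (hpq r c).2, mk_RB, mul_ite, mul_one, mul_zero,
        Finset.sum_ite_eq', Finset.mem_univ, if_true] at h1
      exact h1.symm
    have h2 : ∀ (k : T.κ) (j : Fin (T.k k)), g (.inl ⟨k, j.succ⟩) = 0 := by
      intro k j
      have h1 := mk_pair_right φ x g q (p (.inl ⟨k, j⟩))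
      rw [hg] at h1
      simp only [map_zero, dotProduct_zero] at h1
      simp only [fun c => (hpq (.inl ⟨k, j⟩) c).1, mk_RA, mul_ite, mul_one, mul_zero,
        Finset.sum_ite_eq', Finset.mem_univ, if_true] at h1
      exact h1.symm
    have h3 : ∀ (k : T.κ) (j : Fin (T.k k + 1)), T.k k ≠ 0 → g (.inl ⟨k, j⟩) = 0 := by
      intro k j hk
      by_cases hj : (j : ℕ) < T.k k
      · exact h1 (.inl ⟨k, ⟨j, hj⟩⟩)
      · have hj2 : (j : ℕ) = T.k k := by have := j.2; omega
        have h4 := h2 k ⟨T.k k - 1, by omega⟩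
        have h5 : (⟨T.k k - 1, by omega⟩ : Fin (T.k k)).succ = j := by
          apply Fin.ext
          simp only [Fin.val_succ]
          omega
        rw [h5] at h4
        exact h4
    have h6 : ∀ c : {c : T.κ // T.k c = 0}, g (.inl ⟨c.1, 0⟩) = 0 := by
      rw [Fintype.linearIndependent_iff] at h0
      apply h0 (fun c => g (.inl ⟨c.1, 0⟩))
      rw [← hg]
      refine Finset.sum_of_injOn (fun c : {c : T.κ // T.k c = 0} => (.inl ⟨c.1, 0⟩ : Col T))
        ?_ ?_ ?_ ?_
      · rintro ⟨c, hc⟩ _ ⟨c', hc'⟩ _ h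
        simp only [Sum.inl.injEq, Sigma.mk.injEq] at h
        exact Subtype.ext h.1
      · intro c _
        exact Finset.mem_coe.2 (Finset.mem_univ _)
      · rintro (⟨k, j⟩ | ⟨b, j⟩) _ hn
        · by_cases hk : T.k k = 0
          · exfalso
            apply hn
            refine ⟨⟨k, hk⟩, Finset.mem_coe.2 (Finset.mem_univ _), ?_⟩
            have : j = 0 := by
              apply Fin.ext
              have := j.2
              simp only [Fin.val_zero]
              omega
            rw [this]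
          · rw [h3 k j hk, zero_smul]
        · have h7 : g (.inr ⟨b, j⟩) = 0 := h1 (.inr ⟨b, j⟩)
          rw [h7, zero_smul]
      · intro c _
        rfl
    rintro (⟨k, j⟩ | ⟨b, j⟩)
    · by_cases hk : T.k k = 0
      · have : j = 0 := by
          apply Fin.ext
          have := j.2
          simp only [Fin.val_zero]
          omega
        rw [this]
        exact h6 ⟨k, hk⟩
      · exact h3 k j hk
    · exact h1 (.inr ⟨b, j⟩)
  have hfυ : Fintype.card (Row T) = Module.finrank ℂ (υ → ℂ) := by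
    rw [Module.finrank_fintype_fun_eq_card, hυ]
  have hfι : Fintype.card (Col T) = Module.finrank ℂ (ι → ℂ) := by
    rw [Module.finrank_fintype_fun_eq_card, hι]
  by_cases hR : Nonempty (Row T)
  · by_cases hC : Nonempty (Col T)
    · refine ⟨hℓ, basisOfLinearIndependentOfCardEqFinrank hp hfυ,
        basisOfLinearIndependentOfCardEqFinrank hq hfι, fun r c => ?_⟩
      rw [coe_basisOfLinearIndependentOfCardEqFinrank, coe_basisOfLinearIndependentOfCardEqFinrank]
      exact hpq r c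
    · exfalso
      obtain ⟨r⟩ := hR
      exact hC ⟨mkCol1 r⟩
  · have hRe : IsEmpty (Row T) := not_nonempty_iff.1 hR
    have hRb : Basis (Row T) ℂ (υ → ℂ) := by
      have : Module.finrank ℂ (υ → ℂ) = 0 := by rw [← hfυ]; exact Fintype.card_eq_zero
      have : Subsingleton (υ → ℂ) := Module.finrank_zero_iff.1 this
      exact Basis.empty _
    by_cases hC : Nonempty (Col T)
    · exact ⟨hℓ, hRb, basisOfLinearIndependentOfCardEqFinrank hq hfι, fun r => hRe.elim r⟩
    · have hCe : IsEmpty (Col T) := not_nonempty_iff.1 hC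
      have hCb : Basis (Col T) ℂ (ι → ℂ) := by
        have : Module.finrank ℂ (ι → ℂ) = 0 := by rw [← hfι]; exact Fintype.card_eq_zero
        have : Subsingleton (ι → ℂ) := Module.finrank_zero_iff.1 this
        exact Basis.empty _
      exact ⟨hℓ, hRb, hCb, fun r => hRe.elim r⟩

end Pool.Agent.Helper783.JK
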