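import Pool.Agent.Helper783.JK.Defs

open Module MvPolynomial Matrix

namespace Pool.Agent.Helper783.JK



theorem mk_square_dual {σ υ ι : Type} [Fintype σ] [DecidableEq σ] [Fintype υ] [Fintype ι]
    (β : (υ → ℂ) →ₗ[ℂ] (ι → ℂ) →ₗ[ℂ] ℂ) (hυ : Fintype.card υ = Fintype.card σ)
    (hι : Fintype.card ι = Fintype.card σ) (hnd : ∀ v, (∀ u, β u v = 0) → v = 0)
    (Q : σ → ι → ℂ) (hli : ⊤ ≤ Submodule.span ℂ (Set.range Q)) :
    ∃ p : Basis σ ℂ (υ → ℂ), ∀ s s', β (p s) (Q s') = if s' = s then 1 else 0 := by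
  have hsurj : Function.Surjective β.flip := by
    rw [← LinearMap.injective_iff_surjective_of_finrank_eq_finrank]
    · rw [injective_iff_map_eq_zero]
      intro v hv
      refine hnd v fun u => ?_
      exact LinearMap.congr_fun hv u
    · have h1 : Module.finrank ℂ ((υ → ℂ) →ₗ[ℂ] ℂ) = Module.finrank ℂ (υ → ℂ) :=
        Subspace.dual_finrank_eq
      rw [h1, Module.finrank_fintype_fun_eq_card, Module.finrank_fintype_fun_eq_card, hυ, hι]
  have hinj : Function.Injective (LinearMap.pi fun s => β.flip (Q s)) := by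
    rw [injective_iff_map_eq_zero]
    intro u hu
    have h1 : ∀ v, β u v = 0 := by
      have h2 : Submodule.span ℂ (Set.range Q) ≤ LinearMap.ker (β u) := by
        rw [Submodule.span_le]
        rintro _ ⟨s, rfl⟩
        exact congrFun hu s
      intro v
      exact h2 (hli Submodule.mem_top)
    rw [← Module.forall_dual_apply_eq_zero_iff ℂ u]
    intro f
    obtain ⟨v, hv⟩ := hsurj f
    rw [← hv]
    exact h1 v
  have hfr : Module.finrank ℂ (υ → ℂ) = Module.finrank ℂ (σ → ℂ) := by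
    rw [Module.finrank_fintype_fun_eq_card, Module.finrank_fintype_fun_eq_card, hυ]
  refine ⟨(Pi.basisFun ℂ σ).map (LinearMap.linearEquivOfInjective _ hinj hfr).symm, fun s s' => ?_⟩
  have h3 : LinearMap.linearEquivOfInjective _ hinj hfr
      ((Pi.basisFun ℂ σ).map (LinearMap.linearEquivOfInjective _ hinj hfr).symm s) =
        Pi.single s 1 := by
    rw [Basis.map_apply, LinearEquiv.apply_symm_apply, Pi.basisFun_apply]
  have h4 := congrFun h3 s'
  rw [Pi.single_apply] at h4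
  exact h4

theorem mk_square (T : JKType) (hκ : IsEmpty T.κ) {υ ι : Type} [Fintype υ] [Fintype ι]
    (φ : (υ → ℂ) →ₗ[ℂ] Module.End ℂ (ι → ℂ)) (ℓ : T.E → ι → ℂ) (x a : ι → ℂ)
    (hℓ : ∀ e, a ⬝ᵥ ℓ e ≠ 0)
    (hυ : Fintype.card υ = Fintype.card (Σ b, Fin (T.m b)))
    (hι : Fintype.card ι = Fintype.card (Σ b, Fin (T.m b)))
    (c : T.β → ℕ → ι → ℂ) (hc0 : ∀ b, c b (T.m b) = 0)
    (hc : ∀ b j, j < T.m b → ∀ u, x ⬝ᵥ (φ u (c b j)) =
      ((x ⬝ᵥ ℓ (T.ev b)) / (a ⬝ᵥ ℓ (T.ev b))) * (a ⬝ᵥ (φ u (c b j))) + a ⬝ᵥ (φ u (c b (j + 1))))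
    (hnd : ∀ v, (∀ u, a ⬝ᵥ (φ u v) = 0) → v = 0)
    (hli : ⊤ ≤ Submodule.span ℂ (Set.range (fun s : Σ b, Fin (T.m b) => c s.1 s.2))) :
    RectType T φ ℓ x a := by
  classical
  let β : (υ → ℂ) →ₗ[ℂ] (ι → ℂ) →ₗ[ℂ] ℂ := LinearMap.mk₂ ℂ (fun u v => a ⬝ᵥ (φ u v))
    (fun u u' v => by rw [map_add, LinearMap.add_apply, dotProduct_add])
    (fun z u v => by rw [map_smul, LinearMap.smul_apply, dotProduct_smul])
    (fun u v v' => by rw [map_add, dotProduct_add])
    (fun z u v => by rw [map_smul, dotProduct_smul])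
  obtain ⟨p, hp⟩ := mk_square_dual β hυ hι hnd (fun s : Σ b, Fin (T.m b) => c s.1 s.2) hli
  have hp' : ∀ s s' : Σ b, Fin (T.m b), a ⬝ᵥ (φ (p s) (c s'.1 s'.2)) = if s' = s then 1 else 0 := hp
  let q : Basis (Σ b, Fin (T.m b)) ℂ (ι → ℂ) :=
    basisOfTopLeSpanOfCardEqFinrank (fun s : Σ b, Fin (T.m b) => c s.1 s.2) hli
      (by rw [Module.finrank_fintype_fun_eq_card, hι])
  have hq : ∀ s, q s = c s.1 s.2 := fun s => by
    show basisOfTopLeSpanOfCardEqFinrank (fun s : Σ b, Fin (T.m b) => c s.1 s.2) hli _ s = _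
    rw [coe_basisOfTopLeSpanOfCardEqFinrank]
  have key : ∀ (s : Σ b, Fin (T.m b)) (b' : T.β) (n : ℕ), n ≤ T.m b' →
      a ⬝ᵥ (φ (p s) (c b' n)) = if s.1 = b' ∧ (s.2 : ℕ) = n then 1 else 0 := by
    intro s b' n hn
    rcases hn.lt_or_eq with hlt | heq
    · have h1 := hp' s ⟨b', ⟨n, hlt⟩⟩
      have h2 : a ⬝ᵥ (φ (p s) (c b' n)) = if (⟨b', ⟨n, hlt⟩⟩ : Σ b, Fin (T.m b)) = s
        then 1 else 0 := h1
      rw [h2]
      congr 1
      rw [eq_iff_iff]
      constructor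
      · intro h
        rw [← h]
        exact ⟨rfl, rfl⟩
      · rintro ⟨h3, h4⟩
        obtain ⟨b, i⟩ := s
        subst h3
        congr 1
        exact Fin.ext h4.symm
    · rw [heq, hc0, map_zero, dotProduct_zero, if_neg]
      rintro ⟨h3, h4⟩
      have := s.2.2
      rw [h4, h3] at this
      exact lt_irrefl _ this
  have hK : IsEmpty (Σ c : T.κ, Fin (T.k c)) := ⟨fun s => hκ.false s.1⟩
  have hK' : IsEmpty (Σ c : T.κ, Fin (T.k c + 1)) := ⟨fun s => hκ.false s.1⟩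
  refine ⟨hℓ, p.reindex (Equiv.emptySum _ _).symm, q.reindex (Equiv.emptySum _ _).symm, ?_⟩
  rintro (r | s) (r' | s')
  · exact (hK.false r).elim
  · exact (hK.false r).elim
  · exact (hK'.false r').elim
  · have e1 : p.reindex (Equiv.emptySum (Σ c : T.κ, Fin (T.k c)) _).symm (Sum.inr s) = p s := by
      rw [Basis.reindex_apply]
      rfl
    have e2 : q.reindex (Equiv.emptySum (Σ c : T.κ, Fin (T.k c + 1)) _).symm (Sum.inr s') =
        c s'.1 s'.2 := by
      rw [Basis.reindex_apply, ← hq]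
      rfl
    rw [e1, e2]
    have k1 := key s s'.1 s'.2 s'.2.2.le
    have k2 := key s s'.1 (s'.2 + 1) s'.2.2
    constructor
    · rw [hc s'.1 s'.2 s'.2.2 (p s), k1, k2]
      unfold RA
      by_cases h1 : s.1 = s'.1
      · simp only [h1, true_and, if_true]
        by_cases h2 : (s.2 : ℕ) = s'.2
        · simp [h2]
        · simp [h2]
      · simp [h1]
    · rw [k1]
      unfold RB
      by_cases h1 : s.1 = s'.1
      · simp [h1]
      · simp [h1]

end Pool.Agent.Helper783.JK
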