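import Pool.Agent.Helper783.JK.Defs

open Module MvPolynomial Matrix

namespace Pool.Agent.Helper783.JK



theorem aux_nf_hom {σ : Type} (φ : MvPolynomial σ ℂ) (h : φ.IsHomogeneous 1) (s : ℂ) (y : σ → ℂ) :
    eval (fun i => s * y i) φ = s * eval y φ := by
  rw [MvPolynomial.eval_eq, MvPolynomial.eval_eq, Finset.mul_sum]
  refine Finset.sum_congr rfl fun d hd => ?_
  have h1 : d.degree = 1 := by
    have := h (MvPolynomial.mem_support_iff.1 hd)
    rw [Finsupp.degree_eq_weight_one]
    exact this
  have h2 : ∑ i ∈ d.support, d i = 1 := h1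
  have h3 : ∏ i ∈ d.support, (s * y i) ^ d i = s * ∏ i ∈ d.support, y i ^ d i := by
    simp only [mul_pow]
    rw [Finset.prod_mul_distrib, Finset.prod_pow_eq_pow_sum, h2, pow_one]
  rw [h3]
  ring

theorem aux_nf_const {ι : Type} (q : MvPolynomial (Option ι) ℂ)
    (hd : ∀ i, pderiv (some i) q = 0) (y y' : Option ι → ℂ) (h : y none = y' none) :
    eval y q = eval y' q := by
  classical
  show eval₂ (RingHom.id ℂ) y q = eval₂ (RingHom.id ℂ) y' q
  apply eval₂_congr
  intro i c hi hc
  cases i with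
  | none => exact h
  | some j =>
    exfalso
    apply hc
    have h1 := coeff_pderiv (i := some j) q (c - Finsupp.single (some j) 1)
    rw [hd j, coeff_zero] at h1
    have h2 : c - Finsupp.single (some j) 1 + Finsupp.single (some j) 1 = c := by
      apply tsub_add_cancel_of_le
      rw [Finsupp.single_le_iff]
      have := Finsupp.mem_support_iff.1 hi
      omega
    rw [h2] at h1
    have h3 : (((c - Finsupp.single (some j) 1 : Option ι →₀ ℕ) (some j) : ℕ) : ℂ) + 1 ≠ 0 :=
      Nat.cast_add_one_ne_zero _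
    rcases mul_eq_zero.1 h1.symm with h4 | h4
    · exact h4
    · exact absurd h4 h3

theorem none_factor {ι : Type} [Fintype ι] [DecidableEq ι]
    (M : Matrix ι ι (MvPolynomial (Option ι) ℂ)) (hM : ∀ i j, (M i j).IsHomogeneous 1)
    (hdet : M.det ≠ 0) (q : MvPolynomial (Option ι) ℂ) (hq : q ∣ M.det)
    (hd : ∀ i, pderiv (some i) q = 0) (y : Option ι → ℂ) (hy : eval y q = 0) :
    y none = 0 := by
  by_contra hy0
  obtain ⟨r, hr⟩ := hq
  have hX : (X none : MvPolynomial (Option ι) ℂ) ≠ 0 := X_ne_zero _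
  have hne : (X none : MvPolynomial (Option ι) ℂ) * M.det ≠ 0 := mul_ne_zero hX hdet
  apply hne
  apply MvPolynomial.funext
  intro z
  rw [map_mul, eval_X, map_zero]
  by_cases hz : z none = 0
  · rw [hz, zero_mul]
  obtain ⟨s, hs⟩ : ∃ s, s = z none / y none := ⟨_, rfl⟩
  have hs0 : s ≠ 0 := by rw [hs]; exact div_ne_zero hz hy0
  obtain ⟨y', hy'⟩ : ∃ y' : Option ι → ℂ, y' = fun i => s⁻¹ * z i := ⟨_, rfl⟩
  have hz' : z = fun i => s * y' i := by
    funext i
    rw [hy']
    simp only
    rw [mul_inv_cancel_left₀ hs0]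
  have hn : y none = y' none := by
    rw [hy', hs]
    simp only
    field_simp
  have h1 : eval y' M.det = 0 := by
    rw [hr, map_mul, ← aux_nf_const q hd y y' hn, hy, zero_mul]
  have h2 : eval z M.det = s ^ Fintype.card ι * eval y' M.det := by
    rw [RingHom.map_det, RingHom.map_det, ← Matrix.det_smul]
    congr 1
    ext i j
    rw [hz']
    exact aux_nf_hom (M i j) (hM i j) s y'
  rw [h2, h1, mul_zero, mul_zero]

end Pool.Agent.Helper783.JK
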