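import Pool.Agent.Helper783.JK.Defs

open Module MvPolynomial Matrix

namespace Pool.Agent.Helper783.JK



/-- the projection to the quotient by the centre -/
noncomputable def qpi {g : Type} [LieRing g] [LieAlgebra ℂ g] {ι : Type}
    (e : Basis (Option ι) ℂ g) : g →ₗ[ℂ] (ι → ℂ) where
  toFun v i := e.repr v (some i)
  map_add' v w := by funext i; simp
  map_smul' c v := by funext i; simp

lemma qpi_apply {g : Type} [LieRing g] [LieAlgebra ℂ g] {ι : Type}
    (e : Basis (Option ι) ℂ g) (v : g) (i : ι) : qpi e v i = e.repr v (some i) := rfl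

lemma qpi_decomp {g : Type} [LieRing g] [LieAlgebra ℂ g] {ι : Type} [Fintype ι]
    (e : Basis (Option ι) ℂ g) (v : g) :
    v = e.repr v none • e none + ∑ i, qpi e v i • e (some i) := by
  conv_lhs => rw [← e.sum_repr v]
  rw [Fintype.sum_option]
  rfl

lemma qpi_surj {g : Type} [LieRing g] [LieAlgebra ℂ g] {ι : Type} [Fintype ι]
    (e : Basis (Option ι) ℂ g) : Function.Surjective (qpi e) := by
  classical
  intro w
  refine ⟨∑ i, w i • e (some i), ?_⟩
  funext j
  rw [qpi_apply, map_sum, Finsupp.finsetSum_apply]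
  simp [Finsupp.single_apply]

lemma lieForm_eq {g : Type} [LieRing g] [LieAlgebra ℂ g] {ι : Type} [Fintype ι]
    [DecidableEq ι] (e : Basis (Option ι) ℂ g) (hz : ∀ η : g, ⁅e none, η⁆ = 0)
    (y : Option ι → ℂ) (v w : g) :
    lieForm (e.constr ℂ y) v w = qpi e v ⬝ᵥ ((strMat e).map (eval y) *ᵥ qpi e w) := by
  have hz' : ∀ η : g, ⁅η, e none⁆ = 0 := by
    intro η
    rw [← lie_skew, hz, neg_zero]
  have h0 : ∀ v w : g, ⁅v, w⁆ = ⁅∑ i, qpi e v i • e (some i), w⁆ := by
    intro v w
    conv_lhs => rw [qpi_decomp e v, add_lie, smul_lie, hz, smul_zero, zero_add]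
  have h0' : ∀ v w : g, ⁅v, w⁆ = ⁅v, ∑ i, qpi e w i • e (some i)⁆ := by
    intro v w
    conv_lhs => rw [qpi_decomp e w, lie_add, lie_smul, hz', smul_zero, zero_add]
  have h1 : ⁅v, w⁆ = ∑ i, ∑ j, (qpi e v i * qpi e w j) • ⁅e (some i), e (some j)⁆ := by
    rw [h0, h0', sum_lie_sum]
    refine Finset.sum_congr rfl fun i _ => Finset.sum_congr rfl fun j _ => ?_
    rw [smul_lie, lie_smul, smul_smul]
  have h2 : ∀ i j, (e.constr ℂ y) ⁅e (some i), e (some j)⁆ = eval y (strMat e i j) := by
    intro i j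
    unfold strMat
    rw [map_sum, Basis.constr_apply_fintype]
    refine Finset.sum_congr rfl fun k _ => ?_
    simp [Basis.equivFun_apply, mul_comm]
  unfold lieForm
  rw [h1, map_sum]
  simp only [dotProduct, Matrix.mulVec, Matrix.map_apply]
  refine Finset.sum_congr rfl fun i _ => ?_
  rw [map_sum, Finset.mul_sum]
  refine Finset.sum_congr rfl fun j _ => ?_
  rw [map_smul, h2, smul_eq_mul]
  ring

lemma qpi_ker {g : Type} [LieRing g] [LieAlgebra ℂ g] {ι : Type} [Fintype ι]
    (e : Basis (Option ι) ℂ g) (v : g) (h : qpi e v = 0) : v = e.repr v none • e none := by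
  conv_lhs => rw [qpi_decomp e v]
  simp [h]

/-- the index map of the quotient basis -/
def qidx (T : JKType) :
    (Σ b, Fin (T.m b)) ⊕ (Σ b, Fin (T.m b)) → Row T ⊕ Col T
  | .inl s => .inl (.inr s)
  | .inr s => .inr (.inr s)

lemma qidx_inj (T : JKType) : Function.Injective (qidx T) := by
  rintro (s | s) (s' | s') h <;> simp_all [qidx]

theorem quot_basis {g : Type} [LieRing g] [LieAlgebra ℂ g] {ι : Type} [Fintype ι]
    [DecidableEq ι] (e : Basis (Option ι) ℂ g) (hz : ∀ η : g, ⁅e none, η⁆ = 0) (T : JKType)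
    (c0 : T.κ) (hκ : ∀ c, c = c0) (hk : T.k c0 = 0) (x a : Option ι → ℂ)
    (hT : HasType (lieForm (e.constr ℂ x)) (lieForm (e.constr ℂ a)) T)
    (ha : eval a (strMat e).det ≠ 0) :
    ∃ (t : T.E → ℂ) (P : Basis ((Σ b, Fin (T.m b)) ⊕ (Σ b, Fin (T.m b))) ℂ (ι → ℂ)),
      Function.Injective t ∧
      (∀ i j, P i ⬝ᵥ ((strMat e).map (eval x) *ᵥ P j) = skewOf (jordA T.m T.ev t) i j) ∧
      (∀ i j, P i ⬝ᵥ ((strMat e).map (eval a) *ᵥ P j) = skewOf (jordB T.m) i j) := by
  classical
  obtain ⟨t', ht'inj, bb, hbb⟩ := hT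
  have hempty : ∀ r : (Σ c : T.κ, Fin (T.k c)), False := by
    rintro ⟨c, j⟩
    have := hκ c
    subst this
    rw [hk] at j
    exact j.elim0
  have hdet : ((strMat e).map (eval a)).det ≠ 0 := by
    have : ((strMat e).map (eval a)).det = eval a (strMat e).det := by
      rw [RingHom.map_det]; rfl
    rwa [this]
  -- the radical
  have hrad : ∀ w : g, (∀ j, lieForm (e.constr ℂ a) (bb j) w = 0) → qpi e w = 0 := by
    intro w hw
    let L : g →ₗ[ℂ] ℂ :=
      { toFun := fun v => lieForm (e.constr ℂ a) v w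
        map_add' := by intro u v; unfold lieForm; rw [add_lie, map_add]
        map_smul' := by
          intro c v; unfold lieForm; rw [smul_lie, map_smul, RingHom.id_apply] }
    have hL : L = 0 := by
      refine Basis.ext bb fun j => ?_
      simpa [L] using hw j
    have h1 : ∀ v : g, lieForm (e.constr ℂ a) v w = 0 := by
      intro v
      have := LinearMap.congr_fun hL v
      simpa [L] using this
    have h2 : (strMat e).map (eval a) *ᵥ qpi e w = 0 := by
      funext i
      obtain ⟨v, hv⟩ := qpi_surj e (Pi.single i 1)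
      have := h1 v
      rw [lieForm_eq e hz, hv] at this
      simpa using this
    exact Matrix.eq_zero_of_mulVec_eq_zero hdet h2
  -- the kernel of the Kronecker block
  have hq0 : ∀ s : (Σ c : T.κ, Fin (T.k c + 1)), qpi e (bb (.inr (.inl s))) = 0 := by
    intro s
    refine hrad _ fun j => ?_
    rw [(hbb j _).2]
    rcases j with (r | r) | r
    · exact (hempty r).elim
    · rfl
    · rfl
  let j0 : Row T ⊕ Col T := .inr (.inl ⟨c0, 0⟩)
  have hu0 := qpi_ker e _ (hq0 ⟨c0, 0⟩)
  have hs0 : e.repr (bb j0) none ≠ 0 := by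
    intro h
    change bb j0 = e.repr (bb j0) none • e none at hu0
    rw [h, zero_smul] at hu0
    exact bb.ne_zero j0 hu0
  have hker : ∀ v, qpi e v = 0 → ∀ j, j ≠ j0 → bb.repr v j = 0 := by
    intro v hv j hj
    have h1 := qpi_ker e v hv
    have h2 : e none = (e.repr (bb j0) none)⁻¹ • bb j0 := by
      change bb j0 = e.repr (bb j0) none • e none at hu0
      conv_rhs => rw [hu0]
      rw [map_smul]
      simp [smul_smul, hs0]
    rw [h1, h2]
    simp [Finsupp.single_apply, Ne.symm hj]
  have hsome : ∀ ε, ∃ z, t' ε = some z := by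
    intro ε
    cases hε : t' ε with
    | some z => exact ⟨z, rfl⟩
    | none =>
      exfalso
      obtain ⟨b, hb⟩ := T.ev_surj ε
      have hw : qpi e (bb (.inl (.inr ⟨b, ⟨0, T.m_pos b⟩⟩))) = 0 := by
        refine hrad _ fun j => ?_
        rw [(hbb j _).2]
        rcases j with r | (r | r)
        · rfl
        · change - RB T t' (.inr ⟨b, ⟨0, T.m_pos b⟩⟩) (.inl r) = 0
          simp [RB]
        · change - RB T t' (.inr ⟨b, ⟨0, T.m_pos b⟩⟩) (.inr r) = 0
          simp only [RB, hb, hε]
          simp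
      have := hker _ hw (.inl (.inr ⟨b, ⟨0, T.m_pos b⟩⟩)) (by simp [j0])
      simp at this
  choose t ht using hsome
  have htinj : Function.Injective t := by
    intro ε ε' h
    apply ht'inj
    rw [ht, ht, h]
  have hne : ∀ i, qidx T i ≠ j0 := by
    rintro (s | s) <;> simp [qidx, j0]
  have hli : LinearIndependent ℂ (fun i => qpi e (bb (qidx T i))) := by
    rw [Fintype.linearIndependent_iff]
    intro c hc i
    have h1 : qpi e (∑ i, c i • bb (qidx T i)) = 0 := by
      rw [map_sum]
      simpa using hc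
    have h2 := hker _ h1 (qidx T i) (hne i)
    rw [map_sum, Finsupp.finsetSum_apply] at h2
    simp only [map_smul, Basis.repr_self, Finsupp.smul_apply, Finsupp.single_apply,
      (qidx_inj T).eq_iff, smul_eq_mul] at h2
    simpa using h2
  have hspan : ⊤ ≤ Submodule.span ℂ (Set.range (fun i => qpi e (bb (qidx T i)))) := by
    intro w _
    obtain ⟨v, rfl⟩ := qpi_surj e w
    rw [← bb.sum_repr v, map_sum]
    refine Submodule.sum_mem _ fun j _ => ?_
    rw [map_smul]
    refine Submodule.smul_mem _ _ ?_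
    rcases j with (r | r) | (r | r)
    · exact (hempty r).elim
    · exact Submodule.subset_span ⟨.inl r, rfl⟩
    · rw [hq0]; exact Submodule.zero_mem _
    · exact Submodule.subset_span ⟨.inr r, rfl⟩
  refine ⟨t, Basis.mk hli hspan, htinj, ?_, ?_⟩
  · intro i j
    rw [Basis.mk_apply, Basis.mk_apply, ← lieForm_eq e hz, (hbb _ _).1]
    rcases i with r | r <;> rcases j with c | c
    · rfl
    · simp only [qidx, canForm, skewOf, RA, jordA, ht]
    · simp only [qidx, canForm, skewOf, RA, jordA, ht]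
    · rfl
  · intro i j
    rw [Basis.mk_apply, Basis.mk_apply, ← lieForm_eq e hz, (hbb _ _).2]
    rcases i with r | r <;> rcases j with c | c
    · rfl
    · simp only [qidx, canForm, skewOf, RB, jordB, ht]
      by_cases h : r.1 = c.1 <;> simp [h]
    · simp only [qidx, canForm, skewOf, RB, jordB, ht]
      by_cases h : c.1 = r.1 <;> simp [h]
    · rfl

end Pool.Agent.Helper783.JK
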