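import Pool.Agent.Helper783.JK.Defs
import Pool.Agent.Helper783.JK.P_jk_any_basis
import Pool.Agent.Helper783.JK.P_central_exists
import Pool.Agent.Helper783.JK.P_dq_wedge
import Pool.Agent.Helper783.JK.P_line_avoid
import Pool.Agent.Helper783.JK.P_quot_basis
import Pool.Agent.Helper783.JK.P_bad_delta
import Pool.Agent.Helper783.JK.P_none_factor
import Pool.Agent.Helper783.JK.P_factor_E

open Module MvPolynomial Matrix

namespace Pool.Agent.Helper783.JK



lemma ob_pderiv_dvd {σ : Type} (q : MvPolynomial σ ℂ) (i : σ) (h : q ∣ pderiv i q) :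
    pderiv i q = 0 := by
  by_contra hne
  have h1 := totalDegree_le_of_dvd_of_isDomain h hne
  have h2 : (pderiv i q).totalDegree + 1 ≤ q.totalDegree := by
    obtain ⟨m, hm, hmd⟩ : ∃ m ∈ (pderiv i q).support,
        (pderiv i q).totalDegree = m.sum fun _ e => e :=
      Finset.exists_mem_eq_sup _ (support_nonempty.2 hne) _
    have h3 : m + Finsupp.single i 1 ∈ q.support := by
      rw [MvPolynomial.mem_support_iff] at hm ⊢
      rw [coeff_pderiv] at hm
      exact left_ne_zero_of_mul hm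
    have h4 := le_totalDegree h3
    rw [Finsupp.sum_add_index' (fun _ => rfl) (fun _ _ _ => rfl), Finsupp.sum_single_index rfl] at h4
    omega
  omega

/-- restriction to a line -/
noncomputable def rho {σ : Type} (x a : σ → ℂ) : MvPolynomial σ ℂ →+* Polynomial ℂ :=
  eval₂Hom Polynomial.C (fun k => Polynomial.C (x k) + Polynomial.X * Polynomial.C (a k))

lemma rho_eval {σ : Type} (x a : σ → ℂ) (p : MvPolynomial σ ℂ) (s : ℂ) :
    (rho x a p).eval s = eval (x + s • a) p := by
  have : (Polynomial.evalRingHom s).comp (rho x a) = eval (x + s • a) := by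
    apply MvPolynomial.ringHom_ext
    · intro c; simp [rho]
    · intro k; simp [rho]; ring
  exact RingHom.congr_fun this p

lemma strMat_hom {g : Type} [LieRing g] [LieAlgebra ℂ g] {ι : Type} [Fintype ι]
    (e : Basis (Option ι) ℂ g) (i j : ι) : (strMat e i j).IsHomogeneous 1 := by
  unfold strMat
  refine MvPolynomial.IsHomogeneous.sum _ _ _ fun k _ => ?_
  exact isHomogeneous_C_mul_X _ _

lemma strMat_rho {g : Type} [LieRing g] [LieAlgebra ℂ g] {ι : Type} [Fintype ι]
    (e : Basis (Option ι) ℂ g) (x a : Option ι → ℂ) :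
    (strMat e).map (rho x a) = ((strMat e).map (eval x)).map Polynomial.C +
      (Polynomial.X : Polynomial ℂ) • ((strMat e).map (eval a)).map Polynomial.C := by
  ext1 i j
  simp only [Matrix.map_apply, Matrix.add_apply, Matrix.smul_apply, strMat, map_sum, map_mul,
    eval_C, eval_X, smul_eq_mul, Finset.mul_sum, ← Finset.sum_add_distrib]
  refine Finset.sum_congr rfl fun k _ => ?_
  simp only [rho, coe_eval₂Hom, eval₂_C, eval₂_X]
  ring

lemma strMat_line {g : Type} [LieRing g] [LieAlgebra ℂ g] {ι : Type} [Fintype ι]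
    (e : Basis (Option ι) ℂ g) (x a : Option ι → ℂ) (s : ℂ) :
    (strMat e).map (eval (x + s • a)) = (strMat e).map (eval x) + s • (strMat e).map (eval a) := by
  ext i j
  simp only [Matrix.map_apply, Matrix.add_apply, Matrix.smul_apply, strMat, map_sum, map_mul,
    eval_C, eval_X, smul_eq_mul, Finset.mul_sum, ← Finset.sum_add_distrib, Pi.add_apply,
    Pi.smul_apply]
  refine Finset.sum_congr rfl fun k _ => ?_
  ring

lemma ob_kernel {ι β E : Type} [Fintype ι] [DecidableEq ι] (m : β → ℕ) (ev : β → E)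
    (t : E → ℂ) (A B : Matrix ι ι ℂ)
    (P : Basis ((Σ b, Fin (m b)) ⊕ (Σ b, Fin (m b))) ℂ (ι → ℂ))
    (hA : ∀ i j, P i ⬝ᵥ (A *ᵥ P j) = skewOf (jordA m ev t) i j)
    (hB : ∀ i j, P i ⬝ᵥ (B *ᵥ P j) = skewOf (jordB m) i j) (b1 : β) (hm0 : 0 < m b1) :
    (A + (- t (ev b1)) • B).det = 0 := by
  classical
  obtain ⟨w0, hw0⟩ : ∃ w0, w0 = P (Sum.inl ⟨b1, ⟨0, hm0⟩⟩) := ⟨_, rfl⟩
  have hpair : ∀ k, P k ⬝ᵥ ((A + (- t (ev b1)) • B) *ᵥ w0) = 0 := by
    intro k
    rw [Matrix.add_mulVec, Matrix.smul_mulVec, dotProduct_add, dotProduct_smul, hw0, hA, hB]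
    rcases k with k | k
    · simp [skewOf]
    · obtain ⟨b, i⟩ := k
      simp only [skewOf, jordA, jordB]
      by_cases hb : b1 = b
      · subst hb
        by_cases hi : (i : ℕ) = 0
        · simp [hi]
        · have hi2 : ¬ (0 = (i : ℕ)) := fun h => hi h.symm
          simp [hi2]
      · simp [hb]
  have hw : (A + (- t (ev b1)) • B) *ᵥ w0 = 0 := by
    obtain ⟨w, hwdef⟩ : ∃ w, w = (A + (- t (ev b1)) • B) *ᵥ w0 := ⟨_, rfl⟩
    rw [← hwdef] at hpair ⊢
    obtain ⟨φ, hφ⟩ : ∃ φ : (ι → ℂ) →ₗ[ℂ] ℂ, ∀ v, φ v = v ⬝ᵥ w :=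
      ⟨{ toFun := fun v => v ⬝ᵥ w, map_add' := fun u v => add_dotProduct u v w,
         map_smul' := fun c v => smul_dotProduct c v w }, fun v => rfl⟩
    have h0 : φ = 0 := P.ext fun k => by rw [hφ, hpair k]; rfl
    funext i
    have h1 : φ (Pi.single i 1) = 0 := by rw [h0]; rfl
    rw [hφ, single_one_dotProduct] at h1
    exact h1
  refine Matrix.exists_mulVec_eq_zero_iff.1 ⟨w0, ?_, hw⟩
  rw [hw0]
  exact P.ne_zero _

lemma ob_det_ne {ι : Type} [Fintype ι] [DecidableEq ι] (A B : Matrix ι ι ℂ) (hB : B.det ≠ 0) :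
    (A.map Polynomial.C + (Polynomial.X : Polynomial ℂ) • B.map Polynomial.C).det ≠ 0 := by
  have hBu : IsUnit B.det := isUnit_iff_ne_zero.2 hB
  have h1 : A.map Polynomial.C + (Polynomial.X : Polynomial ℂ) • B.map Polynomial.C =
      (B.map Polynomial.C) * charmatrix (-(B⁻¹ * A)) := by
    rw [charmatrix, mul_sub]
    have h2 : (B.map Polynomial.C) * (Matrix.scalar ι (Polynomial.X : Polynomial ℂ)) =
        (Polynomial.X : Polynomial ℂ) • B.map Polynomial.C := by
      ext1 i j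
      rw [Matrix.scalar_apply, Matrix.mul_diagonal, Matrix.smul_apply, smul_eq_mul, mul_comm]
    have h3 : (B.map Polynomial.C) * ((Polynomial.C : ℂ →+* Polynomial ℂ).mapMatrix (-(B⁻¹ * A))) =
        - A.map Polynomial.C := by
      rw [RingHom.mapMatrix_apply, ← Matrix.map_mul, mul_neg, Matrix.mul_nonsing_inv_cancel_left _ _ hBu]
      ext1 i j
      simp
    rw [h2, h3]
    abel
  rw [h1, Matrix.det_mul]
  refine mul_ne_zero ?_ (Matrix.charpoly_monic _).ne_zero
  have h4 : (B.map Polynomial.C).det = Polynomial.C B.det := by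
    rw [RingHom.map_det, RingHom.mapMatrix_apply]
  rw [h4]
  exact Polynomial.C_ne_zero.2 hB

lemma ob_exists_point {ι : Type} (G : MvPolynomial (ι ⊕ ι) ℂ) (hG : G ≠ 0) :
    ∃ x a : ι → ℂ, eval (Sum.elim x a) G ≠ 0 := by
  by_contra hcon
  push Not at hcon
  apply hG
  apply MvPolynomial.funext
  intro v
  rw [map_zero]
  have : v = Sum.elim (v ∘ Sum.inl) (v ∘ Sum.inr) := by
    rw [Sum.elim_comp_inl_inr]
  rw [this]
  exact hcon _ _

lemma ob_gen_right {ι : Type} (D : MvPolynomial ι ℂ) (hD : D ≠ 0) :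
    Gen ι (fun _ a => eval a D ≠ 0) := by
  refine ⟨rename Sum.inr D, ?_, ?_⟩
  · rw [Ne, rename_eq_zero_iff_of_injective _ Sum.inr_injective]
    exact hD
  · intro x a h
    rw [eval_rename] at h
    exact h

theorem obstruction (T : JKType) (c0 : T.κ) (hκ : ∀ c, c = c0) (hk : T.k c0 = 0)
    (hT : Realizable T) (e1 e2 : T.E) (h1 : Bad T e1) (h2 : Bad T e2) : e1 = e2 := by
  classical
  obtain ⟨g, _, _, hg⟩ := hT
  obtain ⟨ι, _, _, e, hz, hdet⟩ := central_exists T hg c0 hκ hk
  have hjk := jk_any_basis T hg e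
  obtain ⟨D, hD⟩ : ∃ D, D = (strMat e).det := ⟨_, rfl⟩
  have hD0 : D ≠ 0 := by rw [hD]; exact hdet
  -- the prime factors
  obtain ⟨Q, hQ⟩ : ∃ Q : Finset (MvPolynomial (Option ι) ℂ),
    Q = (UniqueFactorizationMonoid.factors D).toFinset := ⟨_, rfl⟩
  have hQm : ∀ q, q ∈ Q → q ∈ UniqueFactorizationMonoid.factors D := by
    intro q hq
    rw [hQ] at hq
    exact Multiset.mem_toFinset.1 hq
  have hQp : ∀ q : Q, Prime q.1 := fun q =>
    UniqueFactorizationMonoid.prime_of_factor _ (hQm _ q.2)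
  have hQd : ∀ q : Q, q.1 ∣ (strMat e).det := fun q => by
    rw [← hD]
    exact UniqueFactorizationMonoid.dvd_of_mem_factors (hQm _ q.2)
  choose EQ mQ hqQ hmQ hhQ hMEQ iQ jQ hijQ using
    fun q : Q => factor_E (strMat e) hdet q.1 (hQp q) (hQd q)
  have hcond : ∀ q : Q, Gen (Option ι) (fun x a => ∀ s : ℂ, eval (x + s • a) q.1 = 0 →
      eval (x + s • a) (EQ q (iQ q) (jQ q)) ≠ 0 ∧
      ((∃ l, pderiv (some l) q.1 ≠ 0) → ∃ l, eval (x + s • a) (pderiv (some l) q.1) ≠ 0)) := by
    intro q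
    have g1 := line_avoid q.1 (EQ q (iQ q) (jQ q)) (hQp q) (hijQ q)
    by_cases hl : ∃ l, pderiv (some l) q.1 ≠ 0
    · obtain ⟨l, hl⟩ := hl
      have g2 := line_avoid q.1 (pderiv (some l) q.1) (hQp q)
        (fun h => hl (ob_pderiv_dvd _ _ h))
      exact (g1.and g2).mono fun x a h s hs => ⟨h.1 s hs, fun _ => ⟨l, h.2 s hs⟩⟩
    · exact g1.mono fun x a h s hs => ⟨h s hs, fun h3 => absurd h3 hl⟩
  have hnone : Gen (Option ι) (fun _ a => eval a (X none : MvPolynomial (Option ι) ℂ) ≠ 0) :=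
    ob_gen_right _ (X_ne_zero _)
  have hgen := ((hjk.and (Gen.all hcond)).and (hnone.and (ob_gen_right D hD0)))
  obtain ⟨G, hG, hGP⟩ := hgen
  obtain ⟨x, a, hxa⟩ := ob_exists_point G hG
  obtain ⟨⟨hty, hQc⟩, hane, haD⟩ := hGP x a hxa
  rw [eval_X] at hane
  rw [hD] at haD
  obtain ⟨t, P, ht, hA, hB⟩ := quot_basis e hz T c0 hκ hk x a hty haD
  have hBdet : ((strMat e).map (eval a)).det ≠ 0 := by
    have : ((strMat e).map (eval a)).det = eval a (strMat e).det := by
      rw [RingHom.map_det, RingHom.mapMatrix_apply]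
    rw [this]
    exact haD
  -- the key claim
  have key : ∀ e' : T.E, Bad T e' → (x + (- t e') • a) none = 0 := by
    intro e' hbad
    by_contra hyn
    obtain ⟨b1, b2, hb, hv1, hv2, hm12, hmax⟩ := hbad
    subst hv1
    obtain ⟨y, hy⟩ : ∃ y, y = x + (- t (T.ev b1)) • a := ⟨_, rfl⟩
    have hyD : eval y (strMat e).det = 0 := by
      rw [RingHom.map_det, RingHom.mapMatrix_apply, hy, strMat_line]
      exact ob_kernel T.m T.ev t _ _ P hA hB b1 (T.m_pos b1)
    have hyq : ∃ q : Q, eval y q.1 = 0 := by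
      have hassoc := UniqueFactorizationMonoid.factors_prod hD0
      obtain ⟨u, hu⟩ := hassoc
      rw [← hD, ← hu, map_mul] at hyD
      have hu0 : eval y (u : MvPolynomial (Option ι) ℂ) ≠ 0 :=
        ((u.isUnit).map (eval y)).ne_zero
      have h3 := (mul_eq_zero.1 hyD).resolve_right hu0
      rw [map_multiset_prod, Multiset.prod_eq_zero_iff, Multiset.mem_map] at h3
      obtain ⟨q, hq, hq0⟩ := h3
      exact ⟨⟨q, by rw [hQ]; exact Multiset.mem_toFinset.2 hq⟩, hq0⟩
    obtain ⟨q, hq0⟩ := hyq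
    have hl : ∃ l, pderiv (some l) q.1 ≠ 0 := by
      by_contra hcon
      push Not at hcon
      apply hyn
      rw [← hy]
      exact none_factor (strMat e) (strMat_hom e) hdet q.1 (hQd q) hcon y hq0
    have hq0' := hq0
    rw [hy] at hq0'
    obtain ⟨hE1, hl2⟩ := hQc q (- t (T.ev b1)) hq0'
    obtain ⟨l, hl3⟩ := hl2 hl
    rw [← hy] at hE1 hl3
    obtain ⟨f, hf⟩ : ∃ f, f = rho x a (q.1 ^ mQ q * hqQ q) := ⟨_, rfl⟩
    have hEeq : (((strMat e).map (eval x)).map Polynomial.C +
        (Polynomial.X : Polynomial ℂ) • ((strMat e).map (eval a)).map Polynomial.C) *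
        (EQ q).map (rho x a) = f • (1 : Matrix ι ι (Polynomial ℂ)) := by
      rw [← strMat_rho, ← Matrix.map_mul, hMEQ q, hf]
      ext1 i j
      by_cases hij : i = j
      · subst hij
        simp
      · simp [hij]
    have hev : ∀ i j, ((EQ q).map (rho x a) i j).eval (- t (T.ev b1)) = eval y (EQ q i j) := by
      intro i j
      rw [Matrix.map_apply, rho_eval, ← hy]
    have hf0 : f ≠ 0 := by
      intro hf0
      rw [hf0, zero_smul] at hEeq
      have hd := ob_det_ne ((strMat e).map (eval x)) ((strMat e).map (eval a)) hBdet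
      have h3 : (EQ q).map (rho x a) = 0 := by
        have h4 := congrArg (fun M => (((strMat e).map (eval x)).map Polynomial.C +
          (Polynomial.X : Polynomial ℂ) • ((strMat e).map (eval a)).map Polynomial.C).adjugate * M) hEeq
        simp only [mul_zero, ← Matrix.mul_assoc, Matrix.adjugate_mul, Matrix.smul_mul,
          Matrix.one_mul] at h4
        ext1 i j
        have h5 := congrFun (congrFun h4 i) j
        rw [Matrix.smul_apply, smul_eq_mul] at h5
        exact (mul_eq_zero.1 h5).resolve_left hd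
      apply hE1
      rw [← hev, h3]
      simp
    have hδ : (fun i : ι => eval y (pderiv (some i) q.1)) = 0 := by
      refine bad_delta T.m T.ev t ht _ _ P hA hB ((EQ q).map (rho x a)) f hf0 hEeq b1 b2 hb
        hv2.symm hm12 (T.m_pos b1) hmax ⟨iQ q, jQ q, by rw [hev]; exact hE1⟩ _ ?_
      intro i j k
      rw [hev, hev, hev]
      obtain ⟨r, hr⟩ := dq_wedge e hz (EQ q) q.1 (hqQ q) (mQ q) (hmQ q) (hQp q) (hhQ q) (hMEQ q) i j k
      have h3 := congrArg (eval y) hr
      rw [map_mul, hq0, zero_mul] at h3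
      simpa using h3
    exact hl3 (congrFun hδ l)
  have k1 := key e1 h1
  have k2 := key e2 h2
  simp only [Pi.add_apply, Pi.smul_apply, smul_eq_mul] at k1 k2
  apply ht
  have h3 : (t e1 - t e2) * a none = 0 := by linear_combination k2 - k1
  have h4 := (mul_eq_zero.1 h3).resolve_right hane
  exact sub_eq_zero.1 h4

end Pool.Agent.Helper783.JK
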