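import Pool.Agent.Helper783.JK.Defs

open Module MvPolynomial Matrix

namespace Pool.Agent.Helper783.JK



lemma torChar_sum_zero (k : ℕ) (τ : Fin k → ℂ) : ∑ s, torChar k τ s = 0 := by
  rw [Fin.sum_univ_castSucc]
  have h1 : ∀ i : Fin k, torChar k τ (Fin.castSucc i) = τ i := by
    intro i
    unfold torChar
    have : ((Fin.castSucc i : Fin (k+1)) : ℕ) < k := by simp
    rw [dif_pos this]
    rfl
  have h2 : torChar k τ (Fin.last k) = - ∑ i, τ i := by
    unfold torChar
    have : ¬ ((Fin.last k : Fin (k+1)) : ℕ) < k := by simp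
    rw [dif_neg this]
  simp only [h1, h2]
  ring

/-- the solution of one step -/
noncomputable def solveStep (k : ℕ) (x a : Fin (k + 1) → ℂ) (σ : Fin (k + 1))
    (v : Fin (k + 1) → ℂ) : Fin (k + 1) → ℂ :=
  fun s => if s = σ then 0 else (v s - v σ) / (x s - (x σ / a σ) * a s)

lemma solveStep_spec (k : ℕ) (x a : Fin (k + 1) → ℂ) (ha : ∀ i, a i ≠ 0)
    (hxa : ∀ i j, i ≠ j → x i * a j ≠ x j * a i) (σ : Fin (k + 1)) (v : Fin (k + 1) → ℂ)
    (τ : Fin k → ℂ) :
    ∑ s, torChar k τ s * ((x s - (x σ / a σ) * a s) * solveStep k x a σ v s) =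
      ∑ s, torChar k τ s * v s := by
  have h1 : ∀ s, (x s - (x σ / a σ) * a s) * solveStep k x a σ v s = v s - v σ := by
    intro s
    unfold solveStep
    by_cases hs : s = σ
    · subst hs
      simp
    · rw [if_neg hs]
      have hd : x s - (x σ / a σ) * a s ≠ 0 := by
        intro h
        apply hxa s σ hs
        have := ha σ
        field_simp at h
        linear_combination h
      exact mul_div_cancel₀ _ hd
  simp only [h1, mul_sub, Finset.sum_sub_distrib]
  rw [← Finset.sum_mul, torChar_sum_zero]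
  ring

/-- the downward recursion -/
noncomputable def WW (k : ℕ) (x a : Fin (k + 1) → ℂ) (σ : Fin (k + 1)) (m : ℕ) (γ : ℕ → ℂ) :
    ℕ → Fin (k + 1) → ℂ
  | 0 => 0
  | n + 1 => solveStep k x a σ
      (fun s => a s * WW k x a σ m γ n s + if s = σ then γ (m - 1 - n) else 0)

theorem torus_solve (k : ℕ) (x a : Fin (k + 1) → ℂ) (ha : ∀ i, a i ≠ 0)
    (hxa : ∀ i j, i ≠ j → x i * a j ≠ x j * a i) (σ : Fin (k + 1)) (m : ℕ) (γ : ℕ → ℂ) :
    ∃ w : ℕ → Fin (k + 1) → ℂ, w m = 0 ∧ ∀ j, j < m → ∀ τ : Fin k → ℂ,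
      ∑ s, torChar k τ s * ((x s - (x σ / a σ) * a s) * w j s) =
        ∑ s, torChar k τ s * (a s * w (j + 1) s) + torChar k τ σ * γ j := by
  refine ⟨fun j => WW k x a σ m γ (m - j), ?_, ?_⟩
  · simp [WW]
  · intro j hj τ
    have h1 : m - j = (m - (j + 1)) + 1 := by omega
    have h2 : m - 1 - (m - (j + 1)) = j := by omega
    simp only [h1, WW]
    rw [solveStep_spec k x a ha hxa, h2]
    simp only [mul_add, Finset.sum_add_distrib, mul_ite, mul_zero, Finset.sum_ite_eq',
      Finset.mem_univ, if_true]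

end Pool.Agent.Helper783.JK
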