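import Pool.Agent.Helper783.JK.Defs
import Pool.Agent.Helper783.JK.P_mk_rectType
import Pool.Agent.Helper783.JK.P_hankel_pair
import Pool.Agent.Helper783.JK.P_hfam
import Pool.Agent.Helper783.JK.P_gen_block
import Pool.Agent.Helper783.JK.P_kron_vec
import Pool.Agent.Helper783.JK.P_torus_solve

open Module MvPolynomial Matrix

namespace Pool.Agent.Helper783.JK



lemma pm_torChar_add (k : ℕ) (τ τ' : Fin k → ℂ) (s : Fin (k + 1)) :
    torChar k (τ + τ') s = torChar k τ s + torChar k τ' s := by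
  unfold torChar
  split_ifs
  · rfl
  · simp only [Pi.add_apply, Finset.sum_add_distrib]
    ring

lemma pm_torChar_smul (k : ℕ) (c : ℂ) (τ : Fin k → ℂ) (s : Fin (k + 1)) :
    torChar k (c • τ) s = c * torChar k τ s := by
  unfold torChar
  split_ifs
  · rfl
  · simp only [Pi.smul_apply, smul_eq_mul, ← Finset.mul_sum]
    ring

lemma pm_torChar_zero (k : ℕ) (s : Fin (k + 1)) : torChar k (fun _ => 0) s = 0 := by
  unfold torChar
  split_ifs <;> simp

lemma pm_torChar_castSucc (k : ℕ) (τ : Fin k → ℂ) (i : Fin k) :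
    torChar k τ i.castSucc = τ i := by
  unfold torChar
  rw [dif_pos (show ((i.castSucc : Fin (k + 1)) : ℕ) < k from i.2)]
  rfl

lemma pm_torChar_last (k : ℕ) (τ : Fin k → ℂ) :
    torChar k τ (Fin.last k) = - ∑ i, τ i := by
  unfold torChar
  rw [dif_neg (show ¬ ((Fin.last k : Fin (k + 1)) : ℕ) < k from lt_irrefl k)]

lemma pm_torChar_sum (k : ℕ) (τ : Fin k → ℂ) (f : Fin (k + 1) → ℂ) :
    ∑ s, torChar k τ s * f s = ∑ i : Fin k, τ i * (f i.castSucc - f (Fin.last k)) := by
  rw [Fin.sum_univ_castSucc, pm_torChar_last]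
  simp only [pm_torChar_castSucc, mul_sub, Finset.sum_sub_distrib, ← Finset.sum_mul]
  ring

/-- quantities independent of `s` are killed -/
lemma pm_torChar_const (k : ℕ) (τ : Fin k → ℂ) (f : Fin (k + 1) → ℂ) (hf : ∀ i j, f i = f j) :
    ∑ s, torChar k τ s * f s = 0 := by
  rw [pm_torChar_sum]
  refine Finset.sum_eq_zero fun i _ => ?_
  rw [hf i.castSucc (Fin.last k)]
  ring

theorem pm_D {ι : Type} (k : ℕ) (χ : ι → Fin (k + 1)) :
    ∃ D : (Fin k → ℂ) →ₗ[ℂ] Module.End ℂ (ι → ℂ), ∀ τ v i, D τ v i = torChar k τ (χ i) * v i := by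
  refine ⟨LinearMap.mk₂ ℂ (fun (τ : Fin k → ℂ) (v : ι → ℂ) (i : ι) => torChar k τ (χ i) * v i)
    ?_ ?_ ?_ ?_, ?_⟩
  · intro τ τ' v
    funext i
    simp only [Pi.add_apply, pm_torChar_add]
    ring
  · intro c τ v
    funext i
    simp only [Pi.smul_apply, smul_eq_mul, pm_torChar_smul]
    ring
  · intro τ v v'
    funext i
    simp only [Pi.add_apply]
    ring
  · intro c τ v
    funext i
    simp only [Pi.smul_apply, smul_eq_mul]
    ring
  · intro τ v i
    rfl

lemma pm_HF_mul (m : ℕ) (h : ℕ → ℂ) (c : ℂ) (u v : Fin m → ℂ) :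
    HF m (fun n => c * h n) u v = HF m h u (fun j => c * v j) := by
  unfold HF
  refine Finset.sum_congr rfl fun i _ => Finset.sum_congr rfl fun j _ => ?_
  ring

theorem pm_action {β : Type} [Fintype β] (m : β → ℕ) (k : ℕ) (σ : β → Fin (k + 1)) :
    ∃ φ : (((Σ b, Fin (m b)) ⊕ Fin k) → ℂ) →ₗ[ℂ]
        Module.End ℂ (((Σ b, Fin (m b)) ⊕ Fin (k + 1)) → ℂ),
      (∀ u u', φ u * φ u' = φ u' * φ u) ∧
      ∀ (x : (Σ b, Fin (m b)) ⊕ Fin (k + 1) → ℂ) u v, x ⬝ᵥ (φ u v) =
        ∑ b, HF (m b) (hs m (fun b => Pi.single (σ b) 1) x b) (fun i => u (.inl ⟨b, i⟩))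
            (fun j => v (.inl ⟨b, j⟩)) +
          ∑ b, torChar k (fun i => u (.inr i)) (σ b) *
            ∑ j, x (.inl ⟨b, j⟩) * v (.inl ⟨b, j⟩) +
          ∑ s, torChar k (fun i => u (.inr i)) s * (x (.inr s) * v (.inr s)) := by
  classical
  obtain ⟨φ0, hc0, hφ0⟩ := hfam (ζ := Fin (k + 1)) m (fun b => Pi.single (σ b) 1)
  obtain ⟨D, hD⟩ := pm_D (ι := (Σ b, Fin (m b)) ⊕ Fin (k + 1)) k
    (Sum.elim (fun p => σ p.1) (fun s => s))
  have hDx : ∀ τ x y, x ⬝ᵥ (D τ y) = (D τ x) ⬝ᵥ y := by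
    intro τ x y
    simp only [dotProduct, hD]
    refine Finset.sum_congr rfl fun i _ => ?_
    ring
  have hhs : ∀ τ x b n, hs m (fun b => Pi.single (σ b) 1) (D τ x) b n =
      torChar k τ (σ b) * hs m (fun b => Pi.single (σ b) 1) x b n := by
    intro τ x b n
    unfold hs
    by_cases h1 : n < m b
    · rw [dif_pos h1, dif_pos h1, hD]
      rfl
    · rw [dif_neg h1, dif_neg h1]
      by_cases h2 : n = m b
      · rw [if_pos h2, if_pos h2]
        simp only [Pi.single_apply, mul_ite, mul_one, mul_zero, Finset.sum_ite_eq',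
          Finset.mem_univ, if_true, hD, Sum.elim_inr]
      · rw [if_neg h2, if_neg h2, mul_zero]
  have hcomm : ∀ u τ, φ0 u * D τ = D τ * φ0 u := by
    intro u τ
    refine LinearMap.ext fun v => ?_
    apply dotProduct_eq
    intro x
    rw [dotProduct_comm _ x, dotProduct_comm _ x]
    show x ⬝ᵥ (φ0 u (D τ v)) = x ⬝ᵥ (D τ (φ0 u v))
    rw [hDx, hφ0, hφ0]
    refine Finset.sum_congr rfl fun b _ => ?_
    have h1 : (hs m (fun b => Pi.single (σ b) 1) (D τ x) b) =
        fun n => torChar k τ (σ b) * hs m (fun b => Pi.single (σ b) 1) x b n :=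
      funext (hhs τ x b)
    rw [h1, pm_HF_mul]
    congr 1
    funext j
    rw [hD]
    rfl
  have hDD : ∀ τ τ', D τ * D τ' = D τ' * D τ := by
    intro τ τ'
    refine LinearMap.ext fun v => funext fun i => ?_
    show D τ (D τ' v) i = D τ' (D τ v) i
    simp only [hD]
    ring
  refine ⟨φ0 ∘ₗ (LinearMap.funLeft ℂ ℂ Sum.inl) + D ∘ₗ (LinearMap.funLeft ℂ ℂ Sum.inr), ?_, ?_⟩
  · intro u u'
    simp only [LinearMap.add_apply, LinearMap.comp_apply, mul_add, add_mul]
    rw [hc0, hDD, hcomm, ← hcomm]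
    abel
  · intro x u v
    simp only [LinearMap.add_apply, LinearMap.comp_apply, dotProduct_add]
    rw [hφ0, add_assoc]
    congr 1
    simp only [dotProduct, hD, Fintype.sum_sum_type, Fintype.sum_sigma, Sum.elim_inl,
      Sum.elim_inr]
    congr 1
    · refine Finset.sum_congr rfl fun b _ => ?_
      rw [Finset.mul_sum]
      refine Finset.sum_congr rfl fun j _ => ?_
      show _ * (torChar k (fun i => u (.inr i)) (σ b) * _) = _
      ring
    · refine Finset.sum_congr rfl fun s _ => ?_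
      show _ * (torChar k (fun i => u (.inr i)) s * _) = _
      ring

theorem pm_gen {β : Type} [Fintype β] (m : β → ℕ) (hm : ∀ b, 0 < m b) (k : ℕ)
    (σ : β → Fin (k + 1)) :
    Gen ((Σ b, Fin (m b)) ⊕ Fin (k + 1)) (fun x a =>
      (∀ b, hs m (fun b => Pi.single (σ b) 1) a b (m b) ≠ 0 ∧
        hs m (fun b => Pi.single (σ b) 1) x b (m b - 1) *
            hs m (fun b => Pi.single (σ b) 1) a b (m b) -
          hs m (fun b => Pi.single (σ b) 1) a b (m b - 1) *
            hs m (fun b => Pi.single (σ b) 1) x b (m b) ≠ 0) ∧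
      (∀ s, a (.inr s) ≠ 0) ∧
      ∀ i j, i ≠ j → x (.inr i) * a (.inr j) ≠ x (.inr j) * a (.inr i)) := by
  classical
  refine (gen_block m hm _ ?_).and (Gen.and ?_ ?_)
  · intro b h
    have := congrFun h (σ b)
    simp at this
  · refine Gen.all fun s => ⟨X (.inr (.inr s)), X_ne_zero _, fun x a h => ?_⟩
    rwa [eval_X] at h
  · have h1 : Gen ((Σ b, Fin (m b)) ⊕ Fin (k + 1)) (fun x a =>
        ∀ p : {p : Fin (k + 1) × Fin (k + 1) // p.1 ≠ p.2},
          x (.inr p.1.1) * a (.inr p.1.2) ≠ x (.inr p.1.2) * a (.inr p.1.1)) := by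
      refine Gen.all fun p => ?_
      obtain ⟨⟨i, j⟩, hij⟩ := p
      have hij' : i ≠ j := hij
      refine ⟨X (.inl (.inr i)) * X (.inr (.inr j)) - X (.inl (.inr j)) * X (.inr (.inr i)),
        ?_, ?_⟩
      · intro h0
        have h2 := congrArg (eval (Sum.elim (Pi.single (.inr i) 1) (Pi.single (.inr j) 1) :
          (((Σ b, Fin (m b)) ⊕ Fin (k + 1)) ⊕ ((Σ b, Fin (m b)) ⊕ Fin (k + 1))) → ℂ)) h0
        simp [Pi.single_apply, hij', hij'.symm] at h2
      · intro x a h h3
        apply h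
        simp only [map_sub, map_mul, eval_X, Sum.elim_inl, Sum.elim_inr]
        exact sub_eq_zero.2 h3
    exact h1.mono fun x a h i j hij => h ⟨(i, j), hij⟩

theorem pm_tau (k : ℕ) (a : Fin (k + 1) → ℂ) (ha : ∀ i, a i ≠ 0) (v : ℕ → Fin (k + 1) → ℂ)
    (hv : LinearIndependent ℂ (fun s : Fin (k + 1) => v s))
    (hk : ∀ i j, a i * v k i = a j * v k j) :
    ∃ τ : ℕ → Fin k → ℂ, ∀ r < k, ∀ s < k,
      ∑ i, torChar k (τ r) i * (a i * v s i) = if s = r then 1 else 0 := by
  classical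
  set M : Matrix (Fin k) (Fin k) ℂ := fun i s =>
    a i.castSucc * v s i.castSucc - a (Fin.last k) * v s (Fin.last k) with hM
  have hdet : M.det ≠ 0 := by
    intro hdet
    obtain ⟨β, hβ, hMβ⟩ := Matrix.exists_mulVec_eq_zero_iff.2 hdet
    -- `v k` is nonzero at the last coordinate
    have hvk : v k (Fin.last k) ≠ 0 := by
      intro h0
      have h1 : v k = 0 := by
        funext i
        have h2 := hk i (Fin.last k)
        rw [h0, mul_zero] at h2
        exact (mul_eq_zero.1 h2).resolve_left (ha i)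
      have h3 := hv.ne_zero (Fin.last k)
      apply h3
      show v ((Fin.last k : Fin (k + 1)) : ℕ) = 0
      rw [Fin.val_last]
      exact h1
    set y : Fin (k + 1) → ℂ := fun i => ∑ s : Fin k, β s * v s i with hy
    have hyc : ∀ i : Fin (k + 1), a i * y i = a (Fin.last k) * y (Fin.last k) := by
      intro i
      refine Fin.lastCases rfl (fun i => ?_) i
      have h1 := congrFun hMβ i
      simp only [Matrix.mulVec, dotProduct, hM, Pi.zero_apply, sub_mul,
        Finset.sum_sub_distrib] at h1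
      rw [sub_eq_zero] at h1
      simp only [hy, Finset.mul_sum]
      convert h1 using 2
      · ring
      · ring
    set c : ℂ := y (Fin.last k) / v k (Fin.last k) with hc
    have hyv : ∀ i, y i = c * v k i := by
      intro i
      have h1 := hyc i
      have h2 := hk i (Fin.last k)
      have h3 : a i * (y i * v k (Fin.last k)) = a i * (v k i * y (Fin.last k)) := by
        calc a i * (y i * v k (Fin.last k)) = (a i * y i) * v k (Fin.last k) := by ring
          _ = (a (Fin.last k) * y (Fin.last k)) * v k (Fin.last k) := by rw [h1]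
          _ = (a (Fin.last k) * v k (Fin.last k)) * y (Fin.last k) := by ring
          _ = (a i * v k i) * y (Fin.last k) := by rw [h2]
          _ = a i * (v k i * y (Fin.last k)) := by ring
      have h4 := mul_left_cancel₀ (ha i) h3
      rw [hc]
      field_simp
      linear_combination h4
    -- contradiction with independence
    rw [Fintype.linearIndependent_iff] at hv
    have h5 := hv (fun s : Fin (k + 1) => Fin.lastCases (motive := fun _ => ℂ) (-c) β s) (by
      rw [Fin.sum_univ_castSucc]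
      simp only [Fin.lastCases_castSucc, Fin.lastCases_last, Fin.val_last, Fin.val_castSucc]
      funext i
      simp only [Pi.add_apply, Finset.sum_apply, Pi.smul_apply, smul_eq_mul, Pi.zero_apply]
      have := hyv i
      simp only [hy] at this
      rw [this]
      ring)
    apply hβ
    funext s
    have h6 := h5 s.castSucc
    simpa using h6
  have hunit : IsUnit M.det := isUnit_iff_ne_zero.2 hdet
  refine ⟨fun r i => if h : r < k then M⁻¹ ⟨r, h⟩ i else 0, fun r hr s hs => ?_⟩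
  rw [pm_torChar_sum]
  simp only [dif_pos hr]
  have h1 := congrFun (congrFun (Matrix.nonsing_inv_mul M hunit) ⟨r, hr⟩) ⟨s, hs⟩
  rw [Matrix.mul_apply, Matrix.one_apply] at h1
  simp only [hM] at h1 ⊢
  rw [h1]
  by_cases h : s = r
  · rw [if_pos h, if_pos (by subst h; rfl)]
  · rw [if_neg h, if_neg (fun h' => h (by simpa using (congrArg Fin.val h').symm))]

theorem pm_point (T : JKType) (c0 : T.κ) (hκ : ∀ c, c = c0)
    (σ : T.E → Fin (T.k c0 + 1))
    (φ : (((Σ b, Fin (T.m b)) ⊕ Fin (T.k c0)) → ℂ) →ₗ[ℂ]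
        Module.End ℂ (((Σ b, Fin (T.m b)) ⊕ Fin (T.k c0 + 1)) → ℂ))
    (hφ : ∀ (x : (Σ b, Fin (T.m b)) ⊕ Fin (T.k c0 + 1) → ℂ) u v, x ⬝ᵥ (φ u v) =
        ∑ b, HF (T.m b) (hs T.m (fun b => Pi.single (σ (T.ev b)) 1) x b)
            (fun i => u (.inl ⟨b, i⟩)) (fun j => v (.inl ⟨b, j⟩)) +
          ∑ b, torChar (T.k c0) (fun i => u (.inr i)) (σ (T.ev b)) *
            ∑ j, x (.inl ⟨b, j⟩) * v (.inl ⟨b, j⟩) +
          ∑ s, torChar (T.k c0) (fun i => u (.inr i)) s * (x (.inr s) * v (.inr s)))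
    (x a : (Σ b, Fin (T.m b)) ⊕ Fin (T.k c0 + 1) → ℂ)
    (hga : ∀ b, hs T.m (fun b => Pi.single (σ (T.ev b)) 1) a b (T.m b) ≠ 0 ∧
        hs T.m (fun b => Pi.single (σ (T.ev b)) 1) x b (T.m b - 1) *
            hs T.m (fun b => Pi.single (σ (T.ev b)) 1) a b (T.m b) -
          hs T.m (fun b => Pi.single (σ (T.ev b)) 1) a b (T.m b - 1) *
            hs T.m (fun b => Pi.single (σ (T.ev b)) 1) x b (T.m b) ≠ 0)
    (ha : ∀ s, a (.inr s) ≠ 0)
    (hxa : ∀ i j, i ≠ j → x (.inr i) * a (.inr j) ≠ x (.inr j) * a (.inr i)) :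
    RectType T φ (fun e => Sum.elim 0 (Pi.single (σ e) 1)) x a := by
  classical
  have hsm : ∀ (y : (Σ b, Fin (T.m b)) ⊕ Fin (T.k c0 + 1) → ℂ) b,
      hs T.m (fun b => Pi.single (σ (T.ev b)) 1) y b (T.m b) = y (.inr (σ (T.ev b))) := by
    intro y b
    simp [hs, Pi.single_apply]
  have hdot : ∀ (y : (Σ b, Fin (T.m b)) ⊕ Fin (T.k c0 + 1) → ℂ) e,
      y ⬝ᵥ (Sum.elim 0 (Pi.single (σ e) 1) : _ → ℂ) = y (.inr (σ e)) := by
    intro y e
    simp [dotProduct, Pi.single_apply]
  have hkc : ∀ c, T.k c = T.k c0 := fun c => by rw [hκ c]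
  obtain ⟨v, hv, hv0, hvk, hvs⟩ := kron_vec (T.k c0) (fun s => x (.inr s)) (fun s => a (.inr s))
    ha hxa
  obtain ⟨τ, hτ⟩ := pm_tau (T.k c0) (fun s => a (.inr s)) ha v hv hvk
  have hpair : ∀ b, ∃ (p q : Fin (T.m b) → Fin (T.m b) → ℂ),
      (∀ i j, HF (T.m b) (hs T.m (fun b => Pi.single (σ (T.ev b)) 1) x b) (p i) (q j) =
        if (i : ℕ) = (j : ℕ) then x (.inr (σ (T.ev b))) / a (.inr (σ (T.ev b)))
        else if (i : ℕ) = (j : ℕ) + 1 then 1 else 0) ∧
      (∀ i j, HF (T.m b) (hs T.m (fun b => Pi.single (σ (T.ev b)) 1) a b) (p i) (q j) =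
        if (i : ℕ) = (j : ℕ) then 1 else 0) := by
    intro b
    have hz : ∀ (y : (Σ b, Fin (T.m b)) ⊕ Fin (T.k c0 + 1) → ℂ) n, T.m b < n →
        hs T.m (fun b => Pi.single (σ (T.ev b)) 1) y b n = 0 := by
      intro y n hn
      unfold hs
      rw [dif_neg (by omega), if_neg (by omega)]
    obtain ⟨p, q, γ, -, -, -, h1, h2, -⟩ := hankel_pair (T.m b) (T.m_pos b)
      (hs T.m (fun b => Pi.single (σ (T.ev b)) 1) x b)
      (hs T.m (fun b => Pi.single (σ (T.ev b)) 1) a b) (hz x) (hz a) (hga b).1 (hga b).2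
    refine ⟨p, q, fun i j => ?_, h2⟩
    rw [h1, hsm, hsm]
  choose p q hp1 hp2 using hpair
  set t : T.β → ℂ := fun b => x (.inr (σ (T.ev b))) / a (.inr (σ (T.ev b))) with ht
  set al : T.β → ℕ → ℂ := fun b j =>
    if h : j < T.m b then ∑ j', x (.inl ⟨b, j'⟩) * q b ⟨j, h⟩ j' else 0 with hal
  set be : T.β → ℕ → ℂ := fun b j =>
    if h : j < T.m b then ∑ j', a (.inl ⟨b, j'⟩) * q b ⟨j, h⟩ j' else 0 with hbe
  have hw' := fun b => torus_solve (T.k c0) (fun s => x (.inr s)) (fun s => a (.inr s)) ha hxa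
    (σ (T.ev b)) (T.m b) (fun j => al b j - t b * be b j - be b (j + 1))
  choose w hw0 hw using hw'
  set ζ : T.β → ℕ → (Fin (T.k c0) → ℂ) → ℂ := fun b j θ =>
    torChar (T.k c0) θ (σ (T.ev b)) * be b j -
      ∑ s, torChar (T.k c0) θ s * (a (.inr s) * w b j s) with hζ
  have hζ0 : ∀ b θ, ζ b (T.m b) θ = 0 := by
    intro b θ
    simp only [hζ, hbe, hw0, lt_irrefl, dite_false, Pi.zero_apply, mul_zero,
      Finset.sum_const_zero, sub_zero]
  set P : (b : T.β) → Fin (T.m b) → ((Σ b, Fin (T.m b)) ⊕ Fin (T.k c0)) → ℂ :=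
    fun b i => Sum.elim (emb b (p b i)) 0 with hP
  set R : ℕ → ((Σ b, Fin (T.m b)) ⊕ Fin (T.k c0)) → ℂ := fun r =>
    (Sum.elim 0 (τ r) : ((Σ b, Fin (T.m b)) ⊕ Fin (T.k c0)) → ℂ) -
      ∑ b, ∑ j : Fin (T.m b), ζ b j (τ r) • P b j with hR
  set C : (b : T.β) → Fin (T.m b) → ((Σ b, Fin (T.m b)) ⊕ Fin (T.k c0 + 1)) → ℂ :=
    fun b j => Sum.elim (emb b (q b j)) (- w b j) with hC
  have F1 : ∀ y b i (V : ((Σ b, Fin (T.m b)) ⊕ Fin (T.k c0 + 1)) → ℂ), y ⬝ᵥ (φ (P b i) V) =
      HF (T.m b) (hs T.m (fun b => Pi.single (σ (T.ev b)) 1) y b) (p b i)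
        (fun j => V (.inl ⟨b, j⟩)) := by
    intro y b i V
    rw [hφ]
    have h1 : (fun i' : Fin (T.k c0) => P b i (.inr i')) = fun _ => 0 := rfl
    rw [h1]
    simp only [pm_torChar_zero, zero_mul, Finset.sum_const_zero, add_zero]
    exact sum_HF_emb (fun b => hs T.m (fun b => Pi.single (σ (T.ev b)) 1) y b) b (p b i)
      (fun b j => V (.inl ⟨b, j⟩))
  have F2 : ∀ y θ (V : ((Σ b, Fin (T.m b)) ⊕ Fin (T.k c0 + 1)) → ℂ),
      y ⬝ᵥ (φ (Sum.elim 0 θ) V) =
        ∑ b, torChar (T.k c0) θ (σ (T.ev b)) * ∑ j, y (.inl ⟨b, j⟩) * V (.inl ⟨b, j⟩) +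
          ∑ s, torChar (T.k c0) θ s * (y (.inr s) * V (.inr s)) := by
    intro y θ V
    rw [hφ]
    have h1 : ∀ b : T.β, (fun i : Fin (T.m b) => (Sum.elim 0 θ :
        ((Σ b, Fin (T.m b)) ⊕ Fin (T.k c0)) → ℂ) (.inl ⟨b, i⟩)) = fun _ => 0 := fun b => rfl
    simp only [h1, HF_zero_left, Finset.sum_const_zero, zero_add]
    rfl
  have F3 : ∀ y r (V : ((Σ b, Fin (T.m b)) ⊕ Fin (T.k c0 + 1)) → ℂ), y ⬝ᵥ (φ (R r) V) =
      y ⬝ᵥ (φ (Sum.elim 0 (τ r)) V) -
        ∑ b, ∑ j : Fin (T.m b), ζ b j (τ r) * (y ⬝ᵥ (φ (P b j) V)) := by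
    intro y r V
    simp only [hR, map_sub, map_sum, map_smul, LinearMap.sub_apply, LinearMap.sum_apply,
      LinearMap.smul_apply, dotProduct_sub, dotProduct_sum, dotProduct_smul, smul_eq_mul]
  -- columns of the Kronecker block
  have G1 : ∀ y b i s, y ⬝ᵥ (φ (P b i) (Sum.elim 0 (v s))) = 0 := by
    intro y b i s
    rw [F1]
    exact HF_zero_right _ _ _
  have G2 : ∀ y r s, y ⬝ᵥ (φ (R r) (Sum.elim 0 (v s))) =
      ∑ i, torChar (T.k c0) (τ r) i * (y (.inr i) * v s i) := by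
    intro y r s
    rw [F3, F2]
    simp only [G1, mul_zero, Finset.sum_const_zero, sub_zero, Sum.elim_inl, Sum.elim_inr,
      Pi.zero_apply, zero_add]
  have G2a : ∀ r < T.k c0, ∀ s ≤ T.k c0, a ⬝ᵥ (φ (R r) (Sum.elim 0 (v s))) =
      if s = r then 1 else 0 := by
    intro r hr s hs
    rw [G2]
    rcases hs.lt_or_eq with h | h
    · exact hτ r hr s h
    · subst h
      rw [if_neg (by omega)]
      exact pm_torChar_const _ _ (fun i => a (.inr i) * v (T.k c0) i) hvk
  have G2x : ∀ r < T.k c0, ∀ s ≤ T.k c0, x ⬝ᵥ (φ (R r) (Sum.elim 0 (v s))) =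
      if s = r + 1 then 1 else 0 := by
    intro r hr s hs
    rw [G2]
    rcases s with _ | s
    · rw [if_neg (by omega)]
      exact pm_torChar_const _ _ (fun i => x (.inr i) * v 0 i) hv0
    · have h1 := pm_torChar_const (T.k c0) (τ r)
        (fun i => x (.inr i) * v (s + 1) i - a (.inr i) * v s i) (hvs s (by omega))
      have h2 := hτ r hr s (by omega)
      have h3 : ∑ i, torChar (T.k c0) (τ r) i * (x (.inr i) * v (s + 1) i) =
          ∑ i, torChar (T.k c0) (τ r) i * (a (.inr i) * v s i) := by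
        rw [← sub_eq_zero, ← Finset.sum_sub_distrib, ← h1]
        refine Finset.sum_congr rfl fun i _ => ?_
        ring
      rw [h3, h2]
      by_cases h : s = r
      · rw [if_pos h, if_pos (by omega)]
      · rw [if_neg h, if_neg (by omega)]
  -- columns of the Jordan blocks
  have E1 : ∀ y b i b' j, y ⬝ᵥ (φ (P b i) (C b' j)) =
      if h : b = b' then HF (T.m b') (hs T.m (fun b => Pi.single (σ (T.ev b)) 1) y b')
        (p b' (h ▸ i)) (q b' j) else 0 := by
    intro y b i b' j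
    rw [F1]
    by_cases h : b = b'
    · subst h
      rw [dif_pos rfl]
      congr 1
      funext j'
      exact emb_self b (q b j) j'
    · rw [dif_neg h]
      have h1 : (fun j' : Fin (T.m b) => C b' j (.inl ⟨b, j'⟩)) = fun _ => 0 := by
        funext j'
        exact emb_ne b' b (q b' j) j' h
      rw [h1]
      exact HF_zero_right _ _ _
  have E2 : ∀ y θ b j, y ⬝ᵥ (φ (Sum.elim 0 θ) (C b j)) =
      torChar (T.k c0) θ (σ (T.ev b)) * ∑ j', y (.inl ⟨b, j'⟩) * q b j j' -
        ∑ s, torChar (T.k c0) θ s * (y (.inr s) * w b j s) := by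
    intro y θ b j
    rw [F2, sub_eq_add_neg]
    congr 1
    · rw [Finset.sum_eq_single b]
      · congr 1
        refine Finset.sum_congr rfl fun j' _ => ?_
        congr 1
        exact emb_self b (q b j) j'
      · intro b' _ hb'
        rw [Finset.sum_eq_zero, mul_zero]
        intro j' _
        have h1 : C b j (.inl ⟨b', j'⟩) = 0 := emb_ne b b' (q b j) j' hb'
        rw [h1, mul_zero]
      · intro h
        exact absurd (Finset.mem_univ b) h
    · rw [← Finset.sum_neg_distrib]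
      refine Finset.sum_congr rfl fun s _ => ?_
      simp only [hC, Sum.elim_inr, Pi.neg_apply]
      ring
  have E3 : ∀ y r b j, y ⬝ᵥ (φ (R r) (C b j)) =
      torChar (T.k c0) (τ r) (σ (T.ev b)) * ∑ j', y (.inl ⟨b, j'⟩) * q b j j' -
        ∑ s, torChar (T.k c0) (τ r) s * (y (.inr s) * w b j s) -
        ∑ i : Fin (T.m b), ζ b i (τ r) *
          HF (T.m b) (hs T.m (fun b => Pi.single (σ (T.ev b)) 1) y b) (p b i) (q b j) := by
    intro y r b j
    rw [F3, E2]
    congr 1
    rw [Finset.sum_eq_single b]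
    · refine Finset.sum_congr rfl fun i _ => ?_
      rw [E1, dif_pos rfl]
    · intro b' _ hb'
      refine Finset.sum_eq_zero fun i _ => ?_
      rw [E1, dif_neg hb', mul_zero]
    · intro h
      exact absurd (Finset.mem_univ b) h
  have E3a : ∀ r b j, a ⬝ᵥ (φ (R r) (C b j)) = 0 := by
    intro r b j
    rw [E3]
    have h1 : ∑ i : Fin (T.m b), ζ b i (τ r) *
        HF (T.m b) (hs T.m (fun b => Pi.single (σ (T.ev b)) 1) a b) (p b i) (q b j) =
        ζ b j (τ r) := by
      rw [Finset.sum_eq_single j]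
      · rw [hp2, if_pos rfl, mul_one]
      · intro i _ hi
        rw [hp2, if_neg (fun h => hi (Fin.ext h)), mul_zero]
      · intro h
        exact absurd (Finset.mem_univ j) h
    rw [h1]
    have h2 : be b j = ∑ j', a (.inl ⟨b, j'⟩) * q b j j' := by
      simp only [hbe]
      rw [dif_pos j.2]
    simp only [hζ]
    rw [h2]
    ring
  have E3x : ∀ r b j, x ⬝ᵥ (φ (R r) (C b j)) = 0 := by
    intro r b j
    rw [E3]
    have h1 : ∑ i : Fin (T.m b), ζ b i (τ r) *
        HF (T.m b) (hs T.m (fun b => Pi.single (σ (T.ev b)) 1) x b) (p b i) (q b j) =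
        t b * ζ b j (τ r) + ζ b (j + 1) (τ r) := by
      have h2 : ∀ i : Fin (T.m b), ζ b i (τ r) *
          HF (T.m b) (hs T.m (fun b => Pi.single (σ (T.ev b)) 1) x b) (p b i) (q b j) =
          (if i = j then t b * ζ b j (τ r) else 0) +
          (if (i : ℕ) = (j : ℕ) + 1 then ζ b (j + 1) (τ r) else 0) := by
        intro i
        rw [hp1]
        by_cases h3 : i = j
        · subst h3
          rw [if_pos rfl, if_pos rfl, if_neg (by omega), add_zero, mul_comm]
        · rw [if_neg (fun h => h3 (Fin.ext h)), if_neg h3, zero_add]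
          by_cases h4 : (i : ℕ) = (j : ℕ) + 1
          · rw [if_pos h4, if_pos h4, h4, mul_one]
          · rw [if_neg h4, if_neg h4, mul_zero]
      rw [Finset.sum_congr rfl fun i _ => h2 i, Finset.sum_add_distrib]
      congr 1
      · rw [Finset.sum_ite_eq']
        simp
      · by_cases h5 : (j : ℕ) + 1 < T.m b
        · rw [Finset.sum_eq_single ⟨(j : ℕ) + 1, h5⟩]
          · rw [if_pos rfl]
          · intro i _ hi
            rw [if_neg (fun h => hi (Fin.ext h))]
          · intro h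
            exact absurd (Finset.mem_univ _) h
        · have h6 : (j : ℕ) + 1 = T.m b := by
            have := j.2
            omega
          rw [h6, hζ0]
          exact Finset.sum_eq_zero fun i _ => by split_ifs <;> rfl
    rw [h1]
    have h2 : al b j = ∑ j', x (.inl ⟨b, j'⟩) * q b j j' := by
      simp only [hal]
      rw [dif_pos j.2]
    rw [← h2]
    have h3 := hw b j j.2 (τ r)
    have h4 : ∑ s, torChar (T.k c0) (τ r) s * ((x (.inr s) -
        (x (.inr (σ (T.ev b))) / a (.inr (σ (T.ev b)))) * a (.inr s)) * w b j s) =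
        ∑ s, torChar (T.k c0) (τ r) s * (x (.inr s) * w b j s) -
          t b * ∑ s, torChar (T.k c0) (τ r) s * (a (.inr s) * w b j s) := by
      rw [Finset.mul_sum, ← Finset.sum_sub_distrib]
      refine Finset.sum_congr rfl fun s _ => ?_
      simp only [ht]
      ring
    rw [h4] at h3
    simp only [hζ]
    linear_combination -h3
  refine mk_rectType T φ _ x a ?_ ?_ ?_
    (Sum.elim (fun cr => R cr.2) (fun bi => P bi.1 bi.2))
    (Sum.elim (fun cs => Sum.elim 0 (v cs.2)) (fun bj => C bj.1 bj.2)) ?_ ?_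
  · intro e
    rw [hdot]
    exact ha _
  · simp only [Fintype.card_sum, Fintype.card_sigma, Fintype.card_fin]
    have : ∑ c, T.k c = T.k c0 := by
      rw [Finset.sum_eq_single c0]
      · intro c _ hc
        exact absurd (hκ c) hc
      · intro h
        exact absurd (Finset.mem_univ c0) h
    rw [this]
    ring
  · simp only [Fintype.card_sum, Fintype.card_sigma, Fintype.card_fin]
    have : ∑ c, (T.k c + 1) = T.k c0 + 1 := by
      rw [Finset.sum_eq_single c0]
      · intro c _ hc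
        exact absurd (hκ c) hc
      · intro h
        exact absurd (Finset.mem_univ c0) h
    rw [this]
    ring
  · rintro (⟨c, r⟩ | ⟨b, i⟩) (⟨c', s⟩ | ⟨b', j⟩)
    · have hcc : c = c' := (hκ c).trans (hκ c').symm
      have hr : (r : ℕ) < T.k c0 := by rw [← hkc c]; exact r.2
      have hs : (s : ℕ) ≤ T.k c0 := by rw [← hkc c']; exact Nat.lt_succ_iff.1 s.2
      simp only [Sum.elim_inl, RA, RB]
      rw [G2x r hr s hs, G2a r hr s hs]
      constructor
      · by_cases h : (s : ℕ) = r + 1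
        · rw [if_pos h, if_pos ⟨hcc, h⟩]
        · rw [if_neg h, if_neg (fun h' => h h'.2)]
      · by_cases h : (s : ℕ) = r
        · rw [if_pos h, if_pos ⟨hcc, h⟩]
        · rw [if_neg h, if_neg (fun h' => h h'.2)]
    · exact ⟨E3x _ _ _, E3a _ _ _⟩
    · exact ⟨G1 _ _ _ _, G1 _ _ _ _⟩
    · simp only [Sum.elim_inr, RA, RB]
      rw [E1, E1]
      by_cases h : b = b'
      · subst h
        rw [dif_pos rfl, dif_pos rfl, if_pos rfl, if_pos rfl, hp1, hp2, hdot, hdot]
        exact ⟨rfl, rfl⟩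
      · rw [dif_neg h, dif_neg h, if_neg h, if_neg h]
        exact ⟨rfl, rfl⟩
  · haveI : Subsingleton {c : T.κ // T.k c = 0} :=
      ⟨fun c c' => Subtype.ext ((hκ c.1).trans (hκ c'.1).symm)⟩
    rw [linearIndependent_subsingleton_index_iff]
    intro c h0
    have h1 := hv.ne_zero 0
    apply h1
    funext i
    exact congrFun h0 (.inr i)

theorem piece_multi (T : JKType) (c0 : T.κ) (hκ : ∀ c, c = c0)
    (σ : T.E → Fin (T.k c0 + 1)) (hσ : Function.Injective σ) : RectReal T := by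
  classical
  obtain ⟨φ, hcomm, hφ⟩ := pm_action T.m (T.k c0) (fun b => σ (T.ev b))
  refine ⟨(Σ b, Fin (T.m b)) ⊕ Fin (T.k c0), (Σ b, Fin (T.m b)) ⊕ Fin (T.k c0 + 1),
    inferInstance, inferInstance, φ, fun e => Sum.elim 0 (Pi.single (σ e) 1), hcomm, ?_, ?_⟩
  · intro e e' hne
    refine ⟨.inr (σ e), .inr (σ e'), ?_⟩
    have h1 : σ e ≠ σ e' := fun h => hne (hσ h)
    simp [Pi.single_apply, h1, h1.symm]
  · refine (pm_gen T.m T.m_pos (T.k c0) (fun b => σ (T.ev b))).mono ?_
    rintro x a ⟨h1, h2, h3⟩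
    exact pm_point T c0 hκ σ φ hφ x a h1 h2 h3

end Pool.Agent.Helper783.JK
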