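import Pool.Agent.Helper783.JK.Defs
import Pool.Agent.Helper783.JK.P_mk_rectType
import Pool.Agent.Helper783.JK.P_hankel_pair
import Pool.Agent.Helper783.JK.P_hfam
import Pool.Agent.Helper783.JK.P_gen_block

open Module MvPolynomial Matrix

namespace Pool.Agent.Helper783.JK



/-- the action with an extra element acting as the identity -/
noncomputable def p3_phi {S ι : Type} (φ0 : (S → ℂ) →ₗ[ℂ] Module.End ℂ (ι → ℂ)) :
    ((S ⊕ Unit) → ℂ) →ₗ[ℂ] Module.End ℂ (ι → ℂ) :=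
  φ0.comp (LinearMap.funLeft ℂ ℂ Sum.inl) +
    (LinearMap.proj (R := ℂ) (φ := fun _ : S ⊕ Unit => ℂ) (Sum.inr ())).smulRight
      (1 : Module.End ℂ (ι → ℂ))

theorem p3_phi_eq {S ι : Type} (φ0 : (S → ℂ) →ₗ[ℂ] Module.End ℂ (ι → ℂ)) (u : (S ⊕ Unit) → ℂ) :
    p3_phi φ0 u = φ0 (fun s => u (.inl s)) + u (.inr ()) • (1 : Module.End ℂ (ι → ℂ)) := rfl

theorem p3_comm {S ι : Type} (φ0 : (S → ℂ) →ₗ[ℂ] Module.End ℂ (ι → ℂ))
    (h : ∀ u u', φ0 u * φ0 u' = φ0 u' * φ0 u) (u u' : (S ⊕ Unit) → ℂ) :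
    p3_phi φ0 u * p3_phi φ0 u' = p3_phi φ0 u' * p3_phi φ0 u := by
  rw [p3_phi_eq, p3_phi_eq]
  have h1 : Commute (φ0 (fun s => u (.inl s))) (φ0 (fun s => u' (.inl s))) := h _ _
  have h2 : Commute (φ0 (fun s => u (.inl s)) + u (.inr ()) • (1 : Module.End ℂ (ι → ℂ)))
      (φ0 (fun s => u' (.inl s)) + u' (.inr ()) • (1 : Module.End ℂ (ι → ℂ))) := by
    apply Commute.add_left
    · exact h1.add_right ((Commute.one_right _).smul_right _)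
    · exact ((Commute.one_left _).smul_left _).add_right
        (((Commute.one_left _).smul_left _).smul_right _)
  exact h2

theorem p3_dot {S ι : Type} [Fintype ι] (φ0 : (S → ℂ) →ₗ[ℂ] Module.End ℂ (ι → ℂ))
    (x v : ι → ℂ) (u : (S ⊕ Unit) → ℂ) :
    x ⬝ᵥ (p3_phi φ0 u v) = x ⬝ᵥ (φ0 (fun s => u (.inl s)) v) + u (.inr ()) * (x ⬝ᵥ v) := by
  rw [p3_phi_eq]
  show x ⬝ᵥ (φ0 (fun s => u (.inl s)) v + u (.inr ()) • v) = _
  rw [dotProduct_add, dotProduct_smul, smul_eq_mul]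

theorem p3_dot2 {S : Type} [Fintype S] (x : S ⊕ Fin 2 → ℂ) (z0 z1 : ℂ) :
    x ⬝ᵥ (Sum.elim (fun _ => 0) ![z0, z1]) = x (.inr 0) * z0 + x (.inr 1) * z1 := by
  simp [dotProduct, Fintype.sum_sum_type, Fin.sum_univ_two]

theorem p3_hs {β : Type} (m : β → ℕ) (t : β → ℂ) (x : (Σ b, Fin (m b)) ⊕ Fin 2 → ℂ) (b : β) :
    hs m (fun b => ![1, t b]) x b (m b) = x (.inr 0) * 1 + x (.inr 1) * t b := by
  unfold hs
  rw [dif_neg (lt_irrefl _), if_pos rfl, Fin.sum_univ_two]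
  rfl

theorem p3_hs_gt {β : Type} (m : β → ℕ) (t : β → ℂ) (x : (Σ b, Fin (m b)) ⊕ Fin 2 → ℂ) (b : β)
    (n : ℕ) (hn : m b < n) : hs m (fun b => ![1, t b]) x b n = 0 := by
  unfold hs
  rw [dif_neg (by omega), if_neg (by omega)]

theorem p3_gen (S : Type) : Gen (S ⊕ Fin 2) (fun x a =>
    x (.inr 0) * a (.inr 1) - x (.inr 1) * a (.inr 0) ≠ 0) := by
  refine ⟨X (.inl (.inr 0)) * X (.inr (.inr 1)) - X (.inl (.inr 1)) * X (.inr (.inr 0)), ?_, ?_⟩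
  · intro h
    have h1 := congrArg (eval (Sum.elim (Sum.elim (fun _ : S => (0:ℂ)) ![1, 0])
      (Sum.elim (fun _ : S => (0:ℂ)) ![0, 1]))) h
    simp at h1
  · intro x a h
    simpa using h

theorem p3_point (T : JKType) (c0 : T.κ) (hκ : ∀ c, c = c0) (hk : T.k c0 = 1) (t : T.E → ℂ)
    (φ0 : ((Σ b, Fin (T.m b)) → ℂ) →ₗ[ℂ] Module.End ℂ (((Σ b, Fin (T.m b)) ⊕ Fin 2) → ℂ))
    (hφ0 : ∀ (x : (Σ b, Fin (T.m b)) ⊕ Fin 2 → ℂ) u v,
        x ⬝ᵥ (φ0 u v) =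
          ∑ b, HF (T.m b) (hs T.m (fun b => ![1, t (T.ev b)]) x b) (fun i => u ⟨b, i⟩)
            (fun j => v (.inl ⟨b, j⟩)))
    (x a : (Σ b, Fin (T.m b)) ⊕ Fin 2 → ℂ)
    (hb : ∀ b, hs T.m (fun b => ![1, t (T.ev b)]) a b (T.m b) ≠ 0 ∧
      hs T.m (fun b => ![1, t (T.ev b)]) x b (T.m b - 1) *
        hs T.m (fun b => ![1, t (T.ev b)]) a b (T.m b) -
      hs T.m (fun b => ![1, t (T.ev b)]) a b (T.m b - 1) *
        hs T.m (fun b => ![1, t (T.ev b)]) x b (T.m b) ≠ 0)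
    (hd : x (.inr 0) * a (.inr 1) - x (.inr 1) * a (.inr 0) ≠ 0) :
    RectType T (p3_phi φ0) (fun e => Sum.elim (fun _ => 0) ![1, t e]) x a := by
  classical
  have hℓ : ∀ (y : (Σ b, Fin (T.m b)) ⊕ Fin 2 → ℂ) (b : T.β),
      y ⬝ᵥ (Sum.elim (fun _ => 0) ![1, t (T.ev b)]) =
        hs T.m (fun b => ![1, t (T.ev b)]) y b (T.m b) := by
    intro y b
    rw [p3_dot2, p3_hs T.m (fun b => t (T.ev b))]
  choose P Q γ _ _ _ hA hB _ using fun b => hankel_pair (T.m b) (T.m_pos b)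
    (hs T.m (fun b => ![1, t (T.ev b)]) x b) (hs T.m (fun b => ![1, t (T.ev b)]) a b)
    (p3_hs_gt T.m (fun b => t (T.ev b)) x b) (p3_hs_gt T.m (fun b => t (T.ev b)) a b)
    (hb b).1 (hb b).2
  set d := x (.inr 0) * a (.inr 1) - x (.inr 1) * a (.inr 0) with hddef
  set w1 : (Σ b, Fin (T.m b)) ⊕ Fin 2 → ℂ :=
    Sum.elim (fun _ => 0) ![a (.inr 1) / d, -a (.inr 0) / d] with hw1
  set w0 : (Σ b, Fin (T.m b)) ⊕ Fin 2 → ℂ :=
    Sum.elim (fun _ => 0) ![-x (.inr 1) / d, x (.inr 0) / d] with hw0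
  have hxw1 : x ⬝ᵥ w1 = 1 := by
    rw [hw1, p3_dot2, ← mul_div_assoc, ← mul_div_assoc, ← add_div, div_eq_one_iff_eq hd, hddef]
    ring
  have haw1 : a ⬝ᵥ w1 = 0 := by
    rw [hw1, p3_dot2]
    field_simp
    ring
  have hxw0 : x ⬝ᵥ w0 = 0 := by
    rw [hw0, p3_dot2]
    field_simp
    ring
  have haw0 : a ⬝ᵥ w0 = 1 := by
    rw [hw0, p3_dot2, ← mul_div_assoc, ← mul_div_assoc, ← add_div, div_eq_one_iff_eq hd, hddef]
    ring
  let vv : (b : T.β) → Fin (T.m b) → ((Σ b, Fin (T.m b)) ⊕ Fin 2 → ℂ) :=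
    fun b j => Sum.elim (emb b (Q b j)) (fun _ => 0)
  let p : Row T → ((Σ b, Fin (T.m b)) ⊕ Unit → ℂ) := fun r => match r with
    | .inl _ => Sum.elim (fun _ => 0) (fun _ => 1)
    | .inr s => Sum.elim (emb s.1 (P s.1 s.2)) (fun _ => 0)
  let q : Col T → ((Σ b, Fin (T.m b)) ⊕ Fin 2 → ℂ) := fun c => match c with
    | .inl s => if (s.2 : ℕ) = 0 then w0 else w1
    | .inr s => vv s.1 s.2 - (x ⬝ᵥ vv s.1 s.2) • w1 - (a ⬝ᵥ vv s.1 s.2) • w0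
  have hform : ∀ (y : (Σ b, Fin (T.m b)) ⊕ Fin 2 → ℂ) (u : (Σ b, Fin (T.m b)) ⊕ Unit → ℂ)
      (v : (Σ b, Fin (T.m b)) ⊕ Fin 2 → ℂ), y ⬝ᵥ (p3_phi φ0 u v) =
      (∑ b, HF (T.m b) (hs T.m (fun b => ![1, t (T.ev b)]) y b) (fun i => u (.inl ⟨b, i⟩))
            (fun j => v (.inl ⟨b, j⟩))) + u (.inr ()) * (y ⬝ᵥ v) := by
    intro y u v
    rw [p3_dot, hφ0]
  have hrow1 : ∀ (y : (Σ b, Fin (T.m b)) ⊕ Fin 2 → ℂ) (s : Σ c : T.κ, Fin (T.k c))
      (v : (Σ b, Fin (T.m b)) ⊕ Fin 2 → ℂ), y ⬝ᵥ (p3_phi φ0 (p (.inl s)) v) = y ⬝ᵥ v := by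
    intro y s v
    rw [hform]
    have h1 : ∀ b, HF (T.m b) (hs T.m (fun b => ![1, t (T.ev b)]) y b)
        (fun i => p (.inl s) (.inl ⟨b, i⟩)) (fun j => v (.inl ⟨b, j⟩)) = 0 := by
      intro b
      exact HF_zero_left _ _ _
    rw [Finset.sum_eq_zero fun b _ => h1 b]
    show 0 + 1 * (y ⬝ᵥ v) = _
    rw [zero_add, one_mul]
  have hrow2 : ∀ (y : (Σ b, Fin (T.m b)) ⊕ Fin 2 → ℂ) (s : Σ b : T.β, Fin (T.m b))
      (v : (Σ b, Fin (T.m b)) ⊕ Fin 2 → ℂ), y ⬝ᵥ (p3_phi φ0 (p (.inr s)) v) =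
      HF (T.m s.1) (hs T.m (fun b => ![1, t (T.ev b)]) y s.1) (P s.1 s.2)
        (fun j => v (.inl ⟨s.1, j⟩)) := by
    intro y s v
    rw [hform]
    have h1 := sum_HF_emb (fun b => hs T.m (fun b => ![1, t (T.ev b)]) y b) s.1 (P s.1 s.2)
      (fun b j => v (.inl ⟨b, j⟩))
    have h2 : (∑ b, HF (T.m b) (hs T.m (fun b => ![1, t (T.ev b)]) y b)
        (fun i => p (.inr s) (.inl ⟨b, i⟩)) (fun j => v (.inl ⟨b, j⟩))) =
        HF (T.m s.1) (hs T.m (fun b => ![1, t (T.ev b)]) y s.1) (P s.1 s.2)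
          (fun j => v (.inl ⟨s.1, j⟩)) := h1
    rw [h2]
    show _ + 0 * (y ⬝ᵥ v) = _
    rw [zero_mul, add_zero]
  have hcol1 : ∀ (s : Σ c : T.κ, Fin (T.k c + 1)) (b : T.β),
      (fun j => q (.inl s) (.inl ⟨b, j⟩)) = fun _ : Fin (T.m b) => (0 : ℂ) := by
    intro s b
    funext j
    show (if (s.2 : ℕ) = 0 then w0 else w1) (.inl ⟨b, j⟩) = 0
    split_ifs <;> rfl
  have hcol2 : ∀ (s : Σ b : T.β, Fin (T.m b)) (b : T.β) (j : Fin (T.m b)),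
      q (.inr s) (.inl ⟨b, j⟩) = emb s.1 (Q s.1 s.2) ⟨b, j⟩ := by
    intro s b j
    show emb s.1 (Q s.1 s.2) ⟨b, j⟩ - (x ⬝ᵥ vv s.1 s.2) * 0 - (a ⬝ᵥ vv s.1 s.2) * 0 = _
    ring
  apply mk_rectType T (p3_phi φ0) (fun e => Sum.elim (fun _ => 0) ![1, t e]) x a ?_ ?_ ?_ p q
  · rintro (⟨c, i⟩ | ⟨b, i⟩) (⟨c', j⟩ | ⟨b', j⟩)
    · -- Kronecker row and column
      obtain rfl := hκ c
      obtain rfl := hκ c'
      have hi : (i : ℕ) = 0 := by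
        have := i.2
        omega
      have hj : (j : ℕ) = 0 ∨ (j : ℕ) = 1 := by
        have := j.2
        omega
      rw [hrow1 x ⟨c', i⟩, hrow1 a ⟨c', i⟩]
      show x ⬝ᵥ (if (j : ℕ) = 0 then w0 else w1) =
          (if c' = c' ∧ (j : ℕ) = (i : ℕ) + 1 then 1 else 0) ∧
        a ⬝ᵥ (if (j : ℕ) = 0 then w0 else w1) =
          (if c' = c' ∧ (j : ℕ) = (i : ℕ) then 1 else 0)
      rw [hi]
      rcases hj with hj | hj
      · rw [hj]
        simp [hxw0, haw0]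
      · rw [hj]
        simp [hxw1, haw1]
    · -- Kronecker row, Jordan column
      rw [hrow1 x ⟨c, i⟩, hrow1 a ⟨c, i⟩]
      show x ⬝ᵥ (vv b' j - (x ⬝ᵥ vv b' j) • w1 - (a ⬝ᵥ vv b' j) • w0) = 0 ∧
        a ⬝ᵥ (vv b' j - (x ⬝ᵥ vv b' j) • w1 - (a ⬝ᵥ vv b' j) • w0) = 0
      simp only [dotProduct_sub, dotProduct_smul, hxw1, hxw0, haw1, haw0, smul_eq_mul]
      constructor <;> ring
    · -- Jordan row, Kronecker column
      rw [hrow2 x ⟨b, i⟩, hrow2 a ⟨b, i⟩, hcol1 ⟨c', j⟩ b, HF_zero_right, HF_zero_right]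
      exact ⟨rfl, rfl⟩
    · -- Jordan row, Jordan column
      rw [hrow2 x ⟨b, i⟩, hrow2 a ⟨b, i⟩]
      by_cases hbb : b = b'
      · subst hbb
        have h1 : (fun j' => q (.inr ⟨b, j⟩) (.inl ⟨b, j'⟩)) = Q b j := by
          funext j'
          rw [hcol2]
          exact emb_self b (Q b j) j'
        have h2 : (fun j' => q (.inr ⟨b, j⟩) (.inl ⟨(⟨b, i⟩ : Σ b : T.β, Fin (T.m b)).1, j'⟩)) =
          Q b j := h1
        rw [h2]
        show HF (T.m b) (hs T.m (fun b => ![1, t (T.ev b)]) x b) (P b i) (Q b j) = _ ∧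
          HF (T.m b) (hs T.m (fun b => ![1, t (T.ev b)]) a b) (P b i) (Q b j) = _
        rw [hA b i j, hB b i j]
        unfold RA RB
        simp only [if_true, hℓ]
        exact ⟨trivial, trivial⟩
      · have h1 : (fun j' => q (.inr ⟨b', j⟩) (.inl ⟨b, j'⟩)) = fun _ : Fin (T.m b) => (0:ℂ) := by
          funext j'
          rw [hcol2]
          exact emb_ne b' b (Q b' j) j' hbb
        have h2 : (fun j' => q (.inr ⟨b', j⟩) (.inl ⟨(⟨b, i⟩ : Σ b : T.β, Fin (T.m b)).1, j'⟩)) =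
          fun _ : Fin (T.m b) => (0:ℂ) := h1
        rw [h2]
        show HF (T.m b) (hs T.m (fun b => ![1, t (T.ev b)]) x b) (P b i) (fun _ => 0) = _ ∧
          HF (T.m b) (hs T.m (fun b => ![1, t (T.ev b)]) a b) (P b i) (fun _ => 0) = _
        rw [HF_zero_right, HF_zero_right]
        unfold RA RB
        simp only [if_neg hbb]
        exact ⟨trivial, trivial⟩
  · have : IsEmpty {c : T.κ // T.k c = 0} := ⟨fun c => by
      have h1 := c.2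
      rw [hκ c.1, hk] at h1
      exact one_ne_zero h1⟩
    exact linearIndependent_empty_type
  · intro e
    obtain ⟨b, rfl⟩ := T.ev_surj e
    show a ⬝ᵥ (Sum.elim (fun _ => 0) ![1, t (T.ev b)]) ≠ 0
    rw [hℓ]
    exact (hb b).1
  · have h1 : ∑ c, T.k c = 1 := by
      rw [Fintype.sum_eq_single c0 (fun c hc => absurd (hκ c) hc), hk]
    simp only [Fintype.card_sum, Fintype.card_sigma, Fintype.card_fin, Fintype.card_unit, h1]
    rw [add_comm]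
  · have h1 : ∑ c, (T.k c + 1) = 2 := by
      rw [Fintype.sum_eq_single c0 (fun c hc => absurd (hκ c) hc), hk]
    simp only [Fintype.card_sum, Fintype.card_sigma, Fintype.card_fin, h1]
    rw [add_comm]

theorem piece_three (T : JKType) (c0 : T.κ) (hκ : ∀ c, c = c0) (hk : T.k c0 = 1) :
    RectReal T := by
  let t : T.E → ℂ := fun e => ((Fintype.equivFin T.E e : ℕ) : ℂ)
  have ht : Function.Injective t := by
    intro e e' h
    have h1 : (Fintype.equivFin T.E e : ℕ) = (Fintype.equivFin T.E e' : ℕ) := Nat.cast_injective h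
    exact (Fintype.equivFin T.E).injective (Fin.ext h1)
  obtain ⟨φ0, hcomm, hφ0⟩ := hfam T.m (fun b => ![(1:ℂ), t (T.ev b)])
  refine ⟨(Σ b, Fin (T.m b)) ⊕ Unit, (Σ b, Fin (T.m b)) ⊕ Fin 2, inferInstance, inferInstance,
    p3_phi φ0, fun e => Sum.elim (fun _ => 0) ![1, t e], p3_comm φ0 hcomm, ?_, ?_⟩
  · intro e e' hee
    refine ⟨.inr 0, .inr 1, ?_⟩
    show (1 : ℂ) * t e' ≠ t e * 1
    rw [one_mul, mul_one]
    exact fun h => hee (ht h).symm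
  · refine ((gen_block T.m T.m_pos (fun b => ![(1:ℂ), t (T.ev b)]) ?_).and
      (p3_gen (Σ b, Fin (T.m b)))).mono ?_
    · intro b h
      have h1 := congrFun h 0
      exact one_ne_zero h1
    · rintro x a ⟨h1, h2⟩
      exact p3_point T c0 hκ hk t φ0 hφ0 x a h1 h2

end Pool.Agent.Helper783.JK
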