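import Pool.Agent.Helper783.JK.Defs
import Pool.Agent.Helper783.JK.P_mk_rectType
import Pool.Agent.Helper783.JK.P_hankel_pair
import Pool.Agent.Helper783.JK.P_hfam
import Pool.Agent.Helper783.JK.P_gen_block

open Module MvPolynomial Matrix

namespace Pool.Agent.Helper783.JK



theorem piece_triv (T : JKType) (hk : ∀ c, T.k c = 0) (z : T.E → T.κ → ℂ) (hz0 : ∀ e, z e ≠ 0)
    (hz : ∀ e e', e ≠ e' → ∃ i j, z e i * z e' j ≠ z e j * z e' i) : RectReal T := by
  classical
  let w : T.β → T.κ → ℂ := fun b => z (T.ev b)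
  obtain ⟨φ, hcomm, hφ⟩ := hfam T.m w
  let ℓ : T.E → ((Σ b, Fin (T.m b)) ⊕ T.κ) → ℂ := fun e => Sum.elim (fun _ => 0) (z e)
  have hdot : ∀ (x : ((Σ b, Fin (T.m b)) ⊕ T.κ) → ℂ) (b : T.β),
      x ⬝ᵥ ℓ (T.ev b) = hs T.m w x b (T.m b) := by
    intro x b
    unfold hs
    rw [dif_neg (lt_irrefl _), if_pos rfl]
    simp only [dotProduct, Fintype.sum_sum_type, ℓ, Sum.elim_inl, Sum.elim_inr, mul_zero,
      Finset.sum_const_zero, zero_add]
    rfl
  refine ⟨(Σ b, Fin (T.m b)), ((Σ b, Fin (T.m b)) ⊕ T.κ), inferInstance, inferInstance, φ, ℓ,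
    hcomm, ?_, ?_⟩
  · intro e e' hne
    obtain ⟨i, j, h⟩ := hz e e' hne
    exact ⟨Sum.inr i, Sum.inr j, h⟩
  · refine (gen_block T.m T.m_pos w (fun b => hz0 (T.ev b))).mono ?_
    intro x a hxa
    have hvan : ∀ (y : ((Σ b, Fin (T.m b)) ⊕ T.κ) → ℂ) (b : T.β) (n : ℕ), T.m b < n →
        hs T.m w y b n = 0 := by
      intro y b n hn
      unfold hs
      rw [dif_neg (by omega), if_neg (by omega)]
    choose p q γ hγ hp hq hpq hqq hlast using fun b => hankel_pair (T.m b) (T.m_pos b)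
      (hs T.m w x b) (hs T.m w a b) (hvan x b) (hvan a b) (hxa b).1 (hxa b).2
    let P : Row T → (Σ b, Fin (T.m b)) → ℂ :=
      Sum.elim (fun _ => 0) (fun r => emb r.1 (p r.1 r.2))
    let Q : Col T → ((Σ b, Fin (T.m b)) ⊕ T.κ) → ℂ :=
      Sum.elim (fun c => Sum.elim (fun _ => 0) (Pi.single c.1 1))
        (fun r => Sum.elim (emb r.1 (q r.1 r.2)) (fun _ => 0))
    -- the general computation
    have hzero : ∀ (y : ((Σ b, Fin (T.m b)) ⊕ T.κ) → ℂ) (u : (Σ b, Fin (T.m b)) → ℂ)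
        (c : Σ c, Fin (T.k c + 1)), y ⬝ᵥ (φ u (Q (.inl c))) = 0 := by
      intro y u c
      rw [hφ]
      refine Finset.sum_eq_zero fun b _ => ?_
      exact HF_zero_right _ _ _
    have hmain : ∀ (y : ((Σ b, Fin (T.m b)) ⊕ T.κ) → ℂ) (b b' : T.β) (i : Fin (T.m b))
        (j : Fin (T.m b')), y ⬝ᵥ (φ (P (.inr ⟨b, i⟩)) (Q (.inr ⟨b', j⟩))) =
          HF (T.m b) (hs T.m w y b) (p b i) (fun l => emb b' (q b' j) ⟨b, l⟩) := by
      intro y b b' i j
      rw [hφ]
      exact sum_HF_emb (fun b'' => hs T.m w y b'') b (p b i)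
        (fun b'' l => emb b' (q b' j) ⟨b'', l⟩)
    have hsame : ∀ (b : T.β) (j : Fin (T.m b)), (fun l => emb b (q b j) ⟨b, l⟩) = q b j :=
      fun b j => funext fun l => emb_self b _ l
    have hdiff : ∀ (b b' : T.β) (j : Fin (T.m b')), b ≠ b' →
        (fun l : Fin (T.m b) => emb b' (q b' j) ⟨b, l⟩) = fun _ => 0 :=
      fun b b' j h => funext fun l => emb_ne b' b _ l h
    refine mk_rectType T φ ℓ x a ?_ ?_ ?_ P Q ?_ ?_
    · intro e
      obtain ⟨b, rfl⟩ := T.ev_surj e
      rw [hdot]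
      exact (hxa b).1
    · simp [Row, Fintype.card_sum, Fintype.card_sigma, hk]
    · simp [Col, Fintype.card_sum, Fintype.card_sigma, hk, add_comm]
    · intro r c
      rcases r with ⟨c', i⟩ | ⟨b, i⟩
      · have h1 := i.2
        have h2 := hk c'
        omega
      · rcases c with c | ⟨b', j⟩
        · rw [hzero, hzero]
          exact ⟨rfl, rfl⟩
        · rw [hmain, hmain]
          by_cases hbb : b = b'
          · subst hbb
            rw [hsame, hpq, hqq]
            constructor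
            · simp only [RA, if_true, hdot]
            · simp only [RB, if_true]
          · rw [hdiff b b' j hbb, HF_zero_right, HF_zero_right]
            constructor
            · simp only [RA, if_neg hbb]
            · simp only [RB, if_neg hbb]
    · let f : (((Σ b, Fin (T.m b)) ⊕ T.κ) → ℂ) →ₗ[ℂ] (T.κ → ℂ) := LinearMap.funLeft ℂ ℂ Sum.inr
      refine LinearIndependent.of_comp f ?_
      have h1 : LinearIndependent ℂ (fun c : T.κ => (Pi.single c (1 : ℂ) : T.κ → ℂ)) :=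
        Pi.linearIndependent_single_one T.κ ℂ
      exact h1.comp (fun c : {c : T.κ // T.k c = 0} => c.1) Subtype.val_injective

end Pool.Agent.Helper783.JK
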