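import Pool.Agent.Helper783.JK.Defs
import Pool.Agent.Helper783.JK.P_hankel_pair
import Pool.Agent.Helper783.JK.P_hfam
import Pool.Agent.Helper783.JK.P_gen_block
import Pool.Agent.Helper783.JK.P_mk_square

open Module MvPolynomial Matrix

namespace Pool.Agent.Helper783.JK



lemma HF_lin_left (m : ℕ) (h : ℕ → ℂ) (v : Fin m → ℂ) :
    ∃ L : (Fin m → ℂ) →ₗ[ℂ] ℂ, ∀ u, L u = HF m h u v := by
  refine ⟨{ toFun := fun u => HF m h u v, map_add' := ?_, map_smul' := ?_ }, fun u => rfl⟩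
  · intro u u'
    simp only [HF, Pi.add_apply, mul_add, add_mul, Finset.sum_add_distrib]
  · intro c u
    simp only [HF, Pi.smul_apply, smul_eq_mul, RingHom.id_apply, Finset.mul_sum]
    refine Finset.sum_congr rfl fun i _ => Finset.sum_congr rfl fun j _ => ?_
    ring

lemma HF_lin_right (m : ℕ) (h : ℕ → ℂ) (u : Fin m → ℂ) :
    ∃ L : (Fin m → ℂ) →ₗ[ℂ] ℂ, ∀ v, L v = HF m h u v := by
  refine ⟨{ toFun := fun v => HF m h u v, map_add' := ?_, map_smul' := ?_ }, fun u => rfl⟩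
  · intro v v'
    simp only [HF, Pi.add_apply, mul_add, Finset.sum_add_distrib]
  · intro c v
    simp only [HF, Pi.smul_apply, smul_eq_mul, RingHom.id_apply, Finset.mul_sum]
    refine Finset.sum_congr rfl fun i _ => Finset.sum_congr rfl fun j _ => ?_
    ring

lemma li_span {m : ℕ} {p : Fin m → Fin m → ℂ} (hp : LinearIndependent ℂ p) :
    Submodule.span ℂ (Set.range p) = ⊤ := by
  apply hp.span_eq_top_of_card_eq_finrank'
  simp

lemma chain_HF {m : ℕ} {h g : ℕ → ℂ} {p q : Fin m → Fin m → ℂ} (hp : LinearIndependent ℂ p)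
    (H1 : ∀ i j, HF m h (p i) (q j) =
        if (i : ℕ) = (j : ℕ) then h m / g m else if (i : ℕ) = (j : ℕ) + 1 then 1 else 0)
    (H2 : ∀ i j, HF m g (p i) (q j) = if (i : ℕ) = (j : ℕ) then 1 else 0)
    (u : Fin m → ℂ) (j : Fin m) :
    HF m h u (q j) = (h m / g m) * HF m g u (q j) +
      (if hj : (j : ℕ) + 1 < m then HF m g u (q ⟨(j : ℕ) + 1, hj⟩) else 0) := by
  obtain ⟨L1, hL1⟩ := HF_lin_left m h (q j)
  obtain ⟨L2, hL2⟩ := HF_lin_left m g (q j)
  by_cases hj : (j : ℕ) + 1 < m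
  · obtain ⟨L3, hL3⟩ := HF_lin_left m g (q ⟨(j : ℕ) + 1, hj⟩)
    rw [dif_pos hj, ← hL1, ← hL2, ← hL3]
    have : L1 = (h m / g m) • L2 + L3 := by
      apply LinearMap.ext_on_range (li_span hp)
      intro i
      simp only [LinearMap.add_apply, LinearMap.smul_apply, smul_eq_mul, hL1, hL2, hL3, H1, H2]
      by_cases h1 : (i : ℕ) = (j : ℕ)
      · have h2 : ¬ (i : ℕ) = (j : ℕ) + 1 := by omega
        simp [h1]
      · simp [h1]
    rw [this]
    simp
  · rw [dif_neg hj, ← hL1, ← hL2, add_zero]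
    have : L1 = (h m / g m) • L2 := by
      apply LinearMap.ext_on_range (li_span hp)
      intro i
      simp only [LinearMap.smul_apply, smul_eq_mul, hL1, hL2, H1, H2]
      by_cases h1 : (i : ℕ) = (j : ℕ)
      · simp [h1]
      · have h2 : ¬ (i : ℕ) = (j : ℕ) + 1 := by
          have := i.2; omega
        simp [h1, h2]
    rw [this]
    simp

lemma nondeg_HF {m : ℕ} {g : ℕ → ℂ} {p q : Fin m → Fin m → ℂ} (hq : LinearIndependent ℂ q)
    (H2 : ∀ i j, HF m g (p i) (q j) = if (i : ℕ) = (j : ℕ) then 1 else 0)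
    (v : Fin m → ℂ) (hv : ∀ i, HF m g (p i) v = 0) : v = 0 := by
  have hv' : v ∈ Submodule.span ℂ (Set.range q) := by rw [li_span hq]; trivial
  rw [Submodule.mem_span_range_iff_exists_fun] at hv'
  obtain ⟨c, rfl⟩ := hv'
  have : ∀ i, c i = 0 := by
    intro i
    have := hv i
    obtain ⟨L, hL⟩ := HF_lin_right m g (p i)
    have hL2 : ∀ j, L (c j • q j) = if (i : ℕ) = (j : ℕ) then c j else 0 := by
      intro j
      rw [map_smul, hL, H2, smul_eq_mul]
      split_ifs <;> simp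
    rw [← hL, map_sum, Finset.sum_congr rfl (fun j _ => hL2 j), Finset.sum_eq_single i] at this
    · simpa using this
    · intro b _ hb
      have : ¬ (i : ℕ) = (b : ℕ) := fun h => hb (Fin.ext h.symm)
      simp [this]
    · simp
  simp [this]

/-- the abstract chain argument -/
lemma big_chain {β ζ' : Type} [Fintype β] (m0 : β → ℕ) (b0 : β)
    (hm0 : ∀ b, 0 < m0 b) (hle : ∀ b, m0 b ≤ m0 b0)
    {V : Type} [AddCommGroup V] [Module ℂ V] (z : V) (Q : β → ℕ → V) (σ : β → ℕ → ℂ)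
    (hQ0 : ∀ b j, m0 b ≤ j → Q b j = 0) (hσ : σ b0 (m0 b0 - 1) ≠ 0)
    (X A : ζ' → V →ₗ[ℂ] ℂ) (t : ℂ)
    (hz : ∀ u, X u z = t * A u z)
    (hQ : ∀ b j u, j < m0 b → X u (Q b j) = t * A u (Q b j) + A u (Q b (j+1)) + σ b j * A u z)
    (hspan : ∀ v : V, v ∈ Submodule.span ℂ ({z} ∪ {y | ∃ b j, j < m0 b ∧ y = Q b j})) :
    ∃ c : β → ℕ → V, c b0 (m0 b0 + 1) = 0 ∧ (∀ b, b ≠ b0 → c b (m0 b) = 0) ∧
      (∀ b j u, X u (c b j) = t * A u (c b j) + A u (c b (j+1))) ∧
      (∀ (S : Submodule ℂ V), (∀ j, j < m0 b0 + 1 → c b0 j ∈ S) →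
        (∀ b, b ≠ b0 → ∀ j, j < m0 b → c b j ∈ S) → S = ⊤) := by
  classical
  let C : β → ℕ → V := fun b j => match j with
    | 0 => Q b 0
    | j+1 => if j < m0 b then Q b (j+1) + σ b j • z else 0
  have C0 : ∀ b, C b 0 = Q b 0 := fun b => rfl
  have CS : ∀ b j, C b (j+1) = if j < m0 b then Q b (j+1) + σ b j • z else 0 := fun b j => rfl
  have Cchain : ∀ b j u, X u (C b j) = t * A u (C b j) + A u (C b (j+1)) := by
    intro b j u
    have key : ∀ j, j < m0 b → X u (Q b j) = t * A u (Q b j) + A u (C b (j+1)) := by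
      intro j hj
      rw [hQ b j u hj, CS, if_pos hj, map_add, map_smul, smul_eq_mul]; ring
    rcases j with _ | j
    · rw [C0]; exact key 0 (hm0 b)
    · rw [CS b j]
      by_cases hj : j < m0 b
      · rw [if_pos hj]
        rcases lt_or_ge (j+1) (m0 b) with h | h
        · rw [map_add, map_add, map_smul, map_smul, hz, key (j+1) h]
          simp only [smul_eq_mul]; ring
        · rw [hQ0 b (j+1) h, CS, if_neg (not_lt.mpr h)]
          simp only [zero_add, map_smul, map_zero, add_zero, smul_eq_mul, hz]; ring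
      · rw [if_neg hj, CS, if_neg (by omega)]; simp
  have Clast : ∀ b, C b (m0 b) = σ b (m0 b - 1) • z := by
    intro b
    obtain ⟨k, hk⟩ : ∃ k, m0 b = k + 1 := ⟨m0 b - 1, by have := hm0 b; omega⟩
    rw [hk, CS, if_pos (by omega), hQ0 b (k+1) (by omega)]; simp
  have Cend : ∀ b, C b (m0 b + 1) = 0 := by
    intro b
    rw [CS, if_neg (by omega)]
  let r : β → ℂ := fun b => σ b (m0 b - 1) / σ b0 (m0 b0 - 1)
  refine ⟨fun b j => if b = b0 then C b0 j else C b j - r b • C b0 (j + (m0 b0 - m0 b)), ?_, ?_, ?_, ?_⟩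
  · simp [Cend]
  · intro b hb
    simp only [if_neg hb]
    have : m0 b + (m0 b0 - m0 b) = m0 b0 := by have := hle b; omega
    rw [this, Clast, Clast, smul_smul]
    simp only [r]
    rw [div_mul_cancel₀ _ hσ, sub_self]
  · intro b j u
    by_cases hb : b = b0
    · simp only [if_pos hb]; exact Cchain b0 j u
    · simp only [if_neg hb, map_sub, map_smul, smul_eq_mul, Cchain b j u, Cchain b0 _ u]
      have : j + (m0 b0 - m0 b) + 1 = j + 1 + (m0 b0 - m0 b) := by omega
      rw [this]; ring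
  · intro S h1 h2
    simp only [if_true] at h1
    have hzS : z ∈ S := by
      have := h1 (m0 b0) (by omega)
      rw [Clast] at this
      exact (Submodule.smul_mem_iff S hσ).mp this
    have hCQ : ∀ b, (∀ j, j < m0 b → C b j ∈ S) → ∀ j, j < m0 b → Q b j ∈ S := by
      intro b h j hj
      rcases j with _ | j
      · exact h 0 hj
      · have := h (j+1) hj
        rw [CS, if_pos (by omega)] at this
        have h3 : Q b (j+1) = (Q b (j+1) + σ b j • z) - σ b j • z := by abel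
        rw [h3]
        exact S.sub_mem this (S.smul_mem _ hzS)
    have hC : ∀ b, ∀ j, j < m0 b → C b j ∈ S := by
      intro b j hj
      by_cases hb : b = b0
      · subst hb; exact h1 j (by omega)
      · have := h2 b hb j hj
        simp only [if_neg hb] at this
        have h3 : C b j = (C b j - r b • C b0 (j + (m0 b0 - m0 b))) + r b • C b0 (j + (m0 b0 - m0 b)) := by
          abel
        rw [h3]
        refine S.add_mem this (S.smul_mem _ (h1 _ ?_))
        have := hle b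
        omega
    rw [eq_top_iff]
    intro v _
    refine Submodule.span_le.mpr ?_ (hspan v)
    rintro y (hy | ⟨b, j, hj, rfl⟩)
    · rw [Set.mem_singleton_iff] at hy; rw [hy]; exact hzS
    · exact hCQ b (hC b) j hj

theorem piece_unique_big (T : JKType) (hκ : IsEmpty T.κ) (e0 : T.E) (hE : ∀ e, e = e0)
    (b0 : T.β) (hb : ∀ b, b ≠ b0 → T.m b < T.m b0) (hb0 : 2 ≤ T.m b0) : RectReal T := by
  classical
  let m0 : T.β → ℕ := fun b => if b = b0 then T.m b - 1 else T.m b
  have m00 : m0 b0 = T.m b0 - 1 := by simp [m0]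
  have m0' : ∀ b, b ≠ b0 → m0 b = T.m b := fun b h => by simp [m0, h]
  have hm0 : ∀ b, 0 < m0 b := by
    intro b
    by_cases h : b = b0
    · rw [h, m00]; omega
    · rw [m0' b h]; exact T.m_pos b
  have hle : ∀ b, m0 b ≤ m0 b0 := by
    intro b
    by_cases h : b = b0
    · rw [h]
    · rw [m0' b h, m00]; have := hb b h; omega
  let w : T.β → Unit → ℂ := fun _ _ => 1
  have hw : ∀ b, w b ≠ 0 := fun b h => by
    have := congrFun h ()
    simp [w] at this
  obtain ⟨φ0, hφc, hφ⟩ := hfam m0 w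
  let φ : (((Σ b, Fin (m0 b)) ⊕ Unit) → ℂ) →ₗ[ℂ] Module.End ℂ (((Σ b, Fin (m0 b)) ⊕ Unit) → ℂ) :=
    φ0.comp (LinearMap.funLeft ℂ ℂ (Sum.inl : (Σ b, Fin (m0 b)) → _)) +
      (LinearMap.proj (Sum.inr ())).smulRight (1 : Module.End ℂ (((Σ b, Fin (m0 b)) ⊕ Unit) → ℂ))
  have φapp : ∀ u, φ u = φ0 (u ∘ Sum.inl) + u (Sum.inr ()) • 1 := fun u => rfl
  have φform : ∀ (x : ((Σ b, Fin (m0 b)) ⊕ Unit) → ℂ) u v, x ⬝ᵥ (φ u v) =
      (∑ b, HF (m0 b) (hs m0 w x b) (fun i => u (.inl ⟨b, i⟩)) (fun j => v (.inl ⟨b, j⟩))) +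
        u (.inr ()) * (x ⬝ᵥ v) := by
    intro x u v
    rw [φapp, LinearMap.add_apply, dotProduct_add, hφ, LinearMap.smul_apply, Module.End.one_apply,
      dotProduct_smul, smul_eq_mul]
    rfl
  let ℓ : T.E → ((Σ b, Fin (m0 b)) ⊕ Unit) → ℂ := fun _ => Sum.elim 0 1
  have hdz : ∀ x : ((Σ b, Fin (m0 b)) ⊕ Unit) → ℂ, x ⬝ᵥ (Sum.elim 0 1) = x (.inr ()) := by
    intro x
    simp [dotProduct]
  refine ⟨_, _, inferInstance, inferInstance, φ, ℓ, ?_, ?_, ?_⟩
  · intro u u'
    rw [φapp, φapp, add_mul, mul_add, mul_add, add_mul, mul_add, mul_add, hφc]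
    simp only [mul_smul_comm, smul_mul_assoc, mul_one, one_mul]
    rw [smul_comm]
    abel
  · intro e e' h
    exact absurd ((hE e).trans (hE e').symm) h
  refine (gen_block m0 hm0 w hw).mono ?_
  intro x a hxa
  have hsx : ∀ (x : ((Σ b, Fin (m0 b)) ⊕ Unit) → ℂ) b, hs m0 w x b (m0 b) = x (.inr ()) := by
    intro x b
    simp [hs, w]
  have haz : a (.inr ()) ≠ 0 := by
    have := (hxa b0).1
    rwa [hsx] at this
  have hgt : ∀ (x : ((Σ b, Fin (m0 b)) ⊕ Unit) → ℂ) b n, m0 b < n → hs m0 w x b n = 0 := by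
    intro x b n hn
    rw [hs, dif_neg (by omega), if_neg (by omega)]
  have hHP := fun b => hankel_pair (m0 b) (hm0 b) (hs m0 w x b) (hs m0 w a b) (hgt x b) (hgt a b)
    (hxa b).1 (hxa b).2
  choose p q γ hγ hp hq H1 H2 Hlast using hHP
  let z : ((Σ b, Fin (m0 b)) ⊕ Unit) → ℂ := Sum.elim 0 1
  let Q : T.β → ℕ → ((Σ b, Fin (m0 b)) ⊕ Unit) → ℂ := fun b j =>
    if h : j < m0 b then Sum.elim (emb b (q b ⟨j, h⟩)) 0 else 0
  have Qpos : ∀ b j (h : j < m0 b), Q b j = Sum.elim (emb b (q b ⟨j, h⟩)) 0 := fun b j h => dif_pos h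
  have Qneg : ∀ b j, m0 b ≤ j → Q b j = 0 := fun b j h => dif_neg (by omega)
  let t : ℂ := x (.inr ()) / a (.inr ())
  let σ : T.β → ℕ → ℂ := fun b j =>
    (x ⬝ᵥ Q b j - t * (a ⬝ᵥ Q b j) - a ⬝ᵥ Q b (j+1)) / a (.inr ())
  let F : (((Σ b, Fin (m0 b)) ⊕ Unit) → ℂ) → (((Σ b, Fin (m0 b)) ⊕ Unit) → ℂ) →
      (((Σ b, Fin (m0 b)) ⊕ Unit) → ℂ) →ₗ[ℂ] ℂ := fun y u =>
    { toFun := fun v => y ⬝ᵥ φ u v
      map_add' := fun v v' => by rw [map_add, dotProduct_add]
      map_smul' := fun c v => by rw [map_smul, dotProduct_smul]; rfl }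
  have Fapp : ∀ y u v, F y u v = y ⬝ᵥ φ u v := fun _ _ _ => rfl
  -- pairing with Q
  have HQ : ∀ (y : ((Σ b, Fin (m0 b)) ⊕ Unit) → ℂ) u b (v : Fin (m0 b) → ℂ),
      y ⬝ᵥ (φ u (Sum.elim (emb b v) 0)) =
        HF (m0 b) (hs m0 w y b) (fun i => u (.inl ⟨b, i⟩)) v +
          u (.inr ()) * (y ⬝ᵥ (Sum.elim (emb b v) 0)) := by
    intro y u b v
    rw [φform]
    congr 1
    rw [Finset.sum_eq_single b]
    · congr 1
      funext i
      exact emb_self b v i
    · intro b' _ hb'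
      have : (fun j => (Sum.elim (emb b v) 0 : ((Σ b, Fin (m0 b)) ⊕ Unit) → ℂ) (.inl ⟨b', j⟩)) =
          fun _ => (0:ℂ) := by
        funext i; exact emb_ne b b' v i hb'
      rw [this, HF_zero_right]
    · intro hb; exact absurd (Finset.mem_univ b) hb
  have Hz : ∀ (y : ((Σ b, Fin (m0 b)) ⊕ Unit) → ℂ) u, y ⬝ᵥ (φ u z) = u (.inr ()) * y (.inr ()) := by
    intro y u
    rw [φform, hdz]
    have : ∀ b, HF (m0 b) (hs m0 w y b) (fun i => u (.inl ⟨b, i⟩)) (fun j => z (.inl ⟨b, j⟩)) = 0 := by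
      intro b
      exact HF_zero_right _ _ _
    simp [this]
  have hσ : σ b0 (m0 b0 - 1) ≠ 0 := by
    have hlt : m0 b0 - 1 < m0 b0 := by have := hm0 b0; omega
    have e1 : Q b0 (m0 b0 - 1) = Sum.elim (emb b0 (γ b0 • (Pi.single ⟨m0 b0 - 1, hlt⟩ 1 :
        Fin (m0 b0) → ℂ))) 0 := by
      rw [Qpos b0 _ hlt, Hlast b0]
    have e2 : ∀ y : ((Σ b, Fin (m0 b)) ⊕ Unit) → ℂ, y ⬝ᵥ Q b0 (m0 b0 - 1) =
        γ b0 * y (.inl ⟨b0, ⟨m0 b0 - 1, hlt⟩⟩) := by
      intro y
      rw [e1]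
      simp only [dotProduct, Fintype.sum_sum_type, Sum.elim_inl, Sum.elim_inr, Pi.zero_apply,
        mul_zero, Finset.sum_const_zero, add_zero]
      rw [Finset.sum_eq_single (⟨b0, ⟨m0 b0 - 1, hlt⟩⟩ : Σ b, Fin (m0 b))]
      · rw [emb_self]; simp; ring
      · rintro ⟨b', i⟩ _ hne
        by_cases h : b' = b0
        · subst h
          rw [emb_self]
          have : i ≠ ⟨m0 b' - 1, hlt⟩ := by
            intro h; apply hne; rw [h]
          simp [this]
        · rw [emb_ne _ _ _ _ h]; simp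
      · intro h; exact absurd (Finset.mem_univ _) h
    have e3 : Q b0 (m0 b0 - 1 + 1) = 0 := Qneg _ _ (by omega)
    have hh := (hxa b0).2
    have e4 : ∀ y : ((Σ b, Fin (m0 b)) ⊕ Unit) → ℂ, hs m0 w y b0 (m0 b0 - 1) =
        y (.inl ⟨b0, ⟨m0 b0 - 1, hlt⟩⟩) := by
      intro y
      rw [hs, dif_pos hlt]
    rw [e4, e4, hsx, hsx] at hh
    simp only [σ]
    rw [e2, e2, e3, dotProduct_zero, sub_zero]
    refine div_ne_zero ?_ haz
    have : γ b0 * x (.inl ⟨b0, ⟨m0 b0 - 1, hlt⟩⟩) - t * (γ b0 * a (.inl ⟨b0, ⟨m0 b0 - 1, hlt⟩⟩)) =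
        γ b0 * (x (.inl ⟨b0, ⟨m0 b0 - 1, hlt⟩⟩) * a (.inr ()) -
          a (.inl ⟨b0, ⟨m0 b0 - 1, hlt⟩⟩) * x (.inr ())) / a (.inr ()) := by
      simp only [t]
      field_simp
    rw [this]
    exact div_ne_zero (mul_ne_zero (hγ b0) hh) haz
  obtain ⟨c, hc0, hc1, hc2, hc3⟩ := big_chain (V := ((Σ b, Fin (m0 b)) ⊕ Unit) → ℂ) m0 b0 hm0 hle z Q σ
    Qneg hσ (F x) (F a) t
    (by
      intro u
      rw [Fapp, Fapp, Hz, Hz]
      simp only [t]; field_simp)
    (by
      intro b j u hj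
      have hch := chain_HF (hp b) (H1 b) (H2 b) (fun i => u (.inl ⟨b, i⟩)) ⟨j, hj⟩
      rw [hsx, hsx] at hch
      rw [Fapp, Fapp, Fapp, Fapp, Hz]
      have e0 : σ b j * (u (.inr ()) * a (.inr ())) =
          u (.inr ()) * (x ⬝ᵥ Q b j - t * (a ⬝ᵥ Q b j) - a ⬝ᵥ Q b (j+1)) := by
        simp only [σ]; field_simp
      rw [e0, Qpos b j hj, HQ, HQ, hch]
      by_cases hj1 : j + 1 < m0 b
      · rw [dif_pos hj1, Qpos b (j+1) hj1, HQ]
        simp only [t]; ring
      · rw [dif_neg hj1, Qneg b (j+1) (by omega)]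
        simp only [map_zero, dotProduct_zero, t]; ring)
    (by
      intro v
      have hv : v = v (.inr ()) • z + ∑ b, Sum.elim (emb b (fun i => v (.inl ⟨b, i⟩))) 0 := by
        funext s
        rcases s with ⟨b, i⟩ | s
        · simp only [Pi.add_apply, Pi.smul_apply, Finset.sum_apply, Sum.elim_inl, z, Pi.zero_apply,
            smul_zero, zero_add]
          rw [Finset.sum_eq_single b]
          · rw [emb_self]
          · intro b' _ h
            rw [emb_ne _ _ _ _ h.symm]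
          · intro h; exact absurd (Finset.mem_univ _) h
        · simp [z]
      rw [hv]
      refine Submodule.add_mem _ (Submodule.smul_mem _ _ (Submodule.subset_span (Or.inl rfl))) ?_
      refine Submodule.sum_mem _ fun b _ => ?_
      have hmem : (fun i => v (.inl ⟨b, i⟩)) ∈ Submodule.span ℂ (Set.range (q b)) := by
        rw [li_span (hq b)]; trivial
      rw [Submodule.mem_span_range_iff_exists_fun] at hmem
      obtain ⟨d, hd⟩ := hmem
      rw [← hd]
      have : (Sum.elim (emb b (∑ i, d i • q b i)) 0 : ((Σ b, Fin (m0 b)) ⊕ Unit) → ℂ) =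
          ∑ i, d i • Q b i := by
        funext s
        rcases s with ⟨b', i⟩ | s
        · simp only [Sum.elim_inl, Finset.sum_apply, Pi.smul_apply, smul_eq_mul]
          by_cases h : b' = b
          · subst h
            rw [emb_self]
            simp only [Finset.sum_apply, Pi.smul_apply, smul_eq_mul]
            refine Finset.sum_congr rfl fun j _ => ?_
            rw [Qpos b' j j.2, Sum.elim_inl, emb_self]
          · rw [emb_ne _ _ _ _ h]
            symm
            refine Finset.sum_eq_zero fun j _ => ?_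
            rw [Qpos b j j.2, Sum.elim_inl, emb_ne _ _ _ _ h, mul_zero]
        · simp only [Sum.elim_inr, Pi.zero_apply, Finset.sum_apply, Pi.smul_apply, smul_eq_mul]
          symm
          refine Finset.sum_eq_zero fun j _ => ?_
          rw [Qpos b j j.2, Sum.elim_inr, Pi.zero_apply, mul_zero]
      rw [this]
      refine Submodule.sum_mem _ fun i _ => Submodule.smul_mem _ _ (Submodule.subset_span ?_)
      exact Or.inr ⟨b, i, i.2, rfl⟩)
  have hTm : T.m b0 = m0 b0 + 1 := by rw [m00]; omega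
  have hcard : Fintype.card ((Σ b, Fin (m0 b)) ⊕ Unit) = Fintype.card (Σ b, Fin (T.m b)) := by
    rw [Fintype.card_sum, Fintype.card_sigma, Fintype.card_sigma]
    simp only [Fintype.card_fin, Fintype.card_unit]
    rw [← Finset.add_sum_erase _ _ (Finset.mem_univ b0), ← Finset.add_sum_erase _ _ (Finset.mem_univ b0),
      hTm]
    have : ∑ b ∈ Finset.univ.erase b0, m0 b = ∑ b ∈ Finset.univ.erase b0, T.m b := by
      refine Finset.sum_congr rfl fun b hb => ?_
      exact m0' b (Finset.ne_of_mem_erase hb)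
    rw [this]; ring
  refine mk_square T hκ φ ℓ x a ?_ hcard hcard c ?_ ?_ ?_ ?_
  · intro e
    simp only [ℓ]
    rw [hdz]; exact haz
  · intro b
    by_cases h : b = b0
    · subst h; rw [hTm]; exact hc0
    · rw [← m0' b h]; exact hc1 b h
  · intro b j _ u
    simp only [ℓ]
    rw [hdz, hdz]
    exact hc2 b j u
  · intro v hv
    have hvb : ∀ b, (fun j => v (.inl ⟨b, j⟩)) = (0 : Fin (m0 b) → ℂ) := by
      intro b
      refine nondeg_HF (hq b) (H2 b) _ fun i => ?_
      have := hv (Sum.elim (emb b (p b i)) 0)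
      rw [φform] at this
      simp only [Sum.elim_inl, Sum.elim_inr, Pi.zero_apply, zero_mul, add_zero] at this
      rw [sum_HF_emb (fun b => hs m0 w a b) b (p b i) (fun b j => v (.inl ⟨b, j⟩))] at this
      exact this
    have hvz : v = v (.inr ()) • z := by
      funext s
      rcases s with ⟨b, i⟩ | s
      · simp only [Pi.smul_apply, z, Sum.elim_inl, Pi.zero_apply, smul_zero]
        exact congrFun (hvb b) i
      · simp [z]
    have h2 := hv (Sum.elim 0 1)
    rw [hvz, map_smul, dotProduct_smul, Hz] at h2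
    simp only [Sum.elim_inr, Pi.one_apply, one_mul, smul_eq_mul] at h2
    have h3 : v (.inr ()) = 0 := (mul_eq_zero.mp h2).resolve_right haz
    rw [hvz, h3, zero_smul]
  · rw [top_le_iff]
    refine hc3 _ ?_ ?_
    · intro j hj
      refine Submodule.subset_span ⟨⟨b0, ⟨j, by omega⟩⟩, rfl⟩
    · intro b hb j hj
      refine Submodule.subset_span ⟨⟨b, ⟨j, by rw [← m0' b hb]; exact hj⟩⟩, rfl⟩

end Pool.Agent.Helper783.JK
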