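import Pool.Agent.Helper783.JK.Defs
import Pool.Agent.Helper783.JK.P_mk_rectType
import Pool.Agent.Helper783.JK.P_piece_unique_big

open Module MvPolynomial Matrix

namespace Pool.Agent.Helper783.JK



theorem piece_unique_beta (T : JKType) (b0 : T.β) (hb : ∀ b, b ≠ b0 → T.m b < T.m b0)
    (h1 : T.m b0 = 1) (b : T.β) : b = b0 := by
  by_contra h
  have h2 := hb b h
  have h3 := T.m_pos b
  omega

theorem piece_unique_row (T : JKType) (hκ : IsEmpty T.κ) (b0 : T.β)
    (hb : ∀ b, b ≠ b0 → T.m b < T.m b0) (h1 : T.m b0 = 1) (r : Row T) :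
    r = .inr ⟨b0, ⟨0, by omega⟩⟩ := by
  rcases r with ⟨c, _⟩ | ⟨b, i⟩
  · exact (hκ.false c).elim
  · obtain rfl := piece_unique_beta T b0 hb h1 b
    congr 2
    apply Fin.ext
    have := i.2
    show (i : ℕ) = 0
    omega

theorem piece_unique_col (T : JKType) (hκ : IsEmpty T.κ) (b0 : T.β)
    (hb : ∀ b, b ≠ b0 → T.m b < T.m b0) (h1 : T.m b0 = 1) (r : Col T) :
    r = .inr ⟨b0, ⟨0, by omega⟩⟩ := by
  rcases r with ⟨c, _⟩ | ⟨b, i⟩
  · exact (hκ.false c).elim
  · obtain rfl := piece_unique_beta T b0 hb h1 b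
    congr 2
    apply Fin.ext
    have := i.2
    show (i : ℕ) = 0
    omega

theorem piece_unique (T : JKType) (hκ : IsEmpty T.κ) (e0 : T.E) (hE : ∀ e, e = e0)
    (b0 : T.β) (hb : ∀ b, b ≠ b0 → T.m b < T.m b0) : RectReal T := by
  by_cases h2 : 2 ≤ T.m b0
  · exact piece_unique_big T hκ e0 hE b0 hb h2
  have h1 : T.m b0 = 1 := by
    have := T.m_pos b0
    omega
  refine ⟨Unit, Unit, inferInstance, inferInstance,
    (LinearMap.proj () : (Unit → ℂ) →ₗ[ℂ] ℂ).smulRight (1 : Module.End ℂ (Unit → ℂ)),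
    fun _ _ => 1, ?_, ?_, ?_⟩
  · intro u u'
    simp [LinearMap.smulRight_apply, smul_smul, mul_comm]
  · intro e e' h
    exact absurd ((hE e).trans (hE e').symm) h
  · refine ⟨X (Sum.inr ()), X_ne_zero _, fun x a hxa => ?_⟩
    rw [eval_X, Sum.elim_inr] at hxa
    have ha : a ⬝ᵥ (fun _ : Unit => (1 : ℂ)) = a () := by simp [dotProduct]
    have hx : x ⬝ᵥ (fun _ : Unit => (1 : ℂ)) = x () := by simp [dotProduct]
    apply mk_rectType (p := fun _ _ => 1 / a ()) (q := fun _ _ => 1)
    · intro e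
      rw [ha]; exact hxa
    · rw [Fintype.card_unit]
      exact (Fintype.card_eq_one_iff.2 ⟨_, piece_unique_row T hκ b0 hb h1⟩).symm
    · rw [Fintype.card_unit]
      exact (Fintype.card_eq_one_iff.2 ⟨_, piece_unique_col T hκ b0 hb h1⟩).symm
    · intro r c
      rw [piece_unique_row T hκ b0 hb h1 r, piece_unique_col T hκ b0 hb h1 c]
      constructor
      · simp only [RA, if_true, ha, hx]
        simp [dotProduct, LinearMap.smulRight_apply]
        field_simp
      · simp only [RB, if_true]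
        simp [dotProduct, LinearMap.smulRight_apply, hxa]
    · haveI : IsEmpty {c : T.κ // T.k c = 0} := ⟨fun c => hκ.false c.1⟩
      exact linearIndependent_empty_type

end Pool.Agent.Helper783.JK
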