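import Pool.Agent.Helper783.JK.Defs

open Module MvPolynomial Matrix

namespace Pool.Agent.Helper783.JK



/-- the underlying space of the semidirect product -/
def SDT (υ ι : Type) : Type := (υ → ℂ) × (ι → ℂ)

instance (υ ι : Type) : AddCommGroup (SDT υ ι) :=
  inferInstanceAs (AddCommGroup ((υ → ℂ) × (ι → ℂ)))

instance (υ ι : Type) : Module ℂ (SDT υ ι) :=
  inferInstanceAs (Module ℂ ((υ → ℂ) × (ι → ℂ)))

/-- the identity -/
def sdE (υ ι : Type) : SDT υ ι ≃ₗ[ℂ] ((υ → ℂ) × (ι → ℂ)) := LinearEquiv.refl ℂ _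

/-- the bracket -/
def sdBr {υ ι : Type} (φ : (υ → ℂ) →ₗ[ℂ] Module.End ℂ (ι → ℂ)) (ξ η : SDT υ ι) : SDT υ ι :=
  (sdE υ ι).symm (0, φ (sdE υ ι ξ).1 (sdE υ ι η).2 - φ (sdE υ ι η).1 (sdE υ ι ξ).2)

theorem sdE_br {υ ι : Type} (φ : (υ → ℂ) →ₗ[ℂ] Module.End ℂ (ι → ℂ)) (ξ η : SDT υ ι) :
    sdE υ ι (sdBr φ ξ η) =
      (0, φ (sdE υ ι ξ).1 (sdE υ ι η).2 - φ (sdE υ ι η).1 (sdE υ ι ξ).2) := by
  unfold sdBr
  rw [LinearEquiv.apply_symm_apply]

/-- the Lie ring -/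
def sdLieRing {υ ι : Type} (φ : (υ → ℂ) →ₗ[ℂ] Module.End ℂ (ι → ℂ))
    (hcomm : ∀ u u', φ u * φ u' = φ u' * φ u) : LieRing (SDT υ ι) where
  bracket := sdBr φ
  add_lie x y z := by
    apply (sdE υ ι).injective
    show sdE υ ι (sdBr φ (x + y) z) = sdE υ ι (sdBr φ x z + sdBr φ y z)
    rw [map_add, sdE_br, sdE_br, sdE_br, map_add, Prod.fst_add, Prod.snd_add, map_add, map_add,
      LinearMap.add_apply]
    ext i
    · simp
    · simp; ring
  lie_add x y z := by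
    apply (sdE υ ι).injective
    show sdE υ ι (sdBr φ x (y + z)) = sdE υ ι (sdBr φ x y + sdBr φ x z)
    rw [map_add, sdE_br, sdE_br, sdE_br, map_add, Prod.fst_add, Prod.snd_add, map_add, map_add,
      LinearMap.add_apply]
    ext i
    · simp
    · simp; ring
  lie_self x := by
    apply (sdE υ ι).injective
    show sdE υ ι (sdBr φ x x) = sdE υ ι 0
    rw [sdE_br, map_zero, sub_self]
    rfl
  leibniz_lie x y z := by
    apply (sdE υ ι).injective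
    show sdE υ ι (sdBr φ x (sdBr φ y z)) =
      sdE υ ι (sdBr φ (sdBr φ x y) z + sdBr φ y (sdBr φ x z))
    have hc : ∀ u u' v, φ u (φ u' v) = φ u' (φ u v) := by
      intro u u' v
      have := congrArg (fun f : Module.End ℂ (ι → ℂ) => f v) (hcomm u u')
      exact this
    simp only [map_add, sdE_br, map_zero, map_sub, LinearMap.zero_apply, Prod.mk_add_mk, add_zero,
      zero_sub, sub_zero]
    rw [hc (sdE υ ι x).1 (sdE υ ι y).1, hc (sdE υ ι x).1 (sdE υ ι z).1,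
      hc (sdE υ ι y).1 (sdE υ ι z).1]
    congr 1
    abel

theorem sd_exists {υ ι : Type} [Fintype υ] [Fintype ι]
    (φ : (υ → ℂ) →ₗ[ℂ] Module.End ℂ (ι → ℂ))
    (hcomm : ∀ u u', φ u * φ u' = φ u' * φ u) :
    ∃ (g : Type) (_ : LieRing g) (_ : LieAlgebra ℂ g) (e : g ≃ₗ[ℂ] ((υ → ℂ) × (ι → ℂ))),
      ∀ ξ η : g, e ⁅ξ, η⁆ = (0, φ (e ξ).1 (e η).2 - φ (e η).1 (e ξ).2) := by
  letI := sdLieRing φ hcomm
  refine ⟨SDT υ ι, sdLieRing φ hcomm, { (inferInstance : Module ℂ (SDT υ ι)) with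
    lie_smul := ?_ }, sdE υ ι, ?_⟩
  · intro t x m
    apply (sdE υ ι).injective
    show sdE υ ι (sdBr φ x (t • m)) = sdE υ ι (t • sdBr φ x m)
    rw [map_smul, sdE_br, sdE_br, map_smul]
    simp [smul_sub]
  · intro ξ η
    exact sdE_br φ ξ η

end Pool.Agent.Helper783.JK
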