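import Pool.Agent.Helper783.JK.Defs
import Pool.Agent.Helper783.JK.P_sd_exists

open Module MvPolynomial Matrix

namespace Pool.Agent.Helper783.JK



lemma gen_ind {ι : Type} [Fintype ι] (u v : ι → ℂ) (h : ∃ i j, u i * v j ≠ u j * v i) :
    Gen ι (fun x a => (x ⬝ᵥ u) * (a ⬝ᵥ v) ≠ (x ⬝ᵥ v) * (a ⬝ᵥ u)) := by
  classical
  obtain ⟨i, j, hij⟩ := h
  obtain ⟨P, key⟩ : ∃ P : MvPolynomial (ι ⊕ ι) ℂ, ∀ x a : ι → ℂ, eval (Sum.elim x a) P
      = (x ⬝ᵥ u) * (a ⬝ᵥ v) - (x ⬝ᵥ v) * (a ⬝ᵥ u) := by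
    refine ⟨(∑ i, X (Sum.inl i) * C (u i)) * (∑ i, X (Sum.inr i) * C (v i))
        - (∑ i, X (Sum.inl i) * C (v i)) * (∑ i, X (Sum.inr i) * C (u i)), ?_⟩
    intro x a
    simp [dotProduct, map_sum, map_mul, map_sub]
  refine ⟨P, ?_, fun x a hx => ?_⟩
  rotate_left
  · rw [key] at hx
    exact sub_ne_zero.mp hx
  · intro h0
    have := key (Pi.single i 1) (Pi.single j 1)
    rw [h0] at this
    simp only [map_zero, single_dotProduct, one_mul] at this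
    apply hij
    linear_combination -this

lemma hasType_of_rect (T : JKType) {υ ι g : Type} [Fintype υ] [Fintype ι]
    [LieRing g] [LieAlgebra ℂ g]
    (φ : (υ → ℂ) →ₗ[ℂ] Module.End ℂ (ι → ℂ)) (ℓ : T.E → ι → ℂ)
    (e : g ≃ₗ[ℂ] ((υ → ℂ) × (ι → ℂ)))
    (he : ∀ ξ η : g, e ⁅ξ, η⁆ = (0, φ (e ξ).1 (e η).2 - φ (e η).1 (e ξ).2))
    (x a : Dual ℂ g) (x' a' : ι → ℂ)
    (hx : ∀ v, x (e.symm (0, v)) = x' ⬝ᵥ v) (ha : ∀ v, a (e.symm (0, v)) = a' ⬝ᵥ v)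
    (hR : RectType T φ ℓ x' a')
    (hI : ∀ e e', e ≠ e' → (x' ⬝ᵥ ℓ e) * (a' ⬝ᵥ ℓ e') ≠ (x' ⬝ᵥ ℓ e') * (a' ⬝ᵥ ℓ e)) :
    HasType (lieForm x) (lieForm a) T := by
  obtain ⟨hne, p, q, hpq⟩ := hR
  have fx : ∀ ξ η, lieForm x ξ η = x' ⬝ᵥ (φ (e ξ).1 (e η).2 - φ (e η).1 (e ξ).2) := by
    intro ξ η
    rw [← hx, ← he, e.symm_apply_apply]; rfl
  have fa : ∀ ξ η, lieForm a ξ η = a' ⬝ᵥ (φ (e ξ).1 (e η).2 - φ (e η).1 (e ξ).2) := by
    intro ξ η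
    rw [← ha, ← he, e.symm_apply_apply]; rfl
  refine ⟨fun e => some ((x' ⬝ᵥ ℓ e) / (a' ⬝ᵥ ℓ e)), ?_, (p.prod q).map e.symm, ?_⟩
  · intro e₁ e₂ h12
    by_contra hc
    apply hI e₁ e₂ hc
    have h3 : (x' ⬝ᵥ ℓ e₁) / (a' ⬝ᵥ ℓ e₁) = (x' ⬝ᵥ ℓ e₂) / (a' ⬝ᵥ ℓ e₂) := Option.some.inj h12
    rwa [div_eq_div_iff (hne e₁) (hne e₂)] at h3
  · have b1 : ∀ r, e (((p.prod q).map e.symm) (Sum.inl r)) = (p r, 0) := by
      intro r
      simp [Basis.prod_apply]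
    have b2 : ∀ c, e (((p.prod q).map e.symm) (Sum.inr c)) = (0, q c) := by
      intro c
      simp [Basis.prod_apply]
    rintro (r | c) (r' | c')
    · rw [fx, fa, b1, b1]
      simp [canForm]
    · rw [fx, fa, b1, b2]
      simp only [canForm, map_zero, LinearMap.zero_apply, sub_zero]
      exact hpq r c'
    · rw [fx, fa, b1, b2]
      simp only [canForm, map_zero, LinearMap.zero_apply, zero_sub, dotProduct_neg]
      exact ⟨congrArg _ (hpq r' c).1, congrArg _ (hpq r' c).2⟩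
    · rw [fx, fa, b2, b2]
      simp [canForm]

theorem real_of_rect (T : JKType) (h : RectReal T) : Realizable T := by
  classical
  obtain ⟨υ, ι, fυ, fι, φ, ℓ, hcomm, hind, hG⟩ := h
  obtain ⟨g, ig, ilg, e, he⟩ := sd_exists φ hcomm
  refine ⟨g, ig, ilg, ?_⟩
  have hP : Gen ι (fun x a => RectType T φ ℓ x a ∧ ∀ k : T.E × T.E, k.1 ≠ k.2 →
      (x ⬝ᵥ ℓ k.1) * (a ⬝ᵥ ℓ k.2) ≠ (x ⬝ᵥ ℓ k.2) * (a ⬝ᵥ ℓ k.1)) := by
    apply Gen.and hG
    apply Gen.all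
    rintro ⟨e₁, e₂⟩
    by_cases h12 : e₁ = e₂
    · exact Gen.true.mono (fun x a _ h => absurd h12 h)
    · exact (gen_ind _ _ (hind e₁ e₂ h12)).mono (fun x a h _ => h)
  obtain ⟨G, hG0, hGP⟩ := hP
  let bb : Basis (Fin (Fintype.card (υ ⊕ ι))) ℂ g :=
    (((Pi.basisFun ℂ υ).prod (Pi.basisFun ℂ ι)).map e.symm).reindex (Fintype.equivFin (υ ⊕ ι))
  let s : ι → Fin (Fintype.card (υ ⊕ ι)) := fun i => Fintype.equivFin (υ ⊕ ι) (Sum.inr i)
  have hs : Function.Injective s := fun i j hij =>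
    Sum.inr_injective ((Fintype.equivFin (υ ⊕ ι)).injective hij)
  have hbs : ∀ i, bb (s i) = e.symm (0, Pi.single i 1) := by
    intro i
    simp [bb, s, Basis.prod_apply]
  refine ⟨_, bb, rename (Sum.map s s) G, ?_, ?_⟩
  · intro h0
    apply hG0
    exact rename_injective _ (Sum.map_injective.mpr ⟨hs, hs⟩) (by rw [h0, map_zero])
  · intro x a hxa
    rw [eval_rename] at hxa
    have h1 : (Sum.elim (fun i => x (bb i)) (fun i => a (bb i))) ∘ Sum.map s s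
        = Sum.elim (fun i => x (e.symm (0, Pi.single i 1)))
          (fun i => a (e.symm (0, Pi.single i 1))) := by
      funext k
      rcases k with k | k
      · simp [hbs]
      · simp [hbs]
    rw [h1] at hxa
    obtain ⟨h2, h3⟩ := hGP _ _ hxa
    have hdual : ∀ (y : Dual ℂ g) (v : ι → ℂ), y (e.symm (0, v))
        = (fun i => y (e.symm (0, Pi.single i 1))) ⬝ᵥ v := by
      intro y v
      have hv : v = ∑ i, v i • (Pi.single i 1 : ι → ℂ) := by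
        funext j
        simp [Finset.sum_apply, Pi.single_apply]
      let L : (ι → ℂ) →ₗ[ℂ] ℂ := (y ∘ₗ e.symm.toLinearMap) ∘ₗ LinearMap.inr ℂ (υ → ℂ) (ι → ℂ)
      have hL : ∀ w, y (e.symm (0, w)) = L w := fun w => rfl
      simp only [hL]
      conv_lhs => rw [hv]
      rw [map_sum]
      simp only [map_smul, smul_eq_mul, dotProduct]
      exact Finset.sum_congr rfl fun i _ => mul_comm _ _
    exact hasType_of_rect T φ ℓ e he x a _ _ (hdual x) (hdual a) h2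
      (fun e₁ e₂ h12 => h3 (e₁, e₂) h12)

end Pool.Agent.Helper783.JK
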