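import Pool.Agent.Helper783.JK.Defs
import Pool.Agent.Helper783.JK.P_mk_rectType

open Module MvPolynomial Matrix

namespace Pool.Agent.Helper783.JK



/-- uncurrying -/
def rd_U {I : Type} (α : I → Type) : (∀ i, α i → ℂ) ≃ₗ[ℂ] ((Σ i, α i) → ℂ) where
  toFun v s := v s.1 s.2
  invFun w i j := w ⟨i, j⟩
  left_inv _ := rfl
  right_inv _ := rfl
  map_add' _ _ := rfl
  map_smul' _ _ := rfl

/-- restriction to a block -/
def rd_res {I : Type} (α : I → Type) (i : I) : ((Σ i, α i) → ℂ) →ₗ[ℂ] (α i → ℂ) :=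
  LinearMap.funLeft ℂ ℂ (Sigma.mk i)

theorem rd_dot {I : Type} [Fintype I] (α : I → Type) [∀ i, Fintype (α i)]
    (x y : (Σ i, α i) → ℂ) : x ⬝ᵥ y = ∑ i, (rd_res α i x) ⬝ᵥ (rd_res α i y) := by
  simp only [dotProduct, Fintype.sum_sigma]; rfl

/-- the block diagonal action -/
def rd_Phi {I : Type} (υ ι : I → Type) (φ : ∀ i, (υ i → ℂ) →ₗ[ℂ] Module.End ℂ (ι i → ℂ)) :
    ((Σ i, υ i) → ℂ) →ₗ[ℂ] Module.End ℂ ((Σ i, ι i) → ℂ) :=
  LinearMap.mk₂ ℂ (fun u v s => φ s.1 (rd_res υ s.1 u) (rd_res ι s.1 v) s.2)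
    (fun u u' v => by funext s; simp only [map_add, LinearMap.add_apply, Pi.add_apply])
    (fun c u v => by funext s; simp only [map_smul, LinearMap.smul_apply, Pi.smul_apply])
    (fun u v v' => by funext s; simp only [map_add, Pi.add_apply])
    (fun c u v => by funext s; simp only [map_smul, Pi.smul_apply])

theorem rd_res_Phi {I : Type} (υ ι : I → Type)
    (φ : ∀ i, (υ i → ℂ) →ₗ[ℂ] Module.End ℂ (ι i → ℂ)) (u : (Σ i, υ i) → ℂ)
    (v : (Σ i, ι i) → ℂ) (i : I) :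
    rd_res ι i (rd_Phi υ ι φ u v) = φ i (rd_res υ i u) (rd_res ι i v) := rfl

/-- splitting of the rows -/
def rd_eR (T : JKType) {I : Type} (f : T.κ → I) (g : T.E → I) :
    Row T ≃ Σ i, Row (restr T f g i) where
  toFun := Sum.elim
    (fun s => ⟨f s.1, .inl ⟨(⟨s.1, rfl⟩ : {c : T.κ // f c = f s.1}), s.2⟩⟩)
    (fun s => ⟨g (T.ev s.1), .inr ⟨(⟨s.1, rfl⟩ : {b : T.β // g (T.ev b) = g (T.ev s.1)}), s.2⟩⟩)
  invFun s := Sum.elim (fun t => .inl ⟨t.1.1, t.2⟩) (fun t => .inr ⟨t.1.1, t.2⟩) s.2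
  left_inv := by rintro (s | s) <;> rfl
  right_inv := by
    rintro ⟨i, ⟨⟨c, rfl⟩, r⟩ | ⟨⟨b, rfl⟩, r⟩⟩ <;> rfl

/-- splitting of the columns -/
def rd_eC (T : JKType) {I : Type} (f : T.κ → I) (g : T.E → I) :
    Col T ≃ Σ i, Col (restr T f g i) where
  toFun := Sum.elim
    (fun s => ⟨f s.1, .inl ⟨(⟨s.1, rfl⟩ : {c : T.κ // f c = f s.1}), s.2⟩⟩)
    (fun s => ⟨g (T.ev s.1), .inr ⟨(⟨s.1, rfl⟩ : {b : T.β // g (T.ev b) = g (T.ev s.1)}), s.2⟩⟩)
  invFun s := Sum.elim (fun t => .inl ⟨t.1.1, t.2⟩) (fun t => .inr ⟨t.1.1, t.2⟩) s.2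
  left_inv := by rintro (s | s) <;> rfl
  right_inv := by
    rintro ⟨i, ⟨⟨c, rfl⟩, r⟩ | ⟨⟨b, rfl⟩, r⟩⟩ <;> rfl

theorem rd_ite {α : Type} {b c : Prop} {ib : Decidable b} {ic : Decidable c} {x y u v : α}
    (h_c : b ↔ c) (h_t : x = u) (h_e : y = v) : @ite α b ib x y = @ite α c ic u v :=
  if_congr h_c h_t h_e

theorem rd_RA (T : JKType) {I : Type} (f : T.κ → I) (g : T.E → I) (t : T.E → Option ℂ) (i : I)
    (ti : (restr T f g i).E → Option ℂ) (ht : ∀ e, ti e = t e.1)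
    (r : Row (restr T f g i)) (c : Col (restr T f g i)) :
    RA T t ((rd_eR T f g).symm ⟨i, r⟩) ((rd_eC T f g).symm ⟨i, c⟩) =
      RA (restr T f g i) ti r c := by
  rcases r with ⟨⟨r, hr⟩, s⟩ | ⟨⟨r, hr⟩, s⟩ <;> rcases c with ⟨⟨c, hc⟩, s'⟩ | ⟨⟨c, hc⟩, s'⟩
  · have h0 : (r = c ∧ (s' : ℕ) = (s : ℕ) + 1) ↔
        ((⟨r, hr⟩ : {c : T.κ // f c = i}) = ⟨c, hc⟩ ∧ (s' : ℕ) = (s : ℕ) + 1) := by
      rw [Subtype.mk.injEq]
    exact rd_ite h0 rfl rfl
  · rfl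
  · rfl
  · have h1 : ti (⟨T.ev r, hr⟩ : {e : T.E // g e = i}) = t (T.ev r) := ht _
    have h0 : (r = c) ↔ ((⟨r, hr⟩ : {b : T.β // g (T.ev b) = i}) = ⟨c, hc⟩) := by
      rw [Subtype.mk.injEq]
    refine rd_ite h0 ?_ rfl
    exact congrArg (fun o : Option ℂ => (match o with
          | some z => if (s : ℕ) = (s' : ℕ) then z else if (s : ℕ) = (s' : ℕ) + 1 then 1 else 0
          | none => if (s : ℕ) = (s' : ℕ) then 1 else 0 : ℂ)) h1.symm

theorem rd_RB (T : JKType) {I : Type} (f : T.κ → I) (g : T.E → I) (t : T.E → Option ℂ) (i : I)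
    (ti : (restr T f g i).E → Option ℂ) (ht : ∀ e, ti e = t e.1)
    (r : Row (restr T f g i)) (c : Col (restr T f g i)) :
    RB T t ((rd_eR T f g).symm ⟨i, r⟩) ((rd_eC T f g).symm ⟨i, c⟩) =
      RB (restr T f g i) ti r c := by
  rcases r with ⟨⟨r, hr⟩, s⟩ | ⟨⟨r, hr⟩, s⟩ <;> rcases c with ⟨⟨c, hc⟩, s'⟩ | ⟨⟨c, hc⟩, s'⟩
  · have h0 : (r = c ∧ (s' : ℕ) = (s : ℕ)) ↔
        ((⟨r, hr⟩ : {c : T.κ // f c = i}) = ⟨c, hc⟩ ∧ (s' : ℕ) = (s : ℕ)) := by
      rw [Subtype.mk.injEq]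
    exact rd_ite h0 rfl rfl
  · rfl
  · rfl
  · have h1 : ti (⟨T.ev r, hr⟩ : {e : T.E // g e = i}) = t (T.ev r) := ht _
    have h0 : (r = c) ↔ ((⟨r, hr⟩ : {b : T.β // g (T.ev b) = i}) = ⟨c, hc⟩) := by
      rw [Subtype.mk.injEq]
    refine rd_ite h0 ?_ rfl
    exact congrArg (fun o : Option ℂ => (match o with
          | some _ => if (s : ℕ) = (s' : ℕ) then 1 else 0
          | none => if (s : ℕ) = (s' : ℕ) + 1 then 1 else 0 : ℂ)) h1.symm

theorem rd_R0 (T : JKType) {I : Type} (f : T.κ → I) (g : T.E → I) (t : T.E → Option ℂ) (i i' : I)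
    (hi : i ≠ i') (r : Row (restr T f g i)) (c : Col (restr T f g i')) :
    RA T t ((rd_eR T f g).symm ⟨i, r⟩) ((rd_eC T f g).symm ⟨i', c⟩) = 0 ∧
    RB T t ((rd_eR T f g).symm ⟨i, r⟩) ((rd_eC T f g).symm ⟨i', c⟩) = 0 := by
  rcases r with ⟨⟨r, hr⟩, s⟩ | ⟨⟨r, hr⟩, s⟩ <;> rcases c with ⟨⟨c, hc⟩, s'⟩ | ⟨⟨c, hc⟩, s'⟩
  · have hne : r ≠ c := by rintro rfl; exact hi (hr.symm.trans hc)
    exact ⟨if_neg fun h => hne h.1, if_neg fun h => hne h.1⟩
  · exact ⟨rfl, rfl⟩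
  · exact ⟨rfl, rfl⟩
  · have hne : r ≠ c := by rintro rfl; exact hi (hr.symm.trans hc)
    exact ⟨if_neg hne, if_neg hne⟩

theorem rd_gen {I : Type} (ι : I → Type) (i : I) {P : (ι i → ℂ) → (ι i → ℂ) → Prop}
    (h : Gen (ι i) P) : Gen (Σ i, ι i) (fun x a => P (rd_res ι i x) (rd_res ι i a)) := by
  obtain ⟨G, hG, h⟩ := h
  have hinj : Function.Injective (Sum.map (Sigma.mk i) (Sigma.mk i) :
      ι i ⊕ ι i → (Σ i, ι i) ⊕ (Σ i, ι i)) :=
    Sum.map_injective.2 ⟨sigma_mk_injective, sigma_mk_injective⟩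
  refine ⟨rename (Sum.map (Sigma.mk i) (Sigma.mk i)) G, ?_, ?_⟩
  · intro h0
    exact hG (rename_injective _ hinj (by rw [h0, map_zero]))
  · intro x a hx
    apply h
    rw [eval_rename] at hx
    have e : (Sum.elim x a ∘ Sum.map (Sigma.mk i) (Sigma.mk i) : ι i ⊕ ι i → ℂ) =
        Sum.elim (rd_res ι i x) (rd_res ι i a) := by
      funext s
      rcases s with s | s <;> rfl
    rwa [e] at hx

theorem rd_exists {ι : Type} {P : (ι → ℂ) → (ι → ℂ) → Prop} (h : Gen ι P) : ∃ x a, P x a := by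
  obtain ⟨G, hG, h⟩ := h
  by_contra hne
  push Not at hne
  apply hG
  apply MvPolynomial.funext
  intro z
  rw [map_zero]
  by_contra hz
  refine hne (z ∘ Sum.inl) (z ∘ Sum.inr) (h _ _ ?_)
  rwa [Sum.elim_comp_inl_inr]

theorem rect_dec (T : JKType) {I : Type} [Fintype I] (f : T.κ → I) (g : T.E → I)
    (h : ∀ i, RectReal (restr T f g i)) : RectReal T := by
  classical
  choose υ ι fυ fι φ ℓ hcomm hind hgen using h
  let L : T.E → (Σ i, ι i) → ℂ := fun e s =>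
    (Pi.single (g e) (ℓ (g e) (⟨e, rfl⟩ : {e' : T.E // g e' = g e})) : ∀ i, ι i → ℂ) s.1 s.2
  have hL : ∀ (e : T.E) (i : I) (he : g e = i),
      rd_res ι i (L e) = ℓ i (⟨e, he⟩ : {e' : T.E // g e' = i}) := by
    intro e i he
    subst he
    change (Pi.single (g e) (ℓ (g e) (⟨e, rfl⟩ : {e' : T.E // g e' = g e})) : ∀ i, ι i → ℂ)
      (g e) = _
    rw [Pi.single_eq_same]
  have hL0 : ∀ (e : T.E) (i : I), g e ≠ i → rd_res ι i (L e) = 0 := by
    intro e i he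
    change (Pi.single (g e) (ℓ (g e) (⟨e, rfl⟩ : {e' : T.E // g e' = g e})) : ∀ i, ι i → ℂ)
      i = _
    rw [Pi.single_eq_of_ne (Ne.symm he)]
  have hdotL : ∀ (x : (Σ i, ι i) → ℂ) (e : T.E) (i : I) (he : g e = i),
      x ⬝ᵥ L e = rd_res ι i x ⬝ᵥ ℓ i (⟨e, he⟩ : {e' : T.E // g e' = i}) := by
    intro x e i he
    rw [rd_dot, Finset.sum_eq_single i]
    · rw [hL e i he]
    · intro i' _ hi'
      rw [hL0 e i' (by rw [he]; exact Ne.symm hi'), dotProduct_zero]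
    · intro h; exact absurd (Finset.mem_univ _) h
  have hℓne : ∀ (i : I) (e : (restr T f g i).E), ∃ j, ℓ i e j ≠ 0 := by
    intro i e
    obtain ⟨x, a, hxa⟩ := rd_exists (hgen i)
    by_contra hne
    push Not at hne
    apply hxa.1 e
    have : ℓ i e = 0 := funext hne
    rw [this, dotProduct_zero]
  refine ⟨Σ i, υ i, Σ i, ι i, inferInstance, inferInstance, rd_Phi υ ι φ, L, ?_, ?_, ?_⟩
  · intro u u'
    apply LinearMap.ext
    intro v
    funext s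
    exact congrFun (LinearMap.congr_fun (hcomm s.1 (rd_res υ s.1 u) (rd_res υ s.1 u'))
      (rd_res ι s.1 v)) s.2
  · intro e e' hee
    by_cases hg : g e' = g e
    · obtain ⟨a, b, hab⟩ := hind (g e) (⟨e, rfl⟩ : {e' : T.E // g e' = g e})
        (⟨e', hg⟩ : {e' : T.E // g e' = g e}) (by
          intro h0
          exact hee (congrArg Subtype.val h0))
      refine ⟨⟨g e, a⟩, ⟨g e, b⟩, ?_⟩
      have h1 : ∀ s, L e ⟨g e, s⟩ = ℓ (g e) (⟨e, rfl⟩ : {e' : T.E // g e' = g e}) s :=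
        fun s => congrFun (hL e (g e) rfl) s
      have h2 : ∀ s, L e' ⟨g e, s⟩ = ℓ (g e) (⟨e', hg⟩ : {e' : T.E // g e' = g e}) s :=
        fun s => congrFun (hL e' (g e) hg) s
      rw [h1, h1, h2, h2]
      exact hab
    · obtain ⟨a, ha⟩ := hℓne (g e) (⟨e, rfl⟩ : {e' : T.E // g e' = g e})
      obtain ⟨b, hb⟩ := hℓne (g e') (⟨e', rfl⟩ : {e'' : T.E // g e'' = g e'})
      refine ⟨⟨g e, a⟩, ⟨g e', b⟩, ?_⟩
      have h1 : L e ⟨g e, a⟩ = ℓ (g e) (⟨e, rfl⟩ : {e' : T.E // g e' = g e}) a :=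
        congrFun (hL e (g e) rfl) a
      have h2 : L e' ⟨g e', b⟩ = ℓ (g e') (⟨e', rfl⟩ : {e'' : T.E // g e'' = g e'}) b :=
        congrFun (hL e' (g e') rfl) b
      have h3 : L e ⟨g e', b⟩ = 0 := congrFun (hL0 e (g e') (Ne.symm hg)) b
      rw [h1, h2, h3, zero_mul]
      exact mul_ne_zero ha hb
  · refine (Gen.all fun i => rd_gen ι i (hgen i)).mono ?_
    intro x a hxa
    have hne : ∀ e, a ⬝ᵥ L e ≠ 0 := by
      intro e
      rw [hdotL a e (g e) rfl]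
      exact (hxa (g e)).1 _
    have hxa2 := fun i => (hxa i).2
    choose pp qq hpq using hxa2
    let p : Basis (Row T) ℂ ((Σ i, υ i) → ℂ) :=
      ((Pi.basis pp).map (rd_U υ)).reindex (rd_eR T f g).symm
    let q : Basis (Col T) ℂ ((Σ i, ι i) → ℂ) :=
      ((Pi.basis qq).map (rd_U ι)).reindex (rd_eC T f g).symm
    have hp : ∀ i r i', rd_res υ i' (p ((rd_eR T f g).symm ⟨i, r⟩)) =
        (Pi.single i (pp i r) : ∀ i, υ i → ℂ) i' := by
      intro i r i'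
      have h1 : p ((rd_eR T f g).symm ⟨i, r⟩) = rd_U υ (Pi.basis pp ⟨i, r⟩) := by
        simp only [p, Basis.reindex_apply, Equiv.symm_symm, Equiv.apply_symm_apply,
          Basis.map_apply]
      rw [h1, Pi.basis_apply]
      rfl
    have hq : ∀ i c i', rd_res ι i' (q ((rd_eC T f g).symm ⟨i, c⟩)) =
        (Pi.single i (qq i c) : ∀ i, ι i → ℂ) i' := by
      intro i c i'
      have h1 : q ((rd_eC T f g).symm ⟨i, c⟩) = rd_U ι (Pi.basis qq ⟨i, c⟩) := by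
        simp only [q, Basis.reindex_apply, Equiv.symm_symm, Equiv.apply_symm_apply,
          Basis.map_apply]
      rw [h1, Pi.basis_apply]
      rfl
    have hsame : ∀ (y : (Σ i, ι i) → ℂ) i r c,
        y ⬝ᵥ rd_Phi υ ι φ (p ((rd_eR T f g).symm ⟨i, r⟩)) (q ((rd_eC T f g).symm ⟨i, c⟩)) =
          rd_res ι i y ⬝ᵥ φ i (pp i r) (qq i c) := by
      intro y i r c
      rw [rd_dot, Finset.sum_eq_single i]
      · rw [rd_res_Phi, hp, hq, Pi.single_eq_same, Pi.single_eq_same]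
      · intro i' _ hi'
        rw [rd_res_Phi, hp, Pi.single_eq_of_ne hi', map_zero, LinearMap.zero_apply,
          dotProduct_zero]
      · intro h; exact absurd (Finset.mem_univ _) h
    have hdiff : ∀ (y : (Σ i, ι i) → ℂ) i i' (_ : i ≠ i') r c,
        y ⬝ᵥ rd_Phi υ ι φ (p ((rd_eR T f g).symm ⟨i, r⟩)) (q ((rd_eC T f g).symm ⟨i', c⟩)) = 0 := by
      intro y i i' hii r c
      rw [rd_dot]
      apply Finset.sum_eq_zero
      intro j _
      rw [rd_res_Phi, hp, hq]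
      by_cases hj : j = i
      · subst hj
        rw [Pi.single_eq_of_ne hii, map_zero, dotProduct_zero]
      · rw [Pi.single_eq_of_ne hj, map_zero, LinearMap.zero_apply, dotProduct_zero]
    refine ⟨hne, p, q, ?_⟩
    intro r c
    obtain ⟨⟨i, r⟩, rfl⟩ := (rd_eR T f g).symm.surjective r
    obtain ⟨⟨i', c⟩, rfl⟩ := (rd_eC T f g).symm.surjective c
    by_cases hii : i = i'
    · subst hii
      have ht : ∀ e : (restr T f g i).E,
          (some ((rd_res ι i x ⬝ᵥ ℓ i e) / (rd_res ι i a ⬝ᵥ ℓ i e)) : Option ℂ) =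
            (fun e => some ((x ⬝ᵥ L e) / (a ⬝ᵥ L e))) e.1 := by
        rintro ⟨e, he⟩
        change _ = some ((x ⬝ᵥ L e) / (a ⬝ᵥ L e))
        rw [hdotL x e i he, hdotL a e i he]
      rw [hsame, hsame, rd_RA T f g _ i _ ht, rd_RB T f g _ i _ ht]
      exact hpq i r c
    · rw [hdiff _ _ _ hii, hdiff _ _ _ hii]
      have := rd_R0 T f g (fun e => some ((x ⬝ᵥ L e) / (a ⬝ᵥ L e))) i i' hii r c
      exact ⟨this.1.symm, this.2.symm⟩

end Pool.Agent.Helper783.JK
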