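import Pool.Agent.Helper783.JK.Defs
import Pool.Agent.Helper783.JK.P_real_of_rect
import Pool.Agent.Helper783.JK.P_rect_dec
import Pool.Agent.Helper783.JK.P_piece_triv
import Pool.Agent.Helper783.JK.P_piece_three
import Pool.Agent.Helper783.JK.P_piece_unique
import Pool.Agent.Helper783.JK.P_piece_multi

open Module MvPolynomial Matrix

namespace Pool.Agent.Helper783.JK



theorem thmA2_case1 (T : JKType) (c0 : T.κ) (hc0 : T.k c0 = 1) : RectReal T := by
  classical
  let f : T.κ → Option {c : T.κ // c ≠ c0} := fun c => if h : c = c0 then none else some ⟨c, h⟩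
  let g : T.E → Option {c : T.κ // c ≠ c0} := fun _ => none
  refine rect_dec T f g ?_
  have hf : ∀ c, f c = none → c = c0 := by
    intro c hc
    by_contra hne
    simp [f, hne] at hc
  have hfs : ∀ c (d : {c : T.κ // c ≠ c0}), f c = some d → c = d.1 := by
    intro c d hc
    by_cases hne : c = c0
    · simp [f, hne] at hc
    · simp only [f, hne, dif_neg, not_false_eq_true, Option.some.injEq] at hc
      rw [← hc]
  intro i
  rcases i with _ | d
  · refine piece_three (restr T f g none) ⟨c0, by simp [f]⟩ ?_ hc0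
    rintro ⟨c, hc⟩
    exact Subtype.ext (hf c hc)
  · refine piece_multi (restr T f g (some d)) ⟨d.1, by simp [f, d.2]⟩ ?_ (fun e => ?_) ?_
    · rintro ⟨c, hc⟩
      exact Subtype.ext (hfs c d hc)
    · exact absurd e.2 (by simp [g])
    · intro e
      exact absurd e.2 (by simp [g])

theorem thmA2_case2 (T : JKType) (c1 c2 : T.κ) (hne : c1 ≠ c2) (h1 : T.k c1 = 0) (h2 : T.k c2 = 0) :
    RectReal T := by
  classical
  let f : T.κ → Option {c : T.κ // c ≠ c1 ∧ c ≠ c2} :=
    fun c => if h : c ≠ c1 ∧ c ≠ c2 then some ⟨c, h⟩ else none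
  let g : T.E → Option {c : T.κ // c ≠ c1 ∧ c ≠ c2} := fun _ => none
  refine rect_dec T f g ?_
  have hf : ∀ c, f c = none → c = c1 ∨ c = c2 := by
    intro c hc
    by_contra hcon
    rw [not_or] at hcon
    simp [f, hcon] at hc
  have hfs : ∀ c (d : {c : T.κ // c ≠ c1 ∧ c ≠ c2}), f c = some d → c = d.1 := by
    intro c d hc
    by_cases hcon : c ≠ c1 ∧ c ≠ c2
    · simp only [f, dif_pos hcon, Option.some.injEq] at hc
      rw [← hc]
    · simp [f, dif_neg hcon] at hc
  obtain ⟨t, ht⟩ : ∃ t : T.E → ℂ, Function.Injective t := by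
    have : Nonempty (T.E ↪ ℂ) := ⟨Function.Embedding.trans
      ((Fintype.equivFin T.E).toEmbedding.trans Fin.valEmbedding) ⟨fun n : ℕ => (n : ℂ), Nat.cast_injective⟩⟩
    exact ⟨this.some, this.some.injective⟩
  intro i
  rcases i with _ | d
  · have hc1 : f c1 = none := by simp [f]
    have hc2 : f c2 = none := by simp [f]
    refine piece_triv (restr T f g none) ?_ (fun e c => if c.1 = c1 then 1 else t e.1) ?_ ?_
    · rintro ⟨c, hc⟩
      rcases hf c hc with rfl | rfl
      · exact h1
      · exact h2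
    · intro e h0
      have := congrFun h0 ⟨c1, hc1⟩
      simp only [if_true] at this
      exact one_ne_zero this
    · intro e e' hee
      refine ⟨⟨c1, hc1⟩, ⟨c2, hc2⟩, ?_⟩
      have hne' : ¬ c2 = c1 := fun h => hne h.symm
      simp only [if_true, hne', if_false, one_mul, mul_one]
      intro h
      exact hee (Subtype.ext (ht h.symm))
  · refine piece_multi (restr T f g (some d)) ⟨d.1, by simp [f, d.2]⟩ ?_ (fun e => ?_) ?_
    · rintro ⟨c, hc⟩
      exact Subtype.ext (hfs c d hc)
    · exact absurd e.2 (by simp [g])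
    · intro e
      exact absurd e.2 (by simp [g])

theorem thmA2_case3 (T : JKType) (h : Nat.card {e // Bad T e} ≤ ∑ c, (T.k c + 1)) : RectReal T := by
  classical
  obtain ⟨s, hs⟩ : ∃ s : {e // Bad T e} → (Σ c : T.κ, Fin (T.k c + 1)), Function.Injective s := by
    have : Fintype {e // Bad T e} := Fintype.ofFinite _
    have hcard : Fintype.card {e // Bad T e} ≤ Fintype.card (Σ c : T.κ, Fin (T.k c + 1)) := by
      rw [Nat.card_eq_fintype_card] at h
      simpa using h
    obtain ⟨s⟩ := Function.Embedding.nonempty_of_card_le hcard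
    exact ⟨s, s.injective⟩
  let f : T.κ → T.κ ⊕ {e : T.E // ¬ Bad T e} := fun c => Sum.inl c
  let g : T.E → T.κ ⊕ {e : T.E // ¬ Bad T e} :=
    fun e => if hb : Bad T e then Sum.inl (s ⟨e, hb⟩).1 else Sum.inr ⟨e, hb⟩
  refine rect_dec T f g ?_
  have hgl : ∀ e c, g e = Sum.inl c → ∃ hb : Bad T e, (s ⟨e, hb⟩).1 = c := by
    intro e c he
    by_cases hb : Bad T e
    · refine ⟨hb, ?_⟩
      simpa only [g, dif_pos hb, Sum.inl.injEq] using he
    · simp [g, dif_neg hb] at he
  have hgr : ∀ e (d : {e : T.E // ¬ Bad T e}), g e = Sum.inr d → e = d.1 := by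
    intro e d he
    by_cases hb : Bad T e
    · simp [g, dif_pos hb] at he
    · simp only [g, dif_neg hb, Sum.inr.injEq] at he
      rw [← he]
  intro i
  rcases i with c | d
  · -- one Kronecker block
    choose hb hbc using hgl
    refine piece_multi (restr T f g (Sum.inl c)) ⟨c, rfl⟩ ?_
      (fun e => (hbc e.1 c e.2) ▸ (s ⟨e.1, hb e.1 c e.2⟩).2) ?_
    · rintro ⟨c', hc'⟩
      exact Subtype.ext (Sum.inl.inj hc')
    · rintro ⟨e, he⟩ ⟨e', he'⟩ heq
      have key : ∀ (p q : Σ c : T.κ, Fin (T.k c + 1)) (hp : p.1 = c) (hq : q.1 = c),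
          (hp ▸ p.2 : Fin (T.k c + 1)) = hq ▸ q.2 → p = q := by
        rintro ⟨p1, p2⟩ ⟨q1, q2⟩ hp hq hh
        simp only at hp hq
        subst hp
        subst hq
        simp only at hh
        rw [hh]
      have h1 := key _ _ (hbc e c he) (hbc e' c he') heq
      have h2 := congrArg Subtype.val (hs h1)
      exact Subtype.ext h2
  · -- a good eigenvalue
    have hgd : g d.1 = Sum.inr d := by
      simp [g, d.2]
    obtain ⟨b1, hb1⟩ := T.ev_surj d.1
    have hne : (Finset.univ.filter (fun b => T.ev b = d.1)).Nonempty :=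
      ⟨b1, by simp [hb1]⟩
    obtain ⟨b0, hb0, hmax⟩ := Finset.exists_max_image _ T.m hne
    rw [Finset.mem_filter] at hb0
    refine piece_unique (restr T f g (Sum.inr d)) ?_ ⟨d.1, hgd⟩ ?_ ⟨b0, by rw [hb0.2, hgd]⟩ ?_
    · refine ⟨?_⟩
      rintro ⟨c, hc⟩
      simp [f] at hc
    · rintro ⟨e, he⟩
      exact Subtype.ext (hgr e d he)
    · rintro ⟨b, hbg⟩ hbne
      have hbe : T.ev b = d.1 := hgr _ _ hbg
      have hle : T.m b ≤ T.m b0 := hmax b (by simp [hbe])
      have hbne' : b ≠ b0 := fun h => hbne (Subtype.ext h)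
      change T.m b < T.m b0
      refine lt_of_le_of_ne hle ?_
      intro heq
      apply d.2
      refine ⟨b, b0, hbne', hbe, hb0.2, heq, ?_⟩
      intro b'' hb''
      rw [heq]
      exact hmax b'' (by simp [hb''])

theorem thmA2 (T : JKType)
    (h : (∃ c, T.k c = 1) ∨ (∃ c c', c ≠ c' ∧ T.k c = 0 ∧ T.k c' = 0) ∨
      Nat.card {e // Bad T e} ≤ ∑ c, (T.k c + 1)) : Realizable T := by
  apply real_of_rect
  rcases h with ⟨c, hc⟩ | ⟨c, c', hne, hc, hc'⟩ | h
  · exact thmA2_case1 T c hc
  · exact thmA2_case2 T c c' hne hc hc'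
  · exact thmA2_case3 T h

end Pool.Agent.Helper783.JK
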